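import Pool.Agent.Y557.U.Main
import Pool.Agent.Y557.NF.CurveMain

/-!
The product of the coordinates on all rational curves of small height over a number field
(helper557).
-/

set_option autoImplicit false

namespace Pool.Agent.Y557.U

open NumberField IsDedekindDomain Finset Polynomial
open Pool.Agent.H691R3 Pool.Agent.TH876.Loc
open Pool.Agent.TH876.TM (supp)
open Pool.Agent.Y557.NF (res zs card_zs)
open Pool.Agent.Y728.AK (fv_lt_iff)

variable {K : Type} [Field K] [NumberField K] {n : ℕ}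

/-- the product of the coordinates -/
noncomputable def XK (K : Type) [Field K] (n : ℕ) : MvPolynomial (Fin n) K :=
  ∏ i, MvPolynomial.X i

omit [NumberField K] in
theorem XK_eval (x : Fin n → K) : MvPolynomial.eval x (XK K n) = ∏ i, x i := by
  unfold XK
  rw [map_prod]
  simp only [MvPolynomial.eval_X]

omit [NumberField K] in
theorem XK_hom : (XK K n).IsHomogeneous n := by
  have h := MvPolynomial.IsHomogeneous.prod (Finset.univ : Finset (Fin n))
    (fun i => (MvPolynomial.X i : MvPolynomial (Fin n) K)) (fun _ => 1)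
    (fun i _ => MvPolynomial.isHomogeneous_X K i)
  rw [Finset.sum_const, Finset.card_univ, Fintype.card_fin, smul_eq_mul, mul_one] at h
  exact h

omit [NumberField K] in
theorem XK_mon : XK K n = MvPolynomial.monomial (∑ i : Fin n, Finsupp.single i 1) 1 := by
  unfold XK
  rw [MvPolynomial.monomial_sum_one]
  rfl

omit [NumberField K] in
theorem XK_supp (s : Fin n →₀ ℕ) (hs : s ∈ (XK K n).support) :
    s = ∑ i : Fin n, Finsupp.single i 1 := by
  rw [XK_mon, MvPolynomial.mem_support_iff, MvPolynomial.coeff_monomial] at hs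
  by_contra h
  rw [if_neg (fun h' => h h'.symm)] at hs
  exact hs rfl

omit [NumberField K] in
theorem XK_coeff (s : Fin n →₀ ℕ) (hs : s ∈ (XK K n).support) : (XK K n).coeff s = 1 := by
  rw [XK_supp s hs, XK_mon, MvPolynomial.coeff_monomial, if_pos rfl]

omit [NumberField K] in
theorem XK_mem : (∑ i : Fin n, Finsupp.single i 1) ∈ (XK K n).support := by
  rw [XK_mon, MvPolynomial.mem_support_iff, MvPolynomial.coeff_monomial, if_pos rfl]
  exact one_ne_zero

instance : Subsingleton (XK K n).support := by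
  refine ⟨fun a b => Subtype.ext ?_⟩
  rw [XK_supp a.1 a.2, XK_supp b.1 b.2]

theorem XK_height : Height.logHeight (cF (XK K n)) = 0 :=
  Height.logHeight_eq_zero_of_subsingleton _

theorem XK_sup (v : Pr K) :
    (⨆ s : (XK K n).support, FinitePlace.mk v ((XK K n).coeff s)) = 1 := by
  have : Nonempty (XK K n).support := ⟨⟨_, XK_mem⟩⟩
  have h : (fun s : (XK K n).support => FinitePlace.mk v ((XK K n).coeff s)) = fun _ => 1 := by
    funext s
    rw [XK_coeff _ s.2, map_one]
  rw [h]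
  exact ciSup_const

omit [NumberField K] in
theorem XK_res (f : Fin n → K[X]) : res f (XK K n) = ∏ i, f i := by
  unfold res XK
  rw [map_prod]
  simp only [MvPolynomial.aeval_X]

/-- the primes where the local height of the product of the coordinates is positive -/
theorem lamK_pos_iff (hn : 0 < n) (v : Pr K) (x : Fin n → K) (hx : ∀ i, x i ≠ 0) :
    0 < lamF (XK K n) n v x ↔ v ∈ supp x := by
  have hne : Nonempty (Fin n) := ⟨⟨0, hn⟩⟩
  unfold lamF
  rw [XK_sup, one_mul, XK_eval]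
  have e0 : FinitePlace.mk v (∏ i, x i) = ∏ i, fv v (x i) := by
    rw [map_prod]
    rfl
  rw [e0]
  obtain ⟨M, hM⟩ : ∃ M : ℝ, M = ⨆ i, FinitePlace.mk v (x i) := ⟨_, rfl⟩
  rw [← hM]
  have hle : ∀ i, fv v (x i) ≤ M := by
    intro i
    rw [hM]
    exact le_ciSup (f := fun i => FinitePlace.mk v (x i)) (Set.finite_range _).bddAbove i
  obtain ⟨i0, hi0⟩ : ∃ i, fv v (x i) = M := by
    obtain ⟨i, hi⟩ := exists_eq_ciSup_of_finite (f := fun i => FinitePlace.mk v (x i))
    exact ⟨i, by rw [hM]; exact hi⟩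
  have hpos : ∀ i, 0 < fv v (x i) := fun i => (fv v).pos (hx i)
  have hMpos : 0 < M := by rw [← hi0]; exact hpos i0
  have hprod : 0 < ∏ i, fv v (x i) := Finset.prod_pos fun i _ => hpos i
  have hMn : M ^ n = ∏ _i : Fin n, M := by
    rw [Finset.prod_const, Finset.card_univ, Fintype.card_fin]
  have heq : ∀ i j, fv v (x i) = fv v (x j) ↔ v.valuation K (x i) = v.valuation K (x j) := by
    intro i j
    constructor
    · intro h
      refine le_antisymm ?_ ?_
      · rw [← not_lt, ← fv_lt_iff, h]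
        exact lt_irrefl _
      · rw [← not_lt, ← fv_lt_iff, h]
        exact lt_irrefl _
    · intro h
      refine le_antisymm ?_ ?_
      · rw [← not_lt, fv_lt_iff, h]
        exact lt_irrefl _
      · rw [← not_lt, fv_lt_iff, h]
        exact lt_irrefl _
  constructor
  · intro h
    by_contra hcon
    have hall : ∀ i j, fv v (x i) = fv v (x j) := by
      intro i j
      rw [heq]
      by_contra h'
      exact hcon ⟨i, j, h'⟩
    have h1 : ∏ i, fv v (x i) = M ^ n := by
      rw [hMn]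
      refine Finset.prod_congr rfl fun i _ => ?_
      rw [hall i i0, hi0]
    rw [h1, div_self (pow_pos hMpos n).ne', Real.log_one] at h
    exact lt_irrefl _ h
  · rintro ⟨i, j, hij⟩
    refine Real.log_pos ?_
    rw [one_lt_div hprod, hMn]
    have h1 : ∃ i1, fv v (x i1) < M := by
      by_contra hcon
      push Not at hcon
      refine hij ((heq i j).1 ?_)
      rw [le_antisymm (hle i) (hcon i), le_antisymm (hle j) (hcon j)]
    obtain ⟨i1, hi1⟩ := h1
    exact Finset.prod_lt_prod (fun i _ => hpos i) (fun i _ => hle i)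
      ⟨i1, Finset.mem_univ _, hi1⟩

/-- the degree of the field -/
noncomputable def dgr (K : Type) [Field K] [NumberField K] : ℝ := (Module.finrank ℚ K : ℝ)

theorem one_le_dgr (K : Type) [Field K] [NumberField K] : 1 ≤ dgr K := by
  unfold dgr
  exact_mod_cast Nat.succ_le_of_lt (Module.finrank_pos (R := ℚ) (M := K))

/-- the radical without the primes of `S` -/
noncomputable def rS (S : Set (Pr K)) (x : Fin n → K) : ℝ :=
  (∑ᶠ v ∈ {v : Pr K | v ∉ S ∧ v ∈ supp x}, Real.log (Ideal.absNorm v.asIdeal : ℝ)) / dgr K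

/-- the absolute height -/
noncomputable def ht {ι : Type} [Fintype ι] (x : ι → K) : ℝ := Height.logHeight x / dgr K

theorem cL_rS (hn : 0 < n) (S : Set (Pr K)) {x : Fin n → K} (hx : ∀ i, x i ≠ 0) :
    cL S (fun v => lamF (XK K n) n v x) = dgr K * rS S x := by
  have hd := one_le_dgr K
  unfold rS cL
  rw [mul_div_cancel₀ _ (by linarith : dgr K ≠ 0)]
  have h2 : {v : Pr K | v ∉ S ∧ 0 < lamF (XK K n) n v x} = {v : Pr K | v ∉ S ∧ v ∈ supp x} := by
    ext v
    simp only [Set.mem_ofPred_eq]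
    rw [lamK_pos_iff hn v x hx]
  rw [h2]

open Classical in
/-- the number of the points of the projective line over the coordinate hyperplanes -/
noncomputable def zk (D : ℕ) (P : Fin n → K[X]) : ℕ :=
  (∏ i, P i).roots.toFinset.card + if ∃ i, (P i).natDegree < D then 1 else 0

/-- the data -/
structure Ck (n D q : ℕ) (B : ℝ) (S : Finset (Pr K)) (P : Fin n → K[X]) : Prop where
  ne : ∀ i, P i ≠ 0
  spl : ∀ i, (P i).Splits
  cop : ∃ u : Fin n → K[X], ∑ i, u i * P i = 1
  deg : ∀ i, (P i).natDegree ≤ D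
  deg' : ∃ i, (P i).natDegree = D
  card : zk D P = q
  hS : (∑ v ∈ S, Real.log (Ideal.absNorm v.asIdeal : ℝ)) / dgr K ≤ B
  hP : ht (cf P D) ≤ B

theorem Ck.mono {D q : ℕ} {B B' : ℝ} {S : Finset (Pr K)} {P : Fin n → K[X]}
    (h : Ck n D q B S P) (hB : B ≤ B') : Ck n D q B' S P :=
  ⟨h.ne, h.spl, h.cop, h.deg, h.deg', h.card, h.hS.trans hB, h.hP.trans hB⟩

theorem Ck.pos {D q : ℕ} {B : ℝ} {S : Finset (Pr K)} {P : Fin n → K[X]} (h : Ck n D q B S P) :
    0 < n := by
  obtain ⟨i, -⟩ := h.deg'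
  exact lt_of_le_of_lt (Nat.zero_le _) i.2

theorem log_norm_nonneg (v : Pr K) : 0 ≤ Real.log (Ideal.absNorm v.asIdeal : ℝ) :=
  Real.log_natCast_nonneg _

theorem Ck.nonneg {D q : ℕ} {B : ℝ} {S : Finset (Pr K)} {P : Fin n → K[X]}
    (h : Ck n D q B S P) : 0 ≤ B :=
  le_trans (div_nonneg (Finset.sum_nonneg fun v _ => log_norm_nonneg v)
    (by linarith [one_le_dgr K])) h.hS

theorem Ck.adm {D q : ℕ} {B : ℝ} {S : Finset (Pr K)} {P : Fin n → K[X]}
    (h : Ck n D q B S P) : Adm D n q (dgr K * B) S P (XK K n) := by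
  classical
  have hd := one_le_dgr K
  have hd0 : 0 < dgr K := by linarith
  have hres : res P (XK K n) = ∏ i, P i := XK_res _
  have hne : ∏ i, P i ≠ 0 := Finset.prod_ne_zero_iff.2 fun i _ => h.ne i
  refine ⟨⟨h.deg, h.deg', h.cop⟩, XK_hom, ?_, ?_, ?_, ?_, ?_, ?_⟩
  · rw [hres]
    exact hne
  · rw [hres]
    exact Polynomial.Splits.prod fun i _ => h.spl i
  · rw [card_zs, hres, ← h.card]
    unfold zk
    have e1 : (∏ i, P i).natDegree < D * n ↔ ∃ i, (P i).natDegree < D := by
      rw [natDegree_prod _ _ fun i _ => h.ne i]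
      have e2 : D * n = ∑ _i : Fin n, D := by
        rw [Finset.sum_const, Finset.card_univ, Fintype.card_fin, smul_eq_mul, mul_comm]
      rw [e2]
      constructor
      · intro h1
        by_contra hcon
        push Not at hcon
        exact absurd (Finset.sum_le_sum fun i _ => hcon i) (not_le.2 h1)
      · rintro ⟨i, hi⟩
        exact Finset.sum_lt_sum (fun i _ => h.deg i) ⟨i, Finset.mem_univ _, hi⟩
    have e3 : (if (∏ i, P i).natDegree < D * n then 1 else 0) =
        if ∃ i, (P i).natDegree < D then 1 else 0 := by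
      by_cases h1 : ∃ i, (P i).natDegree < D
      · rw [if_pos h1, if_pos (e1.2 h1)]
      · rw [if_neg h1, if_neg fun h2 => h1 (e1.1 h2)]
    refine congrArg₂ (· + ·) (congrArg Finset.card (Finset.ext fun r => ?_)) e3
    exact (@Multiset.mem_toFinset _ (_) _ _).trans (@Multiset.mem_toFinset _ (_) _ _).symm
  · have h1 := h.hS
    rw [div_le_iff₀ hd0] at h1
    rw [mul_comm]
    exact h1
  · have h1 := h.hP
    unfold ht at h1
    rw [div_le_iff₀ hd0] at h1
    rw [mul_comm]
    exact h1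
  · rw [XK_height]
    exact mul_nonneg hd0.le h.nonneg

/-- the points of a curve -/
def Pk (D : ℕ) (S : Set (Pr K)) (P : Fin n → K[X]) (X : ℝ) :
    Set (Projectivization K (Fin n → K)) :=
  {Q | ∃ (t : Option K) (hx : co D P t ≠ 0), Q = Projectivization.mk K (co D P t) hx ∧
    (∀ i, co D P t i ≠ 0) ∧ rS S (co D P t) ≤ Real.log X}

/-- the points of all curves -/
def APk (K : Type) [Field K] [NumberField K] (n D q : ℕ) (η X : ℝ) :
    Set (Projectivization K (Fin n → K)) :=
  {Q | ∃ (S : Finset (Pr K)) (P : Fin n → K[X]), Ck n D q (η * Real.log X) S P ∧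
    Q ∈ Pk D (S : Set (Pr K)) P X}

/-- the exceptional points of all curves -/
def EXk (K : Type) [Field K] [NumberField K] (n D q : ℕ) (η M c X : ℝ) :
    Set (Projectivization K (Fin n → K)) :=
  {Q | ∃ (S : Finset (Pr K)) (P : Fin n → K[X]), Ck n D q (η * Real.log X) S P ∧
    ∃ (t : Option K) (hx : co D P t ≠ 0), Q = Projectivization.mk K (co D P t) hx ∧
      (∀ i, co D P t i ≠ 0) ∧ rS (S : Set (Pr K)) (co D P t) ≤ Real.log X ∧
      M * rS (S : Set (Pr K)) (co D P t) + c ≤ ht (co D P t)}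

theorem XK_ne {x : Fin n → K} : MvPolynomial.eval x (XK K n) ≠ 0 ↔ ∀ i, x i ≠ 0 := by
  rw [XK_eval]
  exact ⟨fun h i => Finset.prod_ne_zero_iff.1 h i (Finset.mem_univ i),
    fun h => Finset.prod_ne_zero_iff.2 fun i _ => h i⟩

theorem Pk_eq (hn : 0 < n) (D : ℕ) (S : Set (Pr K)) (P : Fin n → K[X]) (X : ℝ) :
    Pk D S P X = PP D n S P (XK K n) (dgr K * Real.log X) := by
  have hd : 0 < dgr K := by linarith [one_le_dgr K]
  ext Q
  unfold Pk PP
  simp only [Set.mem_ofPred_eq]
  constructor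
  · rintro ⟨t, hx, h1, h2, h3⟩
    refine ⟨t, hx, h1, XK_ne.2 h2, ?_⟩
    rw [cL_rS hn S h2]
    exact mul_le_mul_of_nonneg_left h3 hd.le
  · rintro ⟨t, hx, h1, h2, h3⟩
    have h2' := XK_ne.1 h2
    refine ⟨t, hx, h1, h2', ?_⟩
    rw [cL_rS hn S h2'] at h3
    exact le_of_mul_le_mul_left h3 hd

theorem APk_sub (n D q : ℕ) (η X : ℝ) :
    APk K n D q η X ⊆ AP K n D n q η (dgr K * Real.log X) := by
  rintro Q ⟨S, P, hC, hQ⟩
  have h := hC.adm
  rw [Pk_eq hC.pos] at hQ
  refine ⟨S, P, XK K n, ?_, hQ⟩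
  have e : dgr K * (η * Real.log X) = η * (dgr K * Real.log X) := by ring
  rwa [e] at h

theorem EXk_sub (n D q : ℕ) (η X c : ℝ) {M : ℝ} (hM : 0 < M) :
    EXk K n D q η M c X ⊆
      EX K n D n q η (1 / M) (c * dgr K / M - 1) (dgr K * Real.log X) := by
  rintro Q ⟨S, P, hC, t, hx, h1, h2, h3, h4⟩
  have hd : 0 < dgr K := by linarith [one_le_dgr K]
  have h := hC.adm
  have e : dgr K * (η * Real.log X) = η * (dgr K * Real.log X) := by ring
  rw [e] at h
  refine ⟨S, P, XK K n, h, t, hx, h1, XK_ne.2 h2, ?_, ?_⟩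
  · rw [cL_rS hC.pos _ h2]
    exact mul_le_mul_of_nonneg_left h3 hd.le
  · rw [cL_rS hC.pos _ h2]
    unfold ht at h4
    rw [le_div_iff₀ hd] at h4
    have h5 : dgr K * rS (S : Set (Pr K)) (co D P t) ≤
        1 / M * Height.logHeight (co D P t) - c * dgr K / M := by
      have h6 : M * (dgr K * rS (S : Set (Pr K)) (co D P t)) ≤
          M * (1 / M * Height.logHeight (co D P t) - c * dgr K / M) := by
        have e2 : M * (1 / M * Height.logHeight (co D P t) - c * dgr K / M) =
            Height.logHeight (co D P t) - c * dgr K := by field_simp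
        rw [e2]
        nlinarith
      exact le_of_mul_le_mul_left h6 hM
    linarith

/-- **the main theorem over number fields, normalised quantities** -/
theorem abk_main (K : Type) [Field K] [NumberField K] (n D q : ℕ) (hD : 1 ≤ D) (hq : 3 ≤ q) :
    (∀ δ : ℝ, 0 < δ → ∃ η : ℝ, 0 < η ∧
      (∃ C : ℝ, ∀ X : ℝ, 1 ≤ X → (APk K n D q η X).Finite ∧
        ((APk K n D q η X).ncard : ℝ) ≤ C * X ^ (2 * dgr K / (q : ℝ) + δ)) ∧
      ∃ X₀ : ℝ, ∀ X : ℝ, X₀ ≤ X → ∀ (S : Finset (Pr K)) (P : Fin n → K[X]),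
        Ck n D q (η * Real.log X) S P →
        X ^ (2 * dgr K / (q : ℝ) - δ) ≤ ((Pk D (S : Set (Pr K)) P X).ncard : ℝ)) ∧
    (∀ M : ℝ, (D : ℝ) / q < M → ∃ η ν : ℝ, 0 < η ∧ 0 < ν ∧ ∀ c : ℝ,
      (∃ C : ℝ, ∀ X : ℝ, 1 ≤ X → (EXk K n D q η M c X).Finite ∧
        ((EXk K n D q η M c X).ncard : ℝ) ≤ C * X ^ (2 * dgr K / (q : ℝ) - ν)) ∧
      ∃ X₀ : ℝ, ∀ X : ℝ, X₀ ≤ X → ∀ (S : Finset (Pr K)) (P : Fin n → K[X]),
        Ck n D q (η * Real.log X) S P →
        ((EXk K n D q η M c X).ncard : ℝ) ≤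
          X ^ (-ν) * ((Pk D (S : Set (Pr K)) P X).ncard : ℝ)) ∧
    ∃ C : ℝ, 0 ≤ C ∧ ∀ (B : ℝ) (S : Finset (Pr K)) (P : Fin n → K[X]), Ck n D q B S P →
      ∀ t : Option K, co D P t ≠ 0 → (∀ i, co D P t i ≠ 0) →
      D * rS (S : Set (Pr K)) (co D P t) ≤ q * ht (co D P t) + C * (B + 1) := by
  obtain ⟨h1, h2, C3, h3⟩ := proj_main K n D n q hD hq
  have hd1 := one_le_dgr K
  have hd : 0 < dgr K := by linarith
  have hlog : ∀ X : ℝ, 1 ≤ X → Real.log (X ^ dgr K) = dgr K * Real.log X := fun X hX =>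
    Real.log_rpow (by linarith) _
  have hpow : ∀ X s : ℝ, 1 ≤ X → (X ^ dgr K) ^ s = X ^ (dgr K * s) := fun X s hX => by
    rw [← Real.rpow_mul (by linarith)]
  have hone : ∀ X : ℝ, 1 ≤ X → 1 ≤ X ^ dgr K := fun X hX => Real.one_le_rpow hX hd.le
  have hge : ∀ X₀ X : ℝ, max 1 X₀ ≤ X → X₀ ≤ X ^ dgr K := by
    intro X₀ X hX
    have k1 : 1 ≤ X := (le_max_left _ _).trans hX
    have k2 : X₀ ≤ X := (le_max_right _ _).trans hX
    have k3 : X ^ (1 : ℝ) ≤ X ^ dgr K := Real.rpow_le_rpow_of_exponent_le k1 hd1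
    rw [Real.rpow_one] at k3
    exact k2.trans k3
  have hadm : ∀ (η X : ℝ) (S : Finset (Pr K)) (P : Fin n → K[X]), 1 ≤ X →
      Ck n D q (η * Real.log X) S P → Adm D n q (η * Real.log (X ^ dgr K)) S P (XK K n) := by
    intro η X S P hX hC
    have h := hC.adm
    rw [hlog X hX]
    have e : dgr K * (η * Real.log X) = η * (dgr K * Real.log X) := by ring
    rwa [e] at h
  refine ⟨fun δ hδ => ?_, fun M hM => ?_, ?_⟩
  · obtain ⟨η, hη, ⟨C, hC⟩, X0, hX0⟩ := h1 (δ / dgr K) (by positivity)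
    refine ⟨η, hη, ⟨C, fun X hX => ?_⟩, max 1 X0, fun X hX S P hP => ?_⟩
    · obtain ⟨h4, h5⟩ := hC (X ^ dgr K) (hone X hX)
      rw [hlog X hX] at h4 h5
      have h6 := APk_sub (K := K) n D q η X
      refine ⟨h4.subset h6, ?_⟩
      have h7 : ((APk K n D q η X).ncard : ℝ) ≤
          ((AP K n D n q η (dgr K * Real.log X)).ncard : ℝ) := by
        exact_mod_cast Set.ncard_le_ncard h6 h4
      refine h7.trans (h5.trans (le_of_eq ?_))
      rw [hpow X _ hX]
      congr 2
      field_simp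
    · have k1 : 1 ≤ X := (le_max_left _ _).trans hX
      have h4 := hX0 (X ^ dgr K) (hge X0 X hX) S P (XK K n) (hadm η X S P k1 hP)
      rw [hlog X k1, ← Pk_eq hP.pos, hpow X _ k1] at h4
      refine le_trans (le_of_eq ?_) h4
      congr 1
      field_simp
  · have hD0 : (0 : ℝ) < D := by exact_mod_cast hD
    have hq0 : (0 : ℝ) < q := by exact_mod_cast (by omega : 0 < q)
    have hM0 : 0 < M := lt_trans (by positivity) hM
    have hκ : 1 / M < (q : ℝ) / D := by
      rw [div_lt_div_iff₀ hM0 hD0, one_mul]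
      rw [div_lt_iff₀ hq0] at hM
      linarith
    obtain ⟨η, ν, hη, hν, h4⟩ := h2 (1 / M) hκ
    refine ⟨η, dgr K * ν, hη, by positivity, fun c => ?_⟩
    obtain ⟨⟨C, hC⟩, X0, hX0⟩ := h4 (c * dgr K / M - 1)
    refine ⟨⟨C, fun X hX => ?_⟩, max 1 X0, fun X hX S P hP => ?_⟩
    · obtain ⟨h5, h6⟩ := hC (X ^ dgr K) (hone X hX)
      rw [hlog X hX] at h5 h6
      have h7 := EXk_sub (K := K) n D q η X c hM0
      refine ⟨h5.subset h7, ?_⟩
      have h8 : ((EXk K n D q η M c X).ncard : ℝ) ≤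
          ((EX K n D n q η (1 / M) (c * dgr K / M - 1) (dgr K * Real.log X)).ncard : ℝ) := by
        exact_mod_cast Set.ncard_le_ncard h7 h5
      refine h8.trans (h6.trans (le_of_eq ?_))
      rw [hpow X _ hX]
      congr 2
      ring
    · have k1 : 1 ≤ X := (le_max_left _ _).trans hX
      obtain ⟨h5, -⟩ := hC (X ^ dgr K) (hone X k1)
      have h6 := hX0 (X ^ dgr K) (hge X0 X hX) S P (XK K n) (hadm η X S P k1 hP)
      rw [hlog X k1] at h5 h6
      rw [← Pk_eq hP.pos, hpow X _ k1] at h6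
      have h7 := EXk_sub (K := K) n D q η X c hM0
      have h8 : ((EXk K n D q η M c X).ncard : ℝ) ≤
          ((EX K n D n q η (1 / M) (c * dgr K / M - 1) (dgr K * Real.log X)).ncard : ℝ) := by
        exact_mod_cast Set.ncard_le_ncard h7 h5
      refine h8.trans (h6.trans (le_of_eq ?_))
      congr 2
      ring
  · refine ⟨|C3|, abs_nonneg _, fun B S P hP t hx hne => ?_⟩
    have hB := hP.nonneg
    have h4 := h3 (dgr K * B) (by positivity) S P (XK K n) hP.adm t hx (XK_ne.2 hne)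
    rw [cL_rS hP.pos _ hne] at h4
    unfold ht
    have h5 : C3 * (dgr K * B + 1) ≤ |C3| * (dgr K * (B + 1)) := by
      have h6 : C3 * (dgr K * B + 1) ≤ |C3| * (dgr K * B + 1) :=
        mul_le_mul_of_nonneg_right (le_abs_self _) (by positivity)
      have h7 : |C3| * (dgr K * B + 1) ≤ |C3| * (dgr K * (B + 1)) :=
        mul_le_mul_of_nonneg_left (by nlinarith) (abs_nonneg _)
      exact h6.trans h7
    have h6 : dgr K * (D * rS (S : Set (Pr K)) (co D P t)) ≤
        dgr K * (q * (Height.logHeight (co D P t) / dgr K) + |C3| * (B + 1)) := by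
      have e : dgr K * (q * (Height.logHeight (co D P t) / dgr K) + |C3| * (B + 1)) =
          q * Height.logHeight (co D P t) + |C3| * (dgr K * (B + 1)) := by
        field_simp
      rw [e]
      linarith
    exact le_of_mul_le_mul_left h6 hd

end Pool.Agent.Y557.U
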