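import Pool.Agent.Y557.U.Core

/-!
Families of curves with a parameter on the line: the number of all points (helper557).
-/

set_option autoImplicit false

namespace Pool.Agent.Y557.U

open NumberField IsDedekindDomain Finset Polynomial
open Pool.Agent.H691R3 Pool.Agent.TH876.Loc
open Pool.Agent.TH876.KR (form localHeight localHeight_nonneg localHeight_eq localHeight_pos_iff
  log_Nv_pos' m2 fv_sub_le)
open Pool.Agent.Y730.QP (cnt PQ counting_le supp_finite term_nonneg log_Nv_le_localHeight)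
open Pool.Agent.Y557.NF

variable {K : Type} [Field K] [NumberField K] {Y Z J : Type}

/-- all points of the curves of the family -/
def Fam.P (D : Fam K Y Z J) (η Λ : ℝ) : Set Y :=
  {y | ∃ j t, 3 ≤ D.q j ∧ D.H j ≤ η * Λ ∧ y = D.pt j t ∧
    (∀ i, form (D.α j i) ![t, 1] ≠ 0) ∧
    cnt (D.T j : Set (Pr K)) (D.α j) ![t, 1] ≤ D.q j / 3 * Λ}

/-- **upper bound for the number of all points of a family of curves** -/
theorem core_points (D : Fam K Y Z J) (δ : ℝ) (hδ : 0 < δ) (hδ1 : δ ≤ 1) :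
    ∃ η0 : ℝ, 0 < η0 ∧ ∀ η : ℝ, 0 ≤ η → η ≤ η0 →
      ∃ C : ℝ, 0 < C ∧ ∀ Λ : ℝ, 0 ≤ Λ → (D.P η Λ).Finite ∧
        ((D.P η Λ).ncard : ℝ) ≤ C * Real.exp ((2 / 3 + δ) * Λ) := by
  classical
  obtain ⟨ε, hε⟩ : ∃ ε, ε = δ / 16 := ⟨_, rfl⟩
  have hε0 : 0 < ε := by rw [hε]; positivity
  obtain ⟨η1, ν, hη1, hν, -, hup⟩ := core_upper D ε hε0 (by rw [hε]; linarith) 0 le_rfl
  obtain ⟨C0, hC0, hfew⟩ := few_small2 K (δ / 4) (by positivity)
  have ha := D.ha
  have hC1 := D.hC1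
  refine ⟨min η1 (δ / (2 * D.a)), lt_min hη1 (by positivity), fun η hη hηle => ?_⟩
  obtain ⟨C, hC, hE⟩ := hup η hη (hηle.trans (min_le_left _ _)) 0
  have ka : D.a * η ≤ δ / 2 := by
    have h1 := hηle.trans (min_le_right _ _)
    rw [le_div_iff₀ (by positivity)] at h1
    linarith
  refine ⟨C + D.C1 * C0, by positivity, fun Λ hΛ => ?_⟩
  obtain ⟨hZf, hZc⟩ := D.hcount (η * Λ) (by positivity)
  obtain ⟨c, hc⟩ : ∃ c, c = 1 / (3 * (1 - ε)) := ⟨_, rfl⟩
  have hε2 : ε ≤ 1 / 16 := by rw [hε]; linarith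
  have h1ε : 0 < 1 - ε := by linarith
  have hc0 : 0 < c := by rw [hc]; positivity
  have hcle : c ≤ (1 + 2 * ε) / 3 := by
    rw [hc, div_le_div_iff₀ (by positivity) (by norm_num)]
    nlinarith
  obtain ⟨hBf, hBc⟩ := hfew (c * Λ) (by positivity)
  obtain ⟨hEf, hEc⟩ := hE Λ hΛ
  obtain ⟨hf, hcd⟩ := family_card D.κ D.pt D.hpt hZf hBf (E := D.P η Λ \ D.E ε 0 0 η Λ) (by
    rintro y ⟨⟨j, t, h3, hH, rfl, hform, hcn⟩, hnot⟩
    refine ⟨j, t, ⟨j, rfl, hH⟩, ⟨![t, 1], t1_ne t, rfl, ?_⟩, rfl⟩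
    have h4 : (1 - ε) * D.q j * Height.logHeight ![t, 1] ≤
        cnt (D.T j : Set (Pr K)) (D.α j) ![t, 1] := by
      by_contra hcon
      push Not at hcon
      exact hnot ⟨j, t, h3, hH, rfl, hform, hcn, by linarith⟩
    have hq3 : (3 : ℝ) ≤ D.q j := by exact_mod_cast h3
    have h5 : (1 - ε) * D.q j * Height.logHeight ![t, 1] ≤ D.q j / 3 * Λ := h4.trans hcn
    have h6 : (1 - ε) * Height.logHeight ![t, 1] ≤ Λ / 3 := by
      by_contra hcon
      push Not at hcon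
      have := mul_lt_mul_of_pos_left hcon (by linarith : (0 : ℝ) < D.q j)
      nlinarith
    rw [hc, one_div_mul_eq_div, le_div_iff₀ (by positivity)]
    linarith)
  have hsub : D.P η Λ ⊆ D.E ε 0 0 η Λ ∪ (D.P η Λ \ D.E ε 0 0 η Λ) := by
    intro y hy
    by_cases h : y ∈ D.E ε 0 0 η Λ
    · exact Or.inl h
    · exact Or.inr ⟨hy, h⟩
  refine ⟨(hEf.union hf).subset hsub, ?_⟩
  have h1 : ((D.P η Λ).ncard : ℝ) ≤ ((D.E ε 0 0 η Λ).ncard : ℝ) +
      ((D.P η Λ \ D.E ε 0 0 η Λ).ncard : ℝ) := by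
    exact_mod_cast (Set.ncard_le_ncard hsub (hEf.union hf)).trans (Set.ncard_union_le _ _)
  have h2 : Real.exp ((2 / 3 - ν) * Λ) ≤ Real.exp ((2 / 3 + δ) * Λ) := by
    refine Real.exp_le_exp.2 (mul_le_mul_of_nonneg_right (by linarith) hΛ)
  have h3 : Real.exp (D.a * (η * Λ)) * Real.exp ((2 + δ / 4) * (c * Λ)) ≤
      Real.exp ((2 / 3 + δ) * Λ) := by
    rw [← Real.exp_add]
    refine Real.exp_le_exp.2 ?_
    have e1 := mul_le_mul_of_nonneg_right ka hΛ
    have e2 : (2 + δ / 4) * c ≤ 2 / 3 + δ / 4 := by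
      calc (2 + δ / 4) * c ≤ (2 + δ / 4) * ((1 + 2 * ε) / 3) :=
            mul_le_mul_of_nonneg_left hcle (by positivity)
        _ ≤ _ := by rw [hε]; nlinarith
    have e3 := mul_le_mul_of_nonneg_right e2 hΛ
    nlinarith
  calc ((D.P η Λ).ncard : ℝ) ≤ C * Real.exp ((2 / 3 - ν) * Λ) +
        D.C1 * Real.exp (D.a * (η * Λ)) * (C0 * Real.exp ((2 + δ / 4) * (c * Λ))) := by
        refine h1.trans (add_le_add hEc (hcd.trans ?_))
        exact mul_le_mul hZc hBc (Nat.cast_nonneg _) (by positivity)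
    _ = C * Real.exp ((2 / 3 - ν) * Λ) + D.C1 * C0 *
        (Real.exp (D.a * (η * Λ)) * Real.exp ((2 + δ / 4) * (c * Λ))) := by ring
    _ ≤ C * Real.exp ((2 / 3 + δ) * Λ) + D.C1 * C0 * Real.exp ((2 / 3 + δ) * Λ) :=
        add_le_add (mul_le_mul_of_nonneg_left h2 hC.le)
          (mul_le_mul_of_nonneg_left h3 (by positivity))
    _ = _ := by ring

/-- the parameters of one curve -/
def Fam.L (D : Fam K Y Z J) (j : J) (Λ : ℝ) : Set K :=
  {t | (∀ i, form (D.α j i) ![t, 1] ≠ 0) ∧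
    cnt (D.T j : Set (Pr K)) (D.α j) ![t, 1] + D.C2 * (D.H j + 1) ≤ D.q j / 3 * Λ}

theorem cnt_smul (S : Set (Pr K)) {q : ℕ} (a : Fin q → Fin 2 → K) {c : K} (hc : c ≠ 0)
    {x : Fin 2 → K} (hx : ∀ i, form (a i) x ≠ 0) : cnt S a (c • x) = cnt S a x := by
  have h : ∀ (v : Pr K) (i : Fin q), localHeight v (a i) (c • x) = localHeight v (a i) x := by
    intro v i
    rw [localHeight_comm, Pool.Agent.Y730.QP.localHeight_smul v hc, localHeight_comm]
    have e : form x (a i) = -form (a i) x := by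
      unfold form
      ring
    rw [e]
    exact neg_ne_zero.2 (hx i)
  unfold cnt
  simp only [h]

/-- **lower bound for the number of points of every single curve** -/
theorem core_lower (D : Fam K Y Z J) (m : ℕ) (hm : 1 ≤ m)
    (hfib : ∀ j b, ∃ s : Finset K, s.card ≤ m ∧ ∀ t, D.pt j t = b → t ∈ s)
    (ν : ℝ) (hν : 0 < ν) (hν1 : ν ≤ 1 / 3) :
    ∃ η0 Λ0 : ℝ, 0 < η0 ∧ 0 ≤ Λ0 ∧ ∀ Λ : ℝ, Λ0 ≤ Λ → ∀ j, 3 ≤ D.q j → D.H j ≤ η0 * Λ →
      Real.exp ((2 / 3 - ν) * Λ) ≤ ((D.pt j '' D.L j Λ).ncard : ℝ) := by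
  classical
  obtain ⟨η', hη'⟩ : ∃ η', η' = ν / 2 / 24 := ⟨_, rfl⟩
  have hη'0 : 0 < η' := by rw [hη']; positivity
  obtain ⟨Λ1, hΛ1, hlow⟩ := sim_lower K (ν / 2) η' (by positivity) (by linarith) hη'0
    (by rw [hη'])
  have hC2 := D.hC2
  obtain ⟨η0, hη0⟩ : ∃ η0, η0 = min (ν / (4 * (D.C2 + 1))) (η' / (4 * (D.C2 + 1))) := ⟨_, rfl⟩
  have hη00 : 0 < η0 := by rw [hη0]; exact lt_min (by positivity) (by positivity)
  have k1 : D.C2 * η0 ≤ ν / 4 := by
    have h1 : η0 ≤ ν / (4 * (D.C2 + 1)) := by rw [hη0]; exact min_le_left _ _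
    rw [le_div_iff₀ (by positivity)] at h1
    nlinarith
  have k2 : D.C2 * η0 ≤ η' / 4 := by
    have h1 : η0 ≤ η' / (4 * (D.C2 + 1)) := by rw [hη0]; exact min_le_right _ _
    rw [le_div_iff₀ (by positivity)] at h1
    nlinarith
  have hm0 : (0 : ℝ) < m := by exact_mod_cast hm
  obtain ⟨Λ0, hΛ0⟩ : ∃ Λ0 : ℝ, Λ0 = max (2 * (Λ1 + D.C2)) (max (4 * D.C2 / η' + 2 * D.C2)
      (4 / ν * (Real.log (2 * m) + D.C2))) := ⟨_, rfl⟩
  have hΛ00 : 0 ≤ Λ0 := by
    rw [hΛ0]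
    exact le_max_of_le_left (by positivity)
  refine ⟨η0, Λ0, hη00, hΛ00, fun Λ hΛ j hq hH => ?_⟩
  have hΛp : 0 ≤ Λ := hΛ00.trans hΛ
  have g1 : 2 * (Λ1 + D.C2) ≤ Λ := le_trans (by rw [hΛ0]; exact le_max_left _ _) hΛ
  have g2 : 4 * D.C2 / η' + 2 * D.C2 ≤ Λ :=
    le_trans (by rw [hΛ0]; exact (le_max_left _ _).trans (le_max_right _ _)) hΛ
  have g3 : 4 / ν * (Real.log (2 * m) + D.C2) ≤ Λ :=
    le_trans (by rw [hΛ0]; exact (le_max_right _ _).trans (le_max_right _ _)) hΛ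
  obtain ⟨Λ', hΛ'⟩ : ∃ Λ', Λ' = Λ - D.C2 * (D.H j + 1) := ⟨_, rfl⟩
  have hb : D.C2 * (D.H j + 1) ≤ D.C2 * η0 * Λ + D.C2 := by
    have := mul_le_mul_of_nonneg_left hH hC2
    linarith
  have hb0 : 0 ≤ D.C2 * (D.H j + 1) := mul_nonneg hC2 (by linarith [D.hH j])
  have hη'1 : η' ≤ 1 := by rw [hη']; linarith
  have hb1 : D.C2 * η0 * Λ ≤ ν / 4 * Λ := mul_le_mul_of_nonneg_right k1 hΛp
  have hb2 : D.C2 * η0 * Λ ≤ η' / 4 * Λ := mul_le_mul_of_nonneg_right k2 hΛp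
  have hΛ'1 : Λ1 ≤ Λ' := by
    rw [hΛ']
    nlinarith
  have hhα : D.C2 * (D.H j + 1) ≤ η' * Λ' := by
    have e1 : 4 * D.C2 / η' ≤ Λ - 2 * D.C2 := by linarith
    rw [div_le_iff₀ hη'0] at e1
    rw [hΛ']
    nlinarith
  have hL := hlow Λ' hΛ'1 (D.q j) (D.α j) (D.T j : Set (Pr K)) hq (D.hαd j)
    (fun i => (D.hα j i).trans hhα) (Finset.finite_toSet _)
  have hq3 : (3 : ℝ) ≤ D.q j := by exact_mod_cast hq
  -- the points of the line
  have hsub : PQ (D.T j : Set (Pr K)) (D.α j) (Real.exp (D.q j / 3 * Λ')) ⊆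
      (fun t => Projectivization.mk K ![t, 1] (t1_ne t)) '' D.L j Λ ∪
        {Projectivization.mk K (![1, 0] : Fin 2 → K) (by
          intro h
          have := congrFun h 0
          simp at this)} := by
    rintro P ⟨x, hx, rfl, hform, hcn⟩
    rw [Real.log_exp] at hcn
    by_cases h1 : x 1 = 0
    · right
      rw [Set.mem_singleton_iff, Projectivization.mk_eq_mk_iff']
      refine ⟨x 0, ?_⟩
      funext i
      fin_cases i
      · show x 0 * 1 = x 0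
        rw [mul_one]
      · show x 0 * 0 = x 1
        rw [mul_zero, h1]
    · left
      have e2 : x = x 1 • ![x 0 / x 1, 1] := by
        funext i
        fin_cases i
        · show x 0 = x 1 * (x 0 / x 1)
          field_simp
        · show x 1 = x 1 * 1
          rw [mul_one]
      have e3 : ∀ i, form (D.α j i) ![x 0 / x 1, 1] ≠ 0 := by
        intro i h'
        apply hform i
        rw [e2]
        unfold form at h' ⊢
        rw [Pi.smul_apply, Pi.smul_apply, smul_eq_mul, smul_eq_mul]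
        linear_combination x 1 * h'
      refine ⟨x 0 / x 1, ⟨e3, ?_⟩, ?_⟩
      · have e4 : cnt (D.T j : Set (Pr K)) (D.α j) x =
            cnt (D.T j : Set (Pr K)) (D.α j) ![x 0 / x 1, 1] := by
          conv_lhs => rw [e2]
          exact cnt_smul _ _ h1 e3
        rw [← e4]
        have e5 : (D.q j : ℝ) / 3 * Λ' = D.q j / 3 * Λ - D.q j / 3 * (D.C2 * (D.H j + 1)) := by
          rw [hΛ']
          ring
        have e6 : D.C2 * (D.H j + 1) ≤ D.q j / 3 * (D.C2 * (D.H j + 1)) := by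
          have : (1 : ℝ) ≤ D.q j / 3 := by linarith
          nlinarith
        linarith
      · show Projectivization.mk K ![x 0 / x 1, 1] _ = _
        rw [Projectivization.mk_eq_mk_iff']
        refine ⟨(x 1)⁻¹, ?_⟩
        funext i
        fin_cases i
        · show (x 1)⁻¹ * x 0 = x 0 / x 1
          field_simp
        · show (x 1)⁻¹ * x 1 = 1
          exact inv_mul_cancel₀ h1
  -- finiteness
  have hLfin : (D.L j Λ).Finite := by
    have hα0 : ∀ i, D.α j i ≠ 0 := by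
      intro i h
      obtain ⟨i', hi'⟩ : ∃ i' : Fin (D.q j), i ≠ i' := by
        by_cases h0 : i = ⟨0, by omega⟩
        · refine ⟨⟨1, by omega⟩, ?_⟩
          rw [h0]
          intro h'
          have := congrArg Fin.val h'
          simp at this
        · exact ⟨_, h0⟩
      have h2 := D.hαd j i i' hi'
      rw [h] at h2
      unfold form at h2
      simp at h2
    obtain ⟨C, hC⟩ := Pool.Agent.Y730.QP.upper K (D.T j : Set (Pr K)) (Finset.finite_toSet _)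
      (D.q j) hq (D.α j) hα0 (D.hαd j) 1 one_pos
    have h1 := (hC (Real.exp (D.q j / 3 * Λ)) (Real.one_le_exp (by positivity))).1
    refine Set.Finite.of_finite_image (h1.subset ?_)
      (f := fun t => Projectivization.mk K ![t, 1] (t1_ne t)) (fun s _ t _ h => t_inj h)
    rintro _ ⟨t, ⟨ht1, ht2⟩, rfl⟩
    refine ⟨![t, 1], t1_ne t, rfl, ht1, ?_⟩
    rw [Real.log_exp]
    linarith
  have hcard : ((PQ (D.T j : Set (Pr K)) (D.α j) (Real.exp (D.q j / 3 * Λ'))).ncard : ℝ) ≤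
      ((D.L j Λ).ncard : ℝ) + 1 := by
    have h4 := Set.ncard_le_ncard hsub ((hLfin.image _).union (Set.finite_singleton _))
    have h5 := h4.trans (Set.ncard_union_le _ _)
    rw [Set.ncard_singleton, Set.ncard_image_of_injective _ (fun s t h => t_inj h)] at h5
    exact_mod_cast h5
  have himg : ((D.L j Λ).ncard : ℝ) ≤ m * ((D.pt j '' D.L j Λ).ncard : ℝ) := by
    have := ncard_image_ge (D.pt j) hLfin (m := m) (fun b => by
      obtain ⟨s, hs, h⟩ := hfib j b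
      exact ⟨s, hs, fun t _ ht => h t ht⟩)
    exact_mod_cast this
  have hν23 : 0 ≤ (2 / 3 - ν) * Λ := mul_nonneg (by linarith) hΛp
  have h7 : 1 ≤ Real.exp ((2 / 3 - ν) * Λ) := Real.one_le_exp hν23
  have h8 : (2 * m) * Real.exp ((2 / 3 - ν) * Λ) ≤ Real.exp ((2 / 3 - ν / 2) * Λ') := by
    have e1 : (2 * m : ℝ) = Real.exp (Real.log (2 * m)) := (Real.exp_log (by positivity)).symm
    rw [e1, ← Real.exp_add]
    refine Real.exp_le_exp.2 ?_
    have e2 : Real.log (2 * m) + D.C2 ≤ ν / 4 * Λ := by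
      have := mul_le_mul_of_nonneg_left g3 (by positivity : 0 ≤ ν / 4)
      have e3 : ν / 4 * (4 / ν * (Real.log (2 * m) + D.C2)) = Real.log (2 * m) + D.C2 := by
        field_simp
      rw [e3] at this
      exact this
    have e4 : Λ - (ν / 4 * Λ + D.C2) ≤ Λ' := by
      rw [hΛ']
      linarith
    have e5 : (2 / 3 - ν / 2) * (Λ - (ν / 4 * Λ + D.C2)) ≤ (2 / 3 - ν / 2) * Λ' :=
      mul_le_mul_of_nonneg_left e4 (by linarith)
    have e7 : (2 / 3 - ν / 2) * (ν / 4 * Λ + D.C2) ≤ 2 / 3 * (ν / 4 * Λ + D.C2) := by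
      refine mul_le_mul_of_nonneg_right (by linarith) ?_
      positivity
    have e8 : 0 ≤ ν * Λ := mul_nonneg hν.le hΛp
    have e9 : (2 / 3 - ν / 2) * (Λ - (ν / 4 * Λ + D.C2)) =
        (2 / 3 - ν) * Λ + ν / 2 * Λ - (2 / 3 - ν / 2) * (ν / 4 * Λ + D.C2) := by ring
    rw [e9] at e5
    linarith
  by_contra hcon
  push Not at hcon
  have h9 : (m : ℝ) * ((D.pt j '' D.L j Λ).ncard : ℝ) < m * Real.exp ((2 / 3 - ν) * Λ) :=
    mul_lt_mul_of_pos_left hcon hm0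
  have h10 : (1 : ℝ) ≤ m := by exact_mod_cast hm
  nlinarith

end Pool.Agent.Y557.U
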