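import Pool.Agent.Y557.U.TL

/-!
The primes where an inequality between products of maxima is strict (helper557).
-/

set_option autoImplicit false

namespace Pool.Agent.Y557.U

open NumberField IsDedekindDomain Finset Polynomial
open Pool.Agent.H691R3 Pool.Agent.TH876.Loc
open Pool.Agent.TH876.KR (form localHeight localHeight_nonneg localHeight_eq localHeight_pos_iff
  log_Nv_pos' m2 fv_sub_le)
open Pool.Agent.Y557.NF

variable {K : Type} [Field K] [NumberField K]

theorem prime_set (hPF : S_PF K) {ι ι' ι'' : Type} [Fintype ι] [Fintype ι'] [Fintype ι'']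
    {y : ι → K} {c : ι' → K} {c' : ι'' → K} {z : K} {k k' : ℕ} {A : ℝ} (hy : y ≠ 0) (hc : c ≠ 0)
    (hc' : c' ≠ 0) (hz : z ≠ 0) (hA : 1 ≤ A)
    (h1 : ∀ v : Pr K, fv v z * sn v y ≤ sn v c ^ k * sn v c' ^ k')
    (h2 : ∀ w : InfinitePlace K, w z * sw w y ≤ A * (sw w c ^ k * sw w c' ^ k')) :
    ∃ T : Finset (Pr K), (∀ v ∉ T, fv v z * sn v y = sn v c ^ k * sn v c' ^ k') ∧
      ∑ v ∈ T, Real.log (Nv v) + Height.logHeight y ≤
        k * Height.logHeight c + k' * Height.logHeight c' +
          (Module.finrank ℚ K : ℝ) * Real.log A := by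
  have hmain := hPF ι ι' ι'' y c c' z k k' A hy hc hc' hz hA h1 h2
  have p1 : ∀ v : Pr K, 0 < fv v z := fun v => (fv v).pos hz
  have p2 : ∀ v : Pr K, 0 < sn v y := fun v => sn_pos v hy
  have p3 : ∀ v : Pr K, 0 < sn v c := fun v => sn_pos v hc
  have p4 : ∀ v : Pr K, 0 < sn v c' := fun v => sn_pos v hc'
  have hlog : ∀ v : Pr K, Real.log (sn v c ^ k * sn v c' ^ k') - Real.log (fv v z * sn v y) =
      k * Real.log (sn v c) + k' * Real.log (sn v c') - Real.log (fv v z) -
        Real.log (sn v y) := by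
    intro v
    rw [Real.log_mul (pow_pos (p3 v) _).ne' (pow_pos (p4 v) _).ne', Real.log_pow, Real.log_pow,
      Real.log_mul (p1 v).ne' (p2 v).ne']
    ring
  obtain ⟨T, hT1, hT2⟩ := fin_of_sum_le
    (fun v => k * Real.log (sn v c) + k' * Real.log (sn v c') - Real.log (fv v z) -
        Real.log (sn v y))
    (k * Height.logHeight c + k' * Height.logHeight c' + (Module.finrank ℚ K : ℝ) * Real.log A -
      Height.logHeight y)
    (fun v hv => by
      obtain ⟨j1, e1⟩ := log_sn v hc
      obtain ⟨j2, e2⟩ := log_sn v hc'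
      obtain ⟨j3, e3⟩ := log_fv v hz
      obtain ⟨j4, e4⟩ := log_sn v hy
      refine le_of_int_mul v (j := k * j1 + k' * j2 - j3 - j4) ?_ hv
      rw [e1, e2, e3, e4]
      push_cast
      ring)
    (fun V => by
      have := hmain V
      linarith)
  refine ⟨T, fun v hv => ?_, by linarith⟩
  refine le_antisymm (h1 v) ?_
  by_contra hcon
  push Not at hcon
  apply hv
  rw [hT1, ← hlog v]
  have := Real.log_lt_log (mul_pos (p1 v) (p2 v)) hcon
  linarith

end Pool.Agent.Y557.U
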