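import Pool.Agent.Y557.U.GL
import Pool.Agent.Y557.U.PS
import Pool.Agent.Y557.U.Core2

/-!
The counting function of a divisor on a rational curve, from its restriction (helper557).
-/

set_option autoImplicit false

namespace Pool.Agent.Y557.U

open NumberField IsDedekindDomain Finset Polynomial
open Pool.Agent.H691R3 Pool.Agent.TH876.Loc
open Pool.Agent.TH876.KR (form localHeight localHeight_nonneg localHeight_eq localHeight_pos_iff
  log_Nv_pos' m2 fv_sub_le)
open Pool.Agent.Y730.QP (cnt PQ counting_le supp_finite term_nonneg log_Nv_le_localHeight)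
open Pool.Agent.Y557.NF

variable {K : Type} [Field K] [NumberField K]

/-- the counting function given by local heights `lam` -/
noncomputable def cL (S : Set (Pr K)) (lam : Pr K → ℝ) : ℝ :=
  ∑ᶠ v ∈ {v : Pr K | v ∉ S ∧ 0 < lam v}, Real.log (Ideal.absNorm v.asIdeal : ℝ)

theorem assemble (hg : S_GAUSS K) (hroot : S_ROOT K) (N : ℕ) :
    ∃ C : ℝ, 0 ≤ C ∧ ∀ G : K[X], G ≠ 0 → G.Splits → G.natDegree ≤ N →
      (∀ j, Height.logHeight (aS (zs G N) j) ≤ hG N G + C) ∧
      ∀ (T0 : Finset (Pr K)) (S : Set (Pr K)) (lam : Pr K → K → ℝ), S ⊆ T0 →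
        (∀ v ∉ T0, ∀ t, G.eval t ≠ 0 → lam v t = lamG N G v t) →
        ∃ T : Finset (Pr K), ∑ v ∈ T, Real.log (Nv v) ≤
            ∑ v ∈ T0, Real.log (Nv v) + C * (hG N G + 1) ∧
          ∀ t, G.eval t ≠ 0 →
            cnt (T : Set (Pr K)) (aS (zs G N)) ![t, 1] ≤ cL S (fun v => lam v t) ∧
            cL S (fun v => lam v t) ≤ cnt (T : Set (Pr K)) (aS (zs G N)) ![t, 1] +
              ∑ v ∈ T, Real.log (Nv v) := by
  classical
  obtain ⟨C, hC, h⟩ := G_lemma hroot N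
  refine ⟨C, hC, fun G h0 hs hN => ?_⟩
  obtain ⟨h1, T3, hT3, hsep⟩ := h G h0 hs hN
  refine ⟨h1, fun T0 S lam hST hlam => ?_⟩
  have hU : ∑ v ∈ T0 ∪ T3, Real.log (Nv v) ≤
      ∑ v ∈ T0, Real.log (Nv v) + ∑ v ∈ T3, Real.log (Nv v) := by
    rw [← Finset.sum_union_inter]
    have : 0 ≤ ∑ v ∈ T0 ∩ T3, Real.log (Nv v) := Finset.sum_nonneg fun v _ => (log_Nv_pos' v).le
    linarith
  refine ⟨T0 ∪ T3, by linarith, fun t ht => ?_⟩
  obtain ⟨-, k1, k2⟩ := cnt_bounds (T0 ∪ T3) (t1_ne t) (aS_ne (zs G N))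
    ((mem_GG_aS h0).2 ht) {v : Pr K | v ∉ S ∧ 0 < lam v t}
    (fun v hv => by
      rw [Finset.mem_union, not_or] at hv
      rw [← lamG_pos_iff hg h0 hs hN ht v, ← hlam v hv.1 t ht]
      constructor
      · rintro ⟨-, h2⟩
        exact h2
      · intro h2
        exact ⟨fun h3 => hv.1 (Finset.mem_coe.1 (hST h3)), h2⟩)
    (fun v hv i j hij h2 => by
      rw [Finset.mem_union, not_or] at hv
      exact hsep t ht v hv.2 i j hij h2)
  exact ⟨k1, k2⟩

end Pool.Agent.Y557.U
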