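import Pool.Agent.Y557.U.Stm3
import Pool.Agent.Y434.U557.Abs

/-!
Coefficients of the restriction of a bihomogeneous form to a curve, after the proof of helper434
for a form in one group of variables (helper557).
-/

set_option autoImplicit false

namespace Pool.Agent.Y557.U

open NumberField IsDedekindDomain Finset Polynomial
open Pool.Agent.H691R3 Pool.Agent.TH876.Loc
open Pool.Agent.Y434.U557 (Bd na_sum na_mul ar_mul prod_bd)

section

variable {K : Type} [Field K] {n₁ n₂ : ℕ}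

theorem supp_sum2 (F : MvPolynomial (Fin n₁ ⊕ Fin n₂) K) (q r : ℕ)
    (hF : F.IsWeightedHomogeneous (Sum.elim (fun _ : Fin n₁ => ((1, 0) : ℕ × ℕ))
      (fun _ : Fin n₂ => ((0, 1) : ℕ × ℕ))) (q, r))
    (s : Fin n₁ ⊕ Fin n₂ →₀ ℕ) (hs : s ∈ F.support) :
    ∑ i, s (Sum.inl i) = q ∧ ∑ i, s (Sum.inr i) = r := by
  have h1 := hF (MvPolynomial.mem_support_iff.1 hs)
  rw [Finsupp.weight_apply, Finsupp.sum_fintype, Fintype.sum_sum_type] at h1
  · have h2 := congrArg Prod.fst h1
    have h3 := congrArg Prod.snd h1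
    simp only [Sum.elim_inl, Sum.elim_inr, Prod.fst_add, Prod.fst_sum, Prod.smul_fst,
      smul_eq_mul, mul_one, mul_zero, Finset.sum_const_zero, add_zero] at h2
    simp only [Sum.elim_inl, Sum.elim_inr, Prod.snd_add, Prod.snd_sum, Prod.smul_snd,
      smul_eq_mul, mul_one, mul_zero, Finset.sum_const_zero, zero_add] at h3
    exact ⟨h2, h3⟩
  · intro i
    simp

theorem supp_card2 (F : MvPolynomial (Fin n₁ ⊕ Fin n₂) K) (q r : ℕ)
    (hF : F.IsWeightedHomogeneous (Sum.elim (fun _ : Fin n₁ => ((1, 0) : ℕ × ℕ))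
      (fun _ : Fin n₂ => ((0, 1) : ℕ × ℕ))) (q, r)) :
    F.support.card ≤ (q + r + 1) ^ (n₁ + n₂) := by
  have h0 : ∀ s ∈ F.support, ∀ i, s i < q + r + 1 := by
    intro s hs i
    obtain ⟨h1, h1'⟩ := supp_sum2 F q r hF s hs
    rcases i with i | i
    · have h2 : s (Sum.inl i) ≤ ∑ i, s (Sum.inl i) :=
        Finset.single_le_sum (f := fun i => s (Sum.inl i)) (fun _ _ => Nat.zero_le _) (mem_univ i)
      omega
    · have h2 : s (Sum.inr i) ≤ ∑ i, s (Sum.inr i) :=
        Finset.single_le_sum (f := fun i => s (Sum.inr i)) (fun _ _ => Nat.zero_le _) (mem_univ i)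
      omega
  have h3 : (q + r + 1) ^ (n₁ + n₂) =
      (Fintype.piFinset fun _ : Fin n₁ ⊕ Fin n₂ => range (q + r + 1)).card := by
    rw [Fintype.card_piFinset]
    simp
  rw [h3]
  refine Finset.card_le_card_of_injOn (fun s => (s : Fin n₁ ⊕ Fin n₂ → ℕ)) ?_ ?_
  · intro s hs
    simp only [Finset.mem_coe, Fintype.mem_piFinset, mem_range]
    exact h0 s hs
  · intro s _ t _ h
    exact DFunLike.coe_injective h

theorem aeval_eq2 (f : Fin n₁ → K[X]) (g : Fin n₂ → K[X]) (F : MvPolynomial (Fin n₁ ⊕ Fin n₂) K) :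
    MvPolynomial.aeval (Sum.elim f g) F =
      ∑ s ∈ F.support, C (F.coeff s) *
        ((∏ i, f i ^ s (Sum.inl i)) * ∏ i, g i ^ s (Sum.inr i)) := by
  rw [MvPolynomial.aeval_def, MvPolynomial.eval₂_eq']
  refine Finset.sum_congr rfl fun s _ => ?_
  rw [Polynomial.algebraMap_apply, Algebra.algebraMap_self, RingHom.id_apply,
    Fintype.prod_sum_type]
  simp only [Sum.elim_inl, Sum.elim_inr]

theorem coeff_eq2 (f : Fin n₁ → K[X]) (g : Fin n₂ → K[X]) (F : MvPolynomial (Fin n₁ ⊕ Fin n₂) K)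
    (k : ℕ) : (MvPolynomial.aeval (Sum.elim f g) F).coeff k =
      ∑ s ∈ F.support, F.coeff s *
        ((∏ i, f i ^ s (Sum.inl i)) * ∏ i, g i ^ s (Sum.inr i)).coeff k := by
  rw [aeval_eq2, Polynomial.finsetSum_coeff]
  refine Finset.sum_congr rfl fun s _ => ?_
  rw [Polynomial.coeff_C_mul]

theorem prod_deg {n : ℕ} (f : Fin n → K[X]) (a : ℕ) (hf : ∀ i, (f i).natDegree ≤ a)
    (s : Fin n → ℕ) : (∏ i, f i ^ s i).natDegree ≤ a * ∑ i, s i := by
  refine (Polynomial.natDegree_prod_le _ _).trans ?_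
  rw [Finset.mul_sum]
  refine Finset.sum_le_sum fun i _ => ?_
  refine Polynomial.natDegree_pow_le.trans ?_
  rw [mul_comm]
  exact Nat.mul_le_mul_right _ (hf i)

end

theorem comp2_holds (K : Type) [Field K] [NumberField K] : S_COMP2 K := by
  intro n₁ n₂ a b q r
  refine ⟨((q : ℝ) + r + 1) ^ (n₁ + n₂) *
    (((a : ℝ) + 1) ^ q * (((b * r : ℕ) : ℝ) + 1) * ((b : ℝ) + 1) ^ r), ?_, ?_⟩
  · have h1 : (1 : ℝ) ≤ (q : ℝ) + r + 1 := by
      have := Nat.cast_nonneg (α := ℝ) q
      have := Nat.cast_nonneg (α := ℝ) r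
      linarith
    have h2 : (1 : ℝ) ≤ (a : ℝ) + 1 := by
      have := Nat.cast_nonneg (α := ℝ) a
      linarith
    have h3 : (1 : ℝ) ≤ (b : ℝ) + 1 := by
      have := Nat.cast_nonneg (α := ℝ) b
      linarith
    have h4 : (1 : ℝ) ≤ ((b * r : ℕ) : ℝ) + 1 := by
      have := Nat.cast_nonneg (α := ℝ) (b * r)
      linarith
    exact one_le_mul_of_one_le_of_one_le (one_le_pow₀ h1)
      (one_le_mul_of_one_le_of_one_le (one_le_mul_of_one_le_of_one_le (one_le_pow₀ h2) h4)
        (one_le_pow₀ h3))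
  · intro f g F hf hg hF
    have hb : ∀ (a : AbsoluteValue K ℝ) (n m : ℕ) (f : Fin n → K[X]),
        0 ≤ ⨆ p : Fin n × Fin (m + 1), a (cf f m p) := fun a _ _ _ =>
      Real.iSup_nonneg fun p => a.nonneg _
    have hc : ∀ a : AbsoluteValue K ℝ, 0 ≤ ⨆ s, a (cF2 F s) := fun a =>
      Real.iSup_nonneg fun p => a.nonneg _
    have hbd : ∀ (a : AbsoluteValue K ℝ) (n m : ℕ) (f : Fin n → K[X])
        (_ : ∀ i, (f i).natDegree ≤ m) (i : Fin n),
        Bd a (⨆ p : Fin n × Fin (m + 1), a (cf f m p)) (f i) := by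
      intro a n m f hd i k
      by_cases hk : k ≤ m
      · exact le_ciSup (f := fun p : Fin n × Fin (m + 1) => a (cf f m p))
          (Set.finite_range _).bddAbove (i, ⟨k, by omega⟩)
      · have h3 : (f i).coeff k = 0 := Polynomial.coeff_eq_zero_of_natDegree_lt (by
          have := hd i
          omega)
        rw [h3, map_zero]
        exact hb a n m f
    have hcf : ∀ (a : AbsoluteValue K ℝ), ∀ s ∈ F.support, a (F.coeff s) ≤ ⨆ s, a (cF2 F s) := by
      intro a s hs
      exact le_ciSup (f := fun s => a (cF2 F s)) (Set.finite_range _).bddAbove ⟨s, hs⟩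
    have hdeg : ∀ s ∈ F.support, (∏ i, f i ^ s (Sum.inl i)).natDegree ≤ a * q ∧
        (∏ i, g i ^ s (Sum.inr i)).natDegree ≤ b * r := by
      intro s hs
      obtain ⟨h1, h2⟩ := supp_sum2 F q r hF s hs
      have h3 := prod_deg f a hf (fun i => s (Sum.inl i))
      have h4 := prod_deg g b hg (fun i => s (Sum.inr i))
      rw [h1] at h3
      rw [h2] at h4
      exact ⟨h3, h4⟩
    refine ⟨?_, fun v k => ?_, fun w k => ?_⟩
    · rw [aeval_eq2]
      refine Polynomial.natDegree_sum_le_of_forall_le _ _ fun s hs => ?_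
      obtain ⟨h1, h2⟩ := hdeg s hs
      refine (Polynomial.natDegree_C_mul_le _ _).trans ?_
      exact Polynomial.natDegree_mul_le.trans (add_le_add h1 h2)
    · rw [coeff_eq2]
      have hA := hb (fv v) n₁ a f
      have hB := hb (fv v) n₂ b g
      have hC := hc (fv v)
      have hbA := hbd (fv v) n₁ a f hf
      have hbB := hbd (fv v) n₂ b g hg
      have hcF := hcf (fv v)
      have key : ∀ A B C : ℝ, 0 ≤ A → 0 ≤ B → 0 ≤ C → (∀ i, Bd (fv v) A (f i)) →
          (∀ i, Bd (fv v) B (g i)) → (∀ s ∈ F.support, fv v (F.coeff s) ≤ C) →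
          fv v (∑ s ∈ F.support, F.coeff s *
            ((∏ i, f i ^ s (Sum.inl i)) * ∏ i, g i ^ s (Sum.inr i)).coeff k) ≤
            C * A ^ q * B ^ r := by
        intro A B C hA hB hC hbA hbB hcF
        refine na_sum (fv v) (fv_na v) _ _ _ (by positivity) fun s hs => ?_
        rw [map_mul]
        obtain ⟨h1, h2⟩ := supp_sum2 F q r hF s hs
        have h3 := prod_bd (fv v) a 1 zero_le_one
          (fun g f b b' _ hb hb' hg hf => na_mul (fv v) (fv_na v) g f b b' hb hb' hg hf) f hf A hA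
          hbA (fun i => s (Sum.inl i)) univ
        have h4 := prod_bd (fv v) b 1 zero_le_one
          (fun g f b b' _ hb hb' hg hf => na_mul (fv v) (fv_na v) g f b b' hb hb' hg hf) g hg B hB
          hbB (fun i => s (Sum.inr i)) univ
        rw [h1, one_mul] at h3
        rw [h2, one_mul] at h4
        have h5 := na_mul (fv v) (fv_na v) _ _ _ _ (pow_nonneg hA q) (pow_nonneg hB r) h3 h4 k
        rw [one_mul] at h5
        rw [mul_assoc C]
        exact mul_le_mul (hcF s hs) h5 ((fv v).nonneg _) hC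
      exact key _ _ _ hA hB hC hbA hbB hcF
    · rw [coeff_eq2]
      have hA := hb w.1 n₁ a f
      have hB := hb w.1 n₂ b g
      have hC := hc w.1
      have hbA := hbd w.1 n₁ a f hf
      have hbB := hbd w.1 n₂ b g hg
      have hcF := hcf w.1
      have key : ∀ A B C : ℝ, 0 ≤ A → 0 ≤ B → 0 ≤ C → (∀ i, Bd w.1 A (f i)) →
          (∀ i, Bd w.1 B (g i)) → (∀ s ∈ F.support, w.1 (F.coeff s) ≤ C) →
          w.1 (∑ s ∈ F.support, F.coeff s *
            ((∏ i, f i ^ s (Sum.inl i)) * ∏ i, g i ^ s (Sum.inr i)).coeff k) ≤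
            ((q : ℝ) + r + 1) ^ (n₁ + n₂) *
              (((a : ℝ) + 1) ^ q * (((b * r : ℕ) : ℝ) + 1) * ((b : ℝ) + 1) ^ r) *
              (C * A ^ q * B ^ r) := by
        intro A B C hA hB hC hbA hbB hcF
        have h0 : ∀ s ∈ F.support, w.1 (F.coeff s *
            ((∏ i, f i ^ s (Sum.inl i)) * ∏ i, g i ^ s (Sum.inr i)).coeff k) ≤
            C * ((((a : ℝ) + 1) * A) ^ q * ((((b * r : ℕ) : ℝ) + 1) * (((b : ℝ) + 1) * B) ^ r)) := by
          intro s hs
          rw [map_mul]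
          obtain ⟨h1, h2⟩ := supp_sum2 F q r hF s hs
          have h3 := prod_bd w.1 a ((a : ℝ) + 1) (by positivity)
            (fun g f b b' hd hb hb' hg hf => ar_mul w.1 a g f hd b b' hb hb' hg hf) f hf A hA
            hbA (fun i => s (Sum.inl i)) univ
          have h4 := prod_bd w.1 b ((b : ℝ) + 1) (by positivity)
            (fun g f b' b'' hd hb hb' hg hf => ar_mul w.1 b g f hd b' b'' hb hb' hg hf) g hg B hB
            hbB (fun i => s (Sum.inr i)) univ
          rw [h1] at h3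
          rw [h2] at h4
          have h5 := ar_mul w.1 (b * r) _ _ (hdeg s hs).2 _ _ (by positivity) (by positivity)
            h3 h4 k
          exact mul_le_mul (hcF s hs) h5 (w.1.nonneg _) hC
        calc w.1 (∑ s ∈ F.support, F.coeff s *
              ((∏ i, f i ^ s (Sum.inl i)) * ∏ i, g i ^ s (Sum.inr i)).coeff k)
            ≤ ∑ s ∈ F.support, w.1 (F.coeff s *
              ((∏ i, f i ^ s (Sum.inl i)) * ∏ i, g i ^ s (Sum.inr i)).coeff k) := w.1.sum_le _ _
          _ ≤ ∑ s ∈ F.support, C * ((((a : ℝ) + 1) * A) ^ q *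
              ((((b * r : ℕ) : ℝ) + 1) * (((b : ℝ) + 1) * B) ^ r)) := Finset.sum_le_sum h0
          _ = F.support.card * (C * ((((a : ℝ) + 1) * A) ^ q *
              ((((b * r : ℕ) : ℝ) + 1) * (((b : ℝ) + 1) * B) ^ r))) := by
              rw [Finset.sum_const, nsmul_eq_mul]
          _ ≤ ((q : ℝ) + r + 1) ^ (n₁ + n₂) * (C * ((((a : ℝ) + 1) * A) ^ q *
              ((((b * r : ℕ) : ℝ) + 1) * (((b : ℝ) + 1) * B) ^ r))) := by
              refine mul_le_mul_of_nonneg_right ?_ (by positivity)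
              exact_mod_cast supp_card2 F q r hF
          _ = ((q : ℝ) + r + 1) ^ (n₁ + n₂) *
              (((a : ℝ) + 1) ^ q * (((b * r : ℕ) : ℝ) + 1) * ((b : ℝ) + 1) ^ r) *
              (C * A ^ q * B ^ r) := by
              rw [mul_pow, mul_pow]
              ring
      exact key _ _ _ hA hB hC hbA hbB hcF

end Pool.Agent.Y557.U
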