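import Pool.Agent.Y557.U.TL

/-!
Families of curves with a parameter on the line: upper bounds for the number of exceptional points
and of all points (helper557).
-/

set_option autoImplicit false

namespace Pool.Agent.Y557.U

open NumberField IsDedekindDomain Finset Polynomial
open Pool.Agent.H691R3 Pool.Agent.TH876.Loc
open Pool.Agent.TH876.KR (form localHeight localHeight_nonneg localHeight_eq localHeight_pos_iff
  log_Nv_pos' m2 fv_sub_le)
open Pool.Agent.Y730.QP (cnt PQ counting_le supp_finite term_nonneg log_Nv_le_localHeight)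
open Pool.Agent.Y557.NF

variable {K : Type} [Field K] [NumberField K]

theorem t1_ne (t : K) : (![t, 1] : Fin 2 → K) ≠ 0 := by
  intro h
  have := congrFun h 1
  simp at this

theorem t_inj {s t : K} (h : Projectivization.mk K ![s, 1] (t1_ne s) =
    Projectivization.mk K ![t, 1] (t1_ne t)) : s = t := by
  rw [Projectivization.mk_eq_mk_iff'] at h
  obtain ⟨c, hc⟩ := h
  have h0 := congrFun hc 0
  have h1 := congrFun hc 1
  simp at h0 h1
  rw [h1, one_mul] at h0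
  exact h0.symm

/-- the number of points of a family of curves: `Z` classifies the curves, and each point is
determined by the class of the curve and the parameter in a fixed finite set -/
theorem family_card {Y Z J : Type} (κ : J → Z) (pt : J → K → Y)
    (hpt : ∀ j j', κ j = κ j' → pt j = pt j') {ZB : Set Z} (hZB : ZB.Finite)
    {P : Set (Projectivization K (Fin 2 → K))} (hP : P.Finite) {E : Set Y}
    (hE : ∀ y ∈ E, ∃ j t, κ j ∈ ZB ∧ Projectivization.mk K ![t, 1] (t1_ne t) ∈ P ∧ y = pt j t) :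
    E.Finite ∧ (E.ncard : ℝ) ≤ (ZB.ncard : ℝ) * (P.ncard : ℝ) := by
  classical
  rcases Set.eq_empty_or_nonempty E with h0 | ⟨y0, hy0⟩
  · rw [h0]
    refine ⟨Set.finite_empty, ?_⟩
    rw [Set.ncard_empty, Nat.cast_zero]
    positivity
  obtain ⟨g, hg⟩ : ∃ g : Z × Projectivization K (Fin 2 → K) → Y, g = fun p =>
      if h : ∃ j t, κ j = p.1 ∧ Projectivization.mk K ![t, 1] (t1_ne t) = p.2 then
        pt h.choose h.choose_spec.choose else y0 := ⟨_, rfl⟩
  have hsub : E ⊆ g '' (ZB ×ˢ P) := by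
    intro y hy
    obtain ⟨j, t, h1, h2, rfl⟩ := hE y hy
    refine ⟨(κ j, Projectivization.mk K ![t, 1] (t1_ne t)), ⟨h1, h2⟩, ?_⟩
    have hex : ∃ j' t', κ j' = κ j ∧ Projectivization.mk K ![t', 1] (t1_ne t') =
        Projectivization.mk K ![t, 1] (t1_ne t) := ⟨j, t, rfl, rfl⟩
    rw [hg]
    show (if h : ∃ j' t', κ j' = κ j ∧ Projectivization.mk K ![t', 1] (t1_ne t') =
        Projectivization.mk K ![t, 1] (t1_ne t) then
        pt h.choose h.choose_spec.choose else y0) = pt j t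
    rw [dif_pos hex]
    have e1 := hex.choose_spec.choose_spec.1
    have e2 := t_inj hex.choose_spec.choose_spec.2
    rw [hpt _ _ e1, e2]
  have hfin : (ZB ×ˢ P).Finite := hZB.prod hP
  have hfin' := hfin.image g
  refine ⟨hfin'.subset hsub, ?_⟩
  have h1 : E.ncard ≤ (ZB ×ˢ P).ncard :=
    (Set.ncard_le_ncard hsub hfin').trans (Set.ncard_image_le hfin)
  rw [Set.ncard_prod] at h1
  exact_mod_cast h1

/-- the number of points of small height of the line -/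
theorem few_small2 (K : Type) [Field K] [NumberField K] (δ : ℝ) (hδ : 0 < δ) :
    ∃ C : ℝ, 0 < C ∧ ∀ B : ℝ, 0 ≤ B →
      (HB K B).Finite ∧ ((HB K B).ncard : ℝ) ≤ C * Real.exp ((2 + δ) * B) := by
  classical
  obtain ⟨C0, hC0⟩ := cnt_le_logHeight (∅ : Set (Pr K)) (a3 K)
  obtain ⟨C1, hC1⟩ := Pool.Agent.Y728.line_final K ∅ Set.finite_empty 3 le_rfl (a3 K) (a3_ne K)
    (δ / 3) (by positivity)
  obtain ⟨F, hF⟩ : ∃ F : Finset (Projectivization K (Fin 2 → K)), F =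
      Finset.univ.image fun i : Fin 3 => Projectivization.mk K (a3 K i) (a3_ne0 K i) := ⟨_, rfl⟩
  have hFc : F.card ≤ 3 := by
    rw [hF]
    refine Finset.card_image_le.trans ?_
    rw [Finset.card_univ, Fintype.card_fin]
  refine ⟨|C1| * Real.exp ((2 / 3 + δ / 3) * |C0|) + 3, by positivity, fun B hB => ?_⟩
  have hX1 : 1 ≤ Real.exp (3 * B + |C0|) := Real.one_le_exp (by positivity)
  obtain ⟨hfin, hcard⟩ := hC1 _ hX1
  have hsub : HB K B ⊆ Pool.Agent.Y728.PtsQ ∅ (a3 K) (Real.exp (3 * B + |C0|)) ∪ F := by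
    rintro P ⟨x, hx, e, hB'⟩
    by_cases h : ∀ i, form (a3 K i) x ≠ 0
    · left
      refine ⟨x, hx, e, h, Real.exp_le_exp.2 ?_⟩
      have h1 := counting_le (∅ : Set (Pr K)) (a3_ne0 K) hx h
      have h2 := hC0 x hx h
      have h3 := le_abs_self C0
      push_cast at h2
      linarith
    · right
      push Not at h
      obtain ⟨i, hi⟩ := h
      rw [Finset.mem_coe, hF, Finset.mem_image]
      exact ⟨i, Finset.mem_univ _, by rw [e]; exact (mk_eq_of_form (a3_ne0 K i) hx hi).symm⟩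
  have hfinU := hfin.union F.finite_toSet
  refine ⟨hfinU.subset hsub, ?_⟩
  have h1 : ((HB K B).ncard : ℝ) ≤
      ((Pool.Agent.Y728.PtsQ ∅ (a3 K) (Real.exp (3 * B + |C0|))).ncard : ℝ) + 3 := by
    have h2 := (Set.ncard_le_ncard hsub hfinU).trans (Set.ncard_union_le _ _)
    rw [Set.ncard_coe_finset] at h2
    have h3 : (HB K B).ncard ≤
      (Pool.Agent.Y728.PtsQ ∅ (a3 K) (Real.exp (3 * B + |C0|))).ncard + 3 := by omega
    exact_mod_cast h3
  have e1 : Real.exp (3 * B + |C0|) ^ (2 / ((3 : ℕ) : ℝ) + δ / 3) =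
      Real.exp ((2 / 3 + δ / 3) * |C0|) * Real.exp ((2 + δ) * B) := by
    rw [← Real.exp_mul, ← Real.exp_add]
    congr 1
    push_cast
    ring
  rw [e1] at hcard
  have h4 : C1 * (Real.exp ((2 / 3 + δ / 3) * |C0|) * Real.exp ((2 + δ) * B)) ≤
      |C1| * (Real.exp ((2 / 3 + δ / 3) * |C0|) * Real.exp ((2 + δ) * B)) :=
    mul_le_mul_of_nonneg_right (le_abs_self _) (by positivity)
  have h5 : 1 ≤ Real.exp ((2 + δ) * B) := Real.one_le_exp (by positivity)
  calc ((HB K B).ncard : ℝ) ≤ |C1| * (Real.exp ((2 / 3 + δ / 3) * |C0|) *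
        Real.exp ((2 + δ) * B)) + 3 := by linarith
    _ ≤ |C1| * (Real.exp ((2 / 3 + δ / 3) * |C0|) * Real.exp ((2 + δ) * B)) +
        3 * Real.exp ((2 + δ) * B) := by linarith
    _ = _ := by ring

/-- the data of a family of curves: `H` is the size, `κ` the class, `pt` the parametrisation -/
structure Fam (K : Type) [Field K] [NumberField K] (Y Z J : Type) where
  /-- the size of a curve -/
  H : J → ℝ
  /-- its class -/
  κ : J → Z
  /-- its parametrisation -/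
  pt : J → K → Y
  /-- the number of points at infinity -/
  q : J → ℕ
  /-- the points at infinity -/
  α : ∀ j, Fin (q j) → Fin 2 → K
  /-- the bad primes -/
  T : J → Finset (Pr K)
  /-- constants -/
  C1 : ℝ
  /-- constants -/
  a : ℝ
  /-- constants -/
  C2 : ℝ
  hH : ∀ j, 0 ≤ H j
  hC1 : 0 < C1
  ha : 0 < a
  hC2 : 0 ≤ C2
  hpt : ∀ j j', κ j = κ j' → pt j = pt j'
  hcount : ∀ B : ℝ, 0 ≤ B → ({z | ∃ j, κ j = z ∧ H j ≤ B}.Finite ∧
    ({z | ∃ j, κ j = z ∧ H j ≤ B}.ncard : ℝ) ≤ C1 * Real.exp (a * B))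
  hα : ∀ j i, Height.logHeight (α j i) ≤ C2 * (H j + 1)
  hT : ∀ j, ∑ v ∈ T j, Real.log (Nv v) ≤ C2 * (H j + 1)
  hαd : ∀ j i i', i ≠ i' → form (α j i) (α j i') ≠ 0

variable {Y Z J : Type}

/-- the exceptional points -/
def Fam.E (D : Fam K Y Z J) (ε C3 A η Λ : ℝ) : Set Y :=
  {y | ∃ j t, 3 ≤ D.q j ∧ D.H j ≤ η * Λ ∧ y = D.pt j t ∧
    (∀ i, form (D.α j i) ![t, 1] ≠ 0) ∧
    cnt (D.T j : Set (Pr K)) (D.α j) ![t, 1] ≤ D.q j / 3 * Λ ∧
    cnt (D.T j : Set (Pr K)) (D.α j) ![t, 1] <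
      (1 - ε) * D.q j * Height.logHeight ![t, 1] + C3 * D.H j + A}

/-- **upper bound for the number of exceptional points of a family of curves** -/
theorem core_upper (D : Fam K Y Z J) (ε : ℝ) (hε : 0 < ε) (hε1 : ε ≤ 1) (C3 : ℝ) (hC3 : 0 ≤ C3) :
    ∃ η0 ν : ℝ, 0 < η0 ∧ 0 < ν ∧ ν ≤ 1 / 3 ∧ ∀ η : ℝ, 0 ≤ η → η ≤ η0 → ∀ A : ℝ,
      ∃ C : ℝ, 0 < C ∧ ∀ Λ : ℝ, 0 ≤ Λ → (D.E ε C3 A η Λ).Finite ∧
        ((D.E ε C3 A η Λ).ncard : ℝ) ≤ C * Real.exp ((2 / 3 - ν) * Λ) := by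
  classical
  obtain ⟨η1, ν1, hη1, hν1, hν1', hsim⟩ := sim_upper K (ε / 2) (by positivity) (by linarith)
  obtain ⟨C0, hC0, hfew⟩ := few_small K
  obtain ⟨δ, hδ⟩ : ∃ δ : ℝ, δ = 1 / 20 := ⟨_, rfl⟩
  have hδ0 : 0 < δ := by rw [hδ]; norm_num
  have ha := D.ha
  have hC2 := D.hC2
  obtain ⟨η0, hη0⟩ : ∃ η0 : ℝ, η0 = min (min (1 / (4 * D.a)) (ν1 / (2 * D.a)))
      (min (η1 / (2 * (D.C2 + 1))) (3 * ε * δ / (2 * (C3 + 1)))) := ⟨_, rfl⟩
  have hη00 : 0 < η0 := by
    rw [hη0]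
    refine lt_min (lt_min (by positivity) (by positivity)) (lt_min (by positivity) (by positivity))
  have k1 : η0 ≤ 1 / (4 * D.a) := by
    rw [hη0]; exact (min_le_left _ _).trans (min_le_left _ _)
  have k2 : η0 ≤ ν1 / (2 * D.a) := by
    rw [hη0]; exact (min_le_left _ _).trans (min_le_right _ _)
  have k3 : η0 ≤ η1 / (2 * (D.C2 + 1)) := by
    rw [hη0]; exact (min_le_right _ _).trans (min_le_left _ _)
  have k4 : η0 ≤ 3 * ε * δ / (2 * (C3 + 1)) := by
    rw [hη0]; exact (min_le_right _ _).trans (min_le_right _ _)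
  rw [le_div_iff₀ (by positivity)] at k1 k2 k3 k4
  refine ⟨η0, ν1 / 2, hη00, by positivity, by linarith, fun η hη hηle A => ?_⟩
  obtain ⟨C4, hC4, hES⟩ := hsim η1 hη1.le le_rfl
  obtain ⟨Λ1, hΛ1⟩ : ∃ Λ1 : ℝ, Λ1 = 2 * D.C2 / η1 := ⟨_, rfl⟩
  have hΛ10 : 0 ≤ Λ1 := by rw [hΛ1]; positivity
  obtain ⟨c1, hc1⟩ : ∃ c1 : ℝ, c1 = |A| / ε := ⟨_, rfl⟩
  have hc10 : 0 ≤ c1 := by rw [hc1]; positivity
  have ka : D.a * η ≤ 1 / 4 := by
    have := mul_le_mul_of_nonneg_left hηle ha.le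
    linarith
  have kb : D.a * η ≤ ν1 / 2 := by
    have := mul_le_mul_of_nonneg_left hηle ha.le
    linarith
  have kc : D.C2 * η ≤ η1 / 2 := by
    have := mul_le_mul_of_nonneg_left hηle hC2
    have h2 : D.C2 * η0 ≤ (D.C2 + 1) * η0 := by linarith
    linarith
  have kd : C3 * η ≤ 3 * ε * δ / 2 := by
    have := mul_le_mul_of_nonneg_left hηle hC3
    have h2 : C3 * η0 ≤ (C3 + 1) * η0 := by linarith
    linarith
  refine ⟨D.C1 * (C0 * Real.exp (5 * c1) + C4 * Real.exp ((2 / 3 - ν1) * Λ1)),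
    mul_pos D.hC1 (by positivity), fun Λ hΛ => ?_⟩
  obtain ⟨hZf, hZc⟩ := D.hcount (η * Λ) (by positivity)
  obtain ⟨hBf, hBc⟩ := hfew (δ * Λ + c1) (by positivity)
  obtain ⟨hEf, hEc⟩ := hES (Λ + Λ1) (by positivity)
  obtain ⟨hf, hc⟩ := family_card D.κ D.pt D.hpt hZf (hBf.union hEf) (E := D.E ε C3 A η Λ) (by
    rintro y ⟨j, t, h3, hH, rfl, hform, hc1', hc2'⟩
    refine ⟨j, t, ⟨j, rfl, hH⟩, ?_, rfl⟩
    by_cases hsm : Height.logHeight ![t, 1] ≤ δ * Λ + c1
    · left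
      exact ⟨![t, 1], t1_ne t, rfl, hsm⟩
    right
    push Not at hsm
    have hq3 : (3 : ℝ) ≤ D.q j := by exact_mod_cast h3
    have hb : D.C2 * (D.H j + 1) ≤ η1 * (Λ + Λ1) := by
      have e1 : η1 * Λ1 = 2 * D.C2 := by rw [hΛ1]; field_simp
      have e2 : D.C2 * D.H j ≤ D.C2 * η * Λ := by
        rw [mul_assoc]
        exact mul_le_mul_of_nonneg_left hH hC2
      have e3 : D.C2 * η * Λ ≤ η1 / 2 * Λ := mul_le_mul_of_nonneg_right kc hΛ
      nlinarith [mul_nonneg hη1.le hΛ]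
    refine ⟨![t, 1], t1_ne t, rfl, D.q j, D.α j, D.T j, h3, D.hαd j,
      fun i => (D.hα j i).trans hb, (D.hT j).trans hb, hform, hc1'.trans ?_, lt_of_lt_of_le hc2' ?_⟩
    · exact mul_le_mul_of_nonneg_left (by linarith) (by positivity)
    · have e4 : C3 * D.H j ≤ 3 * ε * δ / 2 * Λ := by
        calc C3 * D.H j ≤ C3 * (η * Λ) := mul_le_mul_of_nonneg_left hH hC3
          _ = C3 * η * Λ := by ring
          _ ≤ _ := mul_le_mul_of_nonneg_right kd hΛ
      have e5 : 3 * ε * δ / 2 * Λ + 3 / 2 * |A| ≤ ε / 2 * (D.q j * Height.logHeight ![t, 1]) := by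
        have e6 : ε * c1 = |A| := by rw [hc1]; field_simp
        have e7 : 3 * (δ * Λ + c1) ≤ D.q j * Height.logHeight ![t, 1] :=
          mul_le_mul hq3 hsm.le (by positivity) (by positivity)
        have e8 := mul_le_mul_of_nonneg_left e7 (by positivity : 0 ≤ ε / 2)
        have e9 : ε / 2 * (3 * (δ * Λ + c1)) = 3 * ε * δ / 2 * Λ + 3 / 2 * (ε * c1) := by ring
        rw [e9, e6] at e8
        exact e8
      have e10 : A ≤ |A| := le_abs_self A
      have e11 : 0 ≤ |A| := abs_nonneg A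
      have e12 : (1 - ε / 2) * D.q j * Height.logHeight ![t, 1] =
        (1 - ε) * D.q j * Height.logHeight ![t, 1] + ε / 2 * (D.q j * Height.logHeight ![t, 1]) := by
        ring
      rw [e12]
      linarith)
  refine ⟨hf, hc.trans ?_⟩
  have h1 : ((HB K (δ * Λ + c1) ∪ ES K (ε / 2) η1 (Λ + Λ1)).ncard : ℝ) ≤
      C0 * Real.exp (5 * c1) * Real.exp (Λ / 4) +
        C4 * Real.exp ((2 / 3 - ν1) * Λ1) * Real.exp ((2 / 3 - ν1) * Λ) := by
    have h2 : ((HB K (δ * Λ + c1) ∪ ES K (ε / 2) η1 (Λ + Λ1)).ncard : ℝ) ≤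
        ((HB K (δ * Λ + c1)).ncard : ℝ) + ((ES K (ε / 2) η1 (Λ + Λ1)).ncard : ℝ) := by
      exact_mod_cast Set.ncard_union_le _ _
    have e1 : Real.exp (5 * (δ * Λ + c1)) = Real.exp (5 * c1) * Real.exp (Λ / 4) := by
      rw [← Real.exp_add, hδ]
      congr 1
      ring
    have e2 : Real.exp ((2 / 3 - ν1) * (Λ + Λ1)) =
        Real.exp ((2 / 3 - ν1) * Λ1) * Real.exp ((2 / 3 - ν1) * Λ) := by
      rw [← Real.exp_add]
      congr 1
      ring
    rw [e1] at hBc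
    rw [e2] at hEc
    linarith
  have h3 : Real.exp (D.a * (η * Λ)) * Real.exp (Λ / 4) ≤ Real.exp ((2 / 3 - ν1 / 2) * Λ) := by
    rw [← Real.exp_add]
    refine Real.exp_le_exp.2 ?_
    have := mul_le_mul_of_nonneg_right ka hΛ
    nlinarith
  have h4 : Real.exp (D.a * (η * Λ)) * Real.exp ((2 / 3 - ν1) * Λ) ≤
      Real.exp ((2 / 3 - ν1 / 2) * Λ) := by
    rw [← Real.exp_add]
    refine Real.exp_le_exp.2 ?_
    have := mul_le_mul_of_nonneg_right kb hΛ
    nlinarith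
  have hC1 := D.hC1
  calc _ ≤ D.C1 * Real.exp (D.a * (η * Λ)) *
        (C0 * Real.exp (5 * c1) * Real.exp (Λ / 4) +
        C4 * Real.exp ((2 / 3 - ν1) * Λ1) * Real.exp ((2 / 3 - ν1) * Λ)) :=
        mul_le_mul hZc h1 (Nat.cast_nonneg _) (by positivity)
    _ = D.C1 * (C0 * Real.exp (5 * c1) * (Real.exp (D.a * (η * Λ)) * Real.exp (Λ / 4)) +
        C4 * Real.exp ((2 / 3 - ν1) * Λ1) *
          (Real.exp (D.a * (η * Λ)) * Real.exp ((2 / 3 - ν1) * Λ))) := by ring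
    _ ≤ D.C1 * (C0 * Real.exp (5 * c1) * Real.exp ((2 / 3 - ν1 / 2) * Λ) +
        C4 * Real.exp ((2 / 3 - ν1) * Λ1) * Real.exp ((2 / 3 - ν1 / 2) * Λ)) := by
        refine mul_le_mul_of_nonneg_left (add_le_add ?_ ?_) hC1.le
        · exact mul_le_mul_of_nonneg_left h3 (by positivity)
        · exact mul_le_mul_of_nonneg_left h4 (by positivity)
    _ = _ := by ring

end Pool.Agent.Y557.U
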