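import Pool.Agent.Y557.U.TL

/-!
A polynomial all of whose zeros are rational: its zeros on the line, the primes where two of them
are congruent, and its normalised local heights (helper557).
-/

set_option autoImplicit false

namespace Pool.Agent.Y557.U

open NumberField IsDedekindDomain Finset Polynomial
open Pool.Agent.H691R3 Pool.Agent.TH876.Loc
open Pool.Agent.TH876.KR (form localHeight localHeight_nonneg localHeight_eq localHeight_pos_iff
  log_Nv_pos' m2 fv_sub_le)
open Pool.Agent.Y730.QP (cnt PQ counting_le supp_finite term_nonneg log_Nv_le_localHeight)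
open Pool.Agent.Y557.NF

variable {K : Type} [Field K] [NumberField K]

/-- the normalised local height of the divisor of zeros of a polynomial of formal degree `N` -/
noncomputable def lamG (N : ℕ) (G : K[X]) (v : Pr K) (t : K) : ℝ :=
  Real.log ((⨆ k : Fin (N + 1), fv v (G.coeff k)) * max (fv v t) 1 ^ N / fv v (G.eval t))

/-- the height of a polynomial of formal degree `N` -/
noncomputable def hG (N : ℕ) (G : K[X]) : ℝ := Height.logHeight (fun k : Fin (N + 1) => G.coeff k)

omit [NumberField K] in
theorem aS_ne (s : Finset (Option K)) (j : Fin s.card) : aS s j ≠ 0 := by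
  unfold aS
  intro h
  cases hc : (s.equivFin.symm j).1 with
  | none =>
    rw [hc] at h
    have := congrFun h 0
    simp [cd] at this
  | some r =>
    rw [hc] at h
    have := congrFun h 1
    simp [cd] at this

omit [NumberField K] in
theorem card_zs_le {G : K[X]} {N : ℕ} (hN : G.natDegree ≤ N) : (zs G N).card ≤ N := by
  classical
  rw [card_zs]
  have h1 : G.roots.toFinset.card ≤ G.natDegree :=
    (Multiset.toFinset_card_le _).trans (card_roots' G)
  have h2 : (G.roots.toFinset.card + if G.natDegree < N then 1 else 0) ≤ N := by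
    split_ifs <;> omega
  convert h2

theorem lamG_pos_iff (hg : S_GAUSS K) {G : K[X]} {N : ℕ} (h0 : G ≠ 0) (hs : G.Splits)
    (hN : G.natDegree ≤ N) {t : K} (ht : G.eval t ≠ 0) (v : Pr K) :
    0 < lamG N G v t ↔ ∃ j, 0 < localHeight v (aS (zs G N) j) ![t, 1] := by
  have e : lamG N G v t = _ := hg G N h0 hs hN v t ht
  have hr : ∀ r ∈ G.roots, form ![r, 1] ![t, 1] ≠ 0 := by
    intro r hr h
    rw [mem_roots h0] at hr
    apply ht
    have : r = t := by
      unfold form at h
      simp only [Matrix.cons_val_zero, Matrix.cons_val_one, mul_one, one_mul] at h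
      exact sub_eq_zero.1 h
    rw [← this]
    exact hr
  have hinf : form ![1, 0] ![t, 1] ≠ 0 := by
    unfold form
    simp
  have k1 : ∀ r ∈ G.roots, 0 ≤ localHeight v ![r, 1] ![t, 1] := fun r h =>
    localHeight_nonneg v (hr r h)
  have k2 : 0 ≤ localHeight v ![1, 0] ![t, 1] := localHeight_nonneg v hinf
  have s1 : 0 ≤ (G.roots.map fun r => localHeight v ![r, 1] ![t, 1]).sum := by
    refine Multiset.sum_nonneg fun y hy => ?_
    obtain ⟨r, hr', rfl⟩ := Multiset.mem_map.1 hy
    exact k1 r hr'
  have s2 : 0 ≤ ((N - G.natDegree : ℕ) : ℝ) * localHeight v ![1, 0] ![t, 1] :=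
    mul_nonneg (Nat.cast_nonneg _) k2
  rw [e, aS_spec (s := zs G N) (p := fun a => 0 < localHeight v a ![t, 1])]
  constructor
  · intro hpos
    by_contra hcon
    push Not at hcon
    have z1 : (G.roots.map fun r => localHeight v ![r, 1] ![t, 1]).sum = 0 := by
      refine Multiset.sum_eq_zero fun y hy => ?_
      obtain ⟨r, hr', rfl⟩ := Multiset.mem_map.1 hy
      refine le_antisymm ?_ (k1 r hr')
      exact hcon (some r) ((mem_zs_some h0).2 ((mem_roots h0).1 hr'))
    have z2 : ((N - G.natDegree : ℕ) : ℝ) * localHeight v ![1, 0] ![t, 1] = 0 := by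
      by_cases hlt : G.natDegree < N
      · have h3 : localHeight v ![1, 0] ![t, 1] = 0 :=
          le_antisymm (hcon none (mem_zs_none.2 hlt)) k2
        rw [h3, mul_zero]
      · have h4 : N - G.natDegree = 0 := by omega
        rw [h4, Nat.cast_zero, zero_mul]
    rw [z1, z2, add_zero] at hpos
    exact lt_irrefl _ hpos
  · rintro ⟨a, ha, hpos⟩
    cases a with
    | none =>
      have h3 := mem_zs_none.1 ha
      have h4 : (0 : ℝ) < ((N - G.natDegree : ℕ) : ℝ) := by
        exact_mod_cast (by omega : 0 < N - G.natDegree)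
      have h5 := mul_pos h4 (show 0 < localHeight v ![1, 0] ![t, 1] from hpos)
      linarith
    | some r =>
      have h3 : r ∈ G.roots := (mem_roots h0).2 ((mem_zs_some h0).1 ha)
      have h4 : localHeight v ![r, 1] ![t, 1] ≤
          (G.roots.map fun r => localHeight v ![r, 1] ![t, 1]).sum := by
        refine Multiset.single_le_sum (fun y hy => ?_) _ (Multiset.mem_map_of_mem _ h3)
        obtain ⟨r', hr', rfl⟩ := Multiset.mem_map.1 hy
        exact k1 r' hr'
      have h5 : 0 < localHeight v ![r, 1] ![t, 1] := hpos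
      linarith

theorem G_lemma (hroot : S_ROOT K) (N : ℕ) :
    ∃ C : ℝ, 0 ≤ C ∧ ∀ G : K[X], G ≠ 0 → G.Splits → G.natDegree ≤ N →
      (∀ j, Height.logHeight (aS (zs G N) j) ≤ hG N G + C) ∧
      ∃ T : Finset (Pr K), ∑ v ∈ T, Real.log (Nv v) ≤ C * (hG N G + 1) ∧
        ∀ t : K, G.eval t ≠ 0 → ∀ v : Pr K, v ∉ T → ∀ i j, i ≠ j →
          0 < localHeight v (aS (zs G N) i) ![t, 1] →
          ¬ 0 < localHeight v (aS (zs G N) j) ![t, 1] := by
  classical
  obtain ⟨C0, hC0⟩ := hroot N
  obtain ⟨c, hc⟩ : ∃ c : ℝ, c = (Module.finrank ℚ K : ℝ) * Real.log 2 := ⟨_, rfl⟩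
  have hc0 : 0 ≤ c := by rw [hc]; positivity
  obtain ⟨D, hD⟩ : ∃ D : ℝ, D = |C0| + Height.logHeight (![1, 0] : Fin 2 → K) := ⟨_, rfl⟩
  have hD0 : 0 ≤ D := by rw [hD]; exact add_nonneg (abs_nonneg _) (Height.logHeight_nonneg _)
  obtain ⟨C, hC⟩ : ∃ C : ℝ, C = (N : ℝ) ^ 2 * (2 + 2 * D + c) + D := ⟨_, rfl⟩
  have hN0 : (0 : ℝ) ≤ (N : ℝ) ^ 2 := by positivity
  have hDC : D ≤ C := by
    rw [hC]
    have := mul_nonneg hN0 (by linarith : (0 : ℝ) ≤ 2 + 2 * D + c)
    linarith
  refine ⟨C, hD0.trans hDC, fun G h0 hs hN => ?_⟩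
  have hH0 : 0 ≤ hG N G := Height.logHeight_nonneg _
  have hh : ∀ j, Height.logHeight (aS (zs G N) j) ≤ hG N G + D := by
    intro j
    by_contra hcon
    obtain ⟨a, ha, h1⟩ := (aS_spec (s := zs G N)
      (p := fun a => ¬ Height.logHeight a ≤ hG N G + D)).1 ⟨j, hcon⟩
    apply h1
    cases a with
    | none =>
      show Height.logHeight (![1, 0] : Fin 2 → K) ≤ hG N G + D
      rw [hD]
      have := abs_nonneg C0
      linarith
    | some r =>
      show Height.logHeight (![r, 1] : Fin 2 → K) ≤ hG N G + D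
      have h2 := hC0 G r h0 hN ((mem_zs_some h0).1 ha)
      have h3 := le_abs_self C0
      have h4 : 0 ≤ Height.logHeight (![1, 0] : Fin 2 → K) := Height.logHeight_nonneg _
      rw [hD]
      unfold hG
      linarith
  obtain ⟨q, hq⟩ : ∃ q, q = (zs G N).card := ⟨_, rfl⟩
  have hqN : q ≤ N := by rw [hq]; exact card_zs_le hN
  obtain ⟨Φ, hΦ⟩ : ∃ Φ : Pr K → ℝ, Φ = fun v => ∑ i : Fin (zs G N).card,
      ∑ j : Fin (zs G N).card, if i ≠ j then localHeight v (aS (zs G N) i) (aS (zs G N) j) else 0 :=
    ⟨_, rfl⟩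
  have hterm : ∀ v i j, 0 ≤ (if i ≠ j then localHeight v (aS (zs G N) i) (aS (zs G N) j) else 0) := by
    intro v i j
    split_ifs with h
    · exact localHeight_nonneg v (form_aS _ i j h)
    · exact le_rfl
  have hle : ∀ v i j, i ≠ j → localHeight v (aS (zs G N) i) (aS (zs G N) j) ≤ Φ v := by
    intro v i j hij
    rw [hΦ]
    have h1 : (if i ≠ j then localHeight v (aS (zs G N) i) (aS (zs G N) j) else 0) ≤
        ∑ j : Fin (zs G N).card,
          if i ≠ j then localHeight v (aS (zs G N) i) (aS (zs G N) j) else 0 :=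
      Finset.single_le_sum (fun j _ => hterm v i j) (Finset.mem_univ j)
    rw [if_pos hij] at h1
    refine h1.trans ?_
    exact Finset.single_le_sum (f := fun i => ∑ j : Fin (zs G N).card,
      if i ≠ j then localHeight v (aS (zs G N) i) (aS (zs G N) j) else 0)
      (fun i _ => Finset.sum_nonneg fun j _ => hterm v i j) (Finset.mem_univ i)
  obtain ⟨T, hT1, hT2⟩ := fin_of_sum_le Φ (C * (hG N G + 1))
    (fun v hv => by
      have h1 : ∃ i j, 0 < (if i ≠ j then localHeight v (aS (zs G N) i) (aS (zs G N) j) else 0) := by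
        by_contra hcon
        push Not at hcon
        have : Φ v ≤ 0 := by
          rw [hΦ]
          exact Finset.sum_nonpos fun i _ => Finset.sum_nonpos fun j _ => hcon i j
        linarith
      obtain ⟨i, j, h2⟩ := h1
      split_ifs at h2 with hij
      · exact (log_Nv_le_localHeight v (form_aS _ i j hij) h2).trans (hle v i j hij)
      · exact absurd h2 (lt_irrefl _))
    (fun V => by
      rw [hΦ, Finset.sum_comm]
      have h1 : ∀ i j : Fin (zs G N).card, ∑ v ∈ V,
          (if i ≠ j then localHeight v (aS (zs G N) i) (aS (zs G N) j) else 0) ≤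
          2 * (hG N G + D) + c := by
        intro i j
        by_cases hij : i ≠ j
        · rw [Finset.sum_congr rfl fun v _ => if_pos hij]
          have h2 := sum_localHeight_le (form_aS (zs G N) i j hij) V
          rw [← hc] at h2
          linarith [hh i, hh j]
        · rw [Finset.sum_eq_zero fun v _ => if_neg hij]
          linarith
      have h2 : ∀ i : Fin (zs G N).card, ∑ v ∈ V, ∑ j : Fin (zs G N).card,
          (if i ≠ j then localHeight v (aS (zs G N) i) (aS (zs G N) j) else 0) ≤
          (N : ℝ) * (2 * (hG N G + D) + c) := by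
        intro i
        rw [Finset.sum_comm]
        refine (Finset.sum_le_sum fun j _ => h1 i j).trans ?_
        rw [Finset.sum_const, Finset.card_univ, Fintype.card_fin, nsmul_eq_mul]
        refine mul_le_mul_of_nonneg_right ?_ (by linarith)
        rw [← hq]
        exact_mod_cast hqN
      refine (Finset.sum_le_sum fun i _ => h2 i).trans ?_
      rw [Finset.sum_const, Finset.card_univ, Fintype.card_fin, nsmul_eq_mul, ← hq]
      have h3 : (q : ℝ) ≤ N := by exact_mod_cast hqN
      have h4 : (0 : ℝ) ≤ (N : ℝ) * (2 * (hG N G + D) + c) := by positivity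
      have h5 := mul_le_mul_of_nonneg_right h3 h4
      have h6 : (N : ℝ) * ((N : ℝ) * (2 * (hG N G + D) + c)) ≤ C * (hG N G + 1) := by
        have e1 : (N : ℝ) * ((N : ℝ) * (2 * (hG N G + D) + c)) =
          (N : ℝ) ^ 2 * (2 * (hG N G + D) + c) := by ring
        rw [e1, hC]
        have e2 : ((N : ℝ) ^ 2 * (2 + 2 * D + c) + D) * (hG N G + 1) =
          (N : ℝ) ^ 2 * ((2 + 2 * D + c) * (hG N G + 1)) + D * (hG N G + 1) := by ring
        rw [e2]
        have h7 : 2 * (hG N G + D) + c ≤ (2 + 2 * D + c) * (hG N G + 1) := by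
          have := mul_nonneg (by linarith : (0 : ℝ) ≤ 2 * D + c) hH0
          nlinarith
        have h8 := mul_le_mul_of_nonneg_left h7 hN0
        have h9 : 0 ≤ D * (hG N G + 1) := mul_nonneg hD0 (by linarith)
        linarith
      linarith)
  refine ⟨fun j => (hh j).trans (by linarith), T, hT2, fun t ht v hv i j hij h1 h2 => hv ?_⟩
  rw [hT1]
  have hmem : t ∈ GG (aS (zs G N)) := (mem_GG_aS h0).2 ht
  exact lt_of_lt_of_le (sep_of (form_aS _ i j hij) (hmem i) (hmem j) h1 h2) (hle v i j hij)

end Pool.Agent.Y557.U
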