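import Pool.Agent.Y557.U.Stm

/-!
Products of polynomials (helper557).
-/

set_option autoImplicit false

namespace Pool.Agent.Y557.U

open NumberField IsDedekindDomain Finset Polynomial
open Pool.Agent.H691R3 Pool.Agent.TH876.Loc

/-- the coefficients of a polynomial of degree at most `N` -/
def gv {K : Type} [Field K] (N : ℕ) (G : K[X]) : Fin (N + 1) → K := fun k => G.coeff k

/-- the maximum of the coefficients of a product one factor of which splits -/
def S_DIV (K : Type) [Field K] [NumberField K] : Prop :=
  ∀ N : ℕ, ∃ A : ℝ, 1 ≤ A ∧ ∀ G R : K[X], G.Splits → G.natDegree ≤ N → R.natDegree ≤ N →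
    (∀ v : Pr K, sn v (gv N G) * sn v (gv N R) = sn v (gv (2 * N) (G * R))) ∧
    ∀ w : InfinitePlace K, sw w (gv N G) * sw w (gv N R) ≤ A * sw w (gv (2 * N) (G * R))

end Pool.Agent.Y557.U
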