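import Pool.Agent.Y557.U.Pair
import Pool.Agent.Y557.U.Stm4

/-!
Rational curves in a product of two projective spaces and a closed subscheme given by several
bihomogeneous forms: the primes of bad behaviour (helper557).
-/

set_option autoImplicit false

namespace Pool.Agent.Y557.U

open NumberField IsDedekindDomain Finset Polynomial
open Pool.Agent.H691R3 Pool.Agent.TH876.Loc
open Pool.Agent.TH876.KR (form localHeight localHeight_nonneg localHeight_eq localHeight_pos_iff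
  log_Nv_pos' m2 fv_sub_le)
open Pool.Agent.Y730.QP (cnt PQ counting_le supp_finite term_nonneg log_Nv_le_localHeight)
open Pool.Agent.Y557.NF

variable {K : Type} [Field K] [NumberField K] {n₁ n₂ k : ℕ}

/-- the coefficients of a family of forms -/
def cFs {K : Type} [Field K] {n₁ n₂ k : ℕ} (F : Fin k → MvPolynomial (Fin n₁ ⊕ Fin n₂) K) :
    (Σ j, (F j).support) → K := fun s => (F s.1).coeff s.2

/-- the coefficients of the restrictions -/
noncomputable def cGs (N : ℕ) (f : Fin n₁ → K[X]) (g : Fin n₂ → K[X])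
    (F : Fin k → MvPolynomial (Fin n₁ ⊕ Fin n₂) K) : Fin k × Fin (N + 1) → K :=
  fun p => (res2 f g (F p.1)).coeff p.2

theorem sn_cF2_le (v : Pr K) (F : Fin k → MvPolynomial (Fin n₁ ⊕ Fin n₂) K) (j : Fin k) :
    sn v (cF2 (F j)) ≤ sn v (cFs F) := by
  rcases isEmpty_or_nonempty (F j).support with h | h
  · unfold sn
    rw [Real.iSup_of_isEmpty]
    exact Real.iSup_nonneg fun _ => (fv v).nonneg _
  · exact ciSup_le fun s => le_sn v (cFs F) ⟨j, s⟩

theorem sw_cF2_le (w : InfinitePlace K) (F : Fin k → MvPolynomial (Fin n₁ ⊕ Fin n₂) K)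
    (j : Fin k) : sw w (cF2 (F j)) ≤ sw w (cFs F) := by
  rcases isEmpty_or_nonempty (F j).support with h | h
  · unfold sw
    rw [Real.iSup_of_isEmpty]
    exact Real.iSup_nonneg fun _ => apply_nonneg w _
  · exact ciSup_le fun s => le_ciSup (f := fun s => w (cFs F s)) (Set.finite_range _).bddAbove
      ⟨j, s⟩

theorem sw_nonneg (w : InfinitePlace K) {ι : Type} [Fintype ι] (c : ι → K) : 0 ≤ sw w c :=
  Real.iSup_nonneg fun _ => apply_nonneg w _

theorem le_sw (w : InfinitePlace K) {ι : Type} [Fintype ι] (c : ι → K) (i : ι) :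
    w (c i) ≤ sw w c :=
  le_ciSup (f := fun i => w (c i)) (Set.finite_range _).bddAbove i

theorem cFs_ne {F : Fin k → MvPolynomial (Fin n₁ ⊕ Fin n₂) K} {j : Fin k} (h : F j ≠ 0) :
    cFs F ≠ 0 := by
  obtain ⟨s, hs⟩ := MvPolynomial.support_nonempty.2 h
  intro h'
  exact MvPolynomial.mem_support_iff.1 hs (congrFun h' ⟨j, s, hs⟩)

/-- the restriction of several bihomogeneous forms to the curve -/
theorem comp_primes3 (hPF : S_PF3 K) (hCOMP : S_COMP2 K) (n₁ n₂ k a b q r : ℕ) :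
    ∃ C : ℝ, 0 ≤ C ∧ ∀ (f : Fin n₁ → K[X]) (g : Fin n₂ → K[X])
      (F : Fin k → MvPolynomial (Fin n₁ ⊕ Fin n₂) K), Crv a f → Crv b g →
      (∀ j, BiHom q r (F j)) → (∃ j, res2 f g (F j) ≠ 0) →
      (∀ j, (res2 f g (F j)).natDegree ≤ a * q + b * r) ∧
      ∃ T : Finset (Pr K), ∑ v ∈ T, Real.log (Nv v) +
          Height.logHeight (cGs (a * q + b * r) f g F) ≤
          Height.logHeight (cFs F) + q * Height.logHeight (cf f a) +
            r * Height.logHeight (cf g b) + C ∧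
        ∀ v ∉ T, sn v (cGs (a * q + b * r) f g F) =
          sn v (cFs F) * sn v (cf f a) ^ q * sn v (cf g b) ^ r := by
  classical
  obtain ⟨A, hA1, hA⟩ := hCOMP n₁ n₂ a b q r
  refine ⟨(Module.finrank ℚ K : ℝ) * Real.log A,
    mul_nonneg (Nat.cast_nonneg _) (Real.log_nonneg hA1), fun f g F hf hg hF hG0 => ?_⟩
  have hj := fun j => hA f g (F j) hf.deg hg.deg (hF j)
  refine ⟨fun j => (hj j).1, ?_⟩
  obtain ⟨j0, hj0⟩ := hG0
  haveI : Nonempty (Fin k) := ⟨j0⟩
  have hF0 : F j0 ≠ 0 := by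
    intro h
    apply hj0
    unfold res2
    rw [h]
    exact map_zero _
  have hcF : cFs F ≠ 0 := cFs_ne hF0
  have hy : cGs (a * q + b * r) f g F ≠ 0 := by
    intro h
    apply hj0
    ext i
    rw [coeff_zero]
    by_cases hi : i ≤ a * q + b * r
    · exact congrFun h (j0, ⟨i, by omega⟩)
    · exact coeff_eq_zero_of_natDegree_lt (lt_of_le_of_lt (hj j0).1 (by omega))
  obtain ⟨T, hT1, hT2⟩ := prime_set3 hPF
    (y := cGs (a * q + b * r) f g F)
    (c₁ := cFs F) (c₂ := cf f a) (c₃ := cf g b) (z := (1 : K)) (k₁ := 1) (k₂ := q) (k₃ := r)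
    (A := A) hy hcF hf.ne hg.ne one_ne_zero hA1
    (fun v => by
      rw [map_one, one_mul, pow_one]
      refine ciSup_le fun p => ((hj p.1).2.1 v p.2).trans ?_
      refine mul_le_mul_of_nonneg_right (mul_le_mul_of_nonneg_right (sn_cF2_le v F p.1) ?_) ?_
      · exact pow_nonneg (sn_nonneg _ _) _
      · exact pow_nonneg (sn_nonneg _ _) _)
    (fun w => by
      rw [map_one, one_mul, pow_one]
      refine ciSup_le fun p => ((hj p.1).2.2 w p.2).trans ?_
      refine mul_le_mul_of_nonneg_left ?_ (by linarith)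
      refine mul_le_mul_of_nonneg_right (mul_le_mul_of_nonneg_right (sw_cF2_le w F p.1) ?_) ?_
      · exact pow_nonneg (sw_nonneg _ _) _
      · exact pow_nonneg (sw_nonneg _ _) _)
  refine ⟨T, ?_, fun v hv => ?_⟩
  · push_cast at hT2
    linarith
  · have h3 := hT1 v hv
    rw [map_one, one_mul, pow_one] at h3
    exact h3

/-- the data -/
structure Dat (K : Type) [Field K] [NumberField K] (n₁ n₂ k a b q r : ℕ) where
  /-- primes -/
  S : Finset (Pr K)
  /-- first component -/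
  f : Fin n₁ → K[X]
  /-- second component -/
  g : Fin n₂ → K[X]
  /-- equations -/
  F : Fin k → MvPolynomial (Fin n₁ ⊕ Fin n₂) K
  /-- greatest common divisor -/
  G : K[X]
  /-- quotients -/
  R : Fin k → K[X]
  /-- degree of the quotients -/
  m' : ℕ
  /-- formal degree of the greatest common divisor -/
  N' : ℕ
  hf : Crv a f
  hg : Crv b g
  hF : ∀ j, BiHom q r (F j)
  hR : Crv m' R
  hG : ∀ j, res2 f g (F j) = G * R j
  G0 : G ≠ 0
  spl : G.Splits
  deg : G.natDegree ≤ N'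
  hN : N' + m' = a * q + b * r

/-- the norms of the two factors at the finite places, and at the infinite ones -/
theorem norm_factor (N : ℕ) {A : ℝ} {G : K[X]} {R : Fin k → K[X]} {m' : ℕ}
    {f : Fin n₁ → K[X]} {g : Fin n₂ → K[X]} {F : Fin k → MvPolynomial (Fin n₁ ⊕ Fin n₂) K}
    (hA0 : 0 ≤ A)
    (hD : ∀ G R : K[X], G.Splits → G.natDegree ≤ N → R.natDegree ≤ N →
      (∀ v : Pr K, sn v (gv N G) * sn v (gv N R) = sn v (gv (2 * N) (G * R))) ∧
      ∀ w : InfinitePlace K, sw w (gv N G) * sw w (gv N R) ≤ A * sw w (gv (2 * N) (G * R)))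
    (hG : ∀ j, res2 f g (F j) = G * R j) (hs : G.Splits) (hR : Crv m' R) (hm' : m' ≤ N)
    (hGN : G.natDegree ≤ N) (hres : ∀ j, (res2 f g (F j)).natDegree ≤ N) :
    (∀ v : Pr K, sn v (gv N G) * sn v (cf R m') = sn v (cGs N f g F)) ∧
    ∀ w : InfinitePlace K, sw w (gv N G) * sw w (cf R m') ≤ A * sw w (cGs N f g F) := by
  have hRd : ∀ j, (R j).natDegree ≤ N := fun j => (hR.deg j).trans hm'
  obtain ⟨j0, -⟩ := hR.deg'
  haveI : Nonempty (Fin k) := ⟨j0⟩
  have a1 : ∀ v : Pr K, ∀ j, sn v (gv (2 * N) (G * R j)) ≤ sn v (cGs N f g F) := by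
    intro v j
    refine ciSup_le fun i => ?_
    show fv v ((G * R j).coeff i) ≤ _
    rw [← hG j]
    by_cases hi : (i : ℕ) ≤ N
    · exact le_sn v (cGs N f g F) (j, ⟨i, by omega⟩)
    · rw [coeff_eq_zero_of_natDegree_lt (lt_of_le_of_lt (hres j) (by omega)), map_zero]
      exact sn_nonneg _ _
  have a2 : ∀ w : InfinitePlace K, ∀ j, sw w (gv (2 * N) (G * R j)) ≤ sw w (cGs N f g F) := by
    intro w j
    refine ciSup_le fun i => ?_
    show w ((G * R j).coeff i) ≤ _
    rw [← hG j]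
    by_cases hi : (i : ℕ) ≤ N
    · exact le_sw w (cGs N f g F) (j, ⟨i, by omega⟩)
    · rw [coeff_eq_zero_of_natDegree_lt (lt_of_le_of_lt (hres j) (by omega)), map_zero]
      exact sw_nonneg _ _
  refine ⟨fun v => le_antisymm ?_ ?_, fun w => ?_⟩
  · obtain ⟨p, hp⟩ := sn_attained v (cf R m')
    rw [hp]
    have h1 : fv v (cf R m' p) ≤ sn v (gv N (R p.1)) :=
      le_sn v (gv N (R p.1)) ⟨p.2, by omega⟩
    refine (mul_le_mul_of_nonneg_left h1 (sn_nonneg _ _)).trans ?_
    rw [(hD G (R p.1) hs hGN (hRd p.1)).1 v]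
    exact a1 v p.1
  · refine ciSup_le fun p => ?_
    show fv v ((res2 f g (F p.1)).coeff p.2) ≤ _
    rw [hG p.1]
    have h1 : fv v ((G * R p.1).coeff p.2) ≤ sn v (gv (2 * N) (G * R p.1)) :=
      le_sn v (gv (2 * N) (G * R p.1)) ⟨p.2, by omega⟩
    refine h1.trans ?_
    rw [← (hD G (R p.1) hs hGN (hRd p.1)).1 v]
    refine mul_le_mul_of_nonneg_left (ciSup_le fun i => ?_) (sn_nonneg _ _)
    show fv v ((R p.1).coeff i) ≤ _
    by_cases hi : (i : ℕ) ≤ m'
    · exact le_sn v (cf R m') (p.1, ⟨i, by omega⟩)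
    · rw [coeff_eq_zero_of_natDegree_lt (lt_of_le_of_lt (hR.deg p.1) (by omega)), map_zero]
      exact sn_nonneg _ _
  · obtain ⟨p, hp⟩ := exists_eq_ciSup_of_finite (f := fun p => w (cf R m' p))
    have hp' : sw w (cf R m') = w (cf R m' p) := hp.symm
    rw [hp']
    have h1 : w (cf R m' p) ≤ sw w (gv N (R p.1)) :=
      le_sw w (gv N (R p.1)) ⟨p.2, by omega⟩
    refine (mul_le_mul_of_nonneg_left h1 (sw_nonneg _ _)).trans ?_
    refine ((hD G (R p.1) hs hGN (hRd p.1)).2 w).trans ?_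
    exact mul_le_mul_of_nonneg_left (a2 w p.1) hA0

/-- the normalised local height of the closed subscheme `F 0 = ... = F (k-1) = 0` -/
noncomputable def lamS (F : Fin k → MvPolynomial (Fin n₁ ⊕ Fin n₂) K) (q r : ℕ) (v : Pr K)
    (x : Fin n₁ → K) (y : Fin n₂ → K) : ℝ :=
  Real.log ((⨆ s : (Σ j, (F j).support), FinitePlace.mk v ((F s.1).coeff s.2)) *
    ((⨆ i, FinitePlace.mk v (x i)) ^ q * (⨆ i, FinitePlace.mk v (y i)) ^ r) /
    ⨆ j, FinitePlace.mk v (MvPolynomial.eval (Sum.elim x y) (F j)))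

/-- the size of the data -/
noncomputable def sz3 (a b : ℕ) (S : Finset (Pr K)) (f : Fin n₁ → K[X]) (g : Fin n₂ → K[X])
    (F : Fin k → MvPolynomial (Fin n₁ ⊕ Fin n₂) K) : ℝ :=
  ∑ v ∈ S, Real.log (Nv v) + Height.logHeight (cf f a) + Height.logHeight (cf g b) +
    Height.logHeight (cFs F)

theorem sz3_nonneg (a b : ℕ) (S : Finset (Pr K)) (f : Fin n₁ → K[X]) (g : Fin n₂ → K[X])
    (F : Fin k → MvPolynomial (Fin n₁ ⊕ Fin n₂) K) : 0 ≤ sz3 a b S f g F := by
  have b1 : 0 ≤ ∑ v ∈ S, Real.log (Nv v) := Finset.sum_nonneg fun v _ => (log_Nv_pos' v).le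
  have b2 : 0 ≤ Height.logHeight (cf f a) := Height.logHeight_nonneg _
  have b2' : 0 ≤ Height.logHeight (cf g b) := Height.logHeight_nonneg _
  have b3 : 0 ≤ Height.logHeight (cFs F) := Height.logHeight_nonneg _
  unfold sz3
  positivity

end Pool.Agent.Y557.U
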