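import Pool.Agent.Y557.U.Gen

/-!
Rational curves in a product of two projective spaces and a closed subscheme: the family
(helper557).
-/

set_option autoImplicit false

namespace Pool.Agent.Y557.U

open NumberField IsDedekindDomain Finset Polynomial
open Pool.Agent.H691R3 Pool.Agent.TH876.Loc
open Pool.Agent.TH876.KR (form localHeight localHeight_nonneg localHeight_eq localHeight_pos_iff
  log_Nv_pos' m2 fv_sub_le)
open Pool.Agent.Y730.QP (cnt PQ counting_le supp_finite term_nonneg log_Nv_le_localHeight)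
open Pool.Agent.Y557.NF

variable {K : Type} [Field K] [NumberField K] {n₁ n₂ k : ℕ}

/-- the heights of the greatest common divisor and of the quotients -/
theorem factor_heights (hPF : S_PF K) (hDIV : S_DIV K) (n₁ n₂ k N : ℕ) :
    ∃ C : ℝ, 0 ≤ C ∧ ∀ (f : Fin n₁ → K[X]) (g : Fin n₂ → K[X])
      (F : Fin k → MvPolynomial (Fin n₁ ⊕ Fin n₂) K) (G : K[X]) (R : Fin k → K[X]) (m' N' : ℕ),
      (∀ j, res2 f g (F j) = G * R j) → G.Splits → G ≠ 0 → Crv m' R → G.natDegree ≤ N' →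
      N' + m' = N → (∀ j, (res2 f g (F j)).natDegree ≤ N) →
      Height.logHeight (cf R m') ≤ Height.logHeight (cGs N f g F) + C ∧
      hG N' G ≤ Height.logHeight (cGs N f g F) + C ∧
      ∀ v : Pr K, (⨆ i : Fin (N' + 1), fv v (G.coeff i)) * sn v (cf R m') =
        sn v (cGs N f g F) := by
  classical
  obtain ⟨A, hA1, hA⟩ := hDIV N
  refine ⟨(Module.finrank ℚ K : ℝ) * Real.log A,
    mul_nonneg (Nat.cast_nonneg _) (Real.log_nonneg hA1),
    fun f g F G R m' N' hG hs hG0 hR hdeg hN hres => ?_⟩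
  have hA0 : 0 ≤ A := by linarith
  have hGN : G.natDegree ≤ N := hdeg.trans (by omega)
  obtain ⟨h1, h2⟩ := norm_factor N hA0 hA hG hs hR (by omega) hGN hres
  obtain ⟨j0, -⟩ := hR.deg'
  have hz : G.leadingCoeff ≠ 0 := leadingCoeff_ne_zero.2 hG0
  have hgv : ∀ v : Pr K, fv v G.leadingCoeff ≤ sn v (gv N G) := fun v =>
    le_sn v (gv N G) ⟨G.natDegree, by omega⟩
  have hgw : ∀ w : InfinitePlace K, w G.leadingCoeff ≤ sw w (gv N G) := fun w =>
    le_sw w (gv N G) ⟨G.natDegree, by omega⟩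
  obtain ⟨p, hp⟩ := Function.ne_iff.1 hR.ne
  have hy : cGs N f g F ≠ 0 := by
    have hRne : R p.1 ≠ 0 := by
      intro h
      apply hp
      show (R p.1).coeff p.2 = 0
      rw [h, coeff_zero]
    have hne : res2 f g (F p.1) ≠ 0 := by
      rw [hG p.1]
      exact mul_ne_zero hG0 hRne
    intro h
    apply hne
    ext i
    rw [coeff_zero]
    by_cases hi : i ≤ N
    · exact congrFun h (p.1, ⟨i, by omega⟩)
    · exact coeff_eq_zero_of_natDegree_lt (lt_of_le_of_lt (hres p.1) (by omega))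
  have hG' : (fun i : Fin (N' + 1) => G.coeff i) ≠ 0 := by
    intro h
    exact hz (congrFun h ⟨G.natDegree, by omega⟩)
  have hle1 : ∀ v : Pr K, sn v (fun i : Fin (N' + 1) => G.coeff i) ≤ sn v (gv N G) := by
    intro v
    exact ciSup_le fun i => le_sn v (gv N G) ⟨i, by omega⟩
  have hle2 : ∀ v : Pr K, sn v (gv N G) ≤ sn v (fun i : Fin (N' + 1) => G.coeff i) := by
    intro v
    refine ciSup_le fun i => ?_
    show fv v (G.coeff i) ≤ _
    by_cases hi : (i : ℕ) ≤ N'
    · exact le_sn v (fun i : Fin (N' + 1) => G.coeff i) ⟨i, by omega⟩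
    · rw [coeff_eq_zero_of_natDegree_lt (lt_of_le_of_lt hdeg (by omega)), map_zero]
      exact sn_nonneg _ _
  have hle3 : ∀ w : InfinitePlace K, sw w (fun i : Fin (N' + 1) => G.coeff i) ≤
      sw w (gv N G) := by
    intro w
    exact ciSup_le fun i => le_sw w (gv N G) ⟨i, by omega⟩
  refine ⟨?_, ?_, fun v => ?_⟩
  · obtain ⟨T, -, hT2⟩ := prime_set hPF (y := cf R m') (c := cGs N f g F) (c' := cGs N f g F)
      (z := G.leadingCoeff) (k := 1) (k' := 0) (A := A) hR.ne hy hy hz hA1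
      (fun v => by
        rw [pow_one, pow_zero, mul_one, ← h1 v]
        exact mul_le_mul_of_nonneg_right (hgv v) (sn_nonneg _ _))
      (fun w => by
        rw [pow_one, pow_zero, mul_one]
        exact (mul_le_mul_of_nonneg_right (hgw w) (sw_nonneg _ _)).trans (h2 w))
    have h3 : 0 ≤ ∑ v ∈ T, Real.log (Nv v) := Finset.sum_nonneg fun v _ => (log_Nv_pos' v).le
    push_cast at hT2
    linarith
  · obtain ⟨T, -, hT2⟩ := prime_set hPF (y := fun i : Fin (N' + 1) => G.coeff i)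
      (c := cGs N f g F) (c' := cGs N f g F)
      (z := cf R m' p) (k := 1) (k' := 0) (A := A) hG' hy hy hp hA1
      (fun v => by
        rw [pow_one, pow_zero, mul_one, ← h1 v, mul_comm (sn v (gv N G))]
        exact mul_le_mul (le_sn v (cf R m') p) (hle1 v) (sn_nonneg _ _) (sn_nonneg _ _))
      (fun w => by
        rw [pow_one, pow_zero, mul_one]
        refine le_trans ?_ (h2 w)
        rw [mul_comm (sw w (gv N G))]
        exact mul_le_mul (le_sw w (cf R m') p) (hle3 w) (sw_nonneg _ _) (sw_nonneg _ _))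
    have h3 : 0 ≤ ∑ v ∈ T, Real.log (Nv v) := Finset.sum_nonneg fun v _ => (log_Nv_pos' v).le
    push_cast at hT2
    show Height.logHeight (fun i : Fin (N' + 1) => G.coeff i) ≤ _
    linarith
  · rw [← h1 v]
    congr 1
    exact le_antisymm (hle1 v) (hle2 v)

theorem sum_choice_le {N : ℕ} {c : ℕ → ℝ} (hc : ∀ i, 0 ≤ c i) {i : ℕ} (hi : i ≤ N) :
    c i ≤ ∑ j ∈ Finset.range (N + 1), c j :=
  Finset.single_le_sum (f := c) (fun j _ => hc j) (Finset.mem_range.2 (by omega))

theorem gen_data (hPF : S_PF K) (hPF3 : S_PF3 K) (hMIN : S_MIN K) (hCOMP2 : S_COMP2 K)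
    (hg : S_GAUSS K) (hroot : S_ROOT K) (hDIV : S_DIV K) (n₁ n₂ k a b q r : ℕ) :
    ∃ C : ℝ, 0 ≤ C ∧ ∀ D : Dat K n₁ n₂ k a b q r, ∀ H : ℝ, H = sz3 a b D.S D.f D.g D.F →
      (∀ j, Height.logHeight (aS (zs D.G D.N') j) ≤ C * (H + 1)) ∧
      ∃ T : Finset (Pr K), ∑ v ∈ T, Real.log (Nv v) ≤ C * (H + 1) ∧
        ∀ t, D.G.eval t ≠ 0 →
          cnt (T : Set (Pr K)) (aS (zs D.G D.N')) ![t, 1] ≤
            cL (D.S : Set (Pr K))
              (fun v => lamS D.F q r v (fun i => (D.f i).eval t) (fun i => (D.g i).eval t)) ∧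
          cL (D.S : Set (Pr K))
              (fun v => lamS D.F q r v (fun i => (D.f i).eval t) (fun i => (D.g i).eval t)) ≤
            cnt (T : Set (Pr K)) (aS (zs D.G D.N')) ![t, 1] + C * (H + 1) := by
  classical
  obtain ⟨N, hN⟩ : ∃ N, N = a * q + b * r := ⟨_, rfl⟩
  obtain ⟨C1, hC1, k1⟩ := crv_primes hPF hMIN n₁ a
  obtain ⟨C1', hC1', k1'⟩ := crv_primes hPF hMIN n₂ b
  obtain ⟨C2, hC2, k2⟩ := comp_primes3 hPF3 hCOMP2 n₁ n₂ k a b q r
  obtain ⟨C4, hC4, k4⟩ := factor_heights hPF hDIV n₁ n₂ k N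
  have hRR := fun m' => crv_primes hPF hMIN k m'
  choose CR hCR kR using hRR
  have hAA := fun N' => assemble hg hroot N'
  choose CA hCA kA using hAA
  obtain ⟨C5, hC5⟩ : ∃ C5, C5 = ∑ j ∈ Finset.range (N + 1), CR j := ⟨_, rfl⟩
  obtain ⟨C3, hC3⟩ : ∃ C3, C3 = ∑ j ∈ Finset.range (N + 1), CA j := ⟨_, rfl⟩
  have hC50 : 0 ≤ C5 := by rw [hC5]; exact Finset.sum_nonneg fun j _ => hCR j
  have hC30 : 0 ≤ C3 := by rw [hC3]; exact Finset.sum_nonneg fun j _ => hCA j
  have hq0 : (0 : ℝ) ≤ q := Nat.cast_nonneg q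
  have hr0 : (0 : ℝ) ≤ r := Nat.cast_nonneg r
  obtain ⟨E, hE⟩ : ∃ E : ℝ, E = 1 + q + r + C2 := ⟨_, rfl⟩
  have hE1 : 1 ≤ E := by
    rw [hE]
    linarith
  obtain ⟨E', hE'⟩ : ∃ E' : ℝ, E' = E + C4 + 1 := ⟨_, rfl⟩
  have hE'1 : 1 ≤ E' := by
    rw [hE']
    linarith
  obtain ⟨C, hC⟩ : ∃ C : ℝ, C = 1 + C1 + C1' + E + (1 + C5 + C3) * E' + C3 := ⟨_, rfl⟩
  have hC0 : 0 ≤ C := by rw [hC]; positivity
  refine ⟨C, hC0, fun D H hH => ?_⟩
  obtain ⟨S, f, g, F, G, R, m', N', hf, hgc, hF, hR, hGR, hG0, hs, hdeg, hNN⟩ := D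
  simp only at hH ⊢
  have b1 : 0 ≤ ∑ v ∈ S, Real.log (Nv v) := Finset.sum_nonneg fun v _ => (log_Nv_pos' v).le
  have b2 : 0 ≤ Height.logHeight (cf f a) := Height.logHeight_nonneg _
  have b2' : 0 ≤ Height.logHeight (cf g b) := Height.logHeight_nonneg _
  have b3 : 0 ≤ Height.logHeight (cFs F) := Height.logHeight_nonneg _
  unfold sz3 at hH
  have hH0 : 0 ≤ H := by rw [hH]; positivity
  have hm'N : m' ≤ N := by rw [hN]; omega
  have hN'N : N' ≤ N := by rw [hN]; omega
  -- some restriction is not zero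
  obtain ⟨p, hp⟩ := Function.ne_iff.1 hR.ne
  have hex : ∃ j, res2 f g (F j) ≠ 0 := by
    refine ⟨p.1, ?_⟩
    rw [hGR p.1]
    refine mul_ne_zero hG0 fun h => hp ?_
    show (R p.1).coeff p.2 = 0
    rw [h, coeff_zero]
  obtain ⟨T1, hT1, h1⟩ := k1 f hf
  obtain ⟨T1', hT1', h1'⟩ := k1' g hgc
  obtain ⟨hres, T2, hT2, h2⟩ := k2 f g F hf hgc hF hex
  rw [← hN] at hres hT2 h2
  obtain ⟨k41, k42, k43⟩ := k4 f g F G R m' N' hGR hs hG0 hR hdeg (by rw [hN]; exact hNN) hres
  obtain ⟨TR, hTR, hR1⟩ := kR m' R hR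
  have b4 : 0 ≤ ∑ v ∈ T2, Real.log (Nv v) := Finset.sum_nonneg fun v _ => (log_Nv_pos' v).le
  have b5 : 0 ≤ Height.logHeight (cGs N f g F) := Height.logHeight_nonneg _
  have b6 : 0 ≤ Height.logHeight (cf R m') := Height.logHeight_nonneg _
  have b7 : 0 ≤ hG N' G := Height.logHeight_nonneg _
  have hsum : ∑ v ∈ T2, Real.log (Nv v) + Height.logHeight (cGs N f g F) ≤ E * (H + 1) := by
    refine hT2.trans ?_
    have e1 : Height.logHeight (cFs F) ≤ H := by rw [hH]; linarith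
    have e2 : Height.logHeight (cf f a) ≤ H := by rw [hH]; linarith
    have e2' : Height.logHeight (cf g b) ≤ H := by rw [hH]; linarith
    have e3 : (q : ℝ) * Height.logHeight (cf f a) ≤ q * H := mul_le_mul_of_nonneg_left e2 hq0
    have e3' : (r : ℝ) * Height.logHeight (cf g b) ≤ r * H := mul_le_mul_of_nonneg_left e2' hr0
    have e4 : E * (H + 1) = H + q * H + r * H + C2 * H + 1 + q + r + C2 := by rw [hE]; ring
    have e5 : 0 ≤ C2 * H := mul_nonneg hC2 hH0
    rw [e4]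
    linarith
  have hE'H : E * (H + 1) + C4 + 1 ≤ E' * (H + 1) := by
    have : 0 ≤ C4 * H := mul_nonneg hC4 hH0
    rw [hE']
    nlinarith
  have hRh : Height.logHeight (cf R m') + 1 ≤ E' * (H + 1) := by linarith
  have hGh : hG N' G + 1 ≤ E' * (H + 1) := by linarith
  obtain ⟨h3, h4⟩ := kA N' G hG0 hs hdeg
  have hCA3 : CA N' ≤ C3 := by rw [hC3]; exact sum_choice_le hCA hN'N
  have hCR5 : CR m' ≤ C5 := by rw [hC5]; exact sum_choice_le hCR hm'N
  have e7 : C * (H + 1) = (H + 1) + C1 * (H + 1) + C1' * (H + 1) + E * (H + 1) +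
      E' * (H + 1) + C5 * (E' * (H + 1)) + C3 * (E' * (H + 1)) + C3 * (H + 1) := by
    rw [hC]; ring
  have u1 : 0 ≤ C1 * (H + 1) := by positivity
  have u1' : 0 ≤ C1' * (H + 1) := by positivity
  have u2 : 0 ≤ C3 * (E' * (H + 1)) := by positivity
  have u2' : 0 ≤ C5 * (E' * (H + 1)) := by positivity
  have u3 : C3 ≤ C3 * (H + 1) := le_mul_of_one_le_right hC30 (by linarith)
  have u4 : 0 ≤ E * (H + 1) := by positivity
  refine ⟨fun j => (h3 j).trans ?_, ?_⟩
  · rw [e7]
    linarith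
  obtain ⟨T, hT, h5⟩ := h4 (S ∪ (T1 ∪ (T1' ∪ (T2 ∪ TR)))) (S : Set (Pr K))
    (fun v t => lamS F q r v (fun i => (f i).eval t) (fun i => (g i).eval t))
    (by
      rw [Finset.coe_union]
      exact Set.subset_union_left)
    (fun v hv t ht => by
      rw [Finset.mem_union, Finset.mem_union, Finset.mem_union, Finset.mem_union, not_or,
        not_or, not_or, not_or] at hv
      have e1 := h1 v hv.2.1 t
      have e1' := h1' v hv.2.2.1 t
      have e2 := h2 v hv.2.2.2.1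
      have eR := hR1 v hv.2.2.2.2 t
      have e43 := k43 v
      have pG : 0 < fv v (G.eval t) := (fv v).pos ht
      have pR : 0 < sn v (cf R m') := sn_pos v hR.ne
      have pM : 0 < max (fv v t) 1 := lt_of_lt_of_le one_pos (le_max_right _ _)
      unfold lamS lamG
      have f3 : (⨆ s : (Σ j, (F j).support), FinitePlace.mk v ((F s.1).coeff s.2)) =
        sn v (cFs F) := rfl
      have f4 : (⨆ i, FinitePlace.mk v ((f i).eval t)) = ⨆ i, fv v ((f i).eval t) := rfl
      have f4' : (⨆ i, FinitePlace.mk v ((g i).eval t)) = ⨆ i, fv v ((g i).eval t) := rfl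
      have f5 : (⨆ j, FinitePlace.mk v (MvPolynomial.eval
          (Sum.elim (fun i => (f i).eval t) (fun i => (g i).eval t)) (F j))) =
          fv v (G.eval t) * (sn v (cf R m') * max (fv v t) 1 ^ m') := by
        rw [← eR, Real.mul_iSup_of_nonneg ((fv v).nonneg _)]
        refine iSup_congr fun j => ?_
        rw [← map_mul, ← eval_mul, ← hGR j, eval_res2]
        rfl
      rw [f3, f4, f4', f5, e1, e1', mul_pow, mul_pow, ← pow_mul, ← pow_mul]
      have hN'' : a * q + b * r = N' + m' := hNN.symm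
      have g1 : sn v (cFs F) * (sn v (cf f a) ^ q * max (fv v t) 1 ^ (a * q) *
          (sn v (cf g b) ^ r * max (fv v t) 1 ^ (b * r))) =
          (⨆ i : Fin (N' + 1), fv v (G.coeff i)) * sn v (cf R m') *
            (max (fv v t) 1 ^ N' * max (fv v t) 1 ^ m') := by
        rw [e43, e2, ← pow_add, ← hN'', pow_add]
        ring
      rw [g1]
      congr 1
      have pMm : max (fv v t) 1 ^ m' ≠ 0 := (pow_pos pM m').ne'
      field_simp)
  have hTb : ∑ v ∈ T, Real.log (Nv v) ≤ C * (H + 1) := by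
    refine hT.trans ?_
    have e1 : ∑ v ∈ S ∪ (T1 ∪ (T1' ∪ (T2 ∪ TR))), Real.log (Nv v) ≤
        ∑ v ∈ S, Real.log (Nv v) +
        (∑ v ∈ T1, Real.log (Nv v) + (∑ v ∈ T1', Real.log (Nv v) +
          (∑ v ∈ T2, Real.log (Nv v) + ∑ v ∈ TR, Real.log (Nv v)))) := by
      have w1 := sum_union_le S (T1 ∪ (T1' ∪ (T2 ∪ TR)))
      have w2 := sum_union_le T1 (T1' ∪ (T2 ∪ TR))
      have w3 := sum_union_le T1' (T2 ∪ TR)
      have w4 := sum_union_le T2 TR
      linarith
    have e2 : ∑ v ∈ S, Real.log (Nv v) ≤ H + 1 := by rw [hH]; linarith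
    have e3 : ∑ v ∈ T1, Real.log (Nv v) ≤ C1 * (H + 1) := by
      refine hT1.trans (mul_le_mul_of_nonneg_left ?_ hC1)
      rw [hH]
      linarith
    have e3' : ∑ v ∈ T1', Real.log (Nv v) ≤ C1' * (H + 1) := by
      refine hT1'.trans (mul_le_mul_of_nonneg_left ?_ hC1')
      rw [hH]
      linarith
    have e3R : ∑ v ∈ TR, Real.log (Nv v) ≤ C5 * (E' * (H + 1)) := by
      refine hTR.trans ?_
      exact mul_le_mul hCR5 hRh (by linarith) hC50
    have e4 : CA N' * (hG N' G + 1) ≤ C3 * (E' * (H + 1)) :=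
      mul_le_mul hCA3 hGh (by linarith) hC30
    have e5 : 0 ≤ C3 * (H + 1) := by positivity
    have e6 : 0 ≤ E' * (H + 1) := by positivity
    rw [e7]
    linarith
  refine ⟨T, hTb, fun t ht => ?_⟩
  obtain ⟨k5, k6⟩ := h5 t ht
  exact ⟨k5, k6.trans (by linarith)⟩

theorem exists_fam3 (hPF : S_PF K) (hPF3 : S_PF3 K) (hMIN : S_MIN K) (hCOMP2 : S_COMP2 K)
    (hg : S_GAUSS K) (hroot : S_ROOT K) (hDIV : S_DIV K) (hcnt : S_CNT K)
    (n₁ n₂ k a b q r : ℕ) :
    ∃ D : Fam K (Projectivization K (Fin n₁ → K) × Projectivization K (Fin n₂ → K))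
      (Projectivization K (Fin n₁ × Fin (a + 1) → K) ×
        Projectivization K (Fin n₂ × Fin (b + 1) → K)) (Dat K n₁ n₂ k a b q r),
      (∀ j, D.H j = sz3 a b j.S j.f j.g j.F) ∧
      (∀ j t, D.pt j t = (pc j.f (common j.hf.cop) t, pc j.g (common j.hg.cop) t)) ∧
      (∀ j, D.q j = (zs j.G j.N').card) ∧
      (∀ j t, (∀ i, form (D.α j i) ![t, 1] ≠ 0) ↔ j.G.eval t ≠ 0) ∧
      ∀ j t, j.G.eval t ≠ 0 →
        cnt (D.T j : Set (Pr K)) (D.α j) ![t, 1] ≤
          cL (j.S : Set (Pr K)) (fun v => lamS j.F q r v (fun i => (j.f i).eval t)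
            (fun i => (j.g i).eval t)) ∧
        cL (j.S : Set (Pr K)) (fun v => lamS j.F q r v (fun i => (j.f i).eval t)
            (fun i => (j.g i).eval t)) ≤
          cnt (D.T j : Set (Pr K)) (D.α j) ![t, 1] + D.C2 * (D.H j + 1) := by
  classical
  obtain ⟨C, hC, hdat⟩ := gen_data hPF hPF3 hMIN hCOMP2 hg hroot hDIV n₁ n₂ k a b q r
  obtain ⟨C1, a1, hC1, ha1, hcount⟩ := hcnt (Fin n₁ × Fin (a + 1))
  obtain ⟨C1', a1', hC1', ha1', hcount'⟩ := hcnt (Fin n₂ × Fin (b + 1))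
  have hj := fun j : Dat K n₁ n₂ k a b q r => hdat j (sz3 a b j.S j.f j.g j.F) rfl
  choose k1 T k2 k3 using hj
  refine ⟨{ H := fun j => sz3 a b j.S j.f j.g j.F
            κ := fun j => (Projectivization.mk K (cf j.f a) j.hf.ne,
              Projectivization.mk K (cf j.g b) j.hg.ne)
            pt := fun j t => (pc j.f (common j.hf.cop) t, pc j.g (common j.hg.cop) t)
            q := fun j => (zs j.G j.N').card
            α := fun j => aS (zs j.G j.N')
            T := T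
            C1 := C1 * C1'
            a := a1 + a1'
            C2 := C
            hH := fun j => sz3_nonneg _ _ _ _ _ _
            hC1 := mul_pos hC1 hC1'
            ha := by positivity
            hC2 := hC
            hpt := ?_
            hcount := ?_
            hα := k1
            hT := k2
            hαd := fun j => form_aS _ }, fun j => rfl, fun j t => rfl, fun j => rfl,
            fun j t => mem_GG_aS j.G0, fun j t ht => k3 j t ht⟩
  · intro j j' h
    funext t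
    have h1 := congrArg Prod.fst h
    have h2 := congrArg Prod.snd h
    exact Prod.ext (mk_eval_eq j.hf j'.hf h1 t) (mk_eval_eq j.hg j'.hg h2 t)
  · intro B hB
    obtain ⟨hf, hc⟩ := hcount B hB
    obtain ⟨hf', hc'⟩ := hcount' B hB
    have hsub : {z | ∃ j : Dat K n₁ n₂ k a b q r,
        (Projectivization.mk K (cf j.f a) j.hf.ne,
          Projectivization.mk K (cf j.g b) j.hg.ne) = z ∧
        sz3 a b j.S j.f j.g j.F ≤ B} ⊆
        {P : Projectivization K (Fin n₁ × Fin (a + 1) → K) |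
          ∃ (y : Fin n₁ × Fin (a + 1) → K) (hy : y ≠ 0),
            P = Projectivization.mk K y hy ∧ Height.logHeight y ≤ B} ×ˢ
        {P : Projectivization K (Fin n₂ × Fin (b + 1) → K) |
          ∃ (y : Fin n₂ × Fin (b + 1) → K) (hy : y ≠ 0),
            P = Projectivization.mk K y hy ∧ Height.logHeight y ≤ B} := by
      rintro z ⟨j, rfl, h⟩
      have b1 : 0 ≤ ∑ v ∈ j.S, Real.log (Nv v) :=
        Finset.sum_nonneg fun v _ => (log_Nv_pos' v).le
      have b2 : 0 ≤ Height.logHeight (cf j.f a) := Height.logHeight_nonneg _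
      have b2' : 0 ≤ Height.logHeight (cf j.g b) := Height.logHeight_nonneg _
      have b3 : 0 ≤ Height.logHeight (cFs j.F) := Height.logHeight_nonneg _
      unfold sz3 at h
      exact ⟨⟨cf j.f a, j.hf.ne, rfl, by linarith⟩, ⟨cf j.g b, j.hg.ne, rfl, by linarith⟩⟩
    have hfin := hf.prod hf'
    refine ⟨hfin.subset hsub, ?_⟩
    have h1 := Set.ncard_le_ncard hsub hfin
    rw [Set.ncard_prod] at h1
    have h2 := (Nat.cast_le (α := ℝ)).2 h1
    rw [Nat.cast_mul] at h2
    refine h2.trans ?_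
    have e1 : C1 * C1' * Real.exp ((a1 + a1') * B) =
        (C1 * Real.exp (a1 * B)) * (C1' * Real.exp (a1' * B)) := by
      rw [add_mul, Real.exp_add]
      ring
    rw [e1]
    exact mul_le_mul hc hc' (Nat.cast_nonneg _) (by positivity)

end Pool.Agent.Y557.U
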