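import Pool.Agent.Y557.U.Rev

/-!
The main theorem for projective spaces, with the statements of the jobs as hypotheses (helper557).
-/

set_option autoImplicit false

namespace Pool.Agent.Y557.U

open NumberField IsDedekindDomain Finset Polynomial
open Pool.Agent.H691R3 Pool.Agent.TH876.Loc
open Pool.Agent.Y557.NF

theorem rpow_eq_exp {X : ℝ} (hX : 1 ≤ X) (s : ℝ) : X ^ s = Real.exp (s * Real.log X) := by
  rw [Real.rpow_def_of_pos (by linarith), mul_comm]

/-- comparison of an upper and a lower bound, for large `X` -/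
theorem compare {C ν a B0 : ℝ} (hν : 0 < ν) :
    ∃ X₀ : ℝ, 1 ≤ X₀ ∧ ∀ X : ℝ, X₀ ≤ X → B0 ≤ Real.log X ∧
      C * Real.exp ((a - ν) * Real.log X) ≤
        X ^ (-(ν / 4)) * Real.exp ((a - ν / 4) * Real.log X) := by
  obtain ⟨L, hL⟩ : ∃ L : ℝ, L = max (max B0 0) (Real.log (|C| + 1) * (2 / ν)) := ⟨_, rfl⟩
  have hL0 : 0 ≤ L := by rw [hL]; exact le_max_of_le_left (le_max_right _ _)
  refine ⟨Real.exp L, Real.one_le_exp hL0, fun X hX => ?_⟩
  have hX1 : 1 ≤ X := (Real.one_le_exp hL0).trans hX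
  have hlog : L ≤ Real.log X := by
    rw [Real.le_log_iff_exp_le (by linarith)]
    exact hX
  refine ⟨le_trans (by rw [hL]; exact (le_max_left _ _).trans (le_max_left _ _)) hlog, ?_⟩
  rw [rpow_eq_exp hX1, ← Real.exp_add]
  have h1 : Real.log (|C| + 1) * (2 / ν) ≤ Real.log X :=
    le_trans (by rw [hL]; exact le_max_right _ _) hlog
  have h2 : Real.log (|C| + 1) ≤ ν / 2 * Real.log X := by
    have := mul_le_mul_of_nonneg_left h1 (by positivity : 0 ≤ ν / 2)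
    have e : ν / 2 * (Real.log (|C| + 1) * (2 / ν)) = Real.log (|C| + 1) := by field_simp
    rw [e] at this
    exact this
  have h3 : C ≤ Real.exp (ν / 2 * Real.log X) := by
    have h4 : |C| + 1 ≤ Real.exp (ν / 2 * Real.log X) := by
      rw [← Real.log_le_iff_le_exp (by positivity)]
      exact h2
    linarith [le_abs_self C]
  calc C * Real.exp ((a - ν) * Real.log X) ≤
        Real.exp (ν / 2 * Real.log X) * Real.exp ((a - ν) * Real.log X) :=
        mul_le_mul_of_nonneg_right h3 (Real.exp_pos _).le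
    _ = _ := by
        rw [← Real.exp_add]
        congr 1
        ring

theorem proj_main0 (K : Type) [Field K] [NumberField K] (hPF : S_PF K) (hMIN : S_MIN K)
    (hMIN2 : S_MIN2 K) (hCOMP : S_COMP K) (hg : S_GAUSS K) (hroot : S_ROOT K) (hcnt : S_CNT K)
    (n m e q : ℕ) (hm : 1 ≤ m) (hq : 3 ≤ q) :
    (∀ δ : ℝ, 0 < δ → ∃ η : ℝ, 0 < η ∧
      (∃ C : ℝ, ∀ X : ℝ, 1 ≤ X → (AP K n m e q η (Real.log X)).Finite ∧
        ((AP K n m e q η (Real.log X)).ncard : ℝ) ≤ C * X ^ (2 / (q : ℝ) + δ)) ∧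
      ∃ X₀ : ℝ, ∀ X : ℝ, X₀ ≤ X → ∀ (S : Finset (Pr K)) (P : Fin n → K[X])
        (F : MvPolynomial (Fin n) K), Adm m e q (η * Real.log X) S P F →
        X ^ (2 / (q : ℝ) - δ) ≤ ((PP m e (S : Set _) P F (Real.log X)).ncard : ℝ)) ∧
    (∀ κ : ℝ, κ < (q : ℝ) / m → ∃ η ν : ℝ, 0 < η ∧ 0 < ν ∧ ∀ A : ℝ,
      (∃ C : ℝ, ∀ X : ℝ, 1 ≤ X → (EX K n m e q η κ A (Real.log X)).Finite ∧
        ((EX K n m e q η κ A (Real.log X)).ncard : ℝ) ≤ C * X ^ (2 / (q : ℝ) - ν)) ∧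
      ∃ X₀ : ℝ, ∀ X : ℝ, X₀ ≤ X → ∀ (S : Finset (Pr K)) (P : Fin n → K[X])
        (F : MvPolynomial (Fin n) K), Adm m e q (η * Real.log X) S P F →
        ((EX K n m e q η κ A (Real.log X)).ncard : ℝ) ≤
          X ^ (-ν) * ((PP m e (S : Set _) P F (Real.log X)).ncard : ℝ)) ∧
    ∃ C : ℝ, ∀ B : ℝ, 0 ≤ B → ∀ (S : Finset (Pr K)) (P : Fin n → K[X])
      (F : MvPolynomial (Fin n) K), Adm m e q B S P F → ∀ t : Option K,
      co m P t ≠ 0 → MvPolynomial.eval (co m P t) F ≠ 0 →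
      m * cL (S : Set _) (fun v => lamF F e v (co m P t)) ≤
        q * Height.logHeight (co m P t) + C * (B + 1) := by
  refine ⟨fun δ hδ => ?_, fun κ hκ => ?_, ?_⟩
  · obtain ⟨η1, hη1, h1⟩ := proj_points hPF hMIN hCOMP hg hroot hcnt n m e q hq δ hδ
    obtain ⟨η2, B0, hη2, hB0, h2⟩ :=
      proj_lower hPF hMIN hCOMP hg hroot hcnt n m e q hm hq δ hδ
    refine ⟨min η1 η2, lt_min hη1 hη2, ?_, Real.exp B0, fun X hX S P F hA => ?_⟩
    · obtain ⟨C, -, hC⟩ := h1 (min η1 η2) (lt_min hη1 hη2).le (min_le_left _ _)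
      refine ⟨C, fun X hX => ?_⟩
      rw [rpow_eq_exp hX]
      exact hC (Real.log X) (Real.log_nonneg hX)
    · have hX1 : 1 ≤ X := (Real.one_le_exp hB0).trans hX
      have hlog : B0 ≤ Real.log X := by
        rw [Real.le_log_iff_exp_le (by linarith)]
        exact hX
      rw [rpow_eq_exp hX1]
      exact h2 (Real.log X) hlog S P F
        (hA.mono (mul_le_mul_of_nonneg_right (min_le_right _ _) (Real.log_nonneg hX1)))
  · obtain ⟨η1, ν, hη1, hν, -, h1⟩ :=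
      proj_upper hPF hMIN hCOMP hg hroot hcnt n m e q hm hq κ hκ
    obtain ⟨η2, B0, hη2, hB0, h2⟩ :=
      proj_lower hPF hMIN hCOMP hg hroot hcnt n m e q hm hq (ν / 4) (by positivity)
    refine ⟨min η1 η2, ν / 4, lt_min hη1 hη2, by positivity, fun A => ?_⟩
    obtain ⟨C, hC0, hC⟩ := h1 (min η1 η2) (lt_min hη1 hη2).le (min_le_left _ _) A
    obtain ⟨X₀, hX₀, hcomp⟩ := compare (C := C) (ν := ν) (a := 2 / q) (B0 := B0) hν
    refine ⟨⟨C, fun X hX => ?_⟩, X₀, fun X hX S P F hA => ?_⟩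
    · obtain ⟨h3, h4⟩ := hC (Real.log X) (Real.log_nonneg hX)
      refine ⟨h3, h4.trans ?_⟩
      rw [rpow_eq_exp hX]
      refine mul_le_mul_of_nonneg_left (Real.exp_le_exp.2 ?_) hC0.le
      exact mul_le_mul_of_nonneg_right (by linarith) (Real.log_nonneg hX)
    · have hX1 : 1 ≤ X := hX₀.trans hX
      obtain ⟨hlog, h5⟩ := hcomp X hX
      obtain ⟨h3, h4⟩ := hC (Real.log X) (Real.log_nonneg hX1)
      have h6 := h2 (Real.log X) hlog S P F
        (hA.mono (mul_le_mul_of_nonneg_right (min_le_right _ _) (Real.log_nonneg hX1)))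
      refine h4.trans (h5.trans ?_)
      exact mul_le_mul_of_nonneg_left h6 (Real.rpow_nonneg (by linarith) _)
  · obtain ⟨C, -, hC⟩ := proj_rev hPF hMIN hMIN2 hCOMP hg hroot hcnt n m e q hm
    exact ⟨C, hC⟩

end Pool.Agent.Y557.U
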