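import Pool.Agent.Y557.U.Gen2
import Pool.Agent.Y557.U.Main0

/-!
The points of all rational curves of small height in products of two projective spaces (helper557).
-/

set_option autoImplicit false

namespace Pool.Agent.Y557.U

open NumberField IsDedekindDomain Finset Polynomial
open Pool.Agent.H691R3 Pool.Agent.TH876.Loc
open Pool.Agent.TH876.KR (form localHeight localHeight_nonneg localHeight_eq localHeight_pos_iff
  log_Nv_pos' m2 fv_sub_le)
open Pool.Agent.Y730.QP (cnt PQ counting_le supp_finite term_nonneg log_Nv_le_localHeight)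
open Pool.Agent.Y557.NF

variable {K : Type} [Field K] [NumberField K] {n₁ n₂ k : ℕ}

open Classical in
/-- admissible data of height at most `B` -/
structure Adm3 (a b q r p : ℕ) (B : ℝ) (S : Finset (Pr K)) (f : Fin n₁ → K[X])
    (g : Fin n₂ → K[X]) (F : Fin k → MvPolynomial (Fin n₁ ⊕ Fin n₂) K) : Prop where
  hf : Crv a f
  hg : Crv b g
  hF : ∀ j, BiHom q r (F j)
  gcd : ∃ G : K[X], G ≠ 0 ∧ G.Splits ∧ (∀ j, G ∣ res2 f g (F j)) ∧
    (∃ u : Fin k → K[X], ∑ j, u j * res2 f g (F j) = G) ∧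
    (G.roots.toFinset.card +
      if ∀ j, (res2 f g (F j)).natDegree < a * q + b * r then 1 else 0) = p
  degs : ∀ j, (res2 f g (F j)).natDegree ≤ a * q + b * r
  hS : ∑ v ∈ S, Real.log (Nv v) ≤ B
  hfB : Height.logHeight (cf f a) ≤ B
  hgB : Height.logHeight (cf g b) ≤ B
  hFB : Height.logHeight (cFs F) ≤ B

theorem Adm3.mono {a b q r p : ℕ} {B B' : ℝ} {S : Finset (Pr K)} {f : Fin n₁ → K[X]}
    {g : Fin n₂ → K[X]} {F : Fin k → MvPolynomial (Fin n₁ ⊕ Fin n₂) K}
    (h : Adm3 a b q r p B S f g F) (hB : B ≤ B') : Adm3 a b q r p B' S f g F :=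
  ⟨h.hf, h.hg, h.hF, h.gcd, h.degs, h.hS.trans hB, h.hfB.trans hB, h.hgB.trans hB,
    h.hFB.trans hB⟩

theorem Adm3.sz_le {a b q r p : ℕ} {B : ℝ} {S : Finset (Pr K)} {f : Fin n₁ → K[X]}
    {g : Fin n₂ → K[X]} {F : Fin k → MvPolynomial (Fin n₁ ⊕ Fin n₂) K}
    (h : Adm3 a b q r p B S f g F) : sz3 a b S f g F ≤ 4 * B := by
  unfold sz3
  linarith [h.hS, h.hfB, h.hgB, h.hFB]

theorem Adm3.dat {a b q r p : ℕ} {B : ℝ} {S : Finset (Pr K)} {f : Fin n₁ → K[X]}
    {g : Fin n₂ → K[X]} {F : Fin k → MvPolynomial (Fin n₁ ⊕ Fin n₂) K}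
    (h : Adm3 a b q r p B S f g F) :
    ∃ D : Dat K n₁ n₂ k a b q r, D.S = S ∧ D.f = f ∧ D.g = g ∧ D.F = F ∧
      (zs D.G D.N').card = p ∧
      ∀ t : K, (∃ j, (res2 f g (F j)).eval t ≠ 0) ↔ D.G.eval t ≠ 0 := by
  classical
  obtain ⟨G, hG0, hs, hdvd, ⟨u, hu⟩, hp⟩ := h.gcd
  choose R hR using hdvd
  have hone : ∑ j, u j * R j = 1 := by
    have h1 : G * ∑ j, u j * R j = G * 1 := by
      rw [mul_one, Finset.mul_sum]
      conv_rhs => rw [← hu]
      refine Finset.sum_congr rfl fun j _ => ?_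
      rw [hR j]
      ring
    exact mul_left_cancel₀ hG0 h1
  obtain ⟨j0, hj0⟩ : ∃ j, R j ≠ 0 := by
    by_contra hcon
    push Not at hcon
    simp [hcon] at hone
  haveI : Nonempty (Fin k) := ⟨j0⟩
  obtain ⟨m', hm'⟩ : ∃ m', m' = Finset.univ.sup fun j => (R j).natDegree := ⟨_, rfl⟩
  have hle : ∀ j, (R j).natDegree ≤ m' := by
    intro j
    rw [hm']
    exact Finset.le_sup (f := fun j => (R j).natDegree) (Finset.mem_univ j)
  obtain ⟨j1, hj1, hj1'⟩ : ∃ j, R j ≠ 0 ∧ (R j).natDegree = m' := by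
    obtain ⟨j, -, hj⟩ := Finset.exists_mem_eq_sup (s := (Finset.univ : Finset (Fin k)))
      Finset.univ_nonempty (fun j => (R j).natDegree)
    rw [← hm'] at hj
    by_cases h0 : m' = 0
    · exact ⟨j0, hj0, le_antisymm (hle j0) (by omega)⟩
    · refine ⟨j, fun h' => h0 ?_, hj.symm⟩
      rw [hj, h', natDegree_zero]
  have hdeg1 : G.natDegree + m' ≤ a * q + b * r := by
    have h1 := h.degs j1
    rw [hR j1, natDegree_mul hG0 hj1, hj1'] at h1
    exact h1
  refine ⟨⟨S, f, g, F, G, R, m', a * q + b * r - m', h.hf, h.hg, h.hF,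
    ⟨hle, ⟨j1, hj1'⟩, ⟨u, hone⟩⟩, hR, hG0, hs, by omega, by omega⟩, rfl, rfl, rfl, rfl, ?_, ?_⟩
  · show (zs G (a * q + b * r - m')).card = p
    rw [card_zs, ← hp]
    have h2 : (G.natDegree < a * q + b * r - m') ↔
        ∀ j, (res2 f g (F j)).natDegree < a * q + b * r := by
      constructor
      · intro h3 j
        rw [hR j]
        refine lt_of_le_of_lt natDegree_mul_le ?_
        have := hle j
        omega
      · intro h3
        have h4 := h3 j1
        rw [hR j1, natDegree_mul hG0 hj1, hj1'] at h4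
        omega
    have h5 : (if G.natDegree < a * q + b * r - m' then 1 else 0) =
        if ∀ j, (res2 f g (F j)).natDegree < a * q + b * r then 1 else 0 := by
      by_cases h6 : G.natDegree < a * q + b * r - m'
      · rw [if_pos h6, if_pos (h2.1 h6)]
      · rw [if_neg h6, if_neg fun h7 => h6 (h2.2 h7)]
    convert congrArg (fun x => G.roots.toFinset.card + x) h5
  · intro t
    show _ ↔ G.eval t ≠ 0
    constructor
    · rintro ⟨j, hj⟩ h0
      apply hj
      rw [hR j, eval_mul, h0, zero_mul]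
    · intro h0
      obtain ⟨j, hj⟩ := common (P := R) ⟨u, hone⟩ t
      refine ⟨j, ?_⟩
      rw [hR j, eval_mul]
      exact mul_ne_zero h0 hj

/-- the points of one curve -/
def PP3 (a b q r : ℕ) (S : Set (Pr K)) (f : Fin n₁ → K[X]) (g : Fin n₂ → K[X])
    (F : Fin k → MvPolynomial (Fin n₁ ⊕ Fin n₂) K) (B : ℝ) :
    Set (Projectivization K (Fin n₁ → K) × Projectivization K (Fin n₂ → K)) :=
  {Q | ∃ (t : Option K) (hx : co a f t ≠ 0) (hy : co b g t ≠ 0),
    Q = (Projectivization.mk K (co a f t) hx, Projectivization.mk K (co b g t) hy) ∧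
    (∃ j, MvPolynomial.eval (Sum.elim (co a f t) (co b g t)) (F j) ≠ 0) ∧
    cL S (fun v => lamS F q r v (co a f t) (co b g t)) ≤ B}

/-- the points of all curves -/
def AP3 (K : Type) [Field K] [NumberField K] (n₁ n₂ k a b q r p : ℕ) (η B : ℝ) :
    Set (Projectivization K (Fin n₁ → K) × Projectivization K (Fin n₂ → K)) :=
  {Q | ∃ (S : Finset (Pr K)) (f : Fin n₁ → K[X]) (g : Fin n₂ → K[X])
    (F : Fin k → MvPolynomial (Fin n₁ ⊕ Fin n₂) K),
    Adm3 a b q r p (η * B) S f g F ∧ Q ∈ PP3 a b q r (S : Set (Pr K)) f g F B}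

/-- the exceptional points of all curves -/
def EX3 (K : Type) [Field K] [NumberField K] (n₁ n₂ k a b q r p : ℕ) (η κ₁ κ₂ A B : ℝ) :
    Set (Projectivization K (Fin n₁ → K) × Projectivization K (Fin n₂ → K)) :=
  {Q | ∃ (S : Finset (Pr K)) (f : Fin n₁ → K[X]) (g : Fin n₂ → K[X])
    (F : Fin k → MvPolynomial (Fin n₁ ⊕ Fin n₂) K),
    Adm3 a b q r p (η * B) S f g F ∧
    ∃ (t : Option K) (hx : co a f t ≠ 0) (hy : co b g t ≠ 0),
      Q = (Projectivization.mk K (co a f t) hx, Projectivization.mk K (co b g t) hy) ∧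
      (∃ j, MvPolynomial.eval (Sum.elim (co a f t) (co b g t)) (F j) ≠ 0) ∧
      cL (S : Set (Pr K)) (fun v => lamS F q r v (co a f t) (co b g t)) ≤ B ∧
      cL (S : Set (Pr K)) (fun v => lamS F q r v (co a f t) (co b g t)) <
        κ₁ * Height.logHeight (co a f t) + κ₂ * Height.logHeight (co b g t) - A}

theorem h_two (hPF : S_PF K) (hMIN2 : S_MIN2 K) (n m : ℕ) :
    ∃ C : ℝ, 0 ≤ C ∧ ∀ f : Fin n → K[X], Crv m f → ∀ t : K,
      |Height.logHeight (fun i => (f i).eval t) - m * Height.logHeight ![t, 1]| ≤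
        C * (Height.logHeight (cf f m) + 1) := by
  obtain ⟨C1, hC1, h1⟩ := crv_height hPF n m
  have h2 : ∃ C2 : ℝ, 0 ≤ C2 ∧ ∀ f : Fin n → K[X], Crv m f → ∀ t : K,
      m * Height.logHeight ![t, 1] ≤ Height.logHeight (fun i => (f i).eval t) +
        2 * m * Height.logHeight (cf f m) + C2 := by
    rcases Nat.eq_zero_or_pos m with h0 | hm
    · subst h0
      refine ⟨0, le_rfl, fun f hf t => ?_⟩
      have := Height.logHeight_nonneg (fun i => (f i).eval t)
      push_cast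
      linarith
    · exact height_lower hPF hMIN2 n m hm
  obtain ⟨C2, hC2, h2⟩ := h2
  refine ⟨1 + 2 * m + C1 + C2, by positivity, fun f hf t => ?_⟩
  have b1 : 0 ≤ Height.logHeight (cf f m) := Height.logHeight_nonneg _
  have k1 := h1 f hf t
  have k2 := h2 f hf t
  have e1 : (1 + 2 * m + C1 + C2) * (Height.logHeight (cf f m) + 1) =
    Height.logHeight (cf f m) + 2 * m * Height.logHeight (cf f m) +
      (C1 + C2) * Height.logHeight (cf f m) + (1 + 2 * m) + C1 + C2 := by ring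
  have e2 : 0 ≤ (C1 + C2) * Height.logHeight (cf f m) := by positivity
  have e3 : (0 : ℝ) ≤ 2 * m := by positivity
  have e4 : 0 ≤ 2 * (m : ℝ) * Height.logHeight (cf f m) := by positivity
  rw [abs_le, e1]
  constructor <;> linarith

/-- the combination of the two heights -/
theorem h_comb (hPF : S_PF K) (hMIN2 : S_MIN2 K) (n₁ n₂ a b : ℕ) (κ₁ κ₂ : ℝ) :
    ∃ M : ℝ, 0 ≤ M ∧ ∀ (f : Fin n₁ → K[X]) (g : Fin n₂ → K[X]), Crv a f → Crv b g →
      ∀ (H : ℝ), Height.logHeight (cf f a) ≤ H → Height.logHeight (cf g b) ≤ H → ∀ t : K,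
      |κ₁ * Height.logHeight (fun i => (f i).eval t) +
        κ₂ * Height.logHeight (fun i => (g i).eval t) -
        (κ₁ * a + κ₂ * b) * Height.logHeight ![t, 1]| ≤ M * (H + 1) := by
  obtain ⟨C1, hC1, h1⟩ := h_two hPF hMIN2 n₁ a
  obtain ⟨C2, hC2, h2⟩ := h_two hPF hMIN2 n₂ b
  refine ⟨|κ₁| * C1 + |κ₂| * C2, by positivity, fun f g hf hg H hfH hgH t => ?_⟩
  have k1 := (h1 f hf t).trans (mul_le_mul_of_nonneg_left (add_le_add_left hfH 1) hC1)
  have k2 := (h2 g hg t).trans (mul_le_mul_of_nonneg_left (add_le_add_left hgH 1) hC2)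
  have e1 : κ₁ * Height.logHeight (fun i => (f i).eval t) +
        κ₂ * Height.logHeight (fun i => (g i).eval t) -
        (κ₁ * a + κ₂ * b) * Height.logHeight ![t, 1] =
      κ₁ * (Height.logHeight (fun i => (f i).eval t) - a * Height.logHeight ![t, 1]) +
      κ₂ * (Height.logHeight (fun i => (g i).eval t) - b * Height.logHeight ![t, 1]) := by ring
  rw [e1]
  refine (abs_add_le _ _).trans ?_
  rw [abs_mul, abs_mul]
  have k3 := mul_le_mul_of_nonneg_left k1 (abs_nonneg κ₁)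
  have k4 := mul_le_mul_of_nonneg_left k2 (abs_nonneg κ₂)
  have e2 : (|κ₁| * C1 + |κ₂| * C2) * (H + 1) = |κ₁| * (C1 * (H + 1)) +
    |κ₂| * (C2 * (H + 1)) := by ring
  rw [e2]
  exact add_le_add k3 k4

/-- the points at infinity -/
theorem inf_pts (hcnt : S_CNT K) (n₁ n₂ : ℕ) : ∃ C c : ℝ, 0 < C ∧ 0 < c ∧ ∀ B : ℝ, 0 ≤ B →
    ({P : Projectivization K (Fin n₁ → K) | ∃ (y : Fin n₁ → K) (hy : y ≠ 0),
        P = Projectivization.mk K y hy ∧ Height.logHeight y ≤ B} ×ˢ
      {P : Projectivization K (Fin n₂ → K) | ∃ (y : Fin n₂ → K) (hy : y ≠ 0),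
        P = Projectivization.mk K y hy ∧ Height.logHeight y ≤ B}).Finite ∧
    (({P : Projectivization K (Fin n₁ → K) | ∃ (y : Fin n₁ → K) (hy : y ≠ 0),
        P = Projectivization.mk K y hy ∧ Height.logHeight y ≤ B} ×ˢ
      {P : Projectivization K (Fin n₂ → K) | ∃ (y : Fin n₂ → K) (hy : y ≠ 0),
        P = Projectivization.mk K y hy ∧ Height.logHeight y ≤ B}).ncard : ℝ) ≤
      C * Real.exp (c * B) := by
  obtain ⟨C1, a1, hC1, ha1, h1⟩ := hcnt (Fin n₁)
  obtain ⟨C2, a2, hC2, ha2, h2⟩ := hcnt (Fin n₂)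
  refine ⟨C1 * C2, a1 + a2, mul_pos hC1 hC2, by positivity, fun B hB => ?_⟩
  obtain ⟨f1, c1⟩ := h1 B hB
  obtain ⟨f2, c2⟩ := h2 B hB
  refine ⟨f1.prod f2, ?_⟩
  rw [Set.ncard_prod, Nat.cast_mul]
  have e1 : C1 * C2 * Real.exp ((a1 + a2) * B) =
      (C1 * Real.exp (a1 * B)) * (C2 * Real.exp (a2 * B)) := by
    rw [add_mul, Real.exp_add]
    ring
  rw [e1]
  exact mul_le_mul c1 c2 (Nat.cast_nonneg _) (by positivity)

end Pool.Agent.Y557.U
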