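import Pool.Agent.Y557.U.GenRev
import Pool.Agent.Y557.U.Cmp2
import Pool.Agent.Y427.U557.Div
import Pool.Agent.Z932.U557.PF
import Pool.Agent.Z932.U557.PF3
import Pool.Agent.Y664.U557.Min
import Pool.Agent.Y664.U557.Min2
import Pool.Agent.Y447.U557.Gauss
import Pool.Agent.Y51.U557.Cnt
import Pool.Agent.Y51.U557.Root

/-!
The main theorem for all pairs (helper557). The statements of the jobs were proved by helper932
(product formula), helper664 (minors), helper434 (coefficients of restrictions, one group of
variables), helper447 (Gauss), helper427 (products) and helper51 (roots, points of bounded height).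
-/

set_option autoImplicit false

namespace Pool.Agent.Y557.U


theorem hyps (K : Type) [Field K] [NumberField K] : Hyps K where
  hPF := Pool.Agent.Z932.U557.pf_holds K
  hPF3 := Pool.Agent.Z932.U557.pf3_holds K
  hMIN := Pool.Agent.Y664.U557.min_holds K
  hMIN2 := Pool.Agent.Y664.U557.min2_holds K
  hCOMP2 := comp2_holds K
  hg := Pool.Agent.Y447.U557.gauss_holds K
  hroot := Pool.Agent.Y51.U557.root_holds K (Pool.Agent.Z932.U557.pf_holds K)
  hDIV := Pool.Agent.Y427.U557.div_holds K
  hcnt := Pool.Agent.Y51.U557.cnt_holds K

end Pool.Agent.Y557.U
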