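import Pool.Agent.Y557.U.GenThm

/-!
The reverse inequality for all points of rational curves in products of two projective spaces, and
the main theorem (helper557).
-/

set_option autoImplicit false

namespace Pool.Agent.Y557.U

open NumberField IsDedekindDomain Finset Polynomial
open Pool.Agent.H691R3 Pool.Agent.TH876.Loc
open Pool.Agent.TH876.KR (form localHeight localHeight_nonneg localHeight_eq localHeight_pos_iff
  log_Nv_pos' m2 fv_sub_le)
open Pool.Agent.Y730.QP (cnt PQ counting_le supp_finite term_nonneg log_Nv_le_localHeight)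
open Pool.Agent.Y557.NF

variable {K : Type} [Field K] [NumberField K]

/-- the trivial upper bound for the counting function -/
theorem gen_triv (hPF : S_PF3 K) (hCOMP : S_COMP2 K) (n₁ n₂ k q r : ℕ) :
    ∃ C : ℝ, 0 ≤ C ∧ ∀ F : Fin k → MvPolynomial (Fin n₁ ⊕ Fin n₂) K, (∀ j, BiHom q r (F j)) →
      ∀ (x : Fin n₁ → K) (y : Fin n₂ → K), x ≠ 0 → y ≠ 0 →
      (∃ j, MvPolynomial.eval (Sum.elim x y) (F j) ≠ 0) → ∀ S : Set (Pr K),
      cL S (fun v => lamS F q r v x y) ≤
        Height.logHeight (cFs F) + q * Height.logHeight x + r * Height.logHeight y + C := by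
  classical
  obtain ⟨A, hA1, hA⟩ := hCOMP n₁ n₂ 0 0 q r
  refine ⟨(Module.finrank ℚ K : ℝ) * Real.log A,
    mul_nonneg (Nat.cast_nonneg _) (Real.log_nonneg hA1), fun F hF x y hx hy hFx S => ?_⟩
  have hj := fun j => hA (fun i => C (x i)) (fun i => C (y i)) (F j) (fun i => by simp)
    (fun i => by simp) (hF j)
  have hc0 : ∀ j, (MvPolynomial.aeval (Sum.elim (fun i => C (x i)) (fun i => C (y i)))
      (F j)).coeff 0 = MvPolynomial.eval (Sum.elim x y) (F j) := by
    intro j
    rw [coeff_zero_eq_eval_zero]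
    have := eval_res2 (fun i => C (x i)) (fun i => C (y i)) (F j) 0
    unfold res2 at this
    rw [this]
    congr 2
    funext i
    cases i <;> exact eval_C
  have hcf : ∀ (n : ℕ) (z : Fin n → K) (p : Fin n × Fin (0 + 1)),
      cf (fun i => C (z i)) 0 p = z p.1 := by
    intro n z p
    show (C (z p.1)).coeff p.2 = z p.1
    have : (p.2 : ℕ) = 0 := by omega
    rw [this, coeff_C_zero]
  have s1 : ∀ (n : ℕ) (z : Fin n → K), z ≠ 0 → ∀ v : Pr K,
      sn v (cf (fun i => C (z i)) 0) ≤ sn v z := by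
    intro n z hz v
    obtain ⟨i0, -⟩ := Function.ne_iff.1 hz
    have : Nonempty (Fin n × Fin (0 + 1)) := ⟨(i0, 0)⟩
    refine ciSup_le fun p => ?_
    rw [hcf]
    exact le_sn v z p.1
  have s2 : ∀ (n : ℕ) (z : Fin n → K), z ≠ 0 → ∀ w : InfinitePlace K,
      sw w (cf (fun i => C (z i)) 0) ≤ sw w z := by
    intro n z hz w
    obtain ⟨i0, -⟩ := Function.ne_iff.1 hz
    have : Nonempty (Fin n × Fin (0 + 1)) := ⟨(i0, 0)⟩
    refine ciSup_le fun p => ?_
    rw [hcf]
    exact le_sw w z p.1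
  obtain ⟨j0, hj0⟩ := hFx
  have hne : Nonempty (Fin k) := ⟨j0⟩
  have hF0 : F j0 ≠ 0 := by
    intro h
    apply hj0
    rw [h, map_zero]
  have hy0 : (fun j => MvPolynomial.eval (Sum.elim x y) (F j)) ≠ 0 := fun h =>
    hj0 (congrFun h j0)
  obtain ⟨T, hT1, hT2⟩ := prime_set3 hPF (y := fun j => MvPolynomial.eval (Sum.elim x y) (F j))
    (c₁ := cFs F) (c₂ := x) (c₃ := y) (z := (1 : K)) (k₁ := 1) (k₂ := q) (k₃ := r) (A := A)
    hy0 (cFs_ne hF0) hx hy one_ne_zero hA1
    (fun v => by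
      rw [map_one, one_mul, pow_one]
      refine ciSup_le fun j => ?_
      show fv v (MvPolynomial.eval (Sum.elim x y) (F j)) ≤ _
      rw [← hc0 j]
      refine ((hj j).2.1 v 0).trans ?_
      refine mul_le_mul (mul_le_mul (sn_cF2_le v F j) (pow_le_pow_left₀ (sn_nonneg _ _)
        (s1 n₁ x hx v) q) (pow_nonneg (sn_nonneg _ _) _) (sn_nonneg _ _))
        (pow_le_pow_left₀ (sn_nonneg _ _) (s1 n₂ y hy v) r) (pow_nonneg (sn_nonneg _ _) _)
        (mul_nonneg (sn_nonneg _ _) (pow_nonneg (sn_nonneg _ _) _)))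
    (fun w => by
      rw [map_one, one_mul, pow_one]
      refine ciSup_le fun j => ?_
      show w (MvPolynomial.eval (Sum.elim x y) (F j)) ≤ _
      rw [← hc0 j]
      refine ((hj j).2.2 w 0).trans (mul_le_mul_of_nonneg_left ?_ (by linarith))
      refine mul_le_mul (mul_le_mul (sw_cF2_le w F j) (pow_le_pow_left₀ (sw_nonneg _ _)
        (s2 n₁ x hx w) q) (pow_nonneg (sw_nonneg _ _) _) (sw_nonneg _ _))
        (pow_le_pow_left₀ (sw_nonneg _ _) (s2 n₂ y hy w) r) (pow_nonneg (sw_nonneg _ _) _)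
        (mul_nonneg (sw_nonneg _ _) (pow_nonneg (sw_nonneg _ _) _)))
  have hsub : {v : Pr K | v ∉ S ∧ 0 < lamS F q r v x y} ⊆ T := by
    rintro v ⟨-, hv⟩
    by_contra hcon
    have h3 := hT1 v (fun h => hcon (Finset.mem_coe.2 h))
    rw [map_one, one_mul, pow_one] at h3
    unfold lamS at hv
    have e3 : (⨆ s : (Σ j, (F j).support), FinitePlace.mk v ((F s.1).coeff s.2)) =
      sn v (cFs F) := rfl
    have e4 : (⨆ i, FinitePlace.mk v (x i)) = sn v x := rfl
    have e4' : (⨆ i, FinitePlace.mk v (y i)) = sn v y := rfl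
    have e5 : (⨆ j, FinitePlace.mk v (MvPolynomial.eval (Sum.elim x y) (F j))) =
      sn v (fun j => MvPolynomial.eval (Sum.elim x y) (F j)) := rfl
    rw [e3, e4, e4', e5, ← mul_assoc, ← h3, div_self (sn_pos v hy0).ne', Real.log_one] at hv
    exact lt_irrefl _ hv
  have h4 : 0 ≤ Height.logHeight (fun j => MvPolynomial.eval (Sum.elim x y) (F j)) :=
    Height.logHeight_nonneg _
  have h5 := finsum_le_of_subset T _ hsub
  unfold cL
  push_cast at hT2
  linarith

/-- **the reverse inequality and the proportionality of the heights, for all points** -/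
theorem gen_rev (hh : Hyps K) (n₁ n₂ k a b q r p : ℕ) :
    ∃ C : ℝ, 0 ≤ C ∧ ∀ B : ℝ, 0 ≤ B → ∀ (S : Finset (Pr K))
      (f : Fin n₁ → K[X]) (g : Fin n₂ → K[X]) (F : Fin k → MvPolynomial (Fin n₁ ⊕ Fin n₂) K),
      Adm3 a b q r p B S f g F → ∀ t : Option K, co a f t ≠ 0 → co b g t ≠ 0 →
        |b * Height.logHeight (co a f t) - a * Height.logHeight (co b g t)| ≤ C * (B + 1) ∧
        ((∃ j, MvPolynomial.eval (Sum.elim (co a f t) (co b g t)) (F j) ≠ 0) →
          (a + b) * cL (S : Set (Pr K)) (fun v => lamS F q r v (co a f t) (co b g t)) ≤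
            p * (Height.logHeight (co a f t) + Height.logHeight (co b g t)) + C * (B + 1)) := by
  classical
  obtain ⟨D, hDH, hDpt, hDq, hDform, hDc⟩ := exists_fam3 hh.hPF hh.hPF3 hh.hMIN hh.hCOMP2 hh.hg
    hh.hroot hh.hDIV hh.hcnt n₁ n₂ k a b q r
  obtain ⟨M1, hM1, hcomb1⟩ := h_comb hh.hPF hh.hMIN2 n₁ n₂ a b b (-a)
  obtain ⟨M2, hM2, hcomb2⟩ := h_comb hh.hPF hh.hMIN2 n₁ n₂ a b 1 1
  obtain ⟨C1, hC1, htriv⟩ := gen_triv hh.hPF3 hh.hCOMP2 n₁ n₂ k q r
  obtain ⟨c, hc⟩ : ∃ c : ℝ, c = (Module.finrank ℚ K : ℝ) * Real.log 2 := ⟨_, rfl⟩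
  have hc0 : 0 ≤ c := by rw [hc]; positivity
  have hD2 := D.hC2
  have ha0 : (0 : ℝ) ≤ a := Nat.cast_nonneg a
  have hb0 : (0 : ℝ) ≤ b := Nat.cast_nonneg b
  have hq0 : (0 : ℝ) ≤ q := Nat.cast_nonneg q
  have hr0 : (0 : ℝ) ≤ r := Nat.cast_nonneg r
  have hp0 : (0 : ℝ) ≤ p := Nat.cast_nonneg p
  obtain ⟨C, hC⟩ : ∃ C : ℝ, C = M1 + (a + b) + (a + b) * (1 + q + r + C1) + p * M2 +
    (a + b) * (p * (4 * D.C2 + c) + 4 * D.C2) := ⟨_, rfl⟩
  have hC0 : 0 ≤ C := by rw [hC]; positivity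
  refine ⟨C, hC0, fun B hB S f g F hA t hx hy => ?_⟩
  have hh1 : 0 ≤ Height.logHeight (co a f t) := Height.logHeight_nonneg _
  have hh2 : 0 ≤ Height.logHeight (co b g t) := Height.logHeight_nonneg _
  have hB1 : 0 ≤ B + 1 := by linarith
  have v1 : 0 ≤ M1 * (B + 1) := by positivity
  have v2 : 0 ≤ (a + b) * (B + 1) := by positivity
  have v3 : 0 ≤ (a + b) * (1 + q + r + C1) * (B + 1) := by positivity
  have v4 : 0 ≤ p * M2 * (B + 1) := by positivity
  have v5 : 0 ≤ (a + b) * (p * (4 * D.C2 + c) + 4 * D.C2) * (B + 1) := by positivity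
  have hCB : C * (B + 1) = M1 * (B + 1) + (a + b) * (B + 1) +
      (a + b) * (1 + q + r + C1) * (B + 1) + p * M2 * (B + 1) +
      (a + b) * (p * (4 * D.C2 + c) + 4 * D.C2) * (B + 1) := by rw [hC]; ring
  cases t with
  | none =>
    have h1 : Height.logHeight (co a f none) ≤ B := (co_none_height f).trans hA.hfB
    have h2 : Height.logHeight (co b g none) ≤ B := (co_none_height g).trans hA.hgB
    have e1 : (b : ℝ) * Height.logHeight (co a f none) ≤ b * B := mul_le_mul_of_nonneg_left h1 hb0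
    have e2 : (a : ℝ) * Height.logHeight (co b g none) ≤ a * B := mul_le_mul_of_nonneg_left h2 ha0
    have e3 : 0 ≤ (b : ℝ) * Height.logHeight (co a f none) := mul_nonneg hb0 hh1
    have e4 : 0 ≤ (a : ℝ) * Height.logHeight (co b g none) := mul_nonneg ha0 hh2
    have e5 : (a + b) * (B + 1) = a * B + b * B + a + b := by ring
    constructor
    · rw [abs_le, hCB]
      rw [e5] at v2 ⊢
      constructor <;> linarith
    · intro hF
      have h3 := htriv F hA.hF _ _ hx hy hF (S : Set (Pr K))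
      have h4 : cL (S : Set (Pr K)) (fun v => lamS F q r v (co a f none) (co b g none)) ≤
          (1 + q + r + C1) * (B + 1) := by
        have f1 : (q : ℝ) * Height.logHeight (co a f none) ≤ q * B :=
          mul_le_mul_of_nonneg_left h1 hq0
        have f2 : (r : ℝ) * Height.logHeight (co b g none) ≤ r * B :=
          mul_le_mul_of_nonneg_left h2 hr0
        have f3 : 0 ≤ C1 * B := mul_nonneg hC1 hB
        have f4 : (1 + q + r + C1) * (B + 1) = B + q * B + r * B + C1 * B + 1 + q + r + C1 := by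
          ring
        rw [f4]
        linarith [hA.hFB]
      have h5 := mul_le_mul_of_nonneg_left h4 (add_nonneg ha0 hb0)
      have h6 : 0 ≤ (p : ℝ) * (Height.logHeight (co a f none) + Height.logHeight (co b g none)) :=
        mul_nonneg hp0 (add_nonneg hh1 hh2)
      have h7 : (a + b : ℝ) * ((1 + q + r + C1) * (B + 1)) =
        (a + b) * (1 + q + r + C1) * (B + 1) := by ring
      rw [h7] at h5
      rw [hCB]
      linarith
  | some t =>
    have k1 := hcomb1 f g hA.hf hA.hg B hA.hfB hA.hgB t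
    have k2 := hcomb2 f g hA.hf hA.hg B hA.hfB hA.hgB t
    have g1 : Height.logHeight (co a f (some t)) = Height.logHeight (fun i => (f i).eval t) := rfl
    have g2 : Height.logHeight (co b g (some t)) = Height.logHeight (fun i => (g i).eval t) := rfl
    constructor
    · have e1 : (b : ℝ) * Height.logHeight (fun i => (f i).eval t) +
          -a * Height.logHeight (fun i => (g i).eval t) -
          ((b : ℝ) * a + -a * b) * Height.logHeight ![t, 1] =
          b * Height.logHeight (co a f (some t)) - a * Height.logHeight (co b g (some t)) := by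
        rw [g1, g2]
        ring
      rw [e1] at k1
      rw [hCB]
      linarith
    · intro hF
      have e2 : (1 : ℝ) * Height.logHeight (fun i => (f i).eval t) +
          1 * Height.logHeight (fun i => (g i).eval t) -
          ((1 : ℝ) * a + 1 * b) * Height.logHeight ![t, 1] =
          Height.logHeight (co a f (some t)) + Height.logHeight (co b g (some t)) -
          (a + b) * Height.logHeight ![t, 1] := by
        rw [g1, g2]
        ring
      rw [e2] at k2
      have k3 := (abs_le.1 k2).1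
      obtain ⟨j, rfl, rfl, rfl, rfl, hcard, hroot⟩ := hA.dat
      have hG : j.G.eval t ≠ 0 := by
        rw [← hroot]
        obtain ⟨i, hi⟩ := hF
        refine ⟨i, ?_⟩
        rw [eval_res2]
        exact hi
      obtain ⟨-, h1⟩ := hDc j t hG
      have h1' : cL (j.S : Set (Pr K)) (fun v => lamS j.F q r v (co a j.f (some t))
          (co b j.g (some t))) ≤
        cnt (D.T j : Set (Pr K)) (D.α j) ![t, 1] + D.C2 * (D.H j + 1) := h1
      have hqj : D.q j = p := (hDq j).trans hcard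
      have hqj' : ((D.q j : ℕ) : ℝ) = p := by rw [hqj]
      have hszj : D.H j ≤ 4 * B := by
        have : D.H j = sz3 a b j.S j.f j.g j.F := hDH j
        rw [this]
        exact hA.sz_le
      have hb : D.C2 * (D.H j + 1) ≤ 4 * D.C2 * (B + 1) := by
        have := mul_le_mul_of_nonneg_left hszj hD2
        nlinarith
      have h2 := cnt_le_height (D.T j : Set (Pr K)) ((hDform j t).2 hG) (t1_ne t)
        (M := 4 * D.C2 * (B + 1)) (fun i => (D.hα j i).trans hb)
      rw [hqj', ← hc] at h2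
      have h4 : cL (j.S : Set (Pr K)) (fun v => lamS j.F q r v (co a j.f (some t))
          (co b j.g (some t))) ≤
          p * Height.logHeight ![t, 1] + (p * (4 * D.C2 + c) + 4 * D.C2) * (B + 1) := by
        have e3 : (p : ℝ) * (Height.logHeight ![t, 1] + 4 * D.C2 * (B + 1) + c) =
          p * Height.logHeight ![t, 1] + p * (4 * D.C2) * (B + 1) + p * c := by ring
        have e4 : (p * (4 * D.C2 + c) + 4 * D.C2) * (B + 1) =
          p * (4 * D.C2) * (B + 1) + p * c * (B + 1) + 4 * D.C2 * (B + 1) := by ring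
        have e5 : p * c ≤ p * c * (B + 1) :=
          le_mul_of_one_le_right (mul_nonneg hp0 hc0) (by linarith)
        rw [e3] at h2
        rw [e4]
        linarith
      have h5 := mul_le_mul_of_nonneg_left h4 (add_nonneg ha0 hb0)
      have h6 : (a + b : ℝ) * (p * Height.logHeight ![t, 1]) ≤
          p * (Height.logHeight (co a j.f (some t)) + Height.logHeight (co b j.g (some t)) +
            M2 * (B + 1)) := by
        have e6 : (a + b : ℝ) * (p * Height.logHeight ![t, 1]) =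
          p * ((a + b) * Height.logHeight ![t, 1]) := by ring
        rw [e6]
        exact mul_le_mul_of_nonneg_left (by linarith) hp0
      have h7 : (a + b : ℝ) * (p * Height.logHeight ![t, 1] +
          (p * (4 * D.C2 + c) + 4 * D.C2) * (B + 1)) =
          (a + b) * (p * Height.logHeight ![t, 1]) +
          (a + b) * (p * (4 * D.C2 + c) + 4 * D.C2) * (B + 1) := by ring
      rw [h7] at h5
      have h8 : (p : ℝ) * (Height.logHeight (co a j.f (some t)) +
          Height.logHeight (co b j.g (some t)) + M2 * (B + 1)) =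
          p * (Height.logHeight (co a j.f (some t)) + Height.logHeight (co b j.g (some t))) +
          p * M2 * (B + 1) := by ring
      rw [h8] at h6
      rw [hCB]
      linarith

/-- **the main theorem** -/
theorem gen_main0 (hh : Hyps K) (n₁ n₂ k a b q r p : ℕ) (hab : 1 ≤ a + b) (hp : 3 ≤ p) :
    (∀ δ : ℝ, 0 < δ → ∃ η : ℝ, 0 < η ∧
      (∃ C : ℝ, ∀ X : ℝ, 1 ≤ X → (AP3 K n₁ n₂ k a b q r p η (Real.log X)).Finite ∧
        ((AP3 K n₁ n₂ k a b q r p η (Real.log X)).ncard : ℝ) ≤ C * X ^ (2 / (p : ℝ) + δ)) ∧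
      ∃ X₀ : ℝ, ∀ X : ℝ, X₀ ≤ X → ∀ (S : Finset (Pr K)) (f : Fin n₁ → K[X]) (g : Fin n₂ → K[X])
        (F : Fin k → MvPolynomial (Fin n₁ ⊕ Fin n₂) K), Adm3 a b q r p (η * Real.log X) S f g F →
        X ^ (2 / (p : ℝ) - δ) ≤ ((PP3 a b q r (S : Set _) f g F (Real.log X)).ncard : ℝ)) ∧
    (∀ κ₁ κ₂ : ℝ, κ₁ * a + κ₂ * b < p → ∃ η ν : ℝ, 0 < η ∧ 0 < ν ∧ ∀ A : ℝ,
      (∃ C : ℝ, ∀ X : ℝ, 1 ≤ X → (EX3 K n₁ n₂ k a b q r p η κ₁ κ₂ A (Real.log X)).Finite ∧
        ((EX3 K n₁ n₂ k a b q r p η κ₁ κ₂ A (Real.log X)).ncard : ℝ) ≤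
          C * X ^ (2 / (p : ℝ) - ν)) ∧
      ∃ X₀ : ℝ, ∀ X : ℝ, X₀ ≤ X → ∀ (S : Finset (Pr K)) (f : Fin n₁ → K[X]) (g : Fin n₂ → K[X])
        (F : Fin k → MvPolynomial (Fin n₁ ⊕ Fin n₂) K), Adm3 a b q r p (η * Real.log X) S f g F →
        ((EX3 K n₁ n₂ k a b q r p η κ₁ κ₂ A (Real.log X)).ncard : ℝ) ≤
          X ^ (-ν) * ((PP3 a b q r (S : Set _) f g F (Real.log X)).ncard : ℝ)) := by
  refine ⟨fun δ hδ => ?_, fun κ₁ κ₂ hκ => ?_⟩
  · obtain ⟨η1, hη1, h1⟩ := gen_points hh n₁ n₂ k a b q r p hp δ hδ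
    obtain ⟨η2, B0, hη2, hB0, h2⟩ := gen_lower hh n₁ n₂ k a b q r p hab hp δ hδ
    refine ⟨min η1 η2, lt_min hη1 hη2, ?_, Real.exp B0, fun X hX S f g F hA => ?_⟩
    · obtain ⟨C, -, hC⟩ := h1 (min η1 η2) (lt_min hη1 hη2).le (min_le_left _ _)
      refine ⟨C, fun X hX => ?_⟩
      rw [rpow_eq_exp hX]
      exact hC (Real.log X) (Real.log_nonneg hX)
    · have hX1 : 1 ≤ X := (Real.one_le_exp hB0).trans hX
      have hlog : B0 ≤ Real.log X := by
        rw [Real.le_log_iff_exp_le (by linarith)]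
        exact hX
      rw [rpow_eq_exp hX1]
      exact h2 (Real.log X) hlog S f g F
        (hA.mono (mul_le_mul_of_nonneg_right (min_le_right _ _) (Real.log_nonneg hX1)))
  · obtain ⟨η1, ν, hη1, hν, -, h1⟩ := gen_upper hh n₁ n₂ k a b q r p hp κ₁ κ₂ hκ
    obtain ⟨η2, B0, hη2, hB0, h2⟩ :=
      gen_lower hh n₁ n₂ k a b q r p hab hp (ν / 4) (by positivity)
    refine ⟨min η1 η2, ν / 4, lt_min hη1 hη2, by positivity, fun A => ?_⟩
    obtain ⟨C, hC0, hC⟩ := h1 (min η1 η2) (lt_min hη1 hη2).le (min_le_left _ _) A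
    obtain ⟨X₀, hX₀, hcomp⟩ := compare (C := C) (ν := ν) (a := 2 / p) (B0 := B0) hν
    refine ⟨⟨C, fun X hX => ?_⟩, X₀, fun X hX S f g F hA => ?_⟩
    · obtain ⟨h3, h4⟩ := hC (Real.log X) (Real.log_nonneg hX)
      refine ⟨h3, h4.trans ?_⟩
      rw [rpow_eq_exp hX]
      refine mul_le_mul_of_nonneg_left (Real.exp_le_exp.2 ?_) hC0.le
      exact mul_le_mul_of_nonneg_right (by linarith) (Real.log_nonneg hX)
    · have hX1 : 1 ≤ X := hX₀.trans hX
      obtain ⟨hlog, h5⟩ := hcomp X hX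
      obtain ⟨h3, h4⟩ := hC (Real.log X) (Real.log_nonneg hX1)
      have h6 := h2 (Real.log X) hlog S f g F
        (hA.mono (mul_le_mul_of_nonneg_right (min_le_right _ _) (Real.log_nonneg hX1)))
      refine h4.trans (h5.trans ?_)
      exact mul_le_mul_of_nonneg_left h6 (Real.rpow_nonneg (by linarith) _)

end Pool.Agent.Y557.U
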