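import Pool.Agent.Y557.U.GenFin

/-!
The points of all rational curves of small height in products of two projective spaces: bounds
(helper557).
-/

set_option autoImplicit false

namespace Pool.Agent.Y557.U

open NumberField IsDedekindDomain Finset Polynomial
open Pool.Agent.H691R3 Pool.Agent.TH876.Loc
open Pool.Agent.TH876.KR (form localHeight localHeight_nonneg localHeight_eq localHeight_pos_iff
  log_Nv_pos' m2 fv_sub_le)
open Pool.Agent.Y730.QP (cnt PQ counting_le supp_finite term_nonneg log_Nv_le_localHeight)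
open Pool.Agent.Y557.NF

variable {K : Type} [Field K] [NumberField K]

/-- all hypotheses together -/
structure Hyps (K : Type) [Field K] [NumberField K] : Prop where
  hPF : S_PF K
  hPF3 : S_PF3 K
  hMIN : S_MIN K
  hMIN2 : S_MIN2 K
  hCOMP2 : S_COMP2 K
  hg : S_GAUSS K
  hroot : S_ROOT K
  hDIV : S_DIV K
  hcnt : S_CNT K

theorem gen_upper (hh : Hyps K) (n₁ n₂ k a b q r p : ℕ) (hp : 3 ≤ p) (κ₁ κ₂ : ℝ)
    (hκ : κ₁ * a + κ₂ * b < p) :
    ∃ η0 ν : ℝ, 0 < η0 ∧ 0 < ν ∧ ν ≤ 1 / p ∧ ∀ η : ℝ, 0 ≤ η → η ≤ η0 → ∀ A : ℝ,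
      ∃ C : ℝ, 0 < C ∧ ∀ B : ℝ, 0 ≤ B → (EX3 K n₁ n₂ k a b q r p η κ₁ κ₂ A B).Finite ∧
        ((EX3 K n₁ n₂ k a b q r p η κ₁ κ₂ A B).ncard : ℝ) ≤
          C * Real.exp ((2 / p - ν) * B) := by
  classical
  obtain ⟨D, hDH, hDpt, hDq, hDform, hDc⟩ := exists_fam3 hh.hPF hh.hPF3 hh.hMIN hh.hCOMP2 hh.hg
    hh.hroot hh.hDIV hh.hcnt n₁ n₂ k a b q r
  obtain ⟨M, hM, hcomb⟩ := h_comb hh.hPF hh.hMIN2 n₁ n₂ a b κ₁ κ₂
  obtain ⟨C6, a6, hC6, ha6, hfew⟩ := inf_pts hh.hcnt n₁ n₂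
  have hp3 : (3 : ℝ) ≤ p := by exact_mod_cast hp
  have hp0 : (0 : ℝ) < p := by linarith
  obtain ⟨ρ, hρ⟩ : ∃ ρ : ℝ, ρ = max (κ₁ * a + κ₂ * b) (p / 2) := ⟨_, rfl⟩
  have hρ1 : κ₁ * a + κ₂ * b ≤ ρ := by rw [hρ]; exact le_max_left _ _
  have hρ0 : (p : ℝ) / 2 ≤ ρ := by rw [hρ]; exact le_max_right _ _
  have hρp : 0 < ρ := lt_of_lt_of_le (by positivity) hρ0
  have hρ2 : ρ < p := by
    rw [hρ]
    exact max_lt hκ (by linarith)
  obtain ⟨ε, hε⟩ : ∃ ε : ℝ, ε = 1 - ρ / p := ⟨_, rfl⟩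
  have hε0 : 0 < ε := by
    rw [hε, sub_pos, div_lt_one hp0]
    exact hρ2
  have hε1 : ε ≤ 1 := by
    rw [hε]
    have : 0 ≤ ρ / p := by positivity
    linarith
  have hεq : (1 - ε) * p = ρ := by
    rw [hε]
    field_simp
    ring
  obtain ⟨η1, ν1, hη1, hν1, hν1', hup⟩ := core_upper D ε hε0 hε1 M hM
  refine ⟨min (3 * η1 / (4 * p)) (1 / (p * a6)), 3 * ν1 / p,
    lt_min (by positivity) (by positivity), by positivity, ?_, fun η hη hηle A => ?_⟩
  · rw [div_le_div_iff_of_pos_right hp0]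
    linarith
  have hη2 : 4 * p / 3 * η ≤ η1 := by
    have := hηle.trans (min_le_left _ _)
    rw [le_div_iff₀ (by positivity)] at this
    linarith
  have hη3 : a6 * η ≤ 1 / p := by
    have := hηle.trans (min_le_right _ _)
    rw [le_div_iff₀ (by positivity)] at this
    rw [le_div_iff₀ hp0]
    linarith
  obtain ⟨C, hC, hE⟩ := hup (4 * p / 3 * η) (by positivity) hη2 (M - A)
  refine ⟨C + C6, by positivity, fun B hB => ?_⟩
  obtain ⟨hEf, hEc⟩ := hE (3 * B / p) (by positivity)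
  obtain ⟨hPf, hPc⟩ := hfew (η * B) (by positivity)
  have hsub : EX3 K n₁ n₂ k a b q r p η κ₁ κ₂ A B ⊆
      D.E ε M (M - A) (4 * p / 3 * η) (3 * B / p) ∪
      ({P : Projectivization K (Fin n₁ → K) | ∃ (y : Fin n₁ → K) (hy : y ≠ 0),
        P = Projectivization.mk K y hy ∧ Height.logHeight y ≤ η * B} ×ˢ
      {P : Projectivization K (Fin n₂ → K) | ∃ (y : Fin n₂ → K) (hy : y ≠ 0),
        P = Projectivization.mk K y hy ∧ Height.logHeight y ≤ η * B}) := by
    rintro Q ⟨S, f, g, F, hA, t, hx, hy, rfl, h1, h2, h3⟩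
    cases t with
    | none =>
      right
      exact ⟨⟨_, hx, rfl, (co_none_height f).trans hA.hfB⟩,
        ⟨_, hy, rfl, (co_none_height g).trans hA.hgB⟩⟩
    | some t =>
      left
      obtain ⟨j, rfl, rfl, rfl, rfl, hcard, hroot⟩ := hA.dat
      have hG : j.G.eval t ≠ 0 := by
        rw [← hroot]
        obtain ⟨i, hi⟩ := h1
        refine ⟨i, ?_⟩
        rw [eval_res2]
        exact hi
      obtain ⟨k1, -⟩ := hDc j t hG
      have hk1 : cnt (D.T j : Set (Pr K)) (D.α j) ![t, 1] ≤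
        cL (j.S : Set (Pr K)) (fun v => lamS j.F q r v (co a j.f (some t))
          (co b j.g (some t))) := k1
      have hqj : D.q j = p := (hDq j).trans hcard
      have hqj' : ((D.q j : ℕ) : ℝ) = p := by rw [hqj]
      have hszj : D.H j = sz3 a b j.S j.f j.g j.F := hDH j
      refine ⟨j, t, by rw [hqj]; exact hp, ?_, ?_, (hDform j t).2 hG, ?_, ?_⟩
      · rw [hszj]
        refine hA.sz_le.trans (le_of_eq ?_)
        field_simp
      · exact (hDpt j t).symm
      · rw [hqj']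
        refine hk1.trans (h2.trans (le_of_eq ?_))
        field_simp
      · rw [hqj', hεq, hszj]
        refine lt_of_le_of_lt hk1 (lt_of_lt_of_le h3 ?_)
        have b1 : 0 ≤ ∑ v ∈ j.S, Real.log (Nv v) :=
          Finset.sum_nonneg fun v _ => (log_Nv_pos' v).le
        have b2 : 0 ≤ Height.logHeight (cf j.f a) := Height.logHeight_nonneg _
        have b2' : 0 ≤ Height.logHeight (cf j.g b) := Height.logHeight_nonneg _
        have b3 : 0 ≤ Height.logHeight (cFs j.F) := Height.logHeight_nonneg _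
        have h5 : Height.logHeight (cf j.f a) ≤ sz3 a b j.S j.f j.g j.F := by
          unfold sz3
          linarith
        have h5' : Height.logHeight (cf j.g b) ≤ sz3 a b j.S j.f j.g j.F := by
          unfold sz3
          linarith
        have h6 := (abs_le.1 (hcomb j.f j.g hA.hf hA.hg _ h5 h5' t)).2
        have h7 : (κ₁ * a + κ₂ * b) * Height.logHeight ![t, 1] ≤
            ρ * Height.logHeight ![t, 1] :=
          mul_le_mul_of_nonneg_right hρ1 (Height.logHeight_nonneg _)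
        have h8 : κ₁ * Height.logHeight (co a j.f (some t)) +
            κ₂ * Height.logHeight (co b j.g (some t)) =
            κ₁ * Height.logHeight (fun i => (j.f i).eval t) +
            κ₂ * Height.logHeight (fun i => (j.g i).eval t) := rfl
        rw [h8]
        linarith
  have hfin := hEf.union hPf
  refine ⟨hfin.subset hsub, ?_⟩
  have h1 := (Nat.cast_le (α := ℝ)).2 ((Set.ncard_le_ncard hsub hfin).trans (Set.ncard_union_le _ _))
  rw [Nat.cast_add] at h1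
  have e1 : (2 / 3 - ν1) * (3 * B / p) = (2 / p - 3 * ν1 / p) * B := by
    field_simp
  rw [e1] at hEc
  have e2 : Real.exp (a6 * (η * B)) ≤ Real.exp ((2 / p - 3 * ν1 / p) * B) := by
    refine Real.exp_le_exp.2 ?_
    rw [← mul_assoc]
    refine mul_le_mul_of_nonneg_right (hη3.trans ?_) hB
    rw [← sub_div, div_le_div_iff_of_pos_right hp0]
    linarith
  have e3 := mul_le_mul_of_nonneg_left e2 hC6.le
  calc _ ≤ C * Real.exp ((2 / p - 3 * ν1 / p) * B) + C6 * Real.exp (a6 * (η * B)) := by linarith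
    _ ≤ C * Real.exp ((2 / p - 3 * ν1 / p) * B) + C6 * Real.exp ((2 / p - 3 * ν1 / p) * B) := by
        linarith
    _ = _ := by ring

theorem gen_points (hh : Hyps K) (n₁ n₂ k a b q r p : ℕ) (hp : 3 ≤ p) (δ : ℝ) (hδ : 0 < δ) :
    ∃ η0 : ℝ, 0 < η0 ∧ ∀ η : ℝ, 0 ≤ η → η ≤ η0 →
      ∃ C : ℝ, 0 < C ∧ ∀ B : ℝ, 0 ≤ B → (AP3 K n₁ n₂ k a b q r p η B).Finite ∧
        ((AP3 K n₁ n₂ k a b q r p η B).ncard : ℝ) ≤ C * Real.exp ((2 / p + δ) * B) := by
  classical
  obtain ⟨D, hDH, hDpt, hDq, hDform, hDc⟩ := exists_fam3 hh.hPF hh.hPF3 hh.hMIN hh.hCOMP2 hh.hg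
    hh.hroot hh.hDIV hh.hcnt n₁ n₂ k a b q r
  obtain ⟨C6, a6, hC6, ha6, hfew⟩ := inf_pts hh.hcnt n₁ n₂
  have hp3 : (3 : ℝ) ≤ p := by exact_mod_cast hp
  have hp0 : (0 : ℝ) < p := by linarith
  obtain ⟨δ', hδ'⟩ : ∃ δ' : ℝ, δ' = min (p * δ / 3) 1 := ⟨_, rfl⟩
  have hδ'0 : 0 < δ' := by rw [hδ']; exact lt_min (by positivity) one_pos
  have hδ'1 : δ' ≤ 1 := by rw [hδ']; exact min_le_right _ _
  have hδ'2 : δ' ≤ p * δ / 3 := by rw [hδ']; exact min_le_left _ _
  obtain ⟨η1, hη1, hup⟩ := core_points D δ' hδ'0 hδ'1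
  refine ⟨min (3 * η1 / (4 * p)) (2 / (p * a6)), lt_min (by positivity) (by positivity),
    fun η hη hηle => ?_⟩
  have hη2 : 4 * p / 3 * η ≤ η1 := by
    have := hηle.trans (min_le_left _ _)
    rw [le_div_iff₀ (by positivity)] at this
    linarith
  have hη3 : a6 * η ≤ 2 / p := by
    have := hηle.trans (min_le_right _ _)
    rw [le_div_iff₀ (by positivity)] at this
    rw [le_div_iff₀ hp0]
    linarith
  obtain ⟨C, hC, hE⟩ := hup (4 * p / 3 * η) (by positivity) hη2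
  refine ⟨C + C6, by positivity, fun B hB => ?_⟩
  obtain ⟨hEf, hEc⟩ := hE (3 * B / p) (by positivity)
  obtain ⟨hPf, hPc⟩ := hfew (η * B) (by positivity)
  have hsub : AP3 K n₁ n₂ k a b q r p η B ⊆ D.P (4 * p / 3 * η) (3 * B / p) ∪
      ({P : Projectivization K (Fin n₁ → K) | ∃ (y : Fin n₁ → K) (hy : y ≠ 0),
        P = Projectivization.mk K y hy ∧ Height.logHeight y ≤ η * B} ×ˢ
      {P : Projectivization K (Fin n₂ → K) | ∃ (y : Fin n₂ → K) (hy : y ≠ 0),
        P = Projectivization.mk K y hy ∧ Height.logHeight y ≤ η * B}) := by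
    rintro Q ⟨S, f, g, F, hA, t, hx, hy, rfl, h1, h2⟩
    cases t with
    | none =>
      right
      exact ⟨⟨_, hx, rfl, (co_none_height f).trans hA.hfB⟩,
        ⟨_, hy, rfl, (co_none_height g).trans hA.hgB⟩⟩
    | some t =>
      left
      obtain ⟨j, rfl, rfl, rfl, rfl, hcard, hroot⟩ := hA.dat
      have hG : j.G.eval t ≠ 0 := by
        rw [← hroot]
        obtain ⟨i, hi⟩ := h1
        refine ⟨i, ?_⟩
        rw [eval_res2]
        exact hi
      obtain ⟨k1, -⟩ := hDc j t hG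
      have hk1 : cnt (D.T j : Set (Pr K)) (D.α j) ![t, 1] ≤
        cL (j.S : Set (Pr K)) (fun v => lamS j.F q r v (co a j.f (some t))
          (co b j.g (some t))) := k1
      have hqj : D.q j = p := (hDq j).trans hcard
      have hqj' : ((D.q j : ℕ) : ℝ) = p := by rw [hqj]
      have hszj : D.H j = sz3 a b j.S j.f j.g j.F := hDH j
      refine ⟨j, t, by rw [hqj]; exact hp, ?_, ?_, (hDform j t).2 hG, ?_⟩
      · rw [hszj]
        refine hA.sz_le.trans (le_of_eq ?_)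
        field_simp
      · exact (hDpt j t).symm
      · rw [hqj']
        refine hk1.trans (h2.trans (le_of_eq ?_))
        field_simp
  have hfin := hEf.union hPf
  refine ⟨hfin.subset hsub, ?_⟩
  have h1 := (Nat.cast_le (α := ℝ)).2 ((Set.ncard_le_ncard hsub hfin).trans (Set.ncard_union_le _ _))
  rw [Nat.cast_add] at h1
  have e1 : (2 / 3 + δ') * (3 * B / p) = (2 / p + 3 * δ' / p) * B := by
    field_simp
  rw [e1] at hEc
  have e0 : 3 * δ' / p ≤ δ := by
    rw [div_le_iff₀ hp0]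
    linarith
  have e4 : Real.exp ((2 / p + 3 * δ' / p) * B) ≤ Real.exp ((2 / p + δ) * B) :=
    Real.exp_le_exp.2 (mul_le_mul_of_nonneg_right (by linarith) hB)
  have e2 : Real.exp (a6 * (η * B)) ≤ Real.exp ((2 / p + δ) * B) := by
    refine Real.exp_le_exp.2 ?_
    rw [← mul_assoc]
    exact mul_le_mul_of_nonneg_right (by linarith) hB
  have e3 := mul_le_mul_of_nonneg_left e2 hC6.le
  have e5 := mul_le_mul_of_nonneg_left e4 hC.le
  calc _ ≤ C * Real.exp ((2 / p + 3 * δ' / p) * B) + C6 * Real.exp (a6 * (η * B)) := by linarith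
    _ ≤ C * Real.exp ((2 / p + δ) * B) + C6 * Real.exp ((2 / p + δ) * B) := by linarith
    _ = _ := by ring

theorem gen_lower (hh : Hyps K) (n₁ n₂ k a b q r p : ℕ) (hab : 1 ≤ a + b) (hp : 3 ≤ p) (δ : ℝ)
    (hδ : 0 < δ) :
    ∃ η0 B0 : ℝ, 0 < η0 ∧ 0 ≤ B0 ∧ ∀ B : ℝ, B0 ≤ B → ∀ (S : Finset (Pr K))
      (f : Fin n₁ → K[X]) (g : Fin n₂ → K[X]) (F : Fin k → MvPolynomial (Fin n₁ ⊕ Fin n₂) K),
      Adm3 a b q r p (η0 * B) S f g F →
        Real.exp ((2 / p - δ) * B) ≤ ((PP3 a b q r (S : Set (Pr K)) f g F B).ncard : ℝ) := by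
  classical
  obtain ⟨D, hDH, hDpt, hDq, hDform, hDc⟩ := exists_fam3 hh.hPF hh.hPF3 hh.hMIN hh.hCOMP2 hh.hg
    hh.hroot hh.hDIV hh.hcnt n₁ n₂ k a b q r
  have hp3 : (3 : ℝ) ≤ p := by exact_mod_cast hp
  have hp0 : (0 : ℝ) < p := by linarith
  obtain ⟨ν, hν⟩ : ∃ ν : ℝ, ν = min (p * δ / 3) (1 / 3) := ⟨_, rfl⟩
  have hν0 : 0 < ν := by rw [hν]; exact lt_min (by positivity) (by norm_num)
  have hν1 : ν ≤ 1 / 3 := by rw [hν]; exact min_le_right _ _
  have hν2 : ν ≤ p * δ / 3 := by rw [hν]; exact min_le_left _ _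
  obtain ⟨η1, Λ0, hη1, hΛ0, hlow⟩ := core_lower D (a + b) hab (fun j y => by
    rcases Nat.eq_zero_or_pos a with ha | ha
    · obtain ⟨s, hs, h⟩ := pc_fibre j.hg.cop (common j.hg.cop) j.hg.deg j.hg.deg' (by omega) y.2
      refine ⟨s, hs.trans (by omega), fun t ht => h t ?_⟩
      rw [hDpt j t] at ht
      rw [← ht]
    · obtain ⟨s, hs, h⟩ := pc_fibre j.hf.cop (common j.hf.cop) j.hf.deg j.hf.deg' ha y.1
      refine ⟨s, hs.trans (by omega), fun t ht => h t ?_⟩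
      rw [hDpt j t] at ht
      rw [← ht]) ν hν0 hν1
  obtain ⟨η2, hη2, hpts⟩ := gen_points hh n₁ n₂ k a b q r p hp δ hδ
  refine ⟨min (3 * η1 / (4 * p)) η2, p * Λ0 / 3, lt_min (by positivity) hη2, by positivity,
    fun B hB S f g F hA => ?_⟩
  have hB0 : 0 ≤ B := le_trans (by positivity) hB
  have hη3 : 4 * p / 3 * min (3 * η1 / (4 * p)) η2 ≤ η1 := by
    have := min_le_left (3 * η1 / (4 * p)) η2
    rw [le_div_iff₀ (by positivity)] at this
    linarith
  have hη4 : min (3 * η1 / (4 * p)) η2 ≤ η2 := min_le_right _ _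
  obtain ⟨C, -, hfin⟩ := hpts η2 hη2.le le_rfl
  have hPPfin : (PP3 a b q r (S : Set (Pr K)) f g F B).Finite := by
    refine (hfin B hB0).1.subset fun Q hQ => ⟨S, f, g, F, hA.mono ?_, hQ⟩
    exact mul_le_mul_of_nonneg_right hη4 hB0
  obtain ⟨j, rfl, rfl, rfl, rfl, hcard, hroot⟩ := hA.dat
  have hqj : D.q j = p := (hDq j).trans hcard
  have hqj' : ((D.q j : ℕ) : ℝ) = p := by rw [hqj]
  have hszj : D.H j = sz3 a b j.S j.f j.g j.F := hDH j
  have hΛ : Λ0 ≤ 3 * B / p := by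
    rw [le_div_iff₀ hp0]
    linarith
  have hH : D.H j ≤ η1 * (3 * B / p) := by
    rw [hszj]
    refine hA.sz_le.trans ?_
    have e1 : 4 * (min (3 * η1 / (4 * p)) η2 * B) =
        4 * p / 3 * min (3 * η1 / (4 * p)) η2 * (3 * B / p) := by
      field_simp
    rw [e1]
    exact mul_le_mul_of_nonneg_right hη3 (by positivity)
  have h1 := hlow (3 * B / p) hΛ j (by rw [hqj]; exact hp) hH
  have hsub : D.pt j '' D.L j (3 * B / p) ⊆ PP3 a b q r (j.S : Set (Pr K)) j.f j.g j.F B := by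
    rintro _ ⟨t, ⟨ht1, ht2⟩, rfl⟩
    have hG : j.G.eval t ≠ 0 := (hDform j t).1 ht1
    obtain ⟨-, k2⟩ := hDc j t hG
    have hx : co a j.f (some t) ≠ 0 := by
      obtain ⟨i, hi⟩ := common j.hf.cop t
      intro h
      exact hi (congrFun h i)
    have hy : co b j.g (some t) ≠ 0 := by
      obtain ⟨i, hi⟩ := common j.hg.cop t
      intro h
      exact hi (congrFun h i)
    refine ⟨some t, hx, hy, hDpt j t, ?_, ?_⟩
    · obtain ⟨i, hi⟩ := (hroot t).2 hG
      refine ⟨i, ?_⟩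
      rw [eval_res2] at hi
      exact hi
    · have k3 : cL (j.S : Set (Pr K)) (fun v => lamS j.F q r v (co a j.f (some t))
          (co b j.g (some t))) ≤
          cnt (D.T j : Set (Pr K)) (D.α j) ![t, 1] + D.C2 * (D.H j + 1) := k2
      rw [hqj'] at ht2
      refine k3.trans (ht2.trans (le_of_eq ?_))
      field_simp
  have h2 : ((D.pt j '' D.L j (3 * B / p)).ncard : ℝ) ≤
      ((PP3 a b q r (j.S : Set (Pr K)) j.f j.g j.F B).ncard : ℝ) := by
    exact_mod_cast Set.ncard_le_ncard hsub hPPfin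
  refine le_trans (Real.exp_le_exp.2 ?_) (h1.trans h2)
  have e1 : (2 / 3 - ν) * (3 * B / p) = (2 / p - 3 * ν / p) * B := by
    field_simp
  rw [e1]
  refine mul_le_mul_of_nonneg_right ?_ hB0
  have e0 : 3 * ν / p ≤ δ := by
    rw [div_le_iff₀ hp0]
    linarith
  linarith

end Pool.Agent.Y557.U
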