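import Pool.Agent.Y557.U.Main0
import Pool.Agent.Z932.U557.PF
import Pool.Agent.Y664.U557.Min
import Pool.Agent.Y664.U557.Min2
import Pool.Agent.Y434.U557.Comp
import Pool.Agent.Y447.U557.Gauss
import Pool.Agent.Y51.U557.Cnt
import Pool.Agent.Y51.U557.Root

/-!
The main theorem for projective spaces (helper557). The statements of the jobs were proved by
helper932 (product formula), helper664 (minors), helper434 (coefficients), helper447 (Gauss) and
helper51 (roots, points of bounded height).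
-/

set_option autoImplicit false

namespace Pool.Agent.Y557.U

open NumberField IsDedekindDomain Finset Polynomial
open Pool.Agent.H691R3 Pool.Agent.TH876.Loc
open Pool.Agent.Y557.NF

theorem proj_main (K : Type) [Field K] [NumberField K] (n m e q : ℕ) (hm : 1 ≤ m) (hq : 3 ≤ q) :
    (∀ δ : ℝ, 0 < δ → ∃ η : ℝ, 0 < η ∧
      (∃ C : ℝ, ∀ X : ℝ, 1 ≤ X → (AP K n m e q η (Real.log X)).Finite ∧
        ((AP K n m e q η (Real.log X)).ncard : ℝ) ≤ C * X ^ (2 / (q : ℝ) + δ)) ∧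
      ∃ X₀ : ℝ, ∀ X : ℝ, X₀ ≤ X → ∀ (S : Finset (Pr K)) (P : Fin n → K[X])
        (F : MvPolynomial (Fin n) K), Adm m e q (η * Real.log X) S P F →
        X ^ (2 / (q : ℝ) - δ) ≤ ((PP m e (S : Set _) P F (Real.log X)).ncard : ℝ)) ∧
    (∀ κ : ℝ, κ < (q : ℝ) / m → ∃ η ν : ℝ, 0 < η ∧ 0 < ν ∧ ∀ A : ℝ,
      (∃ C : ℝ, ∀ X : ℝ, 1 ≤ X → (EX K n m e q η κ A (Real.log X)).Finite ∧
        ((EX K n m e q η κ A (Real.log X)).ncard : ℝ) ≤ C * X ^ (2 / (q : ℝ) - ν)) ∧
      ∃ X₀ : ℝ, ∀ X : ℝ, X₀ ≤ X → ∀ (S : Finset (Pr K)) (P : Fin n → K[X])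
        (F : MvPolynomial (Fin n) K), Adm m e q (η * Real.log X) S P F →
        ((EX K n m e q η κ A (Real.log X)).ncard : ℝ) ≤
          X ^ (-ν) * ((PP m e (S : Set _) P F (Real.log X)).ncard : ℝ)) ∧
    ∃ C : ℝ, ∀ B : ℝ, 0 ≤ B → ∀ (S : Finset (Pr K)) (P : Fin n → K[X])
      (F : MvPolynomial (Fin n) K), Adm m e q B S P F → ∀ t : Option K,
      co m P t ≠ 0 → MvPolynomial.eval (co m P t) F ≠ 0 →
      m * cL (S : Set _) (fun v => lamF F e v (co m P t)) ≤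
        q * Height.logHeight (co m P t) + C * (B + 1) :=
  proj_main0 K (Pool.Agent.Z932.U557.pf_holds K) (Pool.Agent.Y664.U557.min_holds K)
    (Pool.Agent.Y664.U557.min2_holds K) (Pool.Agent.Y434.U557.comp_holds K)
    (Pool.Agent.Y447.U557.gauss_holds K) (Pool.Agent.Y51.U557.root_holds K (Pool.Agent.Z932.U557.pf_holds K))
    (Pool.Agent.Y51.U557.cnt_holds K) n m e q hm hq

end Pool.Agent.Y557.U
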