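import Pool.Agent.Y557.U.Stm

/-!
Statements for rational curves in products of two projective spaces (helper557).
-/

set_option autoImplicit false

namespace Pool.Agent.Y557.U

open NumberField IsDedekindDomain Finset Polynomial
open Pool.Agent.H691R3 Pool.Agent.TH876.Loc

/-- the product formula as an inequality, with three vectors -/
def S_PF3 (K : Type) [Field K] [NumberField K] : Prop :=
  ∀ (ι ι₁ ι₂ ι₃ : Type) [Fintype ι] [Fintype ι₁] [Fintype ι₂] [Fintype ι₃] (y : ι → K)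
    (c₁ : ι₁ → K) (c₂ : ι₂ → K) (c₃ : ι₃ → K) (z : K) (k₁ k₂ k₃ : ℕ) (A : ℝ),
    y ≠ 0 → c₁ ≠ 0 → c₂ ≠ 0 → c₃ ≠ 0 → z ≠ 0 → 1 ≤ A →
    (∀ v : Pr K, fv v z * sn v y ≤ sn v c₁ ^ k₁ * sn v c₂ ^ k₂ * sn v c₃ ^ k₃) →
    (∀ w : InfinitePlace K, w z * sw w y ≤ A * (sw w c₁ ^ k₁ * sw w c₂ ^ k₂ * sw w c₃ ^ k₃)) →
    ∀ V : Finset (Pr K),
      ∑ v ∈ V, (k₁ * Real.log (sn v c₁) + k₂ * Real.log (sn v c₂) + k₃ * Real.log (sn v c₃) -
        Real.log (fv v z) - Real.log (sn v y)) + Height.logHeight y ≤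
      k₁ * Height.logHeight c₁ + k₂ * Height.logHeight c₂ + k₃ * Height.logHeight c₃ +
        (Module.finrank ℚ K : ℝ) * Real.log A

/-- the coefficients of a polynomial in two groups of variables -/
def cF2 {K : Type} [Field K] {n₁ n₂ : ℕ} (F : MvPolynomial (Fin n₁ ⊕ Fin n₂) K) : F.support → K := fun s => F.coeff s

/-- the coefficients of the restriction of a bihomogeneous form to a curve -/
def S_COMP2 (K : Type) [Field K] [NumberField K] : Prop :=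
  ∀ n₁ n₂ a b q r : ℕ, ∃ A : ℝ, 1 ≤ A ∧ ∀ (f : Fin n₁ → K[X]) (g : Fin n₂ → K[X])
    (F : MvPolynomial (Fin n₁ ⊕ Fin n₂) K),
    (∀ i, (f i).natDegree ≤ a) → (∀ i, (g i).natDegree ≤ b) →
    F.IsWeightedHomogeneous (Sum.elim (fun _ : Fin n₁ => ((1, 0) : ℕ × ℕ))
      (fun _ : Fin n₂ => ((0, 1) : ℕ × ℕ))) (q, r) →
    (MvPolynomial.aeval (Sum.elim f g) F).natDegree ≤ a * q + b * r ∧
    (∀ (v : Pr K) (k : ℕ), fv v ((MvPolynomial.aeval (Sum.elim f g) F).coeff k) ≤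
      sn v (cF2 F) * sn v (cf f a) ^ q * sn v (cf g b) ^ r) ∧
    ∀ (w : InfinitePlace K) (k : ℕ), w ((MvPolynomial.aeval (Sum.elim f g) F).coeff k) ≤
      A * (sw w (cF2 F) * sw w (cf f a) ^ q * sw w (cf g b) ^ r)

end Pool.Agent.Y557.U
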