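import Pool.Agent.Y557.U.Rev
import Pool.Agent.Y557.U.Stm3

/-!
Rational curves in a product of two projective spaces (helper557).
-/

set_option autoImplicit false

namespace Pool.Agent.Y557.U

open NumberField IsDedekindDomain Finset Polynomial
open Pool.Agent.H691R3 Pool.Agent.TH876.Loc
open Pool.Agent.TH876.KR (form localHeight localHeight_nonneg localHeight_eq localHeight_pos_iff
  log_Nv_pos' m2 fv_sub_le)
open Pool.Agent.Y730.QP (cnt PQ counting_le supp_finite term_nonneg log_Nv_le_localHeight)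
open Pool.Agent.Y557.NF

variable {K : Type} [Field K] [NumberField K] {n₁ n₂ : ℕ}

theorem prime_set3 (hPF : S_PF3 K) {ι ι₁ ι₂ ι₃ : Type} [Fintype ι] [Fintype ι₁] [Fintype ι₂]
    [Fintype ι₃] {y : ι → K} {c₁ : ι₁ → K} {c₂ : ι₂ → K} {c₃ : ι₃ → K} {z : K} {k₁ k₂ k₃ : ℕ}
    {A : ℝ} (hy : y ≠ 0) (hc₁ : c₁ ≠ 0) (hc₂ : c₂ ≠ 0) (hc₃ : c₃ ≠ 0) (hz : z ≠ 0) (hA : 1 ≤ A)
    (h1 : ∀ v : Pr K, fv v z * sn v y ≤ sn v c₁ ^ k₁ * sn v c₂ ^ k₂ * sn v c₃ ^ k₃)
    (h2 : ∀ w : InfinitePlace K, w z * sw w y ≤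
      A * (sw w c₁ ^ k₁ * sw w c₂ ^ k₂ * sw w c₃ ^ k₃)) :
    ∃ T : Finset (Pr K),
      (∀ v ∉ T, fv v z * sn v y = sn v c₁ ^ k₁ * sn v c₂ ^ k₂ * sn v c₃ ^ k₃) ∧
      ∑ v ∈ T, Real.log (Nv v) + Height.logHeight y ≤
        k₁ * Height.logHeight c₁ + k₂ * Height.logHeight c₂ + k₃ * Height.logHeight c₃ +
          (Module.finrank ℚ K : ℝ) * Real.log A := by
  have hmain := hPF ι ι₁ ι₂ ι₃ y c₁ c₂ c₃ z k₁ k₂ k₃ A hy hc₁ hc₂ hc₃ hz hA h1 h2
  have p1 : ∀ v : Pr K, 0 < fv v z := fun v => (fv v).pos hz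
  have p2 : ∀ v : Pr K, 0 < sn v y := fun v => sn_pos v hy
  have p3 : ∀ v : Pr K, 0 < sn v c₁ := fun v => sn_pos v hc₁
  have p4 : ∀ v : Pr K, 0 < sn v c₂ := fun v => sn_pos v hc₂
  have p5 : ∀ v : Pr K, 0 < sn v c₃ := fun v => sn_pos v hc₃
  have hlog : ∀ v : Pr K, Real.log (sn v c₁ ^ k₁ * sn v c₂ ^ k₂ * sn v c₃ ^ k₃) -
      Real.log (fv v z * sn v y) =
      k₁ * Real.log (sn v c₁) + k₂ * Real.log (sn v c₂) + k₃ * Real.log (sn v c₃) -
        Real.log (fv v z) - Real.log (sn v y) := by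
    intro v
    rw [Real.log_mul (mul_pos (pow_pos (p3 v) _) (pow_pos (p4 v) _)).ne' (pow_pos (p5 v) _).ne',
      Real.log_mul (pow_pos (p3 v) _).ne' (pow_pos (p4 v) _).ne', Real.log_pow, Real.log_pow,
      Real.log_pow, Real.log_mul (p1 v).ne' (p2 v).ne']
    ring
  obtain ⟨T, hT1, hT2⟩ := fin_of_sum_le
    (fun v => k₁ * Real.log (sn v c₁) + k₂ * Real.log (sn v c₂) + k₃ * Real.log (sn v c₃) -
        Real.log (fv v z) - Real.log (sn v y))
    (k₁ * Height.logHeight c₁ + k₂ * Height.logHeight c₂ + k₃ * Height.logHeight c₃ +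
      (Module.finrank ℚ K : ℝ) * Real.log A - Height.logHeight y)
    (fun v hv => by
      obtain ⟨j1, e1⟩ := log_sn v hc₁
      obtain ⟨j2, e2⟩ := log_sn v hc₂
      obtain ⟨j3, e3⟩ := log_sn v hc₃
      obtain ⟨j4, e4⟩ := log_fv v hz
      obtain ⟨j5, e5⟩ := log_sn v hy
      refine le_of_int_mul v (j := k₁ * j1 + k₂ * j2 + k₃ * j3 - j4 - j5) ?_ hv
      rw [e1, e2, e3, e4, e5]
      push_cast
      ring)
    (fun V => by
      have := hmain V
      linarith)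
  refine ⟨T, fun v hv => ?_, by linarith⟩
  refine le_antisymm (h1 v) ?_
  by_contra hcon
  push Not at hcon
  apply hv
  rw [hT1, ← hlog v]
  have := Real.log_lt_log (mul_pos (p1 v) (p2 v)) hcon
  linarith

/-- bihomogeneous of bidegree `(q, r)` -/
def BiHom (q r : ℕ) (F : MvPolynomial (Fin n₁ ⊕ Fin n₂) K) : Prop :=
  F.IsWeightedHomogeneous (Sum.elim (fun _ : Fin n₁ => ((1, 0) : ℕ × ℕ))
      (fun _ : Fin n₂ => ((0, 1) : ℕ × ℕ))) (q, r)

/-- the restriction to the curve -/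
noncomputable def res2 (f : Fin n₁ → K[X]) (g : Fin n₂ → K[X])
    (F : MvPolynomial (Fin n₁ ⊕ Fin n₂) K) : K[X] := MvPolynomial.aeval (Sum.elim f g) F

theorem eval_res2 (f : Fin n₁ → K[X]) (g : Fin n₂ → K[X]) (F : MvPolynomial (Fin n₁ ⊕ Fin n₂) K)
    (t : K) : (res2 f g F).eval t =
      MvPolynomial.eval (Sum.elim (fun i => (f i).eval t) (fun i => (g i).eval t)) F := by
  unfold res2
  have h := MvPolynomial.eval₂_comp_left (Polynomial.evalRingHom t) (algebraMap K K[X])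
    (Sum.elim f g) F
  rw [MvPolynomial.aeval_def]
  have e1 : (Polynomial.evalRingHom t) (MvPolynomial.eval₂ (algebraMap K K[X]) (Sum.elim f g) F) =
    (MvPolynomial.eval₂ (algebraMap K K[X]) (Sum.elim f g) F).eval t := rfl
  rw [← e1, h]
  have e2 : (Polynomial.evalRingHom t).comp (algebraMap K K[X]) = RingHom.id K := by
    ext a
    simp
  have e3 : (Polynomial.evalRingHom t : K[X] → K) ∘ Sum.elim f g =
      Sum.elim (fun i => (f i).eval t) (fun i => (g i).eval t) := by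
    funext i
    cases i <;> rfl
  rw [e2, e3]
  rfl

/-- the restriction of a bihomogeneous form to the curve -/
theorem comp_primes2 (hPF : S_PF3 K) (hCOMP : S_COMP2 K) (n₁ n₂ a b q r : ℕ) :
    ∃ C : ℝ, 0 ≤ C ∧ ∀ (f : Fin n₁ → K[X]) (g : Fin n₂ → K[X])
      (F : MvPolynomial (Fin n₁ ⊕ Fin n₂) K), Crv a f → Crv b g → BiHom q r F →
      res2 f g F ≠ 0 → (res2 f g F).natDegree ≤ a * q + b * r ∧
      ∃ T : Finset (Pr K), ∑ v ∈ T, Real.log (Nv v) + hG (a * q + b * r) (res2 f g F) ≤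
          Height.logHeight (cF2 F) + q * Height.logHeight (cf f a) +
            r * Height.logHeight (cf g b) + C ∧
        ∀ v ∉ T, (⨆ k : Fin (a * q + b * r + 1), fv v ((res2 f g F).coeff k)) =
          sn v (cF2 F) * sn v (cf f a) ^ q * sn v (cf g b) ^ r := by
  classical
  obtain ⟨A, hA1, hA⟩ := hCOMP n₁ n₂ a b q r
  refine ⟨(Module.finrank ℚ K : ℝ) * Real.log A,
    mul_nonneg (Nat.cast_nonneg _) (Real.log_nonneg hA1), fun f g F hf hg hF hG0 => ?_⟩
  obtain ⟨h0, h1, h2⟩ := hA f g F hf.deg hg.deg hF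
  refine ⟨h0, ?_⟩
  have hF0 : F ≠ 0 := by
    rintro rfl
    apply hG0
    unfold res2
    exact map_zero _
  have hcF : cF2 F ≠ 0 := by
    obtain ⟨s, hs⟩ := MvPolynomial.support_nonempty.2 hF0
    intro h
    exact MvPolynomial.mem_support_iff.1 hs (congrFun h ⟨s, hs⟩)
  have hy : (fun k : Fin (a * q + b * r + 1) => (res2 f g F).coeff k) ≠ 0 := by
    intro h
    apply hG0
    ext k
    rw [coeff_zero]
    by_cases hk : k ≤ a * q + b * r
    · exact congrFun h ⟨k, by omega⟩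
    · exact coeff_eq_zero_of_natDegree_lt (lt_of_le_of_lt h0 (by omega))
  obtain ⟨T, hT1, hT2⟩ := prime_set3 hPF
    (y := fun k : Fin (a * q + b * r + 1) => (res2 f g F).coeff k)
    (c₁ := cF2 F) (c₂ := cf f a) (c₃ := cf g b) (z := (1 : K)) (k₁ := 1) (k₂ := q) (k₃ := r)
    (A := A) hy hcF hf.ne hg.ne one_ne_zero hA1
    (fun v => by
      rw [map_one, one_mul, pow_one]
      exact ciSup_le fun k => h1 v k)
    (fun w => by
      rw [map_one, one_mul, pow_one]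
      exact ciSup_le fun k => h2 w k)
  refine ⟨T, ?_, fun v hv => ?_⟩
  · unfold hG
    push_cast at hT2
    linarith
  · have h3 := hT1 v hv
    rw [map_one, one_mul, pow_one] at h3
    exact h3

/-- the normalised local height of `F = 0` -/
noncomputable def lamP (F : MvPolynomial (Fin n₁ ⊕ Fin n₂) K) (q r : ℕ) (v : Pr K)
    (x : Fin n₁ → K) (y : Fin n₂ → K) : ℝ :=
  Real.log ((⨆ s : F.support, FinitePlace.mk v (F.coeff s)) *
    ((⨆ i, FinitePlace.mk v (x i)) ^ q * (⨆ i, FinitePlace.mk v (y i)) ^ r) /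
    FinitePlace.mk v (MvPolynomial.eval (Sum.elim x y) F))

/-- the size of the data -/
noncomputable def sz2 (a b : ℕ) (S : Finset (Pr K)) (f : Fin n₁ → K[X]) (g : Fin n₂ → K[X])
    (F : MvPolynomial (Fin n₁ ⊕ Fin n₂) K) : ℝ :=
  ∑ v ∈ S, Real.log (Nv v) + Height.logHeight (cf f a) + Height.logHeight (cf g b) +
    Height.logHeight (cF2 F)

open Classical in
theorem sum_union_le (A B : Finset (Pr K)) : ∑ v ∈ A ∪ B, Real.log (Nv v) ≤
    ∑ v ∈ A, Real.log (Nv v) + ∑ v ∈ B, Real.log (Nv v) := by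
  rw [← Finset.sum_union_inter]
  have : 0 ≤ ∑ v ∈ A ∩ B, Real.log (Nv v) := Finset.sum_nonneg fun v _ => (log_Nv_pos' v).le
  linarith

/-- **the counting function of a divisor on a rational curve** -/
theorem pair_data (hPF : S_PF K) (hPF3 : S_PF3 K) (hMIN : S_MIN K) (hCOMP2 : S_COMP2 K)
    (hg : S_GAUSS K) (hroot : S_ROOT K) (n₁ n₂ a b q r : ℕ) :
    ∃ C : ℝ, 0 ≤ C ∧ ∀ (S : Finset (Pr K)) (f : Fin n₁ → K[X]) (g : Fin n₂ → K[X])
      (F : MvPolynomial (Fin n₁ ⊕ Fin n₂) K),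
      Crv a f → Crv b g → BiHom q r F → res2 f g F ≠ 0 → (res2 f g F).Splits → ∀ H : ℝ,
      H = sz2 a b S f g F →
      (∀ j, Height.logHeight (aS (zs (res2 f g F) (a * q + b * r)) j) ≤ C * (H + 1)) ∧
      ∃ T : Finset (Pr K), ∑ v ∈ T, Real.log (Nv v) ≤ C * (H + 1) ∧
        ∀ t, (res2 f g F).eval t ≠ 0 →
          cnt (T : Set (Pr K)) (aS (zs (res2 f g F) (a * q + b * r))) ![t, 1] ≤
            cL (S : Set (Pr K))
              (fun v => lamP F q r v (fun i => (f i).eval t) (fun i => (g i).eval t)) ∧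
          cL (S : Set (Pr K))
              (fun v => lamP F q r v (fun i => (f i).eval t) (fun i => (g i).eval t)) ≤
            cnt (T : Set (Pr K)) (aS (zs (res2 f g F) (a * q + b * r))) ![t, 1] +
              C * (H + 1) := by
  classical
  obtain ⟨C1, hC1, k1⟩ := crv_primes hPF hMIN n₁ a
  obtain ⟨C1', hC1', k1'⟩ := crv_primes hPF hMIN n₂ b
  obtain ⟨C2, hC2, k2⟩ := comp_primes2 hPF3 hCOMP2 n₁ n₂ a b q r
  obtain ⟨C3, hC3, k3⟩ := assemble hg hroot (a * q + b * r)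
  obtain ⟨E, hE⟩ : ∃ E : ℝ, E = 1 + q + r + C2 := ⟨_, rfl⟩
  have hq0 : (0 : ℝ) ≤ q := Nat.cast_nonneg q
  have hr0 : (0 : ℝ) ≤ r := Nat.cast_nonneg r
  have hE1 : 1 ≤ E := by
    rw [hE]
    linarith
  obtain ⟨C, hC⟩ : ∃ C : ℝ, C = 1 + C1 + C1' + (1 + C3) * E + C3 := ⟨_, rfl⟩
  have hC0 : 0 ≤ C := by rw [hC]; positivity
  refine ⟨C, hC0, fun S f g F hf hgc hF hG0 hs H hH => ?_⟩
  have b1 : 0 ≤ ∑ v ∈ S, Real.log (Nv v) := Finset.sum_nonneg fun v _ => (log_Nv_pos' v).le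
  have b2 : 0 ≤ Height.logHeight (cf f a) := Height.logHeight_nonneg _
  have b2' : 0 ≤ Height.logHeight (cf g b) := Height.logHeight_nonneg _
  have b3 : 0 ≤ Height.logHeight (cF2 F) := Height.logHeight_nonneg _
  unfold sz2 at hH
  have hH0 : 0 ≤ H := by rw [hH]; positivity
  obtain ⟨T1, hT1, h1⟩ := k1 f hf
  obtain ⟨T1', hT1', h1'⟩ := k1' g hgc
  obtain ⟨hdeg, T2, hT2, h2⟩ := k2 f g F hf hgc hF hG0
  have b4 : 0 ≤ ∑ v ∈ T2, Real.log (Nv v) := Finset.sum_nonneg fun v _ => (log_Nv_pos' v).le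
  have b5 : 0 ≤ hG (a * q + b * r) (res2 f g F) := Height.logHeight_nonneg _
  have hsum : ∑ v ∈ T2, Real.log (Nv v) + hG (a * q + b * r) (res2 f g F) ≤ E * (H + 1) := by
    refine hT2.trans ?_
    have e1 : Height.logHeight (cF2 F) ≤ H := by rw [hH]; linarith
    have e2 : Height.logHeight (cf f a) ≤ H := by rw [hH]; linarith
    have e2' : Height.logHeight (cf g b) ≤ H := by rw [hH]; linarith
    have e3 : (q : ℝ) * Height.logHeight (cf f a) ≤ q * H := mul_le_mul_of_nonneg_left e2 hq0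
    have e3' : (r : ℝ) * Height.logHeight (cf g b) ≤ r * H := mul_le_mul_of_nonneg_left e2' hr0
    have e4 : E * (H + 1) = H + q * H + r * H + C2 * H + 1 + q + r + C2 := by rw [hE]; ring
    have e5 : 0 ≤ C2 * H := mul_nonneg hC2 hH0
    rw [e4]
    linarith
  have hEH : 0 ≤ E * (H + 1) := by positivity
  obtain ⟨h3, h4⟩ := k3 (res2 f g F) hG0 hs hdeg
  have e7 : C * (H + 1) = (H + 1) + C1 * (H + 1) + C1' * (H + 1) + E * (H + 1) +
      C3 * (E * (H + 1)) + C3 * (H + 1) := by rw [hC]; ring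
  have u1 : 0 ≤ C1 * (H + 1) := by positivity
  have u1' : 0 ≤ C1' * (H + 1) := by positivity
  have u2 : 0 ≤ C3 * (E * (H + 1)) := by positivity
  have u3 : C3 ≤ C3 * (H + 1) := le_mul_of_one_le_right hC3 (by linarith)
  refine ⟨fun j => (h3 j).trans ?_, ?_⟩
  · rw [e7]
    linarith
  obtain ⟨T, hT, h5⟩ := h4 (S ∪ (T1 ∪ (T1' ∪ T2))) (S : Set (Pr K))
    (fun v t => lamP F q r v (fun i => (f i).eval t) (fun i => (g i).eval t))
    (by
      rw [Finset.coe_union]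
      exact Set.subset_union_left)
    (fun v hv t ht => by
      rw [Finset.mem_union, Finset.mem_union, Finset.mem_union, not_or, not_or, not_or] at hv
      have e1 := h1 v hv.2.1 t
      have e1' := h1' v hv.2.2.1 t
      have e2 := h2 v hv.2.2.2
      unfold lamP lamG
      have e3 : (⨆ s : F.support, FinitePlace.mk v (F.coeff s)) = sn v (cF2 F) := rfl
      have e4 : (⨆ i, FinitePlace.mk v ((f i).eval t)) = ⨆ i, fv v ((f i).eval t) := rfl
      have e4' : (⨆ i, FinitePlace.mk v ((g i).eval t)) = ⨆ i, fv v ((g i).eval t) := rfl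
      have e5 : FinitePlace.mk v (MvPolynomial.eval
          (Sum.elim (fun i => (f i).eval t) (fun i => (g i).eval t)) F) =
          fv v ((res2 f g F).eval t) := by
        rw [eval_res2]
        rfl
      rw [e3, e4, e4', e5, e1, e1', e2, mul_pow, mul_pow, ← pow_mul, ← pow_mul, pow_add]
      congr 1
      ring)
  have hTb : ∑ v ∈ T, Real.log (Nv v) ≤ C * (H + 1) := by
    refine hT.trans ?_
    have e1 : ∑ v ∈ S ∪ (T1 ∪ (T1' ∪ T2)), Real.log (Nv v) ≤ ∑ v ∈ S, Real.log (Nv v) +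
        (∑ v ∈ T1, Real.log (Nv v) + (∑ v ∈ T1', Real.log (Nv v) +
          ∑ v ∈ T2, Real.log (Nv v))) := by
      have w1 := sum_union_le S (T1 ∪ (T1' ∪ T2))
      have w2 := sum_union_le T1 (T1' ∪ T2)
      have w3 := sum_union_le T1' T2
      linarith
    have e2 : ∑ v ∈ S, Real.log (Nv v) ≤ H + 1 := by rw [hH]; linarith
    have e3 : ∑ v ∈ T1, Real.log (Nv v) ≤ C1 * (H + 1) := by
      refine hT1.trans (mul_le_mul_of_nonneg_left ?_ hC1)
      rw [hH]
      linarith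
    have e3' : ∑ v ∈ T1', Real.log (Nv v) ≤ C1' * (H + 1) := by
      refine hT1'.trans (mul_le_mul_of_nonneg_left ?_ hC1')
      rw [hH]
      linarith
    have e4 : C3 * (hG (a * q + b * r) (res2 f g F) + 1) ≤
        C3 * (E * (H + 1)) + C3 * (H + 1) := by
      rw [mul_add, mul_one]
      have e5 : C3 * hG (a * q + b * r) (res2 f g F) ≤ C3 * (E * (H + 1)) :=
        mul_le_mul_of_nonneg_left (by linarith) hC3
      linarith
    rw [e7]
    linarith
  refine ⟨T, hTb, fun t ht => ?_⟩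
  obtain ⟨k5, k6⟩ := h5 t ht
  exact ⟨k5, k6.trans (by linarith)⟩

/-- the curves together with a divisor and a set of primes -/
abbrev J2 (K : Type) [Field K] [NumberField K] (n₁ n₂ a b q r : ℕ) : Type :=
  {p : Finset (Pr K) × (Fin n₁ → K[X]) × (Fin n₂ → K[X]) × MvPolynomial (Fin n₁ ⊕ Fin n₂) K //
    Crv a p.2.1 ∧ Crv b p.2.2.1 ∧ BiHom q r p.2.2.2 ∧ res2 p.2.1 p.2.2.1 p.2.2.2 ≠ 0 ∧
      (res2 p.2.1 p.2.2.1 p.2.2.2).Splits}

theorem sz2_nonneg (a b : ℕ) (S : Finset (Pr K)) (f : Fin n₁ → K[X]) (g : Fin n₂ → K[X])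
    (F : MvPolynomial (Fin n₁ ⊕ Fin n₂) K) : 0 ≤ sz2 a b S f g F := by
  have b1 : 0 ≤ ∑ v ∈ S, Real.log (Nv v) := Finset.sum_nonneg fun v _ => (log_Nv_pos' v).le
  have b2 : 0 ≤ Height.logHeight (cf f a) := Height.logHeight_nonneg _
  have b2' : 0 ≤ Height.logHeight (cf g b) := Height.logHeight_nonneg _
  have b3 : 0 ≤ Height.logHeight (cF2 F) := Height.logHeight_nonneg _
  unfold sz2
  positivity

theorem exists_fam2 (hPF : S_PF K) (hPF3 : S_PF3 K) (hMIN : S_MIN K) (hCOMP2 : S_COMP2 K)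
    (hg : S_GAUSS K) (hroot : S_ROOT K) (hcnt : S_CNT K) (n₁ n₂ a b q r : ℕ) :
    ∃ D : Fam K (Projectivization K (Fin n₁ → K) × Projectivization K (Fin n₂ → K))
      (Projectivization K (Fin n₁ × Fin (a + 1) → K) ×
        Projectivization K (Fin n₂ × Fin (b + 1) → K)) (J2 K n₁ n₂ a b q r),
      (∀ j, D.H j = sz2 a b j.1.1 j.1.2.1 j.1.2.2.1 j.1.2.2.2) ∧
      (∀ j t, D.pt j t = (pc j.1.2.1 (common j.2.1.cop) t,
        pc j.1.2.2.1 (common j.2.2.1.cop) t)) ∧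
      (∀ j, D.q j = (zs (res2 j.1.2.1 j.1.2.2.1 j.1.2.2.2) (a * q + b * r)).card) ∧
      (∀ j t, (∀ i, form (D.α j i) ![t, 1] ≠ 0) ↔
        (res2 j.1.2.1 j.1.2.2.1 j.1.2.2.2).eval t ≠ 0) ∧
      ∀ j t, (res2 j.1.2.1 j.1.2.2.1 j.1.2.2.2).eval t ≠ 0 →
        cnt (D.T j : Set (Pr K)) (D.α j) ![t, 1] ≤
          cL (j.1.1 : Set (Pr K)) (fun v => lamP j.1.2.2.2 q r v (fun i => (j.1.2.1 i).eval t)
            (fun i => (j.1.2.2.1 i).eval t)) ∧
        cL (j.1.1 : Set (Pr K)) (fun v => lamP j.1.2.2.2 q r v (fun i => (j.1.2.1 i).eval t)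
            (fun i => (j.1.2.2.1 i).eval t)) ≤
          cnt (D.T j : Set (Pr K)) (D.α j) ![t, 1] + D.C2 * (D.H j + 1) := by
  classical
  obtain ⟨C, hC, hdat⟩ := pair_data hPF hPF3 hMIN hCOMP2 hg hroot n₁ n₂ a b q r
  obtain ⟨C1, a1, hC1, ha1, hcount⟩ := hcnt (Fin n₁ × Fin (a + 1))
  obtain ⟨C1', a1', hC1', ha1', hcount'⟩ := hcnt (Fin n₂ × Fin (b + 1))
  have hj := fun j : J2 K n₁ n₂ a b q r => hdat j.1.1 j.1.2.1 j.1.2.2.1 j.1.2.2.2 j.2.1 j.2.2.1
    j.2.2.2.1 j.2.2.2.2.1 j.2.2.2.2.2 (sz2 a b j.1.1 j.1.2.1 j.1.2.2.1 j.1.2.2.2) rfl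
  choose k1 T k2 k3 using hj
  refine ⟨{ H := fun j => sz2 a b j.1.1 j.1.2.1 j.1.2.2.1 j.1.2.2.2
            κ := fun j => (Projectivization.mk K (cf j.1.2.1 a) j.2.1.ne,
              Projectivization.mk K (cf j.1.2.2.1 b) j.2.2.1.ne)
            pt := fun j t => (pc j.1.2.1 (common j.2.1.cop) t,
              pc j.1.2.2.1 (common j.2.2.1.cop) t)
            q := fun j => (zs (res2 j.1.2.1 j.1.2.2.1 j.1.2.2.2) (a * q + b * r)).card
            α := fun j => aS (zs (res2 j.1.2.1 j.1.2.2.1 j.1.2.2.2) (a * q + b * r))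
            T := T
            C1 := C1 * C1'
            a := a1 + a1'
            C2 := C
            hH := fun j => sz2_nonneg _ _ _ _ _ _
            hC1 := mul_pos hC1 hC1'
            ha := by positivity
            hC2 := hC
            hpt := ?_
            hcount := ?_
            hα := k1
            hT := k2
            hαd := fun j => form_aS _ }, fun j => rfl, fun j t => rfl, fun j => rfl,
            fun j t => mem_GG_aS j.2.2.2.2.1, fun j t ht => k3 j t ht⟩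
  · intro j j' h
    funext t
    have h1 := congrArg Prod.fst h
    have h2 := congrArg Prod.snd h
    exact Prod.ext (mk_eval_eq j.2.1 j'.2.1 h1 t) (mk_eval_eq j.2.2.1 j'.2.2.1 h2 t)
  · intro B hB
    obtain ⟨hf, hc⟩ := hcount B hB
    obtain ⟨hf', hc'⟩ := hcount' B hB
    have hsub : {z | ∃ j : J2 K n₁ n₂ a b q r,
        (Projectivization.mk K (cf j.1.2.1 a) j.2.1.ne,
          Projectivization.mk K (cf j.1.2.2.1 b) j.2.2.1.ne) = z ∧
        sz2 a b j.1.1 j.1.2.1 j.1.2.2.1 j.1.2.2.2 ≤ B} ⊆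
        {P : Projectivization K (Fin n₁ × Fin (a + 1) → K) |
          ∃ (y : Fin n₁ × Fin (a + 1) → K) (hy : y ≠ 0),
            P = Projectivization.mk K y hy ∧ Height.logHeight y ≤ B} ×ˢ
        {P : Projectivization K (Fin n₂ × Fin (b + 1) → K) |
          ∃ (y : Fin n₂ × Fin (b + 1) → K) (hy : y ≠ 0),
            P = Projectivization.mk K y hy ∧ Height.logHeight y ≤ B} := by
      rintro z ⟨j, rfl, h⟩
      have b1 : 0 ≤ ∑ v ∈ j.1.1, Real.log (Nv v) :=
        Finset.sum_nonneg fun v _ => (log_Nv_pos' v).le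
      have b2 : 0 ≤ Height.logHeight (cf j.1.2.1 a) := Height.logHeight_nonneg _
      have b2' : 0 ≤ Height.logHeight (cf j.1.2.2.1 b) := Height.logHeight_nonneg _
      have b3 : 0 ≤ Height.logHeight (cF2 j.1.2.2.2) := Height.logHeight_nonneg _
      unfold sz2 at h
      exact ⟨⟨cf j.1.2.1 a, j.2.1.ne, rfl, by linarith⟩,
        ⟨cf j.1.2.2.1 b, j.2.2.1.ne, rfl, by linarith⟩⟩
    have hfin := hf.prod hf'
    refine ⟨hfin.subset hsub, ?_⟩
    have h1 := Set.ncard_le_ncard hsub hfin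
    rw [Set.ncard_prod] at h1
    have h2 := (Nat.cast_le (α := ℝ)).2 h1
    rw [Nat.cast_mul] at h2
    refine h2.trans ?_
    have e1 : C1 * C1' * Real.exp ((a1 + a1') * B) =
        (C1 * Real.exp (a1 * B)) * (C1' * Real.exp (a1' * B)) := by
      rw [add_mul, Real.exp_add]
      ring
    rw [e1]
    exact mul_le_mul hc hc' (Nat.cast_nonneg _) (by positivity)

end Pool.Agent.Y557.U
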