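import Pool.Agent.Y557.U.Asm

/-!
Rational curves in a projective space: the primes of bad behaviour (helper557).
-/

set_option autoImplicit false

namespace Pool.Agent.Y557.U

open NumberField IsDedekindDomain Finset Polynomial
open Pool.Agent.H691R3 Pool.Agent.TH876.Loc
open Pool.Agent.TH876.KR (form localHeight localHeight_nonneg localHeight_eq localHeight_pos_iff
  log_Nv_pos' m2 fv_sub_le)
open Pool.Agent.Y730.QP (cnt PQ counting_le supp_finite term_nonneg log_Nv_le_localHeight)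
open Pool.Agent.Y557.NF

variable {K : Type} [Field K] [NumberField K] {n : ℕ}

/-- a parametrised rational curve of degree `m` -/
structure Crv (m : ℕ) (f : Fin n → K[X]) : Prop where
  deg : ∀ i, (f i).natDegree ≤ m
  deg' : ∃ i, (f i).natDegree = m
  cop : ∃ u : Fin n → K[X], ∑ i, u i * f i = 1

omit [NumberField K] in
theorem Crv.ne {m : ℕ} {f : Fin n → K[X]} (h : Crv m f) : cf f m ≠ 0 := by
  intro h0
  have h1 : ∀ i, f i = 0 := by
    intro i
    ext k
    rw [coeff_zero]
    by_cases hk : k ≤ m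
    · exact congrFun h0 (i, ⟨k, by omega⟩)
    · exact coeff_eq_zero_of_natDegree_lt (lt_of_le_of_lt (h.deg i) (by omega))
  obtain ⟨u, hu⟩ := h.cop
  simp [h1] at hu

theorem crv_primes (hPF : S_PF K) (hMIN : S_MIN K) (n m : ℕ) :
    ∃ C : ℝ, 0 ≤ C ∧ ∀ f : Fin n → K[X], Crv m f →
      ∃ T : Finset (Pr K), ∑ v ∈ T, Real.log (Nv v) ≤ C * (Height.logHeight (cf f m) + 1) ∧
        ∀ v ∉ T, ∀ t : K, (⨆ i, fv v ((f i).eval t)) = sn v (cf f m) * max (fv v t) 1 ^ m := by
  classical
  rcases Nat.eq_zero_or_pos m with h0 | hm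
  · subst h0
    refine ⟨0, le_rfl, fun f hf => ⟨∅, by simp, fun v _ t => ?_⟩⟩
    have e : ∀ i, (f i).eval t = (f i).coeff 0 := by
      intro i
      have h1 := eq_C_of_natDegree_le_zero (hf.deg i)
      conv_lhs => rw [h1]
      rw [eval_C]
    obtain ⟨i0, -⟩ := hf.deg'
    haveI : Nonempty (Fin n) := ⟨i0⟩
    rw [pow_zero, mul_one]
    refine le_antisymm (ciSup_le fun i => ?_) ?_
    · rw [e]
      exact le_sn v (cf f 0) (i, 0)
    · refine ciSup_le fun p => ?_
      have h2 : fv v ((f p.1).eval t) ≤ ⨆ i, fv v ((f i).eval t) :=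
        le_ciSup (f := fun i => fv v ((f i).eval t)) (Set.finite_range _).bddAbove p.1
      rw [e] at h2
      have h3 : (p.2 : ℕ) = 0 := by omega
      show fv v ((f p.1).coeff p.2) ≤ _
      rw [h3]
      exact h2
  obtain ⟨A, hA⟩ : ∃ A : ℝ, A = (Nat.factorial (2 * m) : ℝ) := ⟨_, rfl⟩
  have hA1 : 1 ≤ A := by
    rw [hA]
    exact_mod_cast Nat.factorial_pos (2 * m)
  obtain ⟨C, hC⟩ : ∃ C : ℝ, C = 2 * m + (Module.finrank ℚ K : ℝ) * Real.log A := ⟨_, rfl⟩
  have hlA : 0 ≤ Real.log A := Real.log_nonneg hA1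
  have hdA : 0 ≤ (Module.finrank ℚ K : ℝ) * Real.log A := by positivity
  refine ⟨C, by rw [hC]; positivity, fun f hf => ?_⟩
  obtain ⟨Δ, hΔ0, hΔv, hΔw, hΔ⟩ := hMIN n m f hm hf.deg hf.deg' hf.cop
  have hy : (fun _ : Unit => Δ) ≠ 0 := fun h => hΔ0 (congrFun h ())
  obtain ⟨T, hT1, hT2⟩ := prime_set hPF (y := fun _ : Unit => Δ) (c := cf f m) (c' := cf f m)
    (z := (1 : K)) (k := 2 * m) (k' := 0) (A := A) hy hf.ne hf.ne one_ne_zero hA1
    (fun v => by
      have e1 : sn v (fun _ : Unit => Δ) = fv v Δ := ciSup_const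
      rw [e1, map_one, one_mul, pow_zero, mul_one]
      exact hΔv v)
    (fun w => by
      have e1 : sw w (fun _ : Unit => Δ) = w Δ := ciSup_const
      rw [e1, map_one, one_mul, pow_zero, mul_one, hA]
      exact hΔw w)
  refine ⟨T, ?_, fun v hv t => ?_⟩
  · have h1 : 0 ≤ Height.logHeight (fun _ : Unit => Δ) := Height.logHeight_nonneg _
    have h2 : 0 ≤ Height.logHeight (cf f m) := Height.logHeight_nonneg _
    push_cast at hT2
    have h3 : C * (Height.logHeight (cf f m) + 1) = 2 * m * Height.logHeight (cf f m) +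
        (Module.finrank ℚ K : ℝ) * Real.log A + (2 * m +
          (Module.finrank ℚ K : ℝ) * Real.log A * Height.logHeight (cf f m)) := by
      rw [hC]
      ring
    rw [h3]
    have h4 : 0 ≤ (Module.finrank ℚ K : ℝ) * Real.log A * Height.logHeight (cf f m) :=
      mul_nonneg hdA h2
    have h5 : (0 : ℝ) ≤ 2 * m := by positivity
    linarith
  · refine hΔ v ?_ t
    have h1 := hT1 v hv
    have e1 : sn v (fun _ : Unit => Δ) = fv v Δ := ciSup_const
    rw [e1, map_one, one_mul, pow_zero, mul_one] at h1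
    exact h1

/-- the height of a point of the curve -/
theorem crv_height (hPF : S_PF K) (n m : ℕ) :
    ∃ C : ℝ, 0 ≤ C ∧ ∀ f : Fin n → K[X], Crv m f → ∀ t : K,
      Height.logHeight (fun i => (f i).eval t) ≤
        m * Height.logHeight ![t, 1] + Height.logHeight (cf f m) + C := by
  classical
  obtain ⟨A, hA⟩ : ∃ A : ℝ, A = m + 1 := ⟨_, rfl⟩
  have hA1 : 1 ≤ A := by
    rw [hA]
    have : (0 : ℝ) ≤ m := Nat.cast_nonneg m
    linarith
  refine ⟨(Module.finrank ℚ K : ℝ) * Real.log A,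
    mul_nonneg (Nat.cast_nonneg _) (Real.log_nonneg hA1), fun f hf t => ?_⟩
  have hc := common hf.cop
  obtain ⟨i0, hi0⟩ := hc t
  haveI : Nonempty (Fin n) := ⟨i0⟩
  have hy : (fun i => (f i).eval t) ≠ 0 := fun h => hi0 (congrFun h i0)
  have hmono : ∀ (φ : AbsoluteValue K ℝ) (k : ℕ), k ≤ m → φ t ^ k ≤ max (φ t) 1 ^ m := by
    intro φ k hk
    calc φ t ^ k ≤ max (φ t) 1 ^ k := pow_le_pow_left₀ (φ.nonneg t) (le_max_left _ _) k
      _ ≤ max (φ t) 1 ^ m := pow_le_pow_right₀ (le_max_right _ _) hk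
  have hsup2 : ∀ φ : AbsoluteValue K ℝ, (⨆ i : Fin 2, φ ((![t, 1] : Fin 2 → K) i)) =
      max (φ t) 1 := by
    intro φ
    refine le_antisymm (ciSup_le fun i => ?_) (max_le ?_ ?_)
    · fin_cases i
      · exact le_max_left _ _
      · show φ 1 ≤ max (φ t) 1
        rw [map_one]
        exact le_max_right _ _
    · exact le_ciSup (f := fun i => φ ((![t, 1] : Fin 2 → K) i)) (Set.finite_range _).bddAbove 0
    · have := le_ciSup (f := fun i => φ ((![t, 1] : Fin 2 → K) i)) (Set.finite_range _).bddAbove 1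
      have e : φ ((![t, 1] : Fin 2 → K) 1) = 1 := by
        show φ 1 = 1
        exact map_one φ
      rw [e] at this
      exact this
  obtain ⟨T, -, hT2⟩ := prime_set hPF (y := fun i => (f i).eval t) (c := cf f m) (c' := ![t, 1])
    (z := (1 : K)) (k := 1) (k' := m) (A := A) hy hf.ne (t1_ne t) one_ne_zero hA1
    (fun v => by
      rw [map_one, one_mul, pow_one]
      refine ciSup_le fun i => ?_
      show fv v ((f i).eval t) ≤ _
      rw [eval_eq_sum_range' (lt_of_le_of_lt (hf.deg i) (Nat.lt_succ_self m))]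
      have e2 : sn v (![t, 1] : Fin 2 → K) = max (fv v t) 1 := hsup2 (fv v)
      rw [e2]
      refine fv_sum_le' v _ _ (mul_nonneg (sn_nonneg _ _) (by positivity)) fun k hk => ?_
      rw [map_mul, map_pow]
      have hk' : k < m + 1 := Finset.mem_range.1 hk
      exact mul_le_mul (le_sn v (cf f m) (i, ⟨k, hk'⟩)) (hmono (fv v) k (by omega))
        (pow_nonneg ((fv v).nonneg _) _) (sn_nonneg _ _))
    (fun w => by
      rw [map_one, one_mul, pow_one]
      refine ciSup_le fun i => ?_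
      show w ((f i).eval t) ≤ _
      rw [eval_eq_sum_range' (lt_of_le_of_lt (hf.deg i) (Nat.lt_succ_self m))]
      have e2 : sw w (![t, 1] : Fin 2 → K) = max (w t) 1 := hsup2 w.1
      rw [e2]
      refine (AbsoluteValue.sum_le w.1 _ _).trans ?_
      have h3 : ∀ k ∈ Finset.range (m + 1), w.1 ((f i).coeff k * t ^ k) ≤
          sw w (cf f m) * max (w t) 1 ^ m := by
        intro k hk
        have hk' : k < m + 1 := Finset.mem_range.1 hk
        rw [map_mul, map_pow]
        refine mul_le_mul ?_ (hmono w.1 k (by omega)) (pow_nonneg (w.1.nonneg _) _) ?_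
        · exact le_ciSup (f := fun p => w (cf f m p)) (Set.finite_range _).bddAbove
            (i, ⟨k, hk'⟩)
        · exact Real.iSup_nonneg fun p => apply_nonneg w _
      refine (Finset.sum_le_sum h3).trans ?_
      rw [Finset.sum_const, Finset.card_range, nsmul_eq_mul, hA]
      push_cast
      exact le_rfl)
  have h1 : 0 ≤ ∑ v ∈ T, Real.log (Nv v) := Finset.sum_nonneg fun v _ => (log_Nv_pos' v).le
  push_cast at hT2
  linarith

/-- the restriction of a form to the curve -/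
theorem comp_primes (hPF : S_PF K) (hCOMP : S_COMP K) (n m e : ℕ) :
    ∃ C : ℝ, 0 ≤ C ∧ ∀ (f : Fin n → K[X]) (F : MvPolynomial (Fin n) K), Crv m f →
      F.IsHomogeneous e → res f F ≠ 0 →
      ∃ T : Finset (Pr K), ∑ v ∈ T, Real.log (Nv v) + hG (m * e) (res f F) ≤
          Height.logHeight (cF F) + e * Height.logHeight (cf f m) + C ∧
        ∀ v ∉ T, (⨆ k : Fin (m * e + 1), fv v ((res f F).coeff k)) =
          sn v (cF F) * sn v (cf f m) ^ e := by
  classical
  obtain ⟨A, hA1, hA⟩ := hCOMP n m e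
  refine ⟨(Module.finrank ℚ K : ℝ) * Real.log A,
    mul_nonneg (Nat.cast_nonneg _) (Real.log_nonneg hA1), fun f F hf hF hG0 => ?_⟩
  obtain ⟨h1, h2⟩ := hA f F hf.deg hF
  have hF0 : F ≠ 0 := by
    rintro rfl
    apply hG0
    unfold res
    exact map_zero _
  have hcF : cF F ≠ 0 := by
    obtain ⟨s, hs⟩ := MvPolynomial.support_nonempty.2 hF0
    intro h
    exact MvPolynomial.mem_support_iff.1 hs (congrFun h ⟨s, hs⟩)
  have hy : (fun k : Fin (m * e + 1) => (res f F).coeff k) ≠ 0 := by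
    intro h
    apply hG0
    ext k
    rw [coeff_zero]
    by_cases hk : k ≤ m * e
    · exact congrFun h ⟨k, by omega⟩
    · exact coeff_eq_zero_of_natDegree_lt (lt_of_le_of_lt (natDegree_res hf.deg hF) (by omega))
  obtain ⟨T, hT1, hT2⟩ := prime_set hPF (y := fun k : Fin (m * e + 1) => (res f F).coeff k)
    (c := cF F) (c' := cf f m) (z := (1 : K)) (k := 1) (k' := e) (A := A) hy hcF hf.ne
    one_ne_zero hA1
    (fun v => by
      rw [map_one, one_mul, pow_one]
      exact ciSup_le fun k => h1 v k)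
    (fun w => by
      rw [map_one, one_mul, pow_one]
      exact ciSup_le fun k => h2 w k)
  refine ⟨T, ?_, fun v hv => ?_⟩
  · unfold hG
    push_cast at hT2
    linarith
  · have h3 := hT1 v hv
    rw [map_one, one_mul, pow_one] at h3
    exact h3

/-- the normalised local height of the hypersurface `F = 0` of degree `e` -/
noncomputable def lamF (F : MvPolynomial (Fin n) K) (e : ℕ) (v : Pr K) (x : Fin n → K) : ℝ :=
  Real.log ((⨆ s : F.support, FinitePlace.mk v (F.coeff s)) * (⨆ i, FinitePlace.mk v (x i)) ^ e /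
    FinitePlace.mk v (MvPolynomial.eval x F))

/-- **the counting function of a hypersurface on a rational curve** -/
theorem proj_data (hPF : S_PF K) (hMIN : S_MIN K) (hCOMP : S_COMP K) (hg : S_GAUSS K)
    (hroot : S_ROOT K) (n m e : ℕ) :
    ∃ C : ℝ, 0 ≤ C ∧ ∀ (S : Finset (Pr K)) (f : Fin n → K[X]) (F : MvPolynomial (Fin n) K),
      Crv m f → F.IsHomogeneous e → res f F ≠ 0 → (res f F).Splits → ∀ H : ℝ,
      H = ∑ v ∈ S, Real.log (Nv v) + Height.logHeight (cf f m) + Height.logHeight (cF F) →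
      (∀ j, Height.logHeight (aS (zs (res f F) (m * e)) j) ≤ C * (H + 1)) ∧
      ∃ T : Finset (Pr K), ∑ v ∈ T, Real.log (Nv v) ≤ C * (H + 1) ∧
        ∀ t, (res f F).eval t ≠ 0 →
          cnt (T : Set (Pr K)) (aS (zs (res f F) (m * e))) ![t, 1] ≤
            cL (S : Set (Pr K)) (fun v => lamF F e v (fun i => (f i).eval t)) ∧
          cL (S : Set (Pr K)) (fun v => lamF F e v (fun i => (f i).eval t)) ≤
            cnt (T : Set (Pr K)) (aS (zs (res f F) (m * e))) ![t, 1] +
              C * (H + 1) := by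
  classical
  obtain ⟨C1, hC1, k1⟩ := crv_primes hPF hMIN n m
  obtain ⟨C2, hC2, k2⟩ := comp_primes hPF hCOMP n m e
  obtain ⟨C3, hC3, k3⟩ := assemble hg hroot (m * e)
  obtain ⟨E, hE⟩ : ∃ E : ℝ, E = 1 + e + C2 := ⟨_, rfl⟩
  have hE1 : 1 ≤ E := by
    rw [hE]
    have : (0 : ℝ) ≤ e := Nat.cast_nonneg e
    linarith
  obtain ⟨C, hC⟩ : ∃ C : ℝ, C = 1 + C1 + (1 + C3) * E + C3 := ⟨_, rfl⟩
  have hC0 : 0 ≤ C := by rw [hC]; positivity
  refine ⟨C, hC0, fun S f F hf hF hG0 hs H hH => ?_⟩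
  have b1 : 0 ≤ ∑ v ∈ S, Real.log (Nv v) := Finset.sum_nonneg fun v _ => (log_Nv_pos' v).le
  have b2 : 0 ≤ Height.logHeight (cf f m) := Height.logHeight_nonneg _
  have b3 : 0 ≤ Height.logHeight (cF F) := Height.logHeight_nonneg _
  have hH0 : 0 ≤ H := by rw [hH]; positivity
  obtain ⟨T1, hT1, h1⟩ := k1 f hf
  obtain ⟨T2, hT2, h2⟩ := k2 f F hf hF hG0
  have b4 : 0 ≤ ∑ v ∈ T2, Real.log (Nv v) := Finset.sum_nonneg fun v _ => (log_Nv_pos' v).le
  have b5 : 0 ≤ hG (m * e) (res f F) := Height.logHeight_nonneg _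
  have hsum : ∑ v ∈ T2, Real.log (Nv v) + hG (m * e) (res f F) ≤ E * (H + 1) := by
    refine hT2.trans ?_
    have e1 : Height.logHeight (cF F) ≤ H := by rw [hH]; linarith
    have e2 : Height.logHeight (cf f m) ≤ H := by rw [hH]; linarith
    have e3 : (e : ℝ) * Height.logHeight (cf f m) ≤ e * H :=
      mul_le_mul_of_nonneg_left e2 (Nat.cast_nonneg _)
    have e4 : E * (H + 1) = H + e * H + C2 * H + 1 + e + C2 := by rw [hE]; ring
    have e5 : 0 ≤ C2 * H := mul_nonneg hC2 hH0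
    have e6 : (0 : ℝ) ≤ e := Nat.cast_nonneg e
    rw [e4]
    linarith
  have hEH : 0 ≤ E * (H + 1) := by positivity
  obtain ⟨h3, h4⟩ := k3 (res f F) hG0 hs (natDegree_res hf.deg hF)
  have hb : hG (m * e) (res f F) + C3 ≤ C * (H + 1) := by
    have e1 : C * (H + 1) = (H + 1) + C1 * (H + 1) + E * (H + 1) + C3 * (E * (H + 1)) +
      C3 * (H + 1) := by rw [hC]; ring
    have e2 : 0 ≤ C1 * (H + 1) := by positivity
    have e3 : 0 ≤ C3 * (E * (H + 1)) := by positivity
    have e4 : C3 ≤ C3 * (H + 1) := le_mul_of_one_le_right hC3 (by linarith)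
    rw [e1]
    linarith
  refine ⟨fun j => (h3 j).trans hb, ?_⟩
  obtain ⟨T, hT, h5⟩ := h4 (S ∪ (T1 ∪ T2)) (S : Set (Pr K))
    (fun v t => lamF F e v (fun i => (f i).eval t))
    (by
      rw [Finset.coe_union]
      exact Set.subset_union_left)
    (fun v hv t ht => by
      rw [Finset.mem_union, Finset.mem_union, not_or, not_or] at hv
      have e1 := h1 v hv.2.1 t
      have e2 := h2 v hv.2.2
      unfold lamF lamG
      have e3 : (⨆ s : F.support, FinitePlace.mk v (F.coeff s)) = sn v (cF F) := rfl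
      have e4 : (⨆ i, FinitePlace.mk v ((f i).eval t)) = ⨆ i, fv v ((f i).eval t) := rfl
      have e5 : FinitePlace.mk v (MvPolynomial.eval (fun i => (f i).eval t) F) =
          fv v ((res f F).eval t) := by
        rw [eval_res]
        rfl
      rw [e3, e4, e5, e1, e2, mul_pow, ← pow_mul]
      congr 1
      ring)
  have hTb : ∑ v ∈ T, Real.log (Nv v) ≤ C * (H + 1) := by
    refine hT.trans ?_
    have e1 : ∑ v ∈ S ∪ (T1 ∪ T2), Real.log (Nv v) ≤ ∑ v ∈ S, Real.log (Nv v) +
        (∑ v ∈ T1, Real.log (Nv v) + ∑ v ∈ T2, Real.log (Nv v)) := by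
      have hU : ∀ A B : Finset (Pr K), ∑ v ∈ A ∪ B, Real.log (Nv v) ≤
          ∑ v ∈ A, Real.log (Nv v) + ∑ v ∈ B, Real.log (Nv v) := by
        intro A B
        rw [← Finset.sum_union_inter]
        have : 0 ≤ ∑ v ∈ A ∩ B, Real.log (Nv v) := Finset.sum_nonneg fun v _ => (log_Nv_pos' v).le
        linarith
      have u1 := hU S (T1 ∪ T2)
      have u2 := hU T1 T2
      linarith
    have e2 : ∑ v ∈ S, Real.log (Nv v) ≤ H + 1 := by rw [hH]; linarith
    have e3 : ∑ v ∈ T1, Real.log (Nv v) ≤ C1 * (H + 1) := by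
      refine hT1.trans (mul_le_mul_of_nonneg_left ?_ hC1)
      rw [hH]
      linarith
    have e4 : C3 * (hG (m * e) (res f F) + 1) ≤ C3 * (E * (H + 1)) + C3 * (H + 1) := by
      rw [mul_add, mul_one]
      have e5 : C3 * hG (m * e) (res f F) ≤ C3 * (E * (H + 1)) :=
        mul_le_mul_of_nonneg_left (by linarith) hC3
      have e6 : C3 ≤ C3 * (H + 1) := le_mul_of_one_le_right hC3 (by linarith)
      linarith
    have e7 : C * (H + 1) = (H + 1) + C1 * (H + 1) + E * (H + 1) + C3 * (E * (H + 1)) +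
      C3 * (H + 1) := by rw [hC]; ring
    rw [e7]
    linarith
  refine ⟨T, hTb, fun t ht => ?_⟩
  obtain ⟨k5, k6⟩ := h5 t ht
  exact ⟨k5, k6.trans (by linarith)⟩

end Pool.Agent.Y557.U
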