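import Pool.Agent.Y557.U.Proj

/-!
The family of all rational curves of a projective space of given degree (helper557).
-/

set_option autoImplicit false

namespace Pool.Agent.Y557.U

open NumberField IsDedekindDomain Finset Polynomial
open Pool.Agent.H691R3 Pool.Agent.TH876.Loc
open Pool.Agent.TH876.KR (form localHeight localHeight_nonneg localHeight_eq localHeight_pos_iff
  log_Nv_pos' m2 fv_sub_le)
open Pool.Agent.Y730.QP (cnt PQ counting_le supp_finite term_nonneg log_Nv_le_localHeight)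
open Pool.Agent.Y557.NF

variable {K : Type} [Field K] [NumberField K] {n : ℕ}

/-- the size of the data -/
noncomputable def sz (m : ℕ) (S : Finset (Pr K)) (f : Fin n → K[X]) (F : MvPolynomial (Fin n) K) :
    ℝ := ∑ v ∈ S, Real.log (Nv v) + Height.logHeight (cf f m) + Height.logHeight (cF F)

theorem sz_nonneg (m : ℕ) (S : Finset (Pr K)) (f : Fin n → K[X]) (F : MvPolynomial (Fin n) K) :
    0 ≤ sz m S f F := by
  have b1 : 0 ≤ ∑ v ∈ S, Real.log (Nv v) := Finset.sum_nonneg fun v _ => (log_Nv_pos' v).le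
  have b2 : 0 ≤ Height.logHeight (cf f m) := Height.logHeight_nonneg _
  have b3 : 0 ≤ Height.logHeight (cF F) := Height.logHeight_nonneg _
  unfold sz
  positivity

/-- the curves together with a hypersurface and a set of primes -/
abbrev JJ (K : Type) [Field K] [NumberField K] (n m e : ℕ) : Type :=
  {p : Finset (Pr K) × (Fin n → K[X]) × MvPolynomial (Fin n) K //
    Crv m p.2.1 ∧ p.2.2.IsHomogeneous e ∧ res p.2.1 p.2.2 ≠ 0 ∧ (res p.2.1 p.2.2).Splits}

theorem mk_eval_eq {m : ℕ} {f g : Fin n → K[X]} (hf : Crv m f) (hg : Crv m g)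
    (h : Projectivization.mk K (cf f m) hf.ne = Projectivization.mk K (cf g m) hg.ne) (t : K) :
    pc f (common hf.cop) t = pc g (common hg.cop) t := by
  rw [Projectivization.mk_eq_mk_iff'] at h
  obtain ⟨c, hc⟩ := h
  unfold pc
  rw [Projectivization.mk_eq_mk_iff']
  refine ⟨c, ?_⟩
  funext i
  have h1 : f i = C c * g i := by
    ext k
    rw [coeff_C_mul]
    by_cases hk : k ≤ m
    · have := congrFun hc (i, ⟨k, by omega⟩)
      exact this.symm
    · rw [coeff_eq_zero_of_natDegree_lt (lt_of_le_of_lt (hf.deg i) (by omega)),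
        coeff_eq_zero_of_natDegree_lt (lt_of_le_of_lt (hg.deg i) (by omega)), mul_zero]
  show c * (g i).eval t = (f i).eval t
  rw [h1, eval_mul, eval_C]

theorem exists_fam (hPF : S_PF K) (hMIN : S_MIN K) (hCOMP : S_COMP K) (hg : S_GAUSS K)
    (hroot : S_ROOT K) (hcnt : S_CNT K) (n m e : ℕ) :
    ∃ D : Fam K (Projectivization K (Fin n → K)) (Projectivization K (Fin n × Fin (m + 1) → K))
      (JJ K n m e), (∀ j, D.H j = sz m j.1.1 j.1.2.1 j.1.2.2) ∧
      (∀ j t, D.pt j t = pc j.1.2.1 (common j.2.1.cop) t) ∧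
      (∀ j, D.q j = (zs (res j.1.2.1 j.1.2.2) (m * e)).card) ∧
      (∀ j t, (∀ i, form (D.α j i) ![t, 1] ≠ 0) ↔ (res j.1.2.1 j.1.2.2).eval t ≠ 0) ∧
      ∀ j t, (res j.1.2.1 j.1.2.2).eval t ≠ 0 →
        cnt (D.T j : Set (Pr K)) (D.α j) ![t, 1] ≤
          cL (j.1.1 : Set (Pr K)) (fun v => lamF j.1.2.2 e v (fun i => (j.1.2.1 i).eval t)) ∧
        cL (j.1.1 : Set (Pr K)) (fun v => lamF j.1.2.2 e v (fun i => (j.1.2.1 i).eval t)) ≤
          cnt (D.T j : Set (Pr K)) (D.α j) ![t, 1] + D.C2 * (D.H j + 1) := by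
  classical
  obtain ⟨C, hC, hdat⟩ := proj_data hPF hMIN hCOMP hg hroot n m e
  obtain ⟨C1, a, hC1, ha, hcount⟩ := hcnt (Fin n × Fin (m + 1))
  have hj := fun j : JJ K n m e => hdat j.1.1 j.1.2.1 j.1.2.2 j.2.1 j.2.2.1 j.2.2.2.1 j.2.2.2.2
    (sz m j.1.1 j.1.2.1 j.1.2.2) rfl
  choose k1 T k2 k3 using hj
  refine ⟨{ H := fun j => sz m j.1.1 j.1.2.1 j.1.2.2
            κ := fun j => Projectivization.mk K (cf j.1.2.1 m) j.2.1.ne
            pt := fun j t => pc j.1.2.1 (common j.2.1.cop) t
            q := fun j => (zs (res j.1.2.1 j.1.2.2) (m * e)).card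
            α := fun j => aS (zs (res j.1.2.1 j.1.2.2) (m * e))
            T := T
            C1 := C1
            a := a
            C2 := C
            hH := fun j => sz_nonneg _ _ _ _
            hC1 := hC1
            ha := ha
            hC2 := hC
            hpt := ?_
            hcount := ?_
            hα := k1
            hT := k2
            hαd := fun j => form_aS _ }, fun j => rfl, fun j t => rfl, fun j => rfl,
            fun j t => mem_GG_aS j.2.2.2.1, fun j t ht => k3 j t ht⟩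
  · intro j j' h
    funext t
    exact mk_eval_eq j.2.1 j'.2.1 h t
  · intro B hB
    obtain ⟨hf, hc⟩ := hcount B hB
    have hsub : {z | ∃ j : JJ K n m e, Projectivization.mk K (cf j.1.2.1 m) j.2.1.ne = z ∧
        sz m j.1.1 j.1.2.1 j.1.2.2 ≤ B} ⊆
        {P : Projectivization K (Fin n × Fin (m + 1) → K) |
          ∃ (y : Fin n × Fin (m + 1) → K) (hy : y ≠ 0),
            P = Projectivization.mk K y hy ∧ Height.logHeight y ≤ B} := by
      rintro z ⟨j, rfl, h⟩
      refine ⟨cf j.1.2.1 m, j.2.1.ne, rfl, le_trans ?_ h⟩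
      have b1 : 0 ≤ ∑ v ∈ j.1.1, Real.log (Nv v) :=
        Finset.sum_nonneg fun v _ => (log_Nv_pos' v).le
      have b3 : 0 ≤ Height.logHeight (cF j.1.2.2) := Height.logHeight_nonneg _
      unfold sz
      linarith
    refine ⟨hf.subset hsub, le_trans ?_ hc⟩
    exact_mod_cast Set.ncard_le_ncard hsub hf

end Pool.Agent.Y557.U
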