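import Pool.Agent.Y557.U.ProjFam

/-!
The points of all rational curves of small height of a projective space (helper557).
-/

set_option autoImplicit false

namespace Pool.Agent.Y557.U

open NumberField IsDedekindDomain Finset Polynomial
open Pool.Agent.H691R3 Pool.Agent.TH876.Loc
open Pool.Agent.TH876.KR (form localHeight localHeight_nonneg localHeight_eq localHeight_pos_iff
  log_Nv_pos' m2 fv_sub_le)
open Pool.Agent.Y730.QP (cnt PQ counting_le supp_finite term_nonneg log_Nv_le_localHeight)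
open Pool.Agent.Y557.NF

variable {K : Type} [Field K] [NumberField K] {n : ℕ}

/-- the coordinates of the point with parameter `t`, `none` standing for infinity -/
def co (m : ℕ) (f : Fin n → K[X]) : Option K → Fin n → K
  | some t => fun i => (f i).eval t
  | none => fun i => (f i).coeff m

/-- the data are admissible and their heights are at most `B` -/
structure Adm (m e q : ℕ) (B : ℝ) (S : Finset (Pr K)) (f : Fin n → K[X])
    (F : MvPolynomial (Fin n) K) : Prop where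
  crv : Crv m f
  hom : F.IsHomogeneous e
  ne : res f F ≠ 0
  spl : (res f F).Splits
  card : (zs (res f F) (m * e)).card = q
  hS : ∑ v ∈ S, Real.log (Nv v) ≤ B
  hf : Height.logHeight (cf f m) ≤ B
  hF : Height.logHeight (cF F) ≤ B

theorem Adm.mono {m e q : ℕ} {B B' : ℝ} {S : Finset (Pr K)} {f : Fin n → K[X]}
    {F : MvPolynomial (Fin n) K} (h : Adm m e q B S f F) (hB : B ≤ B') : Adm m e q B' S f F :=
  ⟨h.crv, h.hom, h.ne, h.spl, h.card, h.hS.trans hB, h.hf.trans hB, h.hF.trans hB⟩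

/-- the points of one curve -/
def PP (m e : ℕ) (S : Set (Pr K)) (f : Fin n → K[X]) (F : MvPolynomial (Fin n) K) (B : ℝ) :
    Set (Projectivization K (Fin n → K)) :=
  {Q | ∃ (t : Option K) (hx : co m f t ≠ 0), Q = Projectivization.mk K (co m f t) hx ∧
    MvPolynomial.eval (co m f t) F ≠ 0 ∧ cL S (fun v => lamF F e v (co m f t)) ≤ B}

/-- the exceptional points of all curves -/
def EX (K : Type) [Field K] [NumberField K] (n m e q : ℕ) (η κ A B : ℝ) :
    Set (Projectivization K (Fin n → K)) :=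
  {Q | ∃ (S : Finset (Pr K)) (f : Fin n → K[X]) (F : MvPolynomial (Fin n) K),
    Adm m e q (η * B) S f F ∧ ∃ (t : Option K) (hx : co m f t ≠ 0),
      Q = Projectivization.mk K (co m f t) hx ∧ MvPolynomial.eval (co m f t) F ≠ 0 ∧
      cL (S : Set (Pr K)) (fun v => lamF F e v (co m f t)) ≤ B ∧
      cL (S : Set (Pr K)) (fun v => lamF F e v (co m f t)) <
        κ * Height.logHeight (co m f t) - A}

/-- the points of all curves -/
def AP (K : Type) [Field K] [NumberField K] (n m e q : ℕ) (η B : ℝ) :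
    Set (Projectivization K (Fin n → K)) :=
  {Q | ∃ (S : Finset (Pr K)) (f : Fin n → K[X]) (F : MvPolynomial (Fin n) K),
    Adm m e q (η * B) S f F ∧ Q ∈ PP m e (S : Set (Pr K)) f F B}

theorem co_none_height {m : ℕ} (f : Fin n → K[X]) :
    Height.logHeight (co m f none) ≤ Height.logHeight (cf f m) :=
  Height.logHeight_comp_le (fun i : Fin n => ((i, ⟨m, Nat.lt_succ_self m⟩) : Fin n × Fin (m + 1)))
    (cf f m)

theorem Adm.sz_le {m e q : ℕ} {B : ℝ} {S : Finset (Pr K)} {f : Fin n → K[X]}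
    {F : MvPolynomial (Fin n) K} (h : Adm m e q B S f F) : sz m S f F ≤ 3 * B := by
  unfold sz
  linarith [h.hS, h.hf, h.hF]

/-- the element of the index type -/
def Adm.j {m e q : ℕ} {B : ℝ} {S : Finset (Pr K)} {f : Fin n → K[X]}
    {F : MvPolynomial (Fin n) K} (h : Adm m e q B S f F) : JJ K n m e :=
  ⟨(S, f, F), h.crv, h.hom, h.ne, h.spl⟩

theorem proj_upper (hPF : S_PF K) (hMIN : S_MIN K) (hCOMP : S_COMP K) (hg : S_GAUSS K)
    (hroot : S_ROOT K) (hcnt : S_CNT K) (n m e q : ℕ) (hm : 1 ≤ m) (hq : 3 ≤ q) (κ : ℝ)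
    (hκ : κ < q / m) :
    ∃ η0 ν : ℝ, 0 < η0 ∧ 0 < ν ∧ ν ≤ 1 / q ∧ ∀ η : ℝ, 0 ≤ η → η ≤ η0 → ∀ A : ℝ,
      ∃ C : ℝ, 0 < C ∧ ∀ B : ℝ, 0 ≤ B → (EX K n m e q η κ A B).Finite ∧
        ((EX K n m e q η κ A B).ncard : ℝ) ≤ C * Real.exp ((2 / q - ν) * B) := by
  classical
  obtain ⟨D, hDH, hDpt, hDq, hDform, hDc⟩ := exists_fam hPF hMIN hCOMP hg hroot hcnt n m e
  obtain ⟨C5, hC5, hht⟩ := crv_height hPF n m
  obtain ⟨C6, a6, hC6, ha6, hfew⟩ := hcnt (Fin n)
  have hm0 : (0 : ℝ) < m := by exact_mod_cast hm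
  have hq3 : (3 : ℝ) ≤ q := by exact_mod_cast hq
  have hq0 : (0 : ℝ) < q := by linarith
  obtain ⟨κ', hκ'⟩ : ∃ κ' : ℝ, κ' = max κ (q / (2 * m)) := ⟨_, rfl⟩
  have hκ1 : κ ≤ κ' := by rw [hκ']; exact le_max_left _ _
  have hκ0 : q / (2 * m) ≤ κ' := by rw [hκ']; exact le_max_right _ _
  have hκp : 0 < κ' := lt_of_lt_of_le (by positivity) hκ0
  have hκ2 : κ' * m < q := by
    rw [← lt_div_iff₀ hm0, hκ']
    refine max_lt hκ ?_
    rw [div_lt_div_iff₀ (by positivity) hm0]
    nlinarith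
  have hκ3 : q / 2 ≤ κ' * m := by
    rw [div_le_iff₀ (by positivity)] at hκ0
    linarith
  obtain ⟨ε, hε⟩ : ∃ ε : ℝ, ε = 1 - κ' * m / q := ⟨_, rfl⟩
  have hε0 : 0 < ε := by
    rw [hε, sub_pos, div_lt_one hq0]
    exact hκ2
  have hε1 : ε ≤ 1 := by
    rw [hε]
    have : 0 ≤ κ' * m / q := by positivity
    linarith
  have hεq : (1 - ε) * q = κ' * m := by
    rw [hε]
    field_simp
    ring
  obtain ⟨η1, ν1, hη1, hν1, hν1', hup⟩ := core_upper D ε hε0 hε1 κ' hκp.le
  refine ⟨min (η1 / q) (1 / (q * a6)), 3 * ν1 / q, lt_min (by positivity) (by positivity),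
    by positivity, ?_, fun η hη hηle A => ?_⟩
  · rw [div_le_div_iff_of_pos_right hq0]
    linarith
  have hη2 : q * η ≤ η1 := by
    have := hηle.trans (min_le_left _ _)
    rw [le_div_iff₀ hq0] at this
    linarith
  have hη3 : a6 * η ≤ 1 / q := by
    have := hηle.trans (min_le_right _ _)
    rw [le_div_iff₀ (by positivity)] at this
    rw [le_div_iff₀ hq0]
    linarith
  obtain ⟨C, hC, hE⟩ := hup (q * η) (by positivity) hη2 (κ' * C5 - A)
  refine ⟨C + C6, by positivity, fun B hB => ?_⟩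
  obtain ⟨hEf, hEc⟩ := hE (3 * B / q) (by positivity)
  obtain ⟨hPf, hPc⟩ := hfew (η * B) (by positivity)
  have hsub : EX K n m e q η κ A B ⊆ D.E ε κ' (κ' * C5 - A) (q * η) (3 * B / q) ∪
      {P : Projectivization K (Fin n → K) | ∃ (y : Fin n → K) (hy : y ≠ 0),
        P = Projectivization.mk K y hy ∧ Height.logHeight y ≤ η * B} := by
    rintro Q ⟨S, f, F, hA, t, hx, rfl, h1, h2, h3⟩
    cases t with
    | none =>
      right
      exact ⟨_, hx, rfl, (co_none_height f).trans hA.hf⟩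
    | some t =>
      left
      have hG : (res f F).eval t ≠ 0 := by
        rw [eval_res]
        exact h1
      obtain ⟨k1, -⟩ := hDc hA.j t hG
      have hk1 : cnt (D.T hA.j : Set (Pr K)) (D.α hA.j) ![t, 1] ≤
        cL (S : Set (Pr K)) (fun v => lamF F e v (co m f (some t))) := k1
      have hqj : D.q hA.j = q := (hDq hA.j).trans hA.card
      have hqj' : ((D.q hA.j : ℕ) : ℝ) = q := by rw [hqj]
      have hszj : D.H hA.j = sz m S f F := hDH hA.j
      refine ⟨hA.j, t, by rw [hqj]; exact hq, ?_, ?_, (hDform hA.j t).2 hG, ?_, ?_⟩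
      · rw [hszj]
        refine hA.sz_le.trans (le_of_eq ?_)
        field_simp
      · exact (hDpt hA.j t).symm
      · rw [hqj']
        refine hk1.trans (h2.trans (le_of_eq ?_))
        field_simp
      · rw [hqj', hεq, hszj]
        refine lt_of_le_of_lt hk1 (lt_of_lt_of_le h3 ?_)
        have h4 : Height.logHeight (co m f (some t)) ≤
          m * Height.logHeight ![t, 1] + Height.logHeight (cf f m) + C5 := hht f hA.crv t
        have h5 : Height.logHeight (cf f m) ≤ sz m S f F := by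
          have b1 : 0 ≤ ∑ v ∈ S, Real.log (Nv v) :=
            Finset.sum_nonneg fun v _ => (log_Nv_pos' v).le
          have b3 : 0 ≤ Height.logHeight (cF F) := Height.logHeight_nonneg _
          unfold sz
          linarith
        have h6 : 0 ≤ Height.logHeight (co m f (some t)) := Height.logHeight_nonneg _
        have h7 : κ * Height.logHeight (co m f (some t)) ≤
            κ' * (m * Height.logHeight ![t, 1] + sz m S f F + C5) :=
          mul_le_mul hκ1 (by linarith) h6 hκp.le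
        linarith
  have hfin := hEf.union hPf
  refine ⟨hfin.subset hsub, ?_⟩
  have h1 : ((EX K n m e q η κ A B).ncard : ℝ) ≤
      ((D.E ε κ' (κ' * C5 - A) (q * η) (3 * B / q)).ncard : ℝ) +
      (({P : Projectivization K (Fin n → K) | ∃ (y : Fin n → K) (hy : y ≠ 0),
        P = Projectivization.mk K y hy ∧ Height.logHeight y ≤ η * B} : Set _).ncard : ℝ) := by
    exact_mod_cast (Set.ncard_le_ncard hsub hfin).trans (Set.ncard_union_le _ _)
  have e1 : (2 / 3 - ν1) * (3 * B / q) = (2 / q - 3 * ν1 / q) * B := by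
    field_simp
  rw [e1] at hEc
  have e2 : Real.exp (a6 * (η * B)) ≤ Real.exp ((2 / q - 3 * ν1 / q) * B) := by
    refine Real.exp_le_exp.2 ?_
    rw [← mul_assoc]
    refine mul_le_mul_of_nonneg_right (hη3.trans ?_) hB
    rw [← sub_div, div_le_div_iff_of_pos_right hq0]
    linarith
  have e3 := mul_le_mul_of_nonneg_left e2 hC6.le
  calc _ ≤ C * Real.exp ((2 / q - 3 * ν1 / q) * B) + C6 * Real.exp (a6 * (η * B)) := by linarith
    _ ≤ C * Real.exp ((2 / q - 3 * ν1 / q) * B) + C6 * Real.exp ((2 / q - 3 * ν1 / q) * B) := by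
        linarith
    _ = _ := by ring

theorem proj_points (hPF : S_PF K) (hMIN : S_MIN K) (hCOMP : S_COMP K) (hg : S_GAUSS K)
    (hroot : S_ROOT K) (hcnt : S_CNT K) (n m e q : ℕ) (hq : 3 ≤ q) (δ : ℝ) (hδ : 0 < δ) :
    ∃ η0 : ℝ, 0 < η0 ∧ ∀ η : ℝ, 0 ≤ η → η ≤ η0 →
      ∃ C : ℝ, 0 < C ∧ ∀ B : ℝ, 0 ≤ B → (AP K n m e q η B).Finite ∧
        ((AP K n m e q η B).ncard : ℝ) ≤ C * Real.exp ((2 / q + δ) * B) := by
  classical
  obtain ⟨D, hDH, hDpt, hDq, hDform, hDc⟩ := exists_fam hPF hMIN hCOMP hg hroot hcnt n m e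
  obtain ⟨C6, a6, hC6, ha6, hfew⟩ := hcnt (Fin n)
  have hq3 : (3 : ℝ) ≤ q := by exact_mod_cast hq
  have hq0 : (0 : ℝ) < q := by linarith
  obtain ⟨δ', hδ'⟩ : ∃ δ' : ℝ, δ' = min (q * δ / 3) 1 := ⟨_, rfl⟩
  have hδ'0 : 0 < δ' := by rw [hδ']; exact lt_min (by positivity) one_pos
  have hδ'1 : δ' ≤ 1 := by rw [hδ']; exact min_le_right _ _
  have hδ'2 : δ' ≤ q * δ / 3 := by rw [hδ']; exact min_le_left _ _
  obtain ⟨η1, hη1, hup⟩ := core_points D δ' hδ'0 hδ'1
  refine ⟨min (η1 / q) (2 / (q * a6)), lt_min (by positivity) (by positivity),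
    fun η hη hηle => ?_⟩
  have hη2 : q * η ≤ η1 := by
    have := hηle.trans (min_le_left _ _)
    rw [le_div_iff₀ hq0] at this
    linarith
  have hη3 : a6 * η ≤ 2 / q := by
    have := hηle.trans (min_le_right _ _)
    rw [le_div_iff₀ (by positivity)] at this
    rw [le_div_iff₀ hq0]
    linarith
  obtain ⟨C, hC, hE⟩ := hup (q * η) (by positivity) hη2
  refine ⟨C + C6, by positivity, fun B hB => ?_⟩
  obtain ⟨hEf, hEc⟩ := hE (3 * B / q) (by positivity)
  obtain ⟨hPf, hPc⟩ := hfew (η * B) (by positivity)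
  have hsub : AP K n m e q η B ⊆ D.P (q * η) (3 * B / q) ∪
      {P : Projectivization K (Fin n → K) | ∃ (y : Fin n → K) (hy : y ≠ 0),
        P = Projectivization.mk K y hy ∧ Height.logHeight y ≤ η * B} := by
    rintro Q ⟨S, f, F, hA, t, hx, rfl, h1, h2⟩
    cases t with
    | none =>
      right
      exact ⟨_, hx, rfl, (co_none_height f).trans hA.hf⟩
    | some t =>
      left
      have hG : (res f F).eval t ≠ 0 := by
        rw [eval_res]
        exact h1
      obtain ⟨k1, -⟩ := hDc hA.j t hG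
      have hk1 : cnt (D.T hA.j : Set (Pr K)) (D.α hA.j) ![t, 1] ≤
        cL (S : Set (Pr K)) (fun v => lamF F e v (co m f (some t))) := k1
      have hqj : D.q hA.j = q := (hDq hA.j).trans hA.card
      have hqj' : ((D.q hA.j : ℕ) : ℝ) = q := by rw [hqj]
      have hszj : D.H hA.j = sz m S f F := hDH hA.j
      refine ⟨hA.j, t, by rw [hqj]; exact hq, ?_, ?_, (hDform hA.j t).2 hG, ?_⟩
      · rw [hszj]
        refine hA.sz_le.trans (le_of_eq ?_)
        field_simp
      · exact (hDpt hA.j t).symm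
      · rw [hqj']
        refine hk1.trans (h2.trans (le_of_eq ?_))
        field_simp
  have hfin := hEf.union hPf
  refine ⟨hfin.subset hsub, ?_⟩
  have h1 : ((AP K n m e q η B).ncard : ℝ) ≤
      ((D.P (q * η) (3 * B / q)).ncard : ℝ) +
      (({P : Projectivization K (Fin n → K) | ∃ (y : Fin n → K) (hy : y ≠ 0),
        P = Projectivization.mk K y hy ∧ Height.logHeight y ≤ η * B} : Set _).ncard : ℝ) := by
    exact_mod_cast (Set.ncard_le_ncard hsub hfin).trans (Set.ncard_union_le _ _)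
  have e1 : (2 / 3 + δ') * (3 * B / q) = (2 / q + 3 * δ' / q) * B := by
    field_simp
  rw [e1] at hEc
  have e0 : 3 * δ' / q ≤ δ := by
    rw [div_le_iff₀ hq0]
    linarith
  have e4 : Real.exp ((2 / q + 3 * δ' / q) * B) ≤ Real.exp ((2 / q + δ) * B) :=
    Real.exp_le_exp.2 (mul_le_mul_of_nonneg_right (by linarith) hB)
  have e2 : Real.exp (a6 * (η * B)) ≤ Real.exp ((2 / q + δ) * B) := by
    refine Real.exp_le_exp.2 ?_
    rw [← mul_assoc]
    exact mul_le_mul_of_nonneg_right (by linarith) hB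
  have e3 := mul_le_mul_of_nonneg_left e2 hC6.le
  have e5 := mul_le_mul_of_nonneg_left e4 hC.le
  calc _ ≤ C * Real.exp ((2 / q + 3 * δ' / q) * B) + C6 * Real.exp (a6 * (η * B)) := by linarith
    _ ≤ C * Real.exp ((2 / q + δ) * B) + C6 * Real.exp ((2 / q + δ) * B) := by linarith
    _ = _ := by ring

theorem proj_lower (hPF : S_PF K) (hMIN : S_MIN K) (hCOMP : S_COMP K) (hg : S_GAUSS K)
    (hroot : S_ROOT K) (hcnt : S_CNT K) (n m e q : ℕ) (hm : 1 ≤ m) (hq : 3 ≤ q) (δ : ℝ)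
    (hδ : 0 < δ) :
    ∃ η0 B0 : ℝ, 0 < η0 ∧ 0 ≤ B0 ∧ ∀ B : ℝ, B0 ≤ B → ∀ (S : Finset (Pr K)) (f : Fin n → K[X])
      (F : MvPolynomial (Fin n) K), Adm m e q (η0 * B) S f F →
        Real.exp ((2 / q - δ) * B) ≤ ((PP m e (S : Set (Pr K)) f F B).ncard : ℝ) := by
  classical
  obtain ⟨D, hDH, hDpt, hDq, hDform, hDc⟩ := exists_fam hPF hMIN hCOMP hg hroot hcnt n m e
  have hq3 : (3 : ℝ) ≤ q := by exact_mod_cast hq
  have hq0 : (0 : ℝ) < q := by linarith
  obtain ⟨ν, hν⟩ : ∃ ν : ℝ, ν = min (q * δ / 3) (1 / 3) := ⟨_, rfl⟩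
  have hν0 : 0 < ν := by rw [hν]; exact lt_min (by positivity) (by norm_num)
  have hν1 : ν ≤ 1 / 3 := by rw [hν]; exact min_le_right _ _
  have hν2 : ν ≤ q * δ / 3 := by rw [hν]; exact min_le_left _ _
  obtain ⟨η1, Λ0, hη1, hΛ0, hlow⟩ := core_lower D m hm (fun j b => by
    obtain ⟨s, hs, h⟩ := pc_fibre j.2.1.cop (common j.2.1.cop) j.2.1.deg j.2.1.deg' hm b
    exact ⟨s, hs, fun t ht => h t (by rw [← hDpt j t]; exact ht)⟩) ν hν0 hν1
  obtain ⟨η2, hη2, hpts⟩ := proj_points hPF hMIN hCOMP hg hroot hcnt n m e q hq δ hδ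
  refine ⟨min (η1 / q) η2, q * Λ0 / 3, lt_min (by positivity) hη2, by positivity,
    fun B hB S f F hA => ?_⟩
  have hB0 : 0 ≤ B := le_trans (by positivity) hB
  have hη3 : q * min (η1 / q) η2 ≤ η1 := by
    have := min_le_left (η1 / q) η2
    rw [le_div_iff₀ hq0] at this
    linarith
  have hη4 : min (η1 / q) η2 ≤ η2 := min_le_right _ _
  obtain ⟨C, -, hfin⟩ := hpts η2 hη2.le le_rfl
  have hPPfin : (PP m e (S : Set (Pr K)) f F B).Finite := by
    refine (hfin B hB0).1.subset fun Q hQ => ⟨S, f, F, hA.mono ?_, hQ⟩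
    exact mul_le_mul_of_nonneg_right hη4 hB0
  have hqj : D.q hA.j = q := (hDq hA.j).trans hA.card
  have hqj' : ((D.q hA.j : ℕ) : ℝ) = q := by rw [hqj]
  have hszj : D.H hA.j = sz m S f F := hDH hA.j
  have hΛ : Λ0 ≤ 3 * B / q := by
    rw [le_div_iff₀ hq0]
    linarith
  have hH : D.H hA.j ≤ η1 * (3 * B / q) := by
    rw [hszj]
    refine hA.sz_le.trans ?_
    have e1 : 3 * (min (η1 / q) η2 * B) = q * min (η1 / q) η2 * (3 * B / q) := by
      field_simp
    rw [e1]
    exact mul_le_mul_of_nonneg_right hη3 (by positivity)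
  have h1 := hlow (3 * B / q) hΛ hA.j (by rw [hqj]; exact hq) hH
  have hsub : D.pt hA.j '' D.L hA.j (3 * B / q) ⊆ PP m e (S : Set (Pr K)) f F B := by
    rintro _ ⟨t, ⟨ht1, ht2⟩, rfl⟩
    have hG : (res f F).eval t ≠ 0 := (hDform hA.j t).1 ht1
    obtain ⟨-, k2⟩ := hDc hA.j t hG
    have hx : co m f (some t) ≠ 0 := by
      obtain ⟨i, hi⟩ := common hA.crv.cop t
      intro h
      exact hi (congrFun h i)
    refine ⟨some t, hx, hDpt hA.j t, ?_, ?_⟩
    · rw [eval_res] at hG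
      exact hG
    · have k3 : cL (S : Set (Pr K)) (fun v => lamF F e v (co m f (some t))) ≤
          cnt (D.T hA.j : Set (Pr K)) (D.α hA.j) ![t, 1] + D.C2 * (D.H hA.j + 1) := k2
      rw [hqj'] at ht2
      refine k3.trans (ht2.trans (le_of_eq ?_))
      field_simp
  have h2 : ((D.pt hA.j '' D.L hA.j (3 * B / q)).ncard : ℝ) ≤
      ((PP m e (S : Set (Pr K)) f F B).ncard : ℝ) := by
    exact_mod_cast Set.ncard_le_ncard hsub hPPfin
  refine le_trans (Real.exp_le_exp.2 ?_) (h1.trans h2)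
  have e1 : (2 / 3 - ν) * (3 * B / q) = (2 / q - 3 * ν / q) * B := by
    field_simp
  rw [e1]
  refine mul_le_mul_of_nonneg_right ?_ hB0
  have e0 : 3 * ν / q ≤ δ := by
    rw [div_le_iff₀ hq0]
    linarith
  linarith

end Pool.Agent.Y557.U
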