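import Pool.Agent.Y557.U.Stm

/-!
A further statement for the project on rational curves of small height (helper557).
-/

set_option autoImplicit false

namespace Pool.Agent.Y557.U

open NumberField IsDedekindDomain Finset Polynomial
open Pool.Agent.H691R3 Pool.Agent.TH876.Loc

/-- the lower bound for the values of a parametrisation, at all places -/
def S_MIN2 (K : Type) [Field K] [NumberField K] : Prop :=
  ∀ n m : ℕ, 1 ≤ m → ∃ A : ℝ, 1 ≤ A ∧ ∀ f : Fin n → K[X], (∀ i, (f i).natDegree ≤ m) →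
    (∃ i, (f i).natDegree = m) → (∃ u : Fin n → K[X], ∑ i, u i * f i = 1) →
    ∃ Δ : K, Δ ≠ 0 ∧
      (∀ (v : Pr K) (t : K), fv v Δ * max (fv v t) 1 ^ m ≤
        sn v (cf f m) ^ (2 * m - 1) * ⨆ i, fv v ((f i).eval t)) ∧
      ∀ (w : InfinitePlace K) (t : K), w Δ * max (w t) 1 ^ m ≤
        A * (sw w (cf f m) ^ (2 * m - 1) * ⨆ i, w ((f i).eval t))

end Pool.Agent.Y557.U
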