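import Pool.Agent.Y557.U.ProjFin
import Pool.Agent.Y557.U.Stm2

/-!
The reverse inequality for all points of a rational curve (helper557).
-/

set_option autoImplicit false

namespace Pool.Agent.Y557.U

open NumberField IsDedekindDomain Finset Polynomial
open Pool.Agent.H691R3 Pool.Agent.TH876.Loc
open Pool.Agent.TH876.KR (form localHeight localHeight_nonneg localHeight_eq localHeight_pos_iff
  log_Nv_pos' m2 fv_sub_le)
open Pool.Agent.Y730.QP (cnt PQ counting_le supp_finite term_nonneg log_Nv_le_localHeight)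
open Pool.Agent.Y557.NF

variable {K : Type} [Field K] [NumberField K] {n : ℕ}

theorem sup_two (φ : AbsoluteValue K ℝ) (t : K) (m : ℕ) :
    (⨆ i : Fin 2, φ (((![t, 1] : Fin 2 → K) ^ m) i)) = max (φ t) 1 ^ m := by
  have h0 : φ (((![t, 1] : Fin 2 → K) ^ m) 0) = φ t ^ m := by
    show φ (t ^ m) = φ t ^ m
    exact map_pow φ t m
  have h1 : φ (((![t, 1] : Fin 2 → K) ^ m) 1) = 1 := by
    show φ (1 ^ m) = 1
    rw [one_pow, map_one]
  have hb : BddAbove (Set.range fun i : Fin 2 => φ (((![t, 1] : Fin 2 → K) ^ m) i)) :=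
    (Set.finite_range _).bddAbove
  refine le_antisymm (ciSup_le fun i => ?_) ?_
  · fin_cases i
    · show φ (((![t, 1] : Fin 2 → K) ^ m) 0) ≤ _
      rw [h0]
      exact pow_le_pow_left₀ (φ.nonneg t) (le_max_left _ _) m
    · show φ (((![t, 1] : Fin 2 → K) ^ m) 1) ≤ _
      rw [h1]
      exact one_le_pow₀ (le_max_right _ _)
  · rcases max_choice (φ t) 1 with h | h
    · rw [h, ← h0]
      exact le_ciSup hb 0
    · rw [h, one_pow, ← h1]
      exact le_ciSup hb 1

theorem finsum_le_of_subset (T : Finset (Pr K)) (B : Set (Pr K)) (h : B ⊆ T) :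
    ∑ᶠ v ∈ B, Real.log (Ideal.absNorm v.asIdeal : ℝ) ≤ ∑ v ∈ T, Real.log (Nv v) := by
  classical
  rw [finsum_eq_sum_of_support_subset (s := T)]
  · refine Finset.sum_le_sum fun v _ => ?_
    rw [finsum_eq_if]
    split_ifs
    · exact le_rfl
    · exact (log_Nv_pos' v).le
  · intro v hv
    rw [Function.mem_support, finsum_eq_if] at hv
    by_contra hcon
    apply hv
    rw [if_neg fun h' => hcon (h h')]

/-- the trivial upper bound for the counting function -/
theorem cL_triv (hPF : S_PF K) (hCOMP : S_COMP K) (n e : ℕ) :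
    ∃ C : ℝ, 0 ≤ C ∧ ∀ F : MvPolynomial (Fin n) K, F.IsHomogeneous e → ∀ x : Fin n → K, x ≠ 0 →
      MvPolynomial.eval x F ≠ 0 → ∀ S : Set (Pr K), cL S (fun v => lamF F e v x) ≤
        Height.logHeight (cF F) + e * Height.logHeight x + C := by
  classical
  obtain ⟨A, hA1, hA⟩ := hCOMP n 0 e
  refine ⟨(Module.finrank ℚ K : ℝ) * Real.log A,
    mul_nonneg (Nat.cast_nonneg _) (Real.log_nonneg hA1), fun F hF x hx hFx S => ?_⟩
  obtain ⟨h1, h2⟩ := hA (fun i => C (x i)) F (fun i => by simp) hF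
  have hc0 : (MvPolynomial.aeval (fun i => C (x i)) F).coeff 0 = MvPolynomial.eval x F := by
    rw [coeff_zero_eq_eval_zero]
    have := eval_res (fun i => C (x i)) F 0
    unfold res at this
    rw [this]
    congr 2
    funext i
    exact eval_C
  have hcf : ∀ p, cf (fun i => C (x i)) 0 p = x p.1 := by
    intro p
    show (C (x p.1)).coeff p.2 = x p.1
    have : (p.2 : ℕ) = 0 := by omega
    rw [this, coeff_C_zero]
  obtain ⟨i0, hi0⟩ := Function.ne_iff.1 hx
  haveI : Nonempty (Fin n) := ⟨i0⟩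
  have s1 : ∀ v : Pr K, sn v (cf (fun i => C (x i)) 0) ≤ sn v x := by
    intro v
    refine ciSup_le fun p => ?_
    rw [hcf]
    exact le_sn v x p.1
  have s2 : ∀ w : InfinitePlace K, sw w (cf (fun i => C (x i)) 0) ≤ sw w x := by
    intro w
    refine ciSup_le fun p => ?_
    rw [hcf]
    exact le_ciSup (f := fun i => w (x i)) (Set.finite_range _).bddAbove p.1
  have hF0 : F ≠ 0 := by
    rintro rfl
    exact hFx (map_zero _)
  have hcF : cF F ≠ 0 := by
    obtain ⟨s, hs⟩ := MvPolynomial.support_nonempty.2 hF0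
    intro h
    exact MvPolynomial.mem_support_iff.1 hs (congrFun h ⟨s, hs⟩)
  have hsn0 : ∀ v : Pr K, 0 ≤ sn v (cf (fun i => C (x i)) 0) := fun v => sn_nonneg v _
  have hsw0 : ∀ w : InfinitePlace K, 0 ≤ sw w (cf (fun i => C (x i)) 0) := fun w =>
    Real.iSup_nonneg fun p => apply_nonneg w _
  obtain ⟨T, hT1, hT2⟩ := prime_set hPF (y := fun _ : Unit => MvPolynomial.eval x F)
    (c := cF F) (c' := x) (z := (1 : K)) (k := 1) (k' := e) (A := A)
    (fun h => hFx (congrFun h ())) hcF hx one_ne_zero hA1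
    (fun v => by
      have e1 : sn v (fun _ : Unit => MvPolynomial.eval x F) = fv v (MvPolynomial.eval x F) :=
        ciSup_const
      rw [e1, map_one, one_mul, pow_one, ← hc0]
      refine (h1 v 0).trans ?_
      exact mul_le_mul_of_nonneg_left (pow_le_pow_left₀ (hsn0 v) (s1 v) e) (sn_nonneg v _))
    (fun w => by
      have e1 : sw w (fun _ : Unit => MvPolynomial.eval x F) = w (MvPolynomial.eval x F) :=
        ciSup_const
      rw [e1, map_one, one_mul, pow_one, ← hc0]
      refine (h2 w 0).trans ?_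
      refine mul_le_mul_of_nonneg_left (mul_le_mul_of_nonneg_left
        (pow_le_pow_left₀ (hsw0 w) (s2 w) e) ?_) (by linarith)
      exact Real.iSup_nonneg fun p => apply_nonneg w _)
  have hsub : {v : Pr K | v ∉ S ∧ 0 < lamF F e v x} ⊆ T := by
    rintro v ⟨-, hv⟩
    by_contra hcon
    have h3 := hT1 v (fun h => hcon (Finset.mem_coe.2 h))
    have e1 : sn v (fun _ : Unit => MvPolynomial.eval x F) = fv v (MvPolynomial.eval x F) :=
      ciSup_const
    rw [e1, map_one, one_mul, pow_one] at h3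
    unfold lamF at hv
    have e3 : (⨆ s : F.support, FinitePlace.mk v (F.coeff s)) = sn v (cF F) := rfl
    have e4 : (⨆ i, FinitePlace.mk v (x i)) = sn v x := rfl
    have e5 : FinitePlace.mk v (MvPolynomial.eval x F) = fv v (MvPolynomial.eval x F) := rfl
    rw [e3, e4, e5, ← h3, div_self ((fv v).pos hFx).ne', Real.log_one] at hv
    exact lt_irrefl _ hv
  have h4 : 0 ≤ Height.logHeight (fun _ : Unit => MvPolynomial.eval x F) :=
    Height.logHeight_nonneg _
  have h5 := finsum_le_of_subset T _ hsub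
  unfold cL
  push_cast at hT2
  linarith

/-- the lower bound for the height of a point of the curve -/
theorem height_lower (hPF : S_PF K) (hMIN2 : S_MIN2 K) (n m : ℕ) (hm : 1 ≤ m) :
    ∃ C : ℝ, 0 ≤ C ∧ ∀ f : Fin n → K[X], Crv m f → ∀ t : K,
      m * Height.logHeight ![t, 1] ≤ Height.logHeight (fun i => (f i).eval t) +
        2 * m * Height.logHeight (cf f m) + C := by
  classical
  obtain ⟨A, hA1, hA⟩ := hMIN2 n m hm
  refine ⟨(Module.finrank ℚ K : ℝ) * Real.log A,
    mul_nonneg (Nat.cast_nonneg _) (Real.log_nonneg hA1), fun f hf t => ?_⟩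
  obtain ⟨Δ, hΔ0, h1, h2⟩ := hA f hf.deg hf.deg' hf.cop
  obtain ⟨i0, hi0⟩ := common hf.cop t
  have hx : (fun i => (f i).eval t) ≠ 0 := fun h => hi0 (congrFun h i0)
  have hy : (![t, 1] : Fin 2 → K) ^ m ≠ 0 := by
    intro h
    have := congrFun h 1
    simp at this
  obtain ⟨T, -, hT2⟩ := prime_set hPF (y := (![t, 1] : Fin 2 → K) ^ m)
    (c := cf f m) (c' := fun i => (f i).eval t) (z := Δ) (k := 2 * m - 1) (k' := 1) (A := A)
    hy hf.ne hx hΔ0 hA1
    (fun v => by
      have e1 : sn v ((![t, 1] : Fin 2 → K) ^ m) = max (fv v t) 1 ^ m := sup_two (fv v) t m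
      rw [e1, pow_one]
      exact h1 v t)
    (fun w => by
      have e1 : sw w ((![t, 1] : Fin 2 → K) ^ m) = max (w t) 1 ^ m := sup_two w.1 t m
      rw [e1, pow_one]
      exact h2 w t)
  have h3 : 0 ≤ ∑ v ∈ T, Real.log (Nv v) := Finset.sum_nonneg fun v _ => (log_Nv_pos' v).le
  rw [Height.logHeight_pow] at hT2
  have h4 : 0 ≤ Height.logHeight (cf f m) := Height.logHeight_nonneg _
  have h5 : ((2 * m - 1 : ℕ) : ℝ) ≤ 2 * m := by
    have : 2 * m - 1 ≤ 2 * m := Nat.sub_le _ _
    exact_mod_cast this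
  have h6 := mul_le_mul_of_nonneg_right h5 h4
  rw [Nat.cast_one, one_mul] at hT2
  linarith

theorem cnt_le_height (S : Set (Pr K)) {q : ℕ} {a : Fin q → Fin 2 → K} {x : Fin 2 → K}
    (hx : ∀ i, form (a i) x ≠ 0) (hx0 : x ≠ 0) {M : ℝ} (hM : ∀ i, Height.logHeight (a i) ≤ M) :
    cnt S a x ≤ q * (Height.logHeight x + M + (Module.finrank ℚ K : ℝ) * Real.log 2) := by
  rw [cnt_eq_sum S hx hx0]
  have h1 : ∀ i, cnt1 S (a i) x ≤
      Height.logHeight x + M + (Module.finrank ℚ K : ℝ) * Real.log 2 := by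
    intro i
    have := cnt1_le S (hx i)
    linarith [hM i]
  refine (Finset.sum_le_sum fun i _ => h1 i).trans (le_of_eq ?_)
  rw [Finset.sum_const, Finset.card_univ, Fintype.card_fin, nsmul_eq_mul]

/-- **the reverse inequality, for all points** -/
theorem proj_rev (hPF : S_PF K) (hMIN : S_MIN K) (hMIN2 : S_MIN2 K) (hCOMP : S_COMP K)
    (hg : S_GAUSS K) (hroot : S_ROOT K) (hcnt : S_CNT K) (n m e q : ℕ) (hm : 1 ≤ m) :
    ∃ C : ℝ, 0 ≤ C ∧ ∀ B : ℝ, 0 ≤ B → ∀ (S : Finset (Pr K)) (f : Fin n → K[X])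
      (F : MvPolynomial (Fin n) K), Adm m e q B S f F → ∀ t : Option K, co m f t ≠ 0 →
        MvPolynomial.eval (co m f t) F ≠ 0 →
        m * cL (S : Set (Pr K)) (fun v => lamF F e v (co m f t)) ≤
          q * Height.logHeight (co m f t) + C * (B + 1) := by
  classical
  obtain ⟨D, hDH, hDpt, hDq, hDform, hDc⟩ := exists_fam hPF hMIN hCOMP hg hroot hcnt n m e
  obtain ⟨C1, hC1, k1⟩ := cL_triv hPF hCOMP n e
  obtain ⟨C2, hC2, k2⟩ := height_lower hPF hMIN2 n m hm
  obtain ⟨c, hc⟩ : ∃ c : ℝ, c = (Module.finrank ℚ K : ℝ) * Real.log 2 := ⟨_, rfl⟩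
  have hc0 : 0 ≤ c := by rw [hc]; positivity
  have hD2 := D.hC2
  have hm0 : (0 : ℝ) ≤ m := Nat.cast_nonneg m
  have hq0 : (0 : ℝ) ≤ q := Nat.cast_nonneg q
  have he0 : (0 : ℝ) ≤ e := Nat.cast_nonneg e
  obtain ⟨C, hC⟩ : ∃ C : ℝ, C = m * (1 + e + C1) + q * (2 * m + C2) + m * q * (3 * D.C2 + c) +
    3 * m * D.C2 := ⟨_, rfl⟩
  have hC0 : 0 ≤ C := by rw [hC]; positivity
  refine ⟨C, hC0, fun B hB S f F hA t hx hFx => ?_⟩
  have hh : 0 ≤ Height.logHeight (co m f t) := Height.logHeight_nonneg _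
  cases t with
  | none =>
    have h1 := k1 F hA.hom (co m f none) hx hFx (S : Set (Pr K))
    have h2 : Height.logHeight (co m f none) ≤ B := (co_none_height f).trans hA.hf
    have h3 : cL (S : Set (Pr K)) (fun v => lamF F e v (co m f none)) ≤ (1 + e + C1) * (B + 1) := by
      have e1 : (e : ℝ) * Height.logHeight (co m f none) ≤ e * B :=
        mul_le_mul_of_nonneg_left h2 he0
      have e2 : (1 + e + C1) * (B + 1) = B + e * B + C1 * B + 1 + e + C1 := by ring
      have e3 : 0 ≤ C1 * B := mul_nonneg hC1 hB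
      rw [e2]
      linarith [hA.hF]
    have h4 := mul_le_mul_of_nonneg_left h3 hm0
    have h5 : (m : ℝ) * ((1 + e + C1) * (B + 1)) ≤ C * (B + 1) := by
      rw [← mul_assoc]
      refine mul_le_mul_of_nonneg_right ?_ (by linarith)
      rw [hC]
      have e1 : 0 ≤ q * (2 * m + C2) + m * q * (3 * D.C2 + c) + 3 * m * D.C2 := by positivity
      linarith
    have h6 := mul_nonneg hq0 hh
    linarith
  | some t =>
    have hG : (res f F).eval t ≠ 0 := by
      rw [eval_res]
      exact hFx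
    obtain ⟨-, h1⟩ := hDc hA.j t hG
    have h1' : cL (S : Set (Pr K)) (fun v => lamF F e v (co m f (some t))) ≤
      cnt (D.T hA.j : Set (Pr K)) (D.α hA.j) ![t, 1] + D.C2 * (D.H hA.j + 1) := h1
    have hqj : D.q hA.j = q := (hDq hA.j).trans hA.card
    have hqj' : ((D.q hA.j : ℕ) : ℝ) = q := by rw [hqj]
    have hszj : D.H hA.j ≤ 3 * B := by
      have : D.H hA.j = sz m S f F := hDH hA.j
      rw [this]
      exact hA.sz_le
    have hb : D.C2 * (D.H hA.j + 1) ≤ 3 * D.C2 * (B + 1) := by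
      have := mul_le_mul_of_nonneg_left hszj hD2
      nlinarith
    have h2 := cnt_le_height (D.T hA.j : Set (Pr K)) ((hDform hA.j t).2 hG) (t1_ne t)
      (M := 3 * D.C2 * (B + 1)) (fun i => (D.hα hA.j i).trans hb)
    rw [hqj', ← hc] at h2
    have h3 : (m : ℝ) * Height.logHeight ![t, 1] ≤ Height.logHeight (co m f (some t)) +
      2 * m * Height.logHeight (cf f m) + C2 := k2 f hA.crv t
    have h4 : cL (S : Set (Pr K)) (fun v => lamF F e v (co m f (some t))) ≤
        q * Height.logHeight ![t, 1] + q * (3 * D.C2 * (B + 1) + c) + 3 * D.C2 * (B + 1) := by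
      have : (q : ℝ) * (Height.logHeight ![t, 1] + 3 * D.C2 * (B + 1) + c) =
        q * Height.logHeight ![t, 1] + q * (3 * D.C2 * (B + 1) + c) := by ring
      linarith
    have h5 := mul_le_mul_of_nonneg_left h4 hm0
    have h6 : (m : ℝ) * (q * Height.logHeight ![t, 1]) ≤
        q * (Height.logHeight (co m f (some t)) + 2 * m * B + C2) := by
      have e1 : (m : ℝ) * (q * Height.logHeight ![t, 1]) =
        q * (m * Height.logHeight ![t, 1]) := by ring
      rw [e1]
      refine mul_le_mul_of_nonneg_left (h3.trans ?_) hq0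
      have := mul_le_mul_of_nonneg_left hA.hf (by positivity : (0 : ℝ) ≤ 2 * m)
      linarith
    have h7 : (m : ℝ) * (q * Height.logHeight ![t, 1] + q * (3 * D.C2 * (B + 1) + c) +
        3 * D.C2 * (B + 1)) = m * (q * Height.logHeight ![t, 1]) +
        (m * q * (3 * D.C2 * (B + 1) + c) + 3 * m * D.C2 * (B + 1)) := by ring
    rw [h7] at h5
    have h8 : q * (2 * m * B + C2) + (m * q * (3 * D.C2 * (B + 1) + c) + 3 * m * D.C2 * (B + 1)) ≤
        C * (B + 1) := by
      have e1 : C * (B + 1) = m * (1 + e + C1) * (B + 1) + q * (2 * m * (B + 1) + C2 * (B + 1)) +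
        (m * q * (3 * D.C2 * (B + 1) + c * (B + 1)) + 3 * m * D.C2 * (B + 1)) := by
        rw [hC]
        ring
      have e2 : 0 ≤ m * (1 + e + C1) * (B + 1) := by positivity
      have e3 : q * (2 * m * B + C2) ≤ q * (2 * m * (B + 1) + C2 * (B + 1)) := by
        refine mul_le_mul_of_nonneg_left ?_ hq0
        have : 0 ≤ C2 * B := mul_nonneg hC2 hB
        nlinarith
      have e4 : m * q * (3 * D.C2 * (B + 1) + c) ≤ m * q * (3 * D.C2 * (B + 1) + c * (B + 1)) := by
        refine mul_le_mul_of_nonneg_left ?_ (by positivity)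
        have : 0 ≤ c * B := mul_nonneg hc0 hB
        nlinarith
      rw [e1]
      linarith
    have h9 : (q : ℝ) * (Height.logHeight (co m f (some t)) + 2 * m * B + C2) =
      q * Height.logHeight (co m f (some t)) + q * (2 * m * B + C2) := by ring
    linarith

end Pool.Agent.Y557.U
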