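import Pool.Agent.Y557.NF.SimD

/-!
Statements for the project on all rational curves of small height at once (helper557).
-/

set_option autoImplicit false

namespace Pool.Agent.Y557.U

open NumberField IsDedekindDomain Finset Polynomial
open Pool.Agent.H691R3 Pool.Agent.TH876.Loc
open Pool.Agent.TH876.KR (form localHeight)

variable {K : Type} [Field K] [NumberField K]

/-- the maximum of the `v`-adic absolute values of the coordinates -/
noncomputable def sn (v : Pr K) {ι : Type} [Fintype ι] (c : ι → K) : ℝ := ⨆ i, fv v (c i)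

/-- the maximum of the absolute values of the coordinates at an infinite place -/
noncomputable def sw (w : InfinitePlace K) {ι : Type} [Fintype ι] (c : ι → K) : ℝ := ⨆ i, w (c i)

/-- the coefficients of the polynomials `f 0, ..., f (n-1)` of degree at most `m` -/
def cf {n : ℕ} (f : Fin n → K[X]) (m : ℕ) : Fin n × Fin (m + 1) → K := fun p => (f p.1).coeff p.2

/-- the coefficients of `F` -/
def cF {n : ℕ} (F : MvPolynomial (Fin n) K) : F.support → K := fun s => F.coeff s

/-- the product formula as an inequality -/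
def S_PF (K : Type) [Field K] [NumberField K] : Prop :=
  ∀ (ι ι' ι'' : Type) [Fintype ι] [Fintype ι'] [Fintype ι''] (y : ι → K) (c : ι' → K)
    (c' : ι'' → K) (z : K) (k k' : ℕ) (A : ℝ), y ≠ 0 → c ≠ 0 → c' ≠ 0 → z ≠ 0 → 1 ≤ A →
    (∀ v : Pr K, fv v z * sn v y ≤ sn v c ^ k * sn v c' ^ k') →
    (∀ w : InfinitePlace K, w z * sw w y ≤ A * (sw w c ^ k * sw w c' ^ k')) →
    ∀ V : Finset (Pr K),
      ∑ v ∈ V, (k * Real.log (sn v c) + k' * Real.log (sn v c') - Real.log (fv v z) -
        Real.log (sn v y)) + Height.logHeight y ≤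
      k * Height.logHeight c + k' * Height.logHeight c' + (Module.finrank ℚ K : ℝ) * Real.log A

/-- a minor of the matrix of a parametrisation -/
def S_MIN (K : Type) [Field K] [NumberField K] : Prop :=
  ∀ (n m : ℕ) (f : Fin n → K[X]), 1 ≤ m → (∀ i, (f i).natDegree ≤ m) →
    (∃ i, (f i).natDegree = m) → (∃ u : Fin n → K[X], ∑ i, u i * f i = 1) →
    ∃ Δ : K, Δ ≠ 0 ∧ (∀ v : Pr K, fv v Δ ≤ sn v (cf f m) ^ (2 * m)) ∧
      (∀ w : InfinitePlace K, w Δ ≤ (Nat.factorial (2 * m) : ℝ) * sw w (cf f m) ^ (2 * m)) ∧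
      ∀ v : Pr K, fv v Δ = sn v (cf f m) ^ (2 * m) → ∀ t : K,
        (⨆ i, fv v ((f i).eval t)) = sn v (cf f m) * max (fv v t) 1 ^ m

/-- the coefficients of the restriction of a form to a curve -/
def S_COMP (K : Type) [Field K] [NumberField K] : Prop :=
  ∀ n m e : ℕ, ∃ A : ℝ, 1 ≤ A ∧ ∀ (f : Fin n → K[X]) (F : MvPolynomial (Fin n) K),
    (∀ i, (f i).natDegree ≤ m) → F.IsHomogeneous e →
    (∀ (v : Pr K) (k : ℕ), fv v ((MvPolynomial.aeval f F).coeff k) ≤
      sn v (cF F) * sn v (cf f m) ^ e) ∧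
    ∀ (w : InfinitePlace K) (k : ℕ), w ((MvPolynomial.aeval f F).coeff k) ≤
      A * (sw w (cF F) * sw w (cf f m) ^ e)

/-- the lemma of Gauss for a polynomial all of whose zeros are in `K`, as a form of degree `N` -/
def S_GAUSS (K : Type) [Field K] [NumberField K] : Prop :=
  ∀ (G : K[X]) (N : ℕ), G ≠ 0 → G.Splits → G.natDegree ≤ N → ∀ (v : Pr K) (t : K),
    G.eval t ≠ 0 →
    Real.log ((⨆ k : Fin (N + 1), fv v (G.coeff k)) * max (fv v t) 1 ^ N / fv v (G.eval t)) =
      (G.roots.map fun r => localHeight v ![r, 1] ![t, 1]).sum +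
        ((N - G.natDegree : ℕ) : ℝ) * localHeight v ![1, 0] ![t, 1]

/-- the number of points of bounded height of a projective space -/
def S_CNT (K : Type) [Field K] [NumberField K] : Prop :=
  ∀ (ι : Type) [Fintype ι], ∃ C a : ℝ, 0 < C ∧ 0 < a ∧ ∀ B : ℝ, 0 ≤ B →
    {P : Projectivization K (ι → K) | ∃ (y : ι → K) (hy : y ≠ 0),
      P = Projectivization.mk K y hy ∧ Height.logHeight y ≤ B}.Finite ∧
    ({P : Projectivization K (ι → K) | ∃ (y : ι → K) (hy : y ≠ 0),
      P = Projectivization.mk K y hy ∧ Height.logHeight y ≤ B}.ncard : ℝ) ≤ C * Real.exp (a * B)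

/-- the height of a zero in terms of the height of the coefficients -/
def S_ROOT (K : Type) [Field K] [NumberField K] : Prop :=
  ∀ N : ℕ, ∃ C : ℝ, ∀ (G : K[X]) (r : K), G ≠ 0 → G.natDegree ≤ N → G.eval r = 0 →
    Height.logHeight ![r, 1] ≤ Height.logHeight (fun k : Fin (N + 1) => G.coeff k) + C

end Pool.Agent.Y557.U
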