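import Pool.Agent.Y557.NF.Curve
import Pool.Agent.W515.SLP.Wron

/-!
Statements on linear relations between polynomials (helper557).
-/

set_option autoImplicit false

namespace Pool.Agent.Y557.U

open Polynomial
open Pool.Agent.Y557.NF (rts nz)

/-- pairwise coprime polynomials with sum zero -/
def S_WR (K : Type) [Field K] [CharZero K] : Prop :=
  ∀ (n : ℕ) (P : Fin n → K[X]) (D : ℕ), (∀ i, P i ≠ 0) → (∀ i, (P i).Splits) →
    (∀ i j, i ≠ j → IsCoprime (P i) (P j)) → ∑ i, P i = 0 → (∃ i, (P i).natDegree = D) → 1 ≤ D →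
    3 ≤ n ∧ D + 1 ≤ (n - 2) * (rts P).card

/-- polynomials without a common zero and with sum zero, between which there is no other linear
relation; `q` is the number of the points of the projective line where one of them vanishes -/
def S_BM (K : Type) [Field K] [CharZero K] : Prop :=
  ∀ (n : ℕ) (P : Fin (n + 1) → K[X]) (D : ℕ), (∀ i, P i ≠ 0) → (∀ i, (P i).Splits) →
    (∀ r : K, ∃ i, (P i).eval r ≠ 0) → ∑ i, P i = 0 →
    (LinearIndependent K fun i : Fin n => P i.castSucc) →
    (∀ i, (P i).natDegree ≤ D) → (∃ i, (P i).natDegree = D) → 1 ≤ D →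
    2 * D + 2 * (n * (n - 1)) ≤ n * (n - 1) * nz P

end Pool.Agent.Y557.U
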