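import Pool.Agent.Y557.U.Stm5

/-!
The n-term theorem of Mason and Stothers for tuples without vanishing subsums: statement
(helper557).
-/

set_option autoImplicit false

namespace Pool.Agent.Y557.U

open Polynomial
open Pool.Agent.Y557.NF (rts nz)

/-- polynomials without a common zero, with sum zero and without vanishing subsums -/
def S_BMG (K : Type) [Field K] [CharZero K] : Prop :=
  ∀ (n : ℕ) (P : Fin n → K[X]) (D : ℕ), (∀ i, P i ≠ 0) → (∀ i, (P i).Splits) →
    (∀ r : K, ∃ i, (P i).eval r ≠ 0) → ∑ i, P i = 0 →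
    (∀ s : Finset (Fin n), s.Nonempty → s ≠ Finset.univ → ∑ i ∈ s, P i ≠ 0) →
    (∀ i, (P i).natDegree ≤ D) → (∃ i, (P i).natDegree = D) → 1 ≤ D →
    2 * D + 2 * ((n - 1) * (n - 2) * max 1 (n - 3)) ≤ (n - 1) * (n - 2) * max 1 (n - 3) * nz P

end Pool.Agent.Y557.U
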