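import Pool.Agent.Y557.U.Stm
import Pool.Agent.Y557.NF.HypMain

/-!
Finite sets of primes, and the comparison of two counting functions outside such a set (helper557).
-/

set_option autoImplicit false

namespace Pool.Agent.Y557.U

open NumberField IsDedekindDomain Finset Polynomial
open Pool.Agent.H691R3 Pool.Agent.TH876.Loc
open Pool.Agent.TH876.KR (form localHeight localHeight_nonneg localHeight_eq localHeight_pos_iff
  log_Nv_pos' m2 fv_sub_le)
open Pool.Agent.Y730.QP (cnt PQ counting_le supp_finite term_nonneg log_Nv_le_localHeight)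
open Pool.Agent.Y557.NF

variable {K : Type} [Field K] [NumberField K]

/-- the primes where a nonnegative function of bounded sum is positive -/
theorem fin_of_sum_le (Φ : Pr K → ℝ) (B : ℝ) (h1 : ∀ v, 0 < Φ v → Real.log (Nv v) ≤ Φ v)
    (h2 : ∀ V : Finset (Pr K), ∑ v ∈ V, Φ v ≤ B) :
    ∃ T : Finset (Pr K), (∀ v, v ∈ T ↔ 0 < Φ v) ∧ ∑ v ∈ T, Real.log (Nv v) ≤ B := by
  classical
  have hl2 : 0 < Real.log 2 := Real.log_pos (by norm_num)
  have hlog : ∀ v : Pr K, Real.log 2 ≤ Real.log (Nv v) := fun v =>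
    Real.log_le_log (by norm_num) (two_le_Nv v)
  have hfin : {v : Pr K | 0 < Φ v}.Finite := by
    by_contra hinf
    obtain ⟨V, hV, hVc⟩ := (Set.not_finite.1 hinf).exists_subset_card_eq (⌈B / Real.log 2⌉₊ + 1)
    have h3 := h2 V
    have h4 : (V.card : ℝ) * Real.log 2 ≤ ∑ v ∈ V, Φ v := by
      rw [← nsmul_eq_mul]
      refine Finset.card_nsmul_le_sum _ _ _ fun v hv => ?_
      exact (hlog v).trans (h1 v (hV hv))
    rw [hVc] at h4
    push_cast at h4
    have h5 : B / Real.log 2 ≤ ⌈B / Real.log 2⌉₊ := Nat.le_ceil _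
    rw [div_le_iff₀ hl2] at h5
    linarith
  refine ⟨hfin.toFinset, fun v => by rw [Set.Finite.mem_toFinset]; rfl, ?_⟩
  refine le_trans ?_ (h2 hfin.toFinset)
  refine Finset.sum_le_sum fun v hv => h1 v ?_
  rw [Set.Finite.mem_toFinset] at hv
  exact hv

theorem sn_nonneg (v : Pr K) {ι : Type} [Fintype ι] (c : ι → K) : 0 ≤ sn v c :=
  Real.iSup_nonneg fun _ => (fv v).nonneg _

theorem le_sn (v : Pr K) {ι : Type} [Fintype ι] (c : ι → K) (i : ι) : fv v (c i) ≤ sn v c :=
  le_ciSup (f := fun i => fv v (c i)) (Set.finite_range _).bddAbove i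

theorem sn_attained (v : Pr K) {ι : Type} [Fintype ι] [Nonempty ι] (c : ι → K) :
    ∃ i, sn v c = fv v (c i) := by
  obtain ⟨i, hi⟩ := exists_eq_ciSup_of_finite (f := fun i => fv v (c i))
  exact ⟨i, hi.symm⟩

theorem sn_pos (v : Pr K) {ι : Type} [Fintype ι] {c : ι → K} (hc : c ≠ 0) : 0 < sn v c := by
  obtain ⟨i, hi⟩ := Function.ne_iff.1 hc
  exact lt_of_lt_of_le ((fv v).pos hi) (le_sn v c i)

/-- the maximum is an integral power of the norm -/
theorem log_sn (v : Pr K) {ι : Type} [Fintype ι] {c : ι → K} (hc : c ≠ 0) :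
    ∃ j : ℤ, Real.log (sn v c) = j * Real.log (Nv v) := by
  obtain ⟨i0, hi0⟩ := Function.ne_iff.1 hc
  haveI : Nonempty ι := ⟨i0⟩
  obtain ⟨i, hi⟩ := sn_attained v c
  have h1 : c i ≠ 0 := by
    intro h
    have h2 := sn_pos v hc
    rw [hi, h, map_zero] at h2
    exact lt_irrefl _ h2
  rw [hi]
  exact log_fv v h1

/-- a positive integral multiple of `log N(v)` is at least `log N(v)` -/
theorem le_of_int_mul (v : Pr K) {x : ℝ} {j : ℤ} (hj : x = j * Real.log (Nv v)) (hx : 0 < x) :
    Real.log (Nv v) ≤ x := by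
  have hN := log_Nv_pos' v
  rw [hj] at hx ⊢
  have h1 : (0 : ℝ) < (j : ℝ) := by
    by_contra hcon
    push Not at hcon
    nlinarith
  have h2 : (0 : ℤ) < j := by exact_mod_cast h1
  have h3 : (1 : ℤ) ≤ j := h2
  have h4 : (1 : ℝ) ≤ (j : ℝ) := by exact_mod_cast h3
  nlinarith

/-- separation of two points -/
theorem sep_of {v : Pr K} {a b x : Fin 2 → K} (hab : form a b ≠ 0) (ha : form a x ≠ 0)
    (hb : form b x ≠ 0) (h1 : 0 < localHeight v a x) (h2 : 0 < localHeight v b x) :
    0 < localHeight v a b := by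
  rw [localHeight_pos_iff v hab]
  rw [localHeight_pos_iff v ha] at h1
  rw [localHeight_pos_iff v hb] at h2
  have key : ∀ k : Fin 2, fv v (form a b) * fv v (x k) <  m2 v a * m2 v b * m2 v x := by
    intro k
    have e : form a b * x k = form a x * b k - form b x * a k := by
      unfold form
      fin_cases k
      · show (a 0 * b 1 - a 1 * b 0) * x 0 = (a 0 * x 1 - a 1 * x 0) * b 0 -
          (b 0 * x 1 - b 1 * x 0) * a 0
        ring
      · show (a 0 * b 1 - a 1 * b 0) * x 1 = (a 0 * x 1 - a 1 * x 0) * b 1 -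
          (b 0 * x 1 - b 1 * x 0) * a 1
        ring
    have hle : ∀ (y : Fin 2 → K), fv v (y k) ≤ m2 v y := by
      intro y
      unfold m2
      fin_cases k
      · exact le_max_left _ _
      · exact le_max_right _ _
    have hnn : ∀ (y : Fin 2 → K), 0 ≤ m2 v y := fun y =>
      ((fv v).nonneg _).trans (hle y)
    have ha0 : 0 < m2 v a := by
      by_contra hcon
      have : m2 v a = 0 := le_antisymm (not_lt.1 hcon) (hnn a)
      rw [this, zero_mul] at h1
      exact absurd h1 (not_lt.2 ((fv v).nonneg _))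
    have hb0 : 0 < m2 v b := by
      by_contra hcon
      have : m2 v b = 0 := le_antisymm (not_lt.1 hcon) (hnn b)
      rw [this, zero_mul] at h2
      exact absurd h2 (not_lt.2 ((fv v).nonneg _))
    rw [← map_mul, e]
    refine lt_of_le_of_lt (fv_sub_le v _ _) (max_lt ?_ ?_)
    · rw [map_mul]
      calc fv v (form a x) * fv v (b k) ≤ fv v (form a x) * m2 v b :=
            mul_le_mul_of_nonneg_left (hle b) ((fv v).nonneg _)
        _ < m2 v a * m2 v x * m2 v b := mul_lt_mul_of_pos_right h1 hb0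
        _ = m2 v a * m2 v b * m2 v x := by ring
    · rw [map_mul]
      calc fv v (form b x) * fv v (a k) ≤ fv v (form b x) * m2 v a :=
            mul_le_mul_of_nonneg_left (hle a) ((fv v).nonneg _)
        _ < m2 v b * m2 v x * m2 v a := mul_lt_mul_of_pos_right h2 ha0
        _ = m2 v a * m2 v b * m2 v x := by ring
  have hx : ∃ k : Fin 2, m2 v x = fv v (x k) := by
    unfold m2
    rcases max_choice (fv v (x 0)) (fv v (x 1)) with h | h
    · exact ⟨0, h⟩
    · exact ⟨1, h⟩
  obtain ⟨k, hk⟩ := hx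
  have h3 := key k
  rw [← hk] at h3
  have h4 : 0 ≤ m2 v x := by rw [hk]; exact (fv v).nonneg _
  by_contra hcon
  push Not at hcon
  have h5 := mul_le_mul_of_nonneg_right hcon h4
  linarith

/-- comparison of a counting function with the one for a set of points of the line -/
theorem cnt_bounds (T : Finset (Pr K)) {q : ℕ} {α : Fin q → Fin 2 → K} {x : Fin 2 → K}
    (hx0 : x ≠ 0) (hα : ∀ i, α i ≠ 0) (hx : ∀ i, form (α i) x ≠ 0) (B : Set (Pr K))
    (hBT : ∀ v ∉ T, (v ∈ B ↔ ∃ i, 0 < localHeight v (α i) x))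
    (hsep : ∀ v ∉ T, ∀ i j, i ≠ j → 0 < localHeight v (α i) x → ¬ 0 < localHeight v (α j) x) :
    B.Finite ∧ cnt (T : Set (Pr K)) α x ≤ ∑ᶠ v ∈ B, Real.log (Ideal.absNorm v.asIdeal : ℝ) ∧
      ∑ᶠ v ∈ B, Real.log (Ideal.absNorm v.asIdeal : ℝ) ≤
        cnt (T : Set (Pr K)) α x + ∑ v ∈ T, Real.log (Nv v) := by
  classical
  have hfin := supp_finite hα hx0 hx
  obtain ⟨V, hV⟩ : ∃ V : Finset (Pr K), V = T ∪ hfin.toFinset := ⟨_, rfl⟩
  have hTV : T ⊆ V := by rw [hV]; exact Finset.subset_union_left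
  have hmem : ∀ v, v ∉ V → ∀ i, localHeight v (α i) x = 0 := by
    intro v hv i
    by_contra hcon
    apply hv
    rw [hV, Finset.mem_union, Set.Finite.mem_toFinset]
    exact Or.inr ⟨i, hcon⟩
  have hBV : ∀ v ∈ B, v ∈ V := by
    intro v hv
    by_contra hcon
    have h1 : v ∉ T := fun h => hcon (hTV h)
    obtain ⟨i, hi⟩ := (hBT v h1).1 hv
    rw [hmem v hcon i] at hi
    exact lt_irrefl _ hi
  have hBfin : B.Finite := (Finset.finite_toSet V).subset hBV
  have e1 : ∑ᶠ v ∈ B, Real.log (Ideal.absNorm v.asIdeal : ℝ) =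
      ∑ v ∈ V, if v ∈ B then Real.log (Nv v) else 0 := by
    rw [finsum_eq_sum_of_support_subset (s := V)]
    · refine Finset.sum_congr rfl fun v _ => ?_
      rw [finsum_eq_if]
      rfl
    · intro v hv
      rw [Function.mem_support, finsum_eq_if] at hv
      by_contra hcon
      apply hv
      rw [if_neg fun h => hcon (hBV v h)]
  have e2 := cnt_eq_V (T : Set (Pr K)) V hmem
  have key : ∀ v ∉ T, ∑ i : Fin q, min (localHeight v (α i) x) (Real.log (Nv v)) =
      if v ∈ B then Real.log (Nv v) else 0 := by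
    intro v hv
    split_ifs with hB
    · obtain ⟨i, hi⟩ := (hBT v hv).1 hB
      rw [Finset.sum_eq_single i]
      · exact min_eq_right (log_Nv_le_localHeight v (hx i) hi)
      · intro j _ hj
        have h1 : localHeight v (α j) x = 0 :=
          le_antisymm (not_lt.1 (hsep v hv i j (Ne.symm hj) hi)) (localHeight_nonneg v (hx j))
        rw [h1]
        exact min_eq_left (log_Nv_pos' v).le
      · intro h
        exact absurd (Finset.mem_univ i) h
    · refine Finset.sum_eq_zero fun j _ => ?_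
      have h1 : localHeight v (α j) x = 0 := by
        refine le_antisymm (not_lt.1 fun h => hB ((hBT v hv).2 ⟨j, h⟩)) (localHeight_nonneg v (hx j))
      rw [h1]
      exact min_eq_left (log_Nv_pos' v).le
  refine ⟨hBfin, ?_, ?_⟩
  · rw [e1, e2]
    refine Finset.sum_le_sum fun v _ => ?_
    by_cases hv : v ∈ T
    · rw [if_neg (not_not.2 (Finset.mem_coe.2 hv))]
      split_ifs
      · exact (log_Nv_pos' v).le
      · exact le_rfl
    · rw [if_pos (fun h => hv (Finset.mem_coe.1 h)), key v hv]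
  · rw [e1, e2]
    have e3 : ∑ v ∈ T, Real.log (Nv v) = ∑ v ∈ V, if v ∈ T then Real.log (Nv v) else 0 := by
      rw [← Finset.sum_filter, Finset.filter_mem_eq_inter, Finset.inter_eq_right.2 hTV]
    rw [e3, ← Finset.sum_add_distrib]
    refine Finset.sum_le_sum fun v _ => ?_
    by_cases hv : v ∈ T
    · rw [if_neg (not_not.2 (Finset.mem_coe.2 hv)), if_pos hv, zero_add]
      split_ifs
      · exact le_rfl
      · exact (log_Nv_pos' v).le
    · rw [if_pos (fun h => hv (Finset.mem_coe.1 h)), key v hv, if_neg hv, add_zero]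

end Pool.Agent.Y557.U
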