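import Pool.Agent.Y557.U.Tup0

/-!
Integral tuples on all rational curves of small height (helper557).
-/

set_option autoImplicit false

namespace Pool.Agent.Y557.U

open NumberField IsDedekindDomain Finset Polynomial
open Pool.Agent.H691R3 Pool.Agent.TH876.Loc
open Pool.Agent.Y557.NF (Prim rz rz_pos mz exists_prim res zs card_zs)
open Pool.Agent.TH876.TM (Tuples_prim)

variable {n : ℕ}

/-- rational coefficients -/
noncomputable def mq (P : Fin n → ℤ[X]) : Fin n → ℚ[X] := fun i => (P i).map (Int.castRingHom ℚ)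

open Classical in
/-- the number of the points of the projective line over the coordinate hyperplanes -/
noncomputable def zr (D : ℕ) (P : Fin n → ℤ[X]) : ℕ :=
  (∏ i, mq P i).roots.toFinset.card + if ∃ i, (P i).natDegree < D then 1 else 0

/-- a curve given by integral polynomials with coefficients at most `H` -/
structure Cv (n D q : ℕ) (H : ℝ) (P : Fin n → ℤ[X]) : Prop where
  ne : ∀ i, P i ≠ 0
  spl : ∀ i, (mq P i).Splits
  cop : ∃ u : Fin n → ℚ[X], ∑ i, u i * mq P i = 1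
  deg : ∀ i, (P i).natDegree ≤ D
  deg' : ∃ i, (P i).natDegree = D
  card : zr D P = q
  small : ∀ i k, |((P i).coeff k : ℝ)| ≤ H

/-- the tuples of nonzero integers with greatest common divisor one on the curve -/
def OnC (D : ℕ) (P : Fin n → ℤ[X]) : Set (Fin n → ℤ) :=
  {z | (∀ i, z i ≠ 0) ∧ Prim z ∧ ∃ (t : Option ℚ) (r : ℚ), ∀ i, (z i : ℚ) = r * co D (mq P) t i}

/-- those with radical at most `X` -/
def Tu (D : ℕ) (P : Fin n → ℤ[X]) (X : ℝ) : Set (Fin n → ℤ) := {z | z ∈ OnC D P ∧ rz z ≤ X}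

/-- the tuples on all curves -/
def ATu (n D q : ℕ) (η X : ℝ) : Set (Fin n → ℤ) :=
  {z | ∃ P : Fin n → ℤ[X], Cv n D q (X ^ η) P ∧ z ∈ Tu D P X}

/-- the exceptional tuples on all curves -/
def ETu (n D q : ℕ) (η M c X : ℝ) : Set (Fin n → ℤ) :=
  {z | ∃ P : Fin n → ℤ[X], Cv n D q (X ^ η) P ∧ z ∈ Tu D P X ∧ ∃ i, c * rz z ^ M < |(z i : ℝ)|}

theorem mq_degree (P : Fin n → ℤ[X]) (i : Fin n) : (mq P i).natDegree = (P i).natDegree :=
  natDegree_map_eq_of_injective (Int.castRingHom ℚ).injective_int _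

theorem mq_coeff (P : Fin n → ℤ[X]) (i : Fin n) (k : ℕ) :
    (mq P i).coeff k = ((P i).coeff k : ℚ) := by
  unfold mq
  rw [coeff_map]
  rfl

theorem mq_ne {P : Fin n → ℤ[X]} (h : ∀ i, P i ≠ 0) (i : Fin n) : mq P i ≠ 0 :=
  (Polynomial.map_ne_zero_iff (Int.castRingHom ℚ).injective_int).2 (h i)

theorem Cv.pos {D q : ℕ} {H : ℝ} {P : Fin n → ℤ[X]} (h : Cv n D q H P) : 0 < n := by
  obtain ⟨i, -⟩ := h.deg'
  exact lt_of_le_of_lt (Nat.zero_le _) i.2

theorem Cv.one_le {D q : ℕ} {H : ℝ} {P : Fin n → ℤ[X]} (h : Cv n D q H P) : 1 ≤ H := by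
  have hn := h.pos
  have h1 : (P ⟨0, hn⟩).leadingCoeff ≠ 0 := leadingCoeff_ne_zero.2 (h.ne _)
  have h2 := Int.one_le_abs h1
  have h3 : ((1 : ℤ) : ℝ) ≤ ((|(P ⟨0, hn⟩).leadingCoeff| : ℤ) : ℝ) := by exact_mod_cast h2
  push_cast at h3
  exact h3.trans (h.small _ _)

theorem Cv.adm {D q : ℕ} {H : ℝ} {P : Fin n → ℤ[X]} (h : Cv n D q H P) :
    Adm D n q (Real.log H) (∅ : Finset (Pr ℚ)) (mq P) (XF n) := by
  classical
  have hH := h.one_le
  have hlog : 0 ≤ Real.log H := Real.log_nonneg hH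
  have hres : res (mq P) (XF n) = ∏ i, mq P i := XF_res _
  have hne : ∏ i, mq P i ≠ 0 := Finset.prod_ne_zero_iff.2 fun i _ => mq_ne h.ne i
  refine ⟨⟨fun i => ?_, ?_, h.cop⟩, XF_hom, ?_, ?_, ?_, ?_, ?_, ?_⟩
  · rw [mq_degree]
    exact h.deg i
  · obtain ⟨i, hi⟩ := h.deg'
    exact ⟨i, by rw [mq_degree]; exact hi⟩
  · rw [hres]
    exact hne
  · rw [hres]
    exact Polynomial.Splits.prod fun i _ => h.spl i
  · rw [card_zs, hres, ← h.card]
    unfold zr
    have e1 : (∏ i, mq P i).natDegree < D * n ↔ ∃ i, (P i).natDegree < D := by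
      rw [natDegree_prod _ _ fun i _ => mq_ne h.ne i]
      simp only [mq_degree]
      have e2 : D * n = ∑ _i : Fin n, D := by
        rw [Finset.sum_const, Finset.card_univ, Fintype.card_fin, smul_eq_mul, mul_comm]
      rw [e2]
      constructor
      · intro h1
        by_contra hcon
        push Not at hcon
        exact absurd (Finset.sum_le_sum fun i _ => hcon i) (not_le.2 h1)
      · rintro ⟨i, hi⟩
        exact Finset.sum_lt_sum (fun i _ => h.deg i) ⟨i, Finset.mem_univ _, hi⟩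
    have e3 : (if (∏ i, mq P i).natDegree < D * n then 1 else 0) =
        if ∃ i, (P i).natDegree < D then 1 else 0 := by
      by_cases h1 : ∃ i, (P i).natDegree < D
      · rw [if_pos h1, if_pos (e1.2 h1)]
      · rw [if_neg h1, if_neg fun h2 => h1 (e1.1 h2)]
    refine congrArg₂ (· + ·) (congrArg Finset.card (Finset.ext fun r => ?_)) e3
    exact (@Multiset.mem_toFinset _ (_) _ _).trans (@Multiset.mem_toFinset _ (_) _ _).symm
  · rw [Finset.sum_empty]
    exact hlog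
  · have e1 : cf (mq P) D = fun p : Fin n × Fin (D + 1) => ((((P p.1).coeff p.2 : ℤ)) : ℚ) := by
      funext p
      unfold cf
      rw [mq_coeff]
    rw [e1]
    refine int_height (fun p : Fin n × Fin (D + 1) => (P p.1).coeff p.2) (fun h0 => ?_)
      fun p => h.small p.1 p.2
    obtain ⟨i, hi⟩ := h.deg'
    have h2 := congrFun h0 (i, ⟨D, by omega⟩)
    refine h.ne i (leadingCoeff_eq_zero.1 ?_)
    unfold leadingCoeff
    rw [hi]
    exact h2
  · rw [XF_height]
    exact hlog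

theorem prim_ne {z : Fin n → ℤ} (h : Prim z) : (fun i => (z i : ℚ)) ≠ 0 := by
  intro h0
  have h1 : ∀ i, z i = 0 := fun i => by
    have h2 := congrFun h0 i
    rw [Pi.zero_apply] at h2
    exact_mod_cast h2
  have h2 := h 2 fun i => by rw [h1 i]; exact dvd_zero 2
  rw [Int.isUnit_iff] at h2
  omega

/-- the point of a tuple -/
noncomputable def mkz (z : Fin n → ℤ) (h : Prim z) : Projectivization ℚ (Fin n → ℚ) :=
  Projectivization.mk ℚ (fun i => (z i : ℚ)) (prim_ne h)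

theorem rep_exists (Q : Projectivization ℚ (Fin n → ℚ)) :
    ∃ (z : Fin n → ℤ) (h : Prim z), mkz z h = Q := by
  induction Q using Projectivization.ind with
  | h x hx =>
    obtain ⟨z, r, hr, h1, h2⟩ := exists_prim x hx
    refine ⟨z, h2, ?_⟩
    unfold mkz
    rw [Projectivization.mk_eq_mk_iff']
    exact ⟨r, funext fun i => (h1 i).symm⟩

/-- a primitive tuple of a point -/
noncomputable def rp (Q : Projectivization ℚ (Fin n → ℚ)) : Fin n → ℤ := (rep_exists Q).choose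

theorem rp_spec (Q : Projectivization ℚ (Fin n → ℚ)) : ∃ h : Prim (rp Q), mkz (rp Q) h = Q :=
  (rep_exists Q).choose_spec

theorem rp_eq {z : Fin n → ℤ} (h : Prim z) : z = rp (mkz z h) ∨ z = -rp (mkz z h) := by
  obtain ⟨h1, h2⟩ := rp_spec (mkz z h)
  have h3 := h2
  unfold mkz at h3
  rw [Projectivization.mk_eq_mk_iff'] at h3
  obtain ⟨a, ha⟩ := h3
  have ha0 : a ≠ 0 := by
    rintro rfl
    rw [zero_smul] at ha
    exact prim_ne h1 ha.symm
  refine Tuples_prim h h1 (q := a⁻¹) fun i => ?_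
  have h4 := congrFun ha i
  rw [Pi.smul_apply, smul_eq_mul] at h4
  change a * (z i : ℚ) = ((rp (mkz z h)) i : ℚ) at h4
  rw [← h4, inv_mul_cancel_left₀ ha0]

theorem neg_ncard (s : Set (Fin n → ℤ)) : (Neg.neg '' s).ncard = s.ncard :=
  Set.ncard_image_of_injective s neg_injective

/-- upper bound for the number of tuples -/
theorem tuples_le {Z : Set (Fin n → ℤ)} {Q : Set (Projectivization ℚ (Fin n → ℚ))}
    (h : ∀ z ∈ Z, ∃ hz : Prim z, mkz z hz ∈ Q) (hQ : Q.Finite) :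
    Z.Finite ∧ Z.ncard ≤ 2 * Q.ncard := by
  have hsub : Z ⊆ rp '' Q ∪ Neg.neg '' (rp '' Q) := by
    intro z hz
    obtain ⟨hp, hq⟩ := h z hz
    rcases rp_eq hp with h1 | h1
    · exact Or.inl ⟨_, hq, h1.symm⟩
    · exact Or.inr ⟨_, ⟨_, hq, rfl⟩, h1.symm⟩
  have hfin : (rp '' Q ∪ Neg.neg '' (rp '' Q)).Finite := (hQ.image _).union ((hQ.image _).image _)
  refine ⟨hfin.subset hsub, ?_⟩
  have h1 := Set.ncard_le_ncard hsub hfin
  have h2 := Set.ncard_union_le (rp '' Q) (Neg.neg '' (rp '' Q))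
  rw [neg_ncard] at h2
  have h3 := Set.ncard_image_le (f := rp) hQ
  omega

/-- lower bound for the number of tuples -/
theorem le_tuples {Z : Set (Fin n → ℤ)} {Q : Set (Projectivization ℚ (Fin n → ℚ))}
    (h : ∀ (z : Fin n → ℤ) (hz : Prim z), mkz z hz ∈ Q → z ∈ Z) (hZ : Z.Finite) :
    2 * Q.ncard ≤ Z.ncard := by
  have hinj : Set.InjOn (rp (n := n)) Q := by
    intro a _ b _ hab
    obtain ⟨h1, h2⟩ := rp_spec a
    obtain ⟨h3, h4⟩ := rp_spec b
    rw [← h2, ← h4]
    unfold mkz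
    congr 1
    funext i
    rw [hab]
  have hneg : ∀ (z : Fin n → ℤ) (hz : Prim z), ∃ hz' : Prim (-z), mkz (-z) hz' = mkz z hz := by
    intro z hz
    have hz' : Prim (-z) := fun d hd => hz d fun i => (dvd_neg.1 (hd i))
    refine ⟨hz', ?_⟩
    unfold mkz
    rw [Projectivization.mk_eq_mk_iff']
    refine ⟨-1, funext fun i => ?_⟩
    rw [Pi.smul_apply, smul_eq_mul, Pi.neg_apply]
    push_cast
    ring
  have hsub : rp '' Q ∪ Neg.neg '' (rp '' Q) ⊆ Z := by
    rintro z (⟨a, ha, rfl⟩ | ⟨_, ⟨a, ha, rfl⟩, rfl⟩)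
    · obtain ⟨h1, h2⟩ := rp_spec a
      exact h _ h1 (by rw [h2]; exact ha)
    · obtain ⟨h1, h2⟩ := rp_spec a
      obtain ⟨h3, h4⟩ := hneg _ h1
      exact h _ h3 (by rw [h4, h2]; exact ha)
  have hdisj : Disjoint (rp '' Q) (Neg.neg '' (rp '' Q)) := by
    rw [Set.disjoint_left]
    rintro z ⟨a, ha, rfl⟩ ⟨_, ⟨b, hb, rfl⟩, hab⟩
    obtain ⟨h1, h2⟩ := rp_spec a
    obtain ⟨h3, h4⟩ := rp_spec b
    obtain ⟨h5, h6⟩ := hneg _ h3
    have e : a = b := by
      rw [← h2, ← h4, ← h6]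
      unfold mkz
      congr 1
      funext i
      rw [← hab]
    rw [e] at hab
    have h7 : ∀ i, rp b i = 0 := fun i => by
      have := congrFun hab i
      rw [Pi.neg_apply] at this
      omega
    exact prim_ne h3 (funext fun i => by rw [h7 i]; rfl)
  have hfin1 : (rp '' Q).Finite := hZ.subset (Set.subset_union_left.trans hsub)
  have h1 := Set.ncard_le_ncard hsub hZ
  rw [Set.ncard_union_eq hdisj hfin1 (hfin1.image _), neg_ncard,
    hinj.ncard_image] at h1
  omega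

end Pool.Agent.Y557.U
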