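import Pool.Agent.Y557.U.Main
import Pool.Agent.Y557.NF.TuplesQ

/-!
The product of the coordinates on rational curves over the rational numbers: radical and height of
integral tuples (helper557).
-/

set_option autoImplicit false

namespace Pool.Agent.Y557.U

open NumberField IsDedekindDomain Finset Polynomial
open Pool.Agent.H691R3 Pool.Agent.TH876.Loc
open Pool.Agent.TH876.TM (supp)
open Pool.Agent.Y557.NF (Prim rz rz_pos mz log_rz log_mz exists_prim rd res)
open Pool.Agent.Y728.AK (fv_lt_iff)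

variable {n : ℕ}

/-- the product of the coordinates -/
noncomputable def XF (n : ℕ) : MvPolynomial (Fin n) ℚ := ∏ i, MvPolynomial.X i

theorem XF_eval (x : Fin n → ℚ) : MvPolynomial.eval x (XF n) = ∏ i, x i := by
  unfold XF
  rw [map_prod]
  simp only [MvPolynomial.eval_X]

theorem XF_hom : (XF n).IsHomogeneous n := by
  have h := MvPolynomial.IsHomogeneous.prod (Finset.univ : Finset (Fin n))
    (fun i => (MvPolynomial.X i : MvPolynomial (Fin n) ℚ)) (fun _ => 1)
    (fun i _ => MvPolynomial.isHomogeneous_X ℚ i)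
  rw [Finset.sum_const, Finset.card_univ, Fintype.card_fin, smul_eq_mul, mul_one] at h
  exact h

theorem XF_mon : XF n = MvPolynomial.monomial (∑ i : Fin n, Finsupp.single i 1) 1 := by
  unfold XF
  rw [MvPolynomial.monomial_sum_one]
  rfl

theorem XF_supp (s : Fin n →₀ ℕ) (hs : s ∈ (XF n).support) :
    s = ∑ i : Fin n, Finsupp.single i 1 := by
  rw [XF_mon, MvPolynomial.mem_support_iff, MvPolynomial.coeff_monomial] at hs
  by_contra h
  rw [if_neg (fun h' => h h'.symm)] at hs
  exact hs rfl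

theorem XF_coeff (s : Fin n →₀ ℕ) (hs : s ∈ (XF n).support) : (XF n).coeff s = 1 := by
  rw [XF_supp s hs, XF_mon, MvPolynomial.coeff_monomial, if_pos rfl]

theorem XF_mem : (∑ i : Fin n, Finsupp.single i 1) ∈ (XF n).support := by
  rw [XF_mon, MvPolynomial.mem_support_iff, MvPolynomial.coeff_monomial, if_pos rfl]
  exact one_ne_zero

instance : Subsingleton (XF n).support := by
  refine ⟨fun a b => Subtype.ext ?_⟩
  rw [XF_supp a.1 a.2, XF_supp b.1 b.2]

theorem XF_height : Height.logHeight (cF (XF n)) = 0 :=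
  Height.logHeight_eq_zero_of_subsingleton _

theorem XF_sup (v : Pr ℚ) :
    (⨆ s : (XF n).support, FinitePlace.mk v ((XF n).coeff s)) = 1 := by
  have : Nonempty (XF n).support := ⟨⟨_, XF_mem⟩⟩
  have h : (fun s : (XF n).support => FinitePlace.mk v ((XF n).coeff s)) = fun _ => 1 := by
    funext s
    rw [XF_coeff _ s.2, map_one]
  rw [h]
  exact ciSup_const

theorem XF_res (f : Fin n → ℚ[X]) : res f (XF n) = ∏ i, f i := by
  unfold res XF
  rw [map_prod]
  simp only [MvPolynomial.aeval_X]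

theorem fv_pos' (v : Pr ℚ) {x : ℚ} (hx : x ≠ 0) : 0 < fv v x := (fv v).pos hx

/-- the primes where the local height of the product of the coordinates is positive -/
theorem lamF_pos_iff (hn : 0 < n) (v : Pr ℚ) (x : Fin n → ℚ) (hx : ∀ i, x i ≠ 0) :
    0 < lamF (XF n) n v x ↔ v ∈ supp x := by
  have hne : Nonempty (Fin n) := ⟨⟨0, hn⟩⟩
  unfold lamF
  rw [XF_sup, one_mul, XF_eval]
  have e0 : FinitePlace.mk v (∏ i, x i) = ∏ i, fv v (x i) := by
    rw [map_prod]
    rfl
  rw [e0]
  obtain ⟨M, hM⟩ : ∃ M : ℝ, M = ⨆ i, FinitePlace.mk v (x i) := ⟨_, rfl⟩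
  rw [← hM]
  have hle : ∀ i, fv v (x i) ≤ M := by
    intro i
    rw [hM]
    exact le_ciSup (f := fun i => FinitePlace.mk v (x i)) (Set.finite_range _).bddAbove i
  obtain ⟨i0, hi0⟩ : ∃ i, fv v (x i) = M := by
    obtain ⟨i, hi⟩ := exists_eq_ciSup_of_finite (f := fun i => FinitePlace.mk v (x i))
    exact ⟨i, by rw [hM]; exact hi⟩
  have hMpos : 0 < M := by rw [← hi0]; exact fv_pos' v (hx i0)
  have hprod : 0 < ∏ i, fv v (x i) := Finset.prod_pos fun i _ => fv_pos' v (hx i)
  have hMn : M ^ n = ∏ _i : Fin n, M := by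
    rw [Finset.prod_const, Finset.card_univ, Fintype.card_fin]
  have heq : ∀ i j, fv v (x i) = fv v (x j) ↔ v.valuation ℚ (x i) = v.valuation ℚ (x j) := by
    intro i j
    constructor
    · intro h
      refine le_antisymm ?_ ?_
      · rw [← not_lt, ← fv_lt_iff, h]
        exact lt_irrefl _
      · rw [← not_lt, ← fv_lt_iff, h]
        exact lt_irrefl _
    · intro h
      refine le_antisymm ?_ ?_
      · rw [← not_lt, fv_lt_iff, h]
        exact lt_irrefl _
      · rw [← not_lt, fv_lt_iff, h]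
        exact lt_irrefl _
  constructor
  · intro h
    by_contra hcon
    have hall : ∀ i j, fv v (x i) = fv v (x j) := by
      intro i j
      rw [heq]
      by_contra h'
      exact hcon ⟨i, j, h'⟩
    have h1 : ∏ i, fv v (x i) = M ^ n := by
      rw [hMn]
      refine Finset.prod_congr rfl fun i _ => ?_
      rw [hall i i0, hi0]
    rw [h1, div_self (pow_pos hMpos n).ne', Real.log_one] at h
    exact lt_irrefl _ h
  · rintro ⟨i, j, hij⟩
    refine Real.log_pos ?_
    rw [one_lt_div hprod, hMn]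
    have h1 : ∃ i1, fv v (x i1) < M := by
      by_contra hcon
      push Not at hcon
      refine hij ((heq i j).1 ?_)
      rw [le_antisymm (hle i) (hcon i), le_antisymm (hle j) (hcon j)]
    obtain ⟨i1, hi1⟩ := h1
    exact Finset.prod_lt_prod (fun i _ => fv_pos' v (hx i)) (fun i _ => hle i)
      ⟨i1, Finset.mem_univ _, hi1⟩

/-- the counting function is the logarithm of the radical -/
theorem cL_eq (hn : 0 < n) {x : Fin n → ℚ} {z : Fin n → ℤ} (hz : ∀ i, z i ≠ 0) (hp : Prim z)
    {r : ℚ} (hr : r ≠ 0) (hx : ∀ i, (z i : ℚ) = r * x i) :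
    cL ((∅ : Finset (Pr ℚ)) : Set (Pr ℚ)) (fun v => lamF (XF n) n v x) = Real.log (rz z) := by
  have hx0 : ∀ i, x i ≠ 0 := by
    intro i hi
    have := hx i
    rw [hi, mul_zero] at this
    exact hz i (by exact_mod_cast this)
  have h1 := log_rz (P := fun i => C (x i)) (t := 0) hz hp (fun i => by rw [eval_C]; exact hx i) hr
  rw [← h1]
  unfold cL rd
  have h2 : {v : Pr ℚ | v ∉ ((∅ : Finset (Pr ℚ)) : Set (Pr ℚ)) ∧ 0 < lamF (XF n) n v x} =
      supp fun i => (C (x i)).eval 0 := by
    ext v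
    simp only [eval_C, Set.mem_ofPred_eq, Finset.coe_empty, Set.mem_empty_iff_false,
      not_false_eq_true, true_and]
    exact lamF_pos_iff hn v x hx0
  rw [h2]

theorem height_eq' (hn : 0 < n) {x : Fin n → ℚ} {z : Fin n → ℤ} (hp : Prim z) {r : ℚ}
    (hr : r ≠ 0) (hx : ∀ i, (z i : ℚ) = r * x i) : Height.logHeight x = Real.log (mz z) := by
  have h1 := log_mz (P := fun i => C (x i)) (t := 0) hn hp (fun i => by rw [eval_C]; exact hx i) hr
  simp only [eval_C] at h1
  exact h1

/-- the height of an integral vector -/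
theorem int_height {ι : Type} [Fintype ι] (y : ι → ℤ) (hy : y ≠ 0) {H : ℝ}
    (h : ∀ i, |(y i : ℝ)| ≤ H) : Height.logHeight (fun i => (y i : ℚ)) ≤ Real.log H := by
  classical
  obtain ⟨i0, hi0⟩ : ∃ i, y i ≠ 0 := by
    by_contra hcon
    push Not at hcon
    exact hy (funext hcon)
  have hne : Nonempty ι := ⟨i0⟩
  obtain ⟨z, hz, hz1⟩ := Finset.extract_gcd y (s := univ) ⟨i0, Finset.mem_univ i0⟩
  obtain ⟨g, hg⟩ : ∃ g, g = univ.gcd y := ⟨_, rfl⟩
  rw [← hg] at hz
  have hg0 : g ≠ 0 := by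
    rintro rfl
    have h1 := hz i0 (Finset.mem_univ i0)
    rw [zero_mul] at h1
    exact hi0 h1
  have h3 : (fun i => (y i : ℚ)) = (g : ℚ) • (((↑) : ℤ → ℚ) ∘ z) := by
    funext i
    rw [Pi.smul_apply, smul_eq_mul, hz i (Finset.mem_univ i)]
    push_cast
    rfl
  have hgQ : (g : ℚ) ≠ 0 := by exact_mod_cast hg0
  have hz0 : z i0 ≠ 0 := by
    intro h'
    have h1 := hz i0 (Finset.mem_univ i0)
    rw [h', mul_zero] at h1
    exact hi0 h1
  rw [h3, Height.logHeight_smul_eq_logHeight _ hgQ, Rat.logHeight_eq_max_abs_of_gcd_eq_one hz1]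
  obtain ⟨i1, hi1⟩ := exists_eq_ciSup_of_finite (f := fun i => |z i|)
  have h4 : |z i0| ≤ ⨆ i, |z i| :=
    le_ciSup (f := fun i => |z i|) (Set.finite_range _).bddAbove i0
  refine Real.log_le_log ?_ ?_
  · have : (0 : ℤ) < ⨆ i, |z i| := lt_of_lt_of_le (abs_pos.2 hz0) h4
    exact_mod_cast this
  · rw [← hi1]
    have h5 : |z i1| ≤ |y i1| := by
      rw [hz i1 (Finset.mem_univ i1), abs_mul]
      exact le_mul_of_one_le_left (abs_nonneg _) (Int.one_le_abs hg0)
    have h6 : ((|z i1| : ℤ) : ℝ) ≤ ((|y i1| : ℤ) : ℝ) := by exact_mod_cast h5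
    refine h6.trans ?_
    push_cast
    exact h i1

end Pool.Agent.Y557.U
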