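import Pool.Agent.Y557.U.Tup

/-!
The main theorem for integral tuples (helper557).
-/

set_option autoImplicit false

namespace Pool.Agent.Y557.U

open NumberField IsDedekindDomain Finset Polynomial
open Pool.Agent.H691R3 Pool.Agent.TH876.Loc
open Pool.Agent.Y557.NF (Prim rz rz_pos mz exists_prim res zs card_zs)

variable {n : ℕ}

theorem le_mz' (z : Fin n → ℤ) (i : Fin n) : |(z i : ℝ)| ≤ mz z := by
  unfold mz
  have h : |z i| ≤ ⨆ i, |z i| := le_ciSup (f := fun i => |z i|) (Set.finite_range _).bddAbove i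
  exact_mod_cast h

theorem mz_le' (hn : 0 < n) {z : Fin n → ℤ} {b : ℝ} (h : ∀ i, |(z i : ℝ)| ≤ b) : mz z ≤ b := by
  have : Nonempty (Fin n) := ⟨⟨0, hn⟩⟩
  unfold mz
  obtain ⟨i, hi⟩ := exists_eq_ciSup_of_finite (f := fun i => |z i|)
  rw [← hi]
  push_cast
  exact h i

theorem mz_pos' (hn : 0 < n) {z : Fin n → ℤ} (h : ∀ i, z i ≠ 0) : 0 < mz z :=
  lt_of_lt_of_le (abs_pos.2 (by exact_mod_cast h ⟨0, hn⟩)) (le_mz' z ⟨0, hn⟩)

/-- a tuple on a curve: the point, the counting function and the height -/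
theorem onC_data {D : ℕ} {P : Fin n → ℤ[X]} (hn : 0 < n) {z : Fin n → ℤ} (hz : z ∈ OnC D P) :
    ∃ (hp : Prim z) (t : Option ℚ) (hx : co D (mq P) t ≠ 0),
      mkz z hp = Projectivization.mk ℚ (co D (mq P) t) hx ∧
      MvPolynomial.eval (co D (mq P) t) (XF n) ≠ 0 ∧
      cL ((∅ : Finset (Pr ℚ)) : Set (Pr ℚ)) (fun v => lamF (XF n) n v (co D (mq P) t)) =
        Real.log (rz z) ∧
      Height.logHeight (co D (mq P) t) = Real.log (mz z) := by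
  obtain ⟨h1, hp, t, r, h2⟩ := hz
  have hr : r ≠ 0 := by
    rintro rfl
    have h3 := h2 ⟨0, hn⟩
    rw [zero_mul] at h3
    exact h1 _ (by exact_mod_cast h3)
  have hx0 : ∀ i, co D (mq P) t i ≠ 0 := by
    intro i hi
    have h3 := h2 i
    rw [hi, mul_zero] at h3
    exact h1 i (by exact_mod_cast h3)
  have hx : co D (mq P) t ≠ 0 := fun h => hx0 ⟨0, hn⟩ (congrFun h _)
  refine ⟨hp, t, hx, ?_, ?_, cL_eq hn h1 hp hr h2, height_eq' hn hp hr h2⟩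
  · unfold mkz
    rw [Projectivization.mk_eq_mk_iff']
    exact ⟨r, funext fun i => (h2 i).symm⟩
  · rw [XF_eval]
    exact Finset.prod_ne_zero_iff.2 fun i _ => hx0 i

theorem tu_mem {D : ℕ} {P : Fin n → ℤ[X]} (hn : 0 < n) {X : ℝ} (hX : 0 < X) {z : Fin n → ℤ}
    (hz : z ∈ Tu D P X) : ∃ hp : Prim z,
      mkz z hp ∈ PP D n ((∅ : Finset (Pr ℚ)) : Set (Pr ℚ)) (mq P) (XF n) (Real.log X) := by
  obtain ⟨hp, t, hx, h1, h2, h3, -⟩ := onC_data hn hz.1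
  refine ⟨hp, t, hx, h1, h2, ?_⟩
  rw [h3]
  exact Real.log_le_log (rz_pos z) hz.2

theorem mem_tu {D : ℕ} {P : Fin n → ℤ[X]} (hn : 0 < n) {X : ℝ} (hX : 0 < X) {z : Fin n → ℤ}
    (hp : Prim z)
    (hz : mkz z hp ∈ PP D n ((∅ : Finset (Pr ℚ)) : Set (Pr ℚ)) (mq P) (XF n) (Real.log X)) :
    z ∈ Tu D P X := by
  obtain ⟨t, hx, h1, h2, h3⟩ := hz
  unfold mkz at h1
  rw [Projectivization.mk_eq_mk_iff'] at h1
  obtain ⟨a, ha⟩ := h1
  have h4 : ∀ i, (z i : ℚ) = a * co D (mq P) t i := fun i => (congrFun ha i).symm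
  have hne : ∀ i, co D (mq P) t i ≠ 0 := by
    rw [XF_eval] at h2
    exact fun i => Finset.prod_ne_zero_iff.1 h2 i (Finset.mem_univ i)
  have ha0 : a ≠ 0 := by
    rintro rfl
    rw [zero_smul] at ha
    exact prim_ne hp ha.symm
  have hz0 : ∀ i, z i ≠ 0 := by
    intro i hi
    have h5 := h4 i
    rw [hi, Int.cast_zero] at h5
    exact mul_ne_zero ha0 (hne i) h5.symm
  refine ⟨⟨hz0, hp, t, a, h4⟩, ?_⟩
  rw [cL_eq hn hz0 hp ha0 h4] at h3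
  exact (Real.log_le_log_iff (rz_pos z) hX).1 h3

theorem log_rpow' {X : ℝ} (hX : 1 ≤ X) (η : ℝ) : Real.log (X ^ η) = η * Real.log X :=
  Real.log_rpow (by linarith) η

theorem atu_mem {D q : ℕ} {η X : ℝ} (hX : 1 ≤ X) {z : Fin n → ℤ} (hz : z ∈ ATu n D q η X) :
    ∃ hp : Prim z, mkz z hp ∈ AP ℚ n D n q η (Real.log X) := by
  obtain ⟨P, hP, h1⟩ := hz
  obtain ⟨hp, h2⟩ := tu_mem hP.pos (by linarith) h1
  have h3 := hP.adm
  rw [log_rpow' hX] at h3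
  exact ⟨hp, ∅, mq P, XF n, h3, h2⟩

theorem etu_mem {D q : ℕ} {η X M c : ℝ} (hM : 0 < M) (hc : 0 < c) (hX : 1 ≤ X) {z : Fin n → ℤ}
    (hz : z ∈ ETu n D q η M c X) :
    ∃ hp : Prim z, mkz z hp ∈ EX ℚ n D n q η (1 / M) (Real.log c / M) (Real.log X) := by
  obtain ⟨P, hP, h1, i, hi⟩ := hz
  obtain ⟨hp, t, hx, h2, h3, h4, h5⟩ := onC_data hP.pos h1.1
  have h6 := hP.adm
  rw [log_rpow' hX] at h6
  refine ⟨hp, ∅, mq P, XF n, h6, t, hx, h2, h3, ?_, ?_⟩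
  · rw [h4]
    exact Real.log_le_log (rz_pos z) h1.2
  · rw [h4, h5]
    have hr := rz_pos z
    have h7 : c * rz z ^ M < mz z := hi.trans_le (le_mz' z i)
    have h8 : 0 < rz z ^ M := Real.rpow_pos_of_pos hr _
    have h9 := Real.log_lt_log (mul_pos hc h8) h7
    rw [Real.log_mul hc.ne' h8.ne', Real.log_rpow hr] at h9
    have h10 : M * Real.log (rz z) < M * (1 / M * Real.log (mz z) - Real.log c / M) := by
      have e : M * (1 / M * Real.log (mz z) - Real.log c / M) =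
          Real.log (mz z) - Real.log c := by field_simp
      rw [e]
      linarith
    exact lt_of_mul_lt_mul_left h10 hM.le

/-- **the main theorem for integral tuples** -/
theorem tup_main (n D q : ℕ) (hD : 1 ≤ D) (hq : 3 ≤ q) :
    (∀ δ : ℝ, 0 < δ → ∃ η : ℝ, 0 < η ∧
      (∃ C : ℝ, ∀ X : ℝ, 1 ≤ X → (ATu n D q η X).Finite ∧
        ((ATu n D q η X).ncard : ℝ) ≤ C * X ^ (2 / (q : ℝ) + δ)) ∧
      ∃ X₀ : ℝ, ∀ X : ℝ, X₀ ≤ X → ∀ P : Fin n → ℤ[X], Cv n D q (X ^ η) P →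
        X ^ (2 / (q : ℝ) - δ) ≤ ((Tu D P X).ncard : ℝ)) ∧
    (∀ M : ℝ, (D : ℝ) / q < M → ∃ η ν : ℝ, 0 < η ∧ 0 < ν ∧ ∀ c : ℝ, 0 < c →
      (∃ C : ℝ, ∀ X : ℝ, 1 ≤ X → (ETu n D q η M c X).Finite ∧
        ((ETu n D q η M c X).ncard : ℝ) ≤ C * X ^ (2 / (q : ℝ) - ν)) ∧
      ∃ X₀ : ℝ, ∀ X : ℝ, X₀ ≤ X → ∀ P : Fin n → ℤ[X], Cv n D q (X ^ η) P →
        ((ETu n D q η M c X).ncard : ℝ) ≤ X ^ (-ν) * ((Tu D P X).ncard : ℝ)) ∧
    ∃ C : ℝ, 0 ≤ C ∧ ∀ (H : ℝ) (P : Fin n → ℤ[X]), Cv n D q H P → ∀ z ∈ OnC D P,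
      D * Real.log (rz z) ≤ q * Real.log (mz z) + C * (Real.log H + 1) := by
  obtain ⟨h1, h2, C3, h3⟩ := proj_main ℚ n D n q hD hq
  have hfinAP : ∀ δ : ℝ, 0 < δ → ∃ η : ℝ, 0 < η ∧ ∀ X : ℝ, 1 ≤ X →
      (AP ℚ n D n q η (Real.log X)).Finite := by
    intro δ hδ
    obtain ⟨η, hη, ⟨C, hC⟩, -⟩ := h1 δ hδ
    exact ⟨η, hη, fun X hX => (hC X hX).1⟩
  have hTfin : ∀ η X : ℝ, 1 ≤ X → (AP ℚ n D n q η (Real.log X)).Finite →
      ∀ P : Fin n → ℤ[X], Cv n D q (X ^ η) P → (Tu D P X).Finite ∧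
        (2 * (PP D n ((∅ : Finset (Pr ℚ)) : Set (Pr ℚ)) (mq P) (XF n) (Real.log X)).ncard : ℝ) ≤
          ((Tu D P X).ncard : ℝ) := by
    intro η X hX hfin P hP
    have h4 : (Tu D P X).Finite := (tuples_le (Z := Tu D P X) (fun z hz =>
      atu_mem hX ⟨P, hP, hz⟩) hfin).1
    refine ⟨h4, ?_⟩
    have h5 := le_tuples (Z := Tu D P X)
      (Q := PP D n ((∅ : Finset (Pr ℚ)) : Set (Pr ℚ)) (mq P) (XF n) (Real.log X))
      (fun z hz hzQ => mem_tu hP.pos (by linarith) hz hzQ) h4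
    exact_mod_cast h5
  refine ⟨fun δ hδ => ?_, fun M hM => ?_, ?_⟩
  · obtain ⟨η, hη, ⟨C, hC⟩, X0, hX0⟩ := h1 δ hδ
    refine ⟨η, hη, ⟨2 * C, fun X hX => ?_⟩, max 1 X0, fun X hX P hP => ?_⟩
    · obtain ⟨h4, h5⟩ := hC X hX
      obtain ⟨h6, h7⟩ := tuples_le (Z := ATu n D q η X) (fun z hz => atu_mem hX hz) h4
      refine ⟨h6, ?_⟩
      have h8 : ((ATu n D q η X).ncard : ℝ) ≤
          2 * ((AP ℚ n D n q η (Real.log X)).ncard : ℝ) := by exact_mod_cast h7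
      linarith
    · have k1 : 1 ≤ X := (le_max_left _ _).trans hX
      have h4 := hX0 X ((le_max_right _ _).trans hX) ∅ (mq P) (XF n)
        (by have := hP.adm; rwa [log_rpow' k1] at this)
      obtain ⟨-, h5⟩ := hTfin η X k1 (hC X k1).1 P hP
      have h6 : (0 : ℝ) ≤
        ((PP D n ((∅ : Finset (Pr ℚ)) : Set (Pr ℚ)) (mq P) (XF n) (Real.log X)).ncard : ℝ) :=
        Nat.cast_nonneg _
      linarith
  · have hD0 : (0 : ℝ) < D := by exact_mod_cast hD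
    have hq0 : (0 : ℝ) < q := by exact_mod_cast (by omega : 0 < q)
    have hM0 : 0 < M := lt_trans (by positivity) hM
    have hκ : 1 / M < (q : ℝ) / D := by
      rw [div_lt_div_iff₀ hM0 hD0, one_mul]
      rw [div_lt_iff₀ hq0] at hM
      linarith
    obtain ⟨η1, ν, hη1, hν, h4⟩ := h2 (1 / M) hκ
    obtain ⟨η2, hη2, h5⟩ := hfinAP 1 one_pos
    have hmin : 0 < min η1 η2 := lt_min hη1 hη2
    have hmono1 : ∀ (η η' X c : ℝ), η ≤ η' → 1 ≤ X → ETu n D q η M c X ⊆ ETu n D q η' M c X := by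
      rintro η η' X c hηη hX z ⟨P, hP, h6⟩
      refine ⟨P, ⟨hP.ne, hP.spl, hP.cop, hP.deg, hP.deg', hP.card, fun i k => ?_⟩, h6⟩
      exact (hP.small i k).trans (Real.rpow_le_rpow_of_exponent_le hX hηη)
    have hmono2 : ∀ (η η' X : ℝ) (P : Fin n → ℤ[X]), η ≤ η' → 1 ≤ X → Cv n D q (X ^ η) P →
        Cv n D q (X ^ η') P := by
      intro η η' X P hηη hX hP
      exact ⟨hP.ne, hP.spl, hP.cop, hP.deg, hP.deg', hP.card, fun i k =>
        (hP.small i k).trans (Real.rpow_le_rpow_of_exponent_le hX hηη)⟩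
    refine ⟨min η1 η2, ν, hmin, hν, fun c hc => ?_⟩
    obtain ⟨⟨C, hC⟩, X0, hX0⟩ := h4 (Real.log c / M)
    have hE : ∀ X : ℝ, 1 ≤ X → (ETu n D q (min η1 η2) M c X).Finite ∧
        ((ETu n D q (min η1 η2) M c X).ncard : ℝ) ≤
          2 * ((EX ℚ n D n q η1 (1 / M) (Real.log c / M) (Real.log X)).ncard : ℝ) := by
      intro X hX
      obtain ⟨h6, h7⟩ := tuples_le (Z := ETu n D q (min η1 η2) M c X)
        (fun z hz => etu_mem hM0 hc hX (hmono1 _ _ X c (min_le_left _ _) hX hz)) (hC X hX).1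
      exact ⟨h6, by exact_mod_cast h7⟩
    refine ⟨⟨2 * C, fun X hX => ?_⟩, max 1 X0, fun X hX P hP => ?_⟩
    · obtain ⟨h6, h7⟩ := hE X hX
      refine ⟨h6, h7.trans ?_⟩
      have := (hC X hX).2
      linarith
    · have k1 : 1 ≤ X := (le_max_left _ _).trans hX
      have k2 : X0 ≤ X := (le_max_right _ _).trans hX
      have hP1 := hmono2 _ η1 X P (min_le_left _ _) k1 hP
      have hP2 := hmono2 _ η2 X P (min_le_right _ _) k1 hP
      obtain ⟨-, h7⟩ := hE X k1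
      have h8 := hX0 X k2 ∅ (mq P) (XF n) (by have := hP1.adm; rwa [log_rpow' k1] at this)
      obtain ⟨-, h9⟩ := hTfin η2 X k1 (h5 X k1) P hP2
      have h10 : 0 < X ^ (-ν) := Real.rpow_pos_of_pos (by linarith) _
      calc ((ETu n D q (min η1 η2) M c X).ncard : ℝ)
          ≤ 2 * ((EX ℚ n D n q η1 (1 / M) (Real.log c / M) (Real.log X)).ncard : ℝ) := h7
        _ ≤ 2 * (X ^ (-ν) *
            ((PP D n ((∅ : Finset (Pr ℚ)) : Set (Pr ℚ)) (mq P) (XF n) (Real.log X)).ncard : ℝ)) :=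
            mul_le_mul_of_nonneg_left h8 (by norm_num)
        _ = X ^ (-ν) * (2 *
            ((PP D n ((∅ : Finset (Pr ℚ)) : Set (Pr ℚ)) (mq P) (XF n) (Real.log X)).ncard : ℝ)) := by
            ring
        _ ≤ X ^ (-ν) * ((Tu D P X).ncard : ℝ) := mul_le_mul_of_nonneg_left h9 h10.le
  · refine ⟨|C3|, abs_nonneg _, fun H P hP z hz => ?_⟩
    obtain ⟨hp, t, hx, -, h5, h6, h7⟩ := onC_data hP.pos hz
    have hH : 0 ≤ Real.log H := Real.log_nonneg hP.one_le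
    have h8 := h3 (Real.log H) hH ∅ (mq P) (XF n) hP.adm t hx h5
    rw [h6, h7] at h8
    refine h8.trans (add_le_add_right ?_ _)
    exact mul_le_mul_of_nonneg_right (le_abs_self _) (by linarith)

end Pool.Agent.Y557.U
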