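import Pool.Agent.Y557.U.TupMain

/-!
Integral tuples without vanishing subsums (helper557).
-/

set_option autoImplicit false

namespace Pool.Agent.Y557.U

open NumberField IsDedekindDomain Finset Polynomial
open Pool.Agent.H691R3 Pool.Agent.TH876.Loc
open Pool.Agent.Y557.NF (Prim rz rz_pos mz exists_prim res zs card_zs)

variable {n : ℕ}

/-- no proper subsum vanishes -/
def NoVan {R : Type} [AddCommMonoid R] (z : Fin n → R) : Prop :=
  ∀ s : Finset (Fin n), s.Nonempty → s ≠ univ → ∑ i ∈ s, z i ≠ 0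

theorem co_ne' {D q : ℕ} {H : ℝ} {P : Fin n → ℤ[X]} (h : Cv n D q H P) (t : Option ℚ) :
    co D (mq P) t ≠ 0 := by
  intro h0
  cases t with
  | none =>
    obtain ⟨i, hi⟩ := h.deg'
    have h1 : (mq P i).coeff D = 0 := congrFun h0 i
    rw [← hi, ← mq_degree P i] at h1
    exact mq_ne h.ne i (leadingCoeff_eq_zero.1 h1)
  | some t =>
    obtain ⟨u, hu⟩ := h.cop
    have h1 := congrArg (eval t) hu
    rw [eval_finsetSum, eval_one] at h1
    have h2 : ∑ i, (u i * mq P i).eval t = 0 := by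
      refine Finset.sum_eq_zero fun i _ => ?_
      rw [eval_mul]
      have h3 : (mq P i).eval t = 0 := congrFun h0 i
      rw [h3, mul_zero]
    rw [h2] at h1
    exact zero_ne_one h1

/-- the tuples with a vanishing subsum on a curve -/
theorem bad_finite {D q : ℕ} {H : ℝ} {P : Fin n → ℤ[X]} (h : Cv n D q H P) (hs : NoVan P) :
    {z | z ∈ OnC D P ∧ ¬ NoVan z}.Finite ∧
      {z | z ∈ OnC D P ∧ ¬ NoVan z}.ncard ≤ 2 * (2 ^ n * D + 1) := by
  classical
  obtain ⟨T, hT⟩ : ∃ T : Finset (Option ℚ), T = insert none (((univ.filter fun s : Finset (Fin n) =>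
      s.Nonempty ∧ s ≠ univ).biUnion fun s => (∑ i ∈ s, mq P i).roots.toFinset).image some) :=
    ⟨_, rfl⟩
  obtain ⟨φ, hφ⟩ : ∃ φ : Option ℚ → Projectivization ℚ (Fin n → ℚ),
      φ = fun t => Projectivization.mk ℚ (co D (mq P) t) (co_ne' h t) := ⟨_, rfl⟩
  have hcard : T.card ≤ 2 ^ n * D + 1 := by
    rw [hT]
    refine (Finset.card_insert_le _ _).trans (Nat.add_le_add_right ?_ 1)
    refine Finset.card_image_le.trans ?_
    refine (Finset.card_biUnion_le).trans ?_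
    have h1 : ∀ s ∈ (univ.filter fun s : Finset (Fin n) => s.Nonempty ∧ s ≠ univ),
        (∑ i ∈ s, mq P i).roots.toFinset.card ≤ D := by
      intro s _
      refine (Multiset.toFinset_card_le _).trans ((card_roots' _).trans ?_)
      refine natDegree_sum_le_of_forall_le _ _ fun i _ => ?_
      rw [mq_degree]
      exact h.deg i
    refine (Finset.sum_le_card_nsmul _ _ D h1).trans ?_
    rw [smul_eq_mul]
    refine Nat.mul_le_mul_right _ ?_
    refine (Finset.card_le_univ _).trans ?_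
    rw [Fintype.card_finset, Fintype.card_fin]
  have hfin : (φ '' (T : Set (Option ℚ))).Finite := T.finite_toSet.image _
  have key : ∀ z ∈ {z | z ∈ OnC D P ∧ ¬ NoVan z}, ∃ hz : Prim z, mkz z hz ∈ φ '' (T : Set _) := by
    rintro z ⟨⟨h1, hp, t, r, h2⟩, h3⟩
    have hr : r ≠ 0 := by
      rintro rfl
      have h4 := h2 ⟨0, h.pos⟩
      rw [zero_mul] at h4
      exact h1 _ (by exact_mod_cast h4)
    refine ⟨hp, t, ?_, ?_⟩
    · cases t with
      | none =>
        rw [hT]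
        exact_mod_cast Finset.mem_insert_self _ _
      | some t =>
        unfold NoVan at h3
        push Not at h3
        obtain ⟨s, hs1, hs2, hs3⟩ := h3
        have h4 : (∑ i ∈ s, mq P i) ≠ 0 := by
          intro h5
          refine hs s hs1 hs2 ?_
          have h6 : (∑ i ∈ s, P i).map (Int.castRingHom ℚ) = 0 := by
            rw [Polynomial.map_sum]
            exact h5
          exact (Polynomial.map_eq_zero_iff (Int.castRingHom ℚ).injective_int).1 h6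
        have h5 : (∑ i ∈ s, mq P i).eval t = 0 := by
          rw [eval_finsetSum]
          have h6 : r * ∑ i ∈ s, (mq P i).eval t = 0 := by
            rw [Finset.mul_sum]
            have h7 : ∀ i ∈ s, r * (mq P i).eval t = (z i : ℚ) := fun i _ => (h2 i).symm
            rw [Finset.sum_congr rfl h7]
            exact_mod_cast hs3
          exact (mul_eq_zero.1 h6).resolve_left hr
        rw [hT, Finset.mem_coe]
        refine Finset.mem_insert_of_mem (Finset.mem_image.2 ⟨t, ?_, rfl⟩)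
        refine Finset.mem_biUnion.2 ⟨s, Finset.mem_filter.2 ⟨Finset.mem_univ _, hs1, hs2⟩, ?_⟩
        rw [Multiset.mem_toFinset, mem_roots h4]
        exact h5
    · rw [hφ]
      unfold mkz
      symm
      rw [Projectivization.mk_eq_mk_iff']
      exact ⟨r, funext fun i => (h2 i).symm⟩
  obtain ⟨h1, h2⟩ := tuples_le key hfin
  refine ⟨h1, h2.trans (Nat.mul_le_mul_left 2 ?_)⟩
  refine (Set.ncard_image_le T.finite_toSet).trans ?_
  rw [Set.ncard_coe_finset]
  exact hcard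

/-- the tuples with radical at most `X` without vanishing subsums -/
def Tn (D : ℕ) (P : Fin n → ℤ[X]) (X : ℝ) : Set (Fin n → ℤ) := {z | z ∈ Tu D P X ∧ NoVan z}

theorem tu_le_tn {D q : ℕ} {H X : ℝ} {P : Fin n → ℤ[X]} (h : Cv n D q H P) (hs : NoVan P)
    (hfin : (Tu D P X).Finite) :
    ((Tu D P X).ncard : ℝ) ≤ ((Tn D P X).ncard : ℝ) + 2 * (2 ^ n * D + 1) := by
  obtain ⟨h1, h2⟩ := bad_finite h hs
  have hsub : Tu D P X ⊆ Tn D P X ∪ {z | z ∈ OnC D P ∧ ¬ NoVan z} := by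
    intro z hz
    by_cases h3 : NoVan z
    · exact Or.inl ⟨hz, h3⟩
    · exact Or.inr ⟨hz.1, h3⟩
  have h4 : (Tn D P X).Finite := hfin.subset fun z hz => hz.1
  have h5 := Set.ncard_le_ncard hsub (h4.union h1)
  have h6 := Set.ncard_union_le (Tn D P X) {z | z ∈ OnC D P ∧ ¬ NoVan z}
  have h7 : (Tu D P X).ncard ≤ (Tn D P X).ncard + 2 * (2 ^ n * D + 1) := by omega
  exact_mod_cast h7

theorem large {c s : ℝ} (hs : 0 < s) : ∃ X₀ : ℝ, ∀ X : ℝ, X₀ ≤ X → c ≤ X ^ s := by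
  have h := (tendsto_rpow_atTop hs).eventually (Filter.eventually_ge_atTop c)
  exact Filter.eventually_atTop.1 h

/-- **the main theorem for tuples without vanishing subsums** -/
theorem tup_main_sub (n D q : ℕ) (hD : 1 ≤ D) (hq : 3 ≤ q) :
    (∀ δ : ℝ, 0 < δ → ∃ η : ℝ, 0 < η ∧
      (∃ C : ℝ, ∀ X : ℝ, 1 ≤ X → (ATu n D q η X).Finite ∧
        ((ATu n D q η X).ncard : ℝ) ≤ C * X ^ (2 / (q : ℝ) + δ)) ∧
      ∃ X₀ : ℝ, ∀ X : ℝ, X₀ ≤ X → ∀ P : Fin n → ℤ[X], Cv n D q (X ^ η) P → NoVan P →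
        X ^ (2 / (q : ℝ) - δ) ≤ ((Tn D P X).ncard : ℝ)) ∧
    (∀ M : ℝ, (D : ℝ) / q < M → ∃ η ν : ℝ, 0 < η ∧ 0 < ν ∧ ∀ c : ℝ, 0 < c →
      (∃ C : ℝ, ∀ X : ℝ, 1 ≤ X → (ETu n D q η M c X).Finite ∧
        ((ETu n D q η M c X).ncard : ℝ) ≤ C * X ^ (2 / (q : ℝ) - ν)) ∧
      ∃ X₀ : ℝ, ∀ X : ℝ, X₀ ≤ X → ∀ P : Fin n → ℤ[X], Cv n D q (X ^ η) P → NoVan P →
        ((ETu n D q η M c X).ncard : ℝ) ≤ X ^ (-ν) * ((Tn D P X).ncard : ℝ)) := by
  obtain ⟨h1, h2, -⟩ := tup_main n D q hD hq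
  have hq0 : (0 : ℝ) < q := by exact_mod_cast (by omega : 0 < q)
  have h2q : (0 : ℝ) < 2 / q := by positivity
  obtain ⟨K, hK⟩ : ∃ K : ℝ, K = 2 * (2 ^ n * D + 1) := ⟨_, rfl⟩
  have hK0 : 0 < K := by rw [hK]; positivity
  -- all tuples against those without vanishing subsums
  have key : ∀ δ : ℝ, 0 < δ → δ < 2 / q → ∃ η X₀ : ℝ, 0 < η ∧ 1 ≤ X₀ ∧ ∀ X : ℝ, X₀ ≤ X →
      ∀ P : Fin n → ℤ[X], Cv n D q (X ^ η) P → NoVan P →
        X ^ (2 / (q : ℝ) - δ) ≤ ((Tu D P X).ncard : ℝ) ∧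
        ((Tu D P X).ncard : ℝ) ≤ 2 * ((Tn D P X).ncard : ℝ) := by
    intro δ hδ hδ2
    obtain ⟨η, hη, ⟨C, hC⟩, X0, hX0⟩ := h1 δ hδ
    obtain ⟨X1, hX1⟩ := large (c := 2 * K) (s := 2 / q - δ) (by linarith)
    refine ⟨η, max 1 (max X0 X1), hη, le_max_left _ _, fun X hX P hP hs => ?_⟩
    have k1 : 1 ≤ X := (le_max_left _ _).trans hX
    have k2 := hX0 X (((le_max_left _ _).trans (le_max_right _ _)).trans hX) P hP
    have k3 := hX1 X (((le_max_right _ _).trans (le_max_right _ _)).trans hX)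
    have hfin : (Tu D P X).Finite := (hC X k1).1.subset fun z hz => ⟨P, hP, hz⟩
    have k4 := tu_le_tn hP hs hfin
    rw [← hK] at k4
    exact ⟨k2, by linarith⟩
  refine ⟨fun δ hδ => ?_, fun M hM => ?_⟩
  · obtain ⟨η1, hη1, ⟨C, hC⟩, -⟩ := h1 δ hδ
    obtain ⟨δ', hδ'⟩ : ∃ δ' : ℝ, δ' = min δ (1 / q) / 2 := ⟨_, rfl⟩
    have hqq : (0 : ℝ) < 1 / q := by positivity
    have a1 : 0 < δ' := by rw [hδ']; exact half_pos (lt_min hδ hqq)
    have a2 : δ' ≤ δ / 2 := by
      rw [hδ']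
      linarith [min_le_left δ (1 / (q : ℝ))]
    have a3 : δ' < 2 / q := by
      have : min δ (1 / (q : ℝ)) ≤ 1 / q := min_le_right _ _
      have e : (2 : ℝ) / q = 2 * (1 / q) := by ring
      rw [hδ', e]
      linarith
    obtain ⟨η2, X2, hη2, hX21, h3⟩ := key δ' a1 a3
    obtain ⟨X3, hX3⟩ := large (c := 2) (s := δ - δ') (by linarith)
    refine ⟨min η1 η2, lt_min hη1 hη2, ⟨C, fun X hX => ?_⟩, max X2 X3, fun X hX P hP hs => ?_⟩
    · obtain ⟨h4, h5⟩ := hC X hX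
      have h6 : ATu n D q (min η1 η2) X ⊆ ATu n D q η1 X := by
        rintro z ⟨P, hP, hz⟩
        exact ⟨P, ⟨hP.ne, hP.spl, hP.cop, hP.deg, hP.deg', hP.card, fun i k =>
          (hP.small i k).trans (Real.rpow_le_rpow_of_exponent_le hX (min_le_left _ _))⟩, hz⟩
      refine ⟨h4.subset h6, le_trans ?_ h5⟩
      exact_mod_cast Set.ncard_le_ncard h6 h4
    · have k0 : X2 ≤ X := (le_max_left _ _).trans hX
      have k1 : 1 ≤ X := hX21.trans k0
      have hP2 : Cv n D q (X ^ η2) P := ⟨hP.ne, hP.spl, hP.cop, hP.deg, hP.deg', hP.card,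
        fun i k => (hP.small i k).trans (Real.rpow_le_rpow_of_exponent_le k1 (min_le_right _ _))⟩
      obtain ⟨k2, k3⟩ := h3 X k0 P hP2 hs
      have k4 := hX3 X ((le_max_right _ _).trans hX)
      have k5 : X ^ (2 / (q : ℝ) - δ') = X ^ (2 / (q : ℝ) - δ) * X ^ (δ - δ') := by
        rw [← Real.rpow_add (by linarith)]
        congr 1
        ring
      have k6 : 0 < X ^ (2 / (q : ℝ) - δ) := Real.rpow_pos_of_pos (by linarith) _
      rw [k5] at k2
      have k7 : X ^ (2 / (q : ℝ) - δ) * 2 ≤ X ^ (2 / (q : ℝ) - δ) * X ^ (δ - δ') :=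
        mul_le_mul_of_nonneg_left k4 k6.le
      linarith
  · obtain ⟨η1, ν, hη1, hν, h4⟩ := h2 M hM
    have hqq : (0 : ℝ) < 1 / q := by positivity
    have a3 : (1 : ℝ) / q < 2 / q := by
      have e : (2 : ℝ) / q = 2 * (1 / q) := by ring
      rw [e]
      linarith
    obtain ⟨η2, X2, hη2, hX21, h3⟩ := key (1 / q) hqq a3
    have hmono : ∀ (η η' X c : ℝ), η ≤ η' → 1 ≤ X → ETu n D q η M c X ⊆ ETu n D q η' M c X := by
      rintro η η' X c hηη hX z ⟨P, hP, h6⟩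
      refine ⟨P, ⟨hP.ne, hP.spl, hP.cop, hP.deg, hP.deg', hP.card, fun i k => ?_⟩, h6⟩
      exact (hP.small i k).trans (Real.rpow_le_rpow_of_exponent_le hX hηη)
    refine ⟨min η1 η2, ν / 2, lt_min hη1 hη2, by positivity, fun c hc => ?_⟩
    obtain ⟨⟨C, hC⟩, X0, hX0⟩ := h4 c hc
    obtain ⟨X3, hX3⟩ := large (c := 2) (s := ν / 2) (by positivity)
    refine ⟨⟨|C|, fun X hX => ?_⟩, max (max X2 X3) X0, fun X hX P hP hs => ?_⟩
    · obtain ⟨h5, h6⟩ := hC X hX
      have h7 := hmono (min η1 η2) η1 X c (min_le_left _ _) hX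
      refine ⟨h5.subset h7, ?_⟩
      have h8 : ((ETu n D q (min η1 η2) M c X).ncard : ℝ) ≤ ((ETu n D q η1 M c X).ncard : ℝ) := by
        exact_mod_cast Set.ncard_le_ncard h7 h5
      have h9 : X ^ (2 / (q : ℝ) - ν) ≤ X ^ (2 / (q : ℝ) - ν / 2) :=
        Real.rpow_le_rpow_of_exponent_le hX (by linarith)
      have h10 : 0 < X ^ (2 / (q : ℝ) - ν) := Real.rpow_pos_of_pos (by linarith) _
      exact h8.trans (h6.trans (mul_le_mul (le_abs_self C) h9 h10.le (abs_nonneg C)))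
    · have k0 : X2 ≤ X := ((le_max_left _ _).trans (le_max_left _ _)).trans hX
      have k1 : 1 ≤ X := hX21.trans k0
      have k2 := hX3 X (((le_max_right _ _).trans (le_max_left _ _)).trans hX)
      have hP1 : Cv n D q (X ^ η1) P := ⟨hP.ne, hP.spl, hP.cop, hP.deg, hP.deg', hP.card,
        fun i k => (hP.small i k).trans (Real.rpow_le_rpow_of_exponent_le k1 (min_le_left _ _))⟩
      have hP2 : Cv n D q (X ^ η2) P := ⟨hP.ne, hP.spl, hP.cop, hP.deg, hP.deg', hP.card,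
        fun i k => (hP.small i k).trans (Real.rpow_le_rpow_of_exponent_le k1 (min_le_right _ _))⟩
      have k3 := hX0 X ((le_max_right _ _).trans hX) P hP1
      obtain ⟨-, k4⟩ := h3 X k0 P hP2 hs
      have h7 := hmono (min η1 η2) η1 X c (min_le_left _ _) k1
      have h8 : ((ETu n D q (min η1 η2) M c X).ncard : ℝ) ≤ ((ETu n D q η1 M c X).ncard : ℝ) := by
        exact_mod_cast Set.ncard_le_ncard h7 (hC X k1).1
      have h9 : 0 < X ^ (-ν) := Real.rpow_pos_of_pos (by linarith) _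
      have h10 : X ^ (-(ν / 2)) = X ^ (ν / 2) * X ^ (-ν) := by
        rw [← Real.rpow_add (by linarith)]
        congr 1
        ring
      have h11 : (0 : ℝ) ≤ ((Tn D P X).ncard : ℝ) := Nat.cast_nonneg _
      rw [h10]
      calc ((ETu n D q (min η1 η2) M c X).ncard : ℝ) ≤ X ^ (-ν) * ((Tu D P X).ncard : ℝ) :=
            h8.trans k3
        _ ≤ X ^ (-ν) * (2 * ((Tn D P X).ncard : ℝ)) := mul_le_mul_of_nonneg_left k4 h9.le
        _ = 2 * X ^ (-ν) * ((Tn D P X).ncard : ℝ) := by ring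
        _ ≤ X ^ (ν / 2) * X ^ (-ν) * ((Tn D P X).ncard : ℝ) :=
            mul_le_mul_of_nonneg_right (mul_le_mul_of_nonneg_right k2 h9.le) h11

end Pool.Agent.Y557.U
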